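import Pool.Agent.Lib.MP_7d41f7_al.D.QA

/-! Computable parts of natural numbers and sharper size estimates. -/

set_option autoImplicit false

namespace Pool.Agent.Lib.MP_7d41f7_al.B8

open Finset

/-- Evaluates the first argument and passes it on. -/
def frc {α : Type} (n : ℕ) (f : ℕ → α) : α := Nat.rec (f 0) (fun m _ => f m.succ) n

theorem frc_eq {α : Type} (n : ℕ) (f : ℕ → α) : frc n f = f n := by cases n <;> rfl

/-- The same, for numbers that end in many binary zeros. -/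
def frs {α : Type} (n : ℕ) (f : ℕ → α) : α :=
  frc (n % 1000003) fun s => frc (n + s) fun y => f (y - s)

theorem frs_eq {α : Type} (n : ℕ) (f : ℕ → α) : frs n f = f n := by
  rw [frs, frc_eq, frc_eq, Nat.add_sub_cancel]

/-- Repeated squaring inside the divisors of `x`. -/
def partF (x k : ℕ) : ℕ → ℕ :=
  Nat.rec (fun g => g) (fun _ ih g => frc (x.gcd (g * g)) fun y => bif y.beq g then g else ih y) k

/-- The part of `x` made of the primes of `z`. -/
def part (x z : ℕ) : ℕ := frs x fun x => frc (x.gcd z) (partF x (x.log2.log2 + 1))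

/-- The part of `x` prime to `z`. -/
def strip (x z : ℕ) : ℕ := frc x fun x => x / part x z

variable {x z v r a w q e n k : ℕ}

theorem partF_succ (x k g : ℕ) :
    partF x (k + 1) g = if x.gcd (g * g) = g then g else partF x k (x.gcd (g * g)) := by
  refine (frc_eq (x.gcd (g * g)) fun y => bif y.beq g then g else partF x k y).trans ?_
  split_ifs with h
  · rw [Nat.beq_eq.mpr h, cond_true]
  · rw [Bool.eq_false_iff.2 (mt Nat.beq_eq.mp h), cond_false]

theorem partF_spec (k : ℕ) : ∀ g, g ∣ x → partF x k g ∣ x ∧ (∀ r, r.Prime → r ∣ partF x k g → r ∣ g) ∧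
    ∀ v i a, v ^ i ∣ g → a ≤ i * 2 ^ k → v ^ a ∣ x → v ^ a ∣ partF x k g := by
  induction k with
  | zero => exact fun g hg => ⟨hg, fun _ _ h => h, fun v i a h1 h2 _ =>
      (pow_dvd_pow v (by simpa using h2)).trans h1⟩
  | succ k ih =>
    intro g hg
    have st : ∀ v i a, v ^ i ∣ g → a ≤ i * 2 → v ^ a ∣ x → v ^ a ∣ x.gcd (g * g) :=
      fun v i a h1 h2 h3 => Nat.dvd_gcd h3 ((pow_dvd_pow v h2).trans (by
        rw [mul_two, pow_add]; exact mul_dvd_mul h1 h1))
    rw [partF_succ]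
    split_ifs with h
    · refine ⟨hg, fun _ _ h => h, fun v i a h1 h2 h3 => ?_⟩
      have : ∀ j a, a ≤ i * 2 ^ j → v ^ a ∣ x → v ^ a ∣ g := fun j => by
        induction j with
        | zero => exact fun a h2 _ => (pow_dvd_pow v (by simpa using h2)).trans h1
        | succ j ij =>
          intro a h2 h3
          rw [pow_succ, ← mul_assoc] at h2
          exact h ▸ st v ((a + 1) / 2) a (ij _ (by omega)
            ((pow_dvd_pow v (by omega)).trans h3)) (by omega) h3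
      exact this _ a h2 h3
    · obtain ⟨b1, b2, b3⟩ := ih _ (Nat.gcd_dvd_left x (g * g))
      refine ⟨b1, fun r hr d => (hr.dvd_mul.1 ((b2 r hr d).trans (Nat.gcd_dvd_right _ _))).elim id id,
        fun v i a h1 h2 h3 => b3 v (min a (i * 2)) a (st v i _ h1 (min_le_right _ _)
          ((pow_dvd_pow v (min_le_left _ _)).trans h3)) ?_ h3⟩
      rw [pow_succ', ← mul_assoc] at h2
      rcases le_total a (i * 2) with c | c
      · rw [min_eq_left c]
        exact Nat.le_mul_of_pos_right _ (by positivity)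
      · rwa [min_eq_right c]

theorem part_eq (x z : ℕ) : part x z = partF x (x.log2.log2 + 1) (x.gcd z) := by
  rw [part, frs_eq, frc_eq]

theorem part_dvd (x z : ℕ) : part x z ∣ x :=
  part_eq x z ▸ (partF_spec _ _ (Nat.gcd_dvd_left x z)).1

theorem part_pr (hr : r.Prime) (h : r ∣ part x z) : r ∣ z :=
  ((partF_spec _ _ (Nat.gcd_dvd_left x z)).2.1 r hr (part_eq x z ▸ h)).trans (Nat.gcd_dvd_right x z)

theorem pow_dvd_part (hx : x ≠ 0) (hv : v.Prime) (h1 : v ∣ z) (h2 : v ^ a ∣ x) :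
    v ^ a ∣ part x z := by
  rcases a with _ | a
  · simp
  rw [part_eq]
  refine (partF_spec _ _ (Nat.gcd_dvd_left x z)).2.2 v 1 _ (by
    rw [pow_one]; exact Nat.dvd_gcd ((dvd_pow_self v a.succ_ne_zero).trans h2) h1) ?_ h2
  rw [one_mul]
  exact ((Nat.le_log2 hx).2 ((Nat.pow_le_pow_left hv.two_le _).trans
    (Nat.le_of_dvd (Nat.pos_of_ne_zero hx) h2))).trans Nat.lt_log2_self.le

theorem strip_mul (x z : ℕ) : strip x z * part x z = x := by
  rw [strip, frc_eq, Nat.div_mul_cancel (part_dvd x z)]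

theorem strip_dvd (x z : ℕ) : strip x z ∣ x := Dvd.intro _ (strip_mul x z)

theorem strip_cop (hx : x ≠ 0) (z : ℕ) : (strip x z).Coprime z :=
  Nat.coprime_of_dvd fun r hr h1 h2 => Nat.pow_succ_factorization_not_dvd hx hr (by
    rw [pow_succ']
    exact (mul_dvd_mul h1 (pow_dvd_part hx hr h2 (Nat.ordProj_dvd x r))).trans (strip_mul x z).dvd)

theorem dvd_strip (h1 : w ∣ x) (h2 : w.Coprime z) : w ∣ strip x z :=
  (Nat.coprime_of_dvd fun _ hr d1 d2 => Nat.not_coprime_of_dvd_of_dvd hr.one_lt d1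
    (part_pr hr d2) h2).dvd_of_dvd_mul_right ((strip_mul x z).symm ▸ h1)

/-- A product over an initial segment. -/
def prodR (f : ℕ → ℕ) (n : ℕ) : ℕ := Nat.rec 1 (fun i ih => ih * f i) n

theorem prodR_eq (f : ℕ → ℕ) (n : ℕ) : prodR f n = ∏ i ∈ range n, f i := by
  induction n with
  | zero => rfl
  | succ n ih => rw [prod_range_succ, ← ih]; rfl

/-- A conjunction over an initial segment. -/
def allR (f : ℕ → Bool) (n : ℕ) : Bool := Nat.rec true (fun i ih => f i && ih) n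

theorem allR_spec {f : ℕ → Bool} (h : allR f n = true) : ∀ i < n, f i = true := by
  induction n with
  | zero => omega
  | succ n ih =>
    obtain ⟨h1, h2⟩ := Bool.and_eq_true_iff.1 h
    exact fun i hi => (Nat.lt_succ_iff_lt_or_eq.1 hi).elim (ih h2 i) fun e => e ▸ h1

/-- The primitive part, computed. -/
def pkc (q e : ℕ) : ℕ := strip (q ^ e - 1) (prodR (fun i => bif (e % i).beq 0 then q ^ i - 1 else 1) e)

theorem pk_eq_pkc (hq : 2 ≤ q) (he : 0 < e) : pk q e = pkc q e := by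
  have c : ∀ r i, r ∣ q ^ i - 1 ↔ Ord q r ∣ i := fun r i => by
    rw [Ty.dvd_top_aux (by omega), Ord.dvd_iff]
  have h0 : q ^ e - 1 ≠ 0 := Nat.sub_ne_zero_of_lt (Nat.one_lt_pow he.ne' hq)
  rw [pkc, prodR_eq]
  refine Nat.dvd_antisymm (dvd_strip ((Ty.dvd_top_aux (by omega)).2 pk_dvd)
    (Nat.coprime_of_dvd fun r hr d1 d2 => ?_)) (dvd_pk (cyc_ne (by simpa using hq) he)
      ((Ty.dvd_top_aux (by omega)).1 (strip_dvd _ _)) fun r hr d => by_contra fun h => ?_)
  · obtain ⟨i, hi, d⟩ := (hr.prime.dvd_finsetProd_iff _).1 d2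
    cases h : (e % i).beq 0 <;> rw [h] at d
    · exact hr.not_dvd_one d
    · rw [cond_true, c, pk_ord hr d1] at d
      have := Nat.eq_of_beq_eq_true h
      rcases i with _ | i
      · omega
      · exact (mem_range.1 hi).not_ge (Nat.le_of_dvd i.succ_pos d)
  · have d1 := (c r e).1 (d.trans (strip_dvd _ _))
    refine Nat.not_coprime_of_dvd_of_dvd hr.one_lt d (dvd_trans ?_ (dvd_prod_of_mem _
      (mem_range.2 ((Nat.le_of_dvd he d1).lt_of_ne h)))) (strip_cop h0 _)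
    rw [Nat.mod_eq_zero_of_dvd d1]
    exact (c r _).2 dvd_rfl

theorem pk_low (hq : 2 ≤ q) (he : 3 ≤ e) : (q - 1) ^ e.totient ≤ e * pk q e :=
  (Polynomial.sub_one_pow_totient_lt_natAbs_cyclotomic_eval (by omega) (by omega)).le.trans
    (Nat.le_of_dvd (Nat.mul_pos (by omega) pk_pos) (cyc_dvd_pk (by simpa using hq) he))

theorem pr_six (hq : 2 ≤ q) : q ^ 6 ≤ 6 * pr q {3, 4, 6} := by
  obtain ⟨a, b, h1, h2, h3, h4⟩ := q4_split q
  have hb : 2 ≤ (q : ℤ).natAbs := by simpa using hq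
  obtain ⟨w, rfl⟩ : ∃ w, q = w + 1 := ⟨q - 1, by omega⟩
  have a1 : a ∣ ((w + 1) ^ 2 + (w + 1) + 1) * (w ^ 2 + w + 1) :=
    (h1.elim (fun e => e.dvd) fun e => Dvd.intro_left _ e).trans (dvd_of_eq (by ring))
  obtain ⟨y, z, hy, hz, rfl⟩ := exists_dvd_and_dvd_of_dvd_mul a1
  have b1 : b ∣ (w + 1) ^ 2 + 1 := h3.elim (fun e => e.dvd) fun e => Dvd.intro_left _ e
  have y1 : y ∣ pk (w + 1 : ℕ) 3 := dvd_pk (cyc_ne hb three_pos)
    ((Int.natCast_dvd_natCast.2 hy).trans ⟨w, by push_cast; ring⟩) fun r hr d =>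
      q4_cls3 hr (fun e => h2 (e ▸ d.mul_right z)) (by exact_mod_cast d.trans hy)
  have z1 : z ∣ pk (w + 1 : ℕ) 6 := dvd_pk (cyc_ne hb (by omega))
    ((Int.natCast_dvd_natCast.2 hz).trans ⟨(w + 2) * ((w + 1) ^ 3 - 1), by push_cast; ring⟩)
    fun r hr d => q4_cls6 hr (fun e => h2 (e ▸ d.mul_left y))
      ((Int.natCast_dvd_natCast.2 (d.trans hz)).trans (dvd_of_eq (by push_cast; ring)))
  have b2 : b ∣ pk (w + 1 : ℕ) 4 := dvd_pk (cyc_ne hb four_pos)
    ((Int.natCast_dvd_natCast.2 b1).trans ⟨(w + 1) ^ 2 - 1, by push_cast; ring⟩) fun r hr d =>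
      q4_cls4 hr (fun e => h4 (e ▸ d)) (d.trans b1)
  rw [pr, prod_insert (by decide), prod_pair (by decide)]
  have c1 : (w + 1) ^ 4 ≤ 3 * (y * z) := by omega
  have c2 : (w + 1) ^ 2 ≤ 2 * b := by omega
  calc (w + 1) ^ 6 = (w + 1) ^ 4 * (w + 1) ^ 2 := by ring
    _ ≤ 3 * (y * z) * (2 * b) := Nat.mul_le_mul c1 c2
    _ = 6 * (y * (b * z)) := by ring
    _ ≤ _ := Nat.mul_le_mul_left 6 (Nat.mul_le_mul (Nat.le_of_dvd pk_pos y1)
      (Nat.mul_le_mul (Nat.le_of_dvd pk_pos b2) (Nat.le_of_dvd pk_pos z1)))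

/-- The loss in the lower bound for the product of the primitive parts. -/
def lo (s : Finset ℕ) : ℕ := if s = {3, 4, 6} then 6 else ∏ e ∈ s, e

theorem pr_low (hq : 2 ≤ q) {s : Finset ℕ} (hs : ∀ e ∈ s, 3 ≤ e) :
    (q - 1) ^ dgs s ≤ lo s * pr q s := by
  unfold lo
  split_ifs with h
  · rw [h, show dgs {3, 4, 6} = 6 by decide]
    exact (Nat.pow_le_pow_left (by omega) 6).trans (pr_six hq)
  · rw [dgs, pr, ← prod_pow_eq_pow_sum, ← prod_mul_distrib]
    exact prod_le_prod' fun e he => pk_low hq (hs e he)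

theorem mono {C D x y a b : ℕ} (h : C * (x + 2) ^ a < D * x ^ b) (hab : a ≤ b) (x0 : 0 < x)
    (hxy : x ≤ y) : C * (y + 2) ^ a < D * y ^ b := by
  obtain ⟨c, rfl⟩ := Nat.exists_eq_add_of_le hab
  refine Nat.lt_of_mul_lt_mul_left (a := x ^ a) ?_
  calc x ^ a * (C * (y + 2) ^ a) = C * (x * (y + 2)) ^ a := by rw [mul_pow, mul_left_comm]
    _ ≤ C * ((x + 2) * y) ^ a := Nat.mul_le_mul_left _ (Nat.pow_le_pow_left (by nlinarith) a)
    _ = C * (x + 2) ^ a * y ^ a := by rw [mul_pow, mul_assoc]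
    _ < D * x ^ (a + c) * y ^ a := Nat.mul_lt_mul_of_pos_right h (pow_pos (by omega) a)
    _ = x ^ a * (D * (y ^ a * x ^ c)) := by ring
    _ ≤ x ^ a * (D * y ^ (a + c)) := by
      rw [pow_add y]
      gcongr

theorem pp_any {t : Ty} (hn : 0 < n) (hq : 2 ≤ q) (hv : v.Prime) (hvq : ¬ v ∣ q)
    (h : ((v ^ k : ℕ) : ℤ) ∣ t.ord n q) : v ^ k ≤ 2 * 4 ^ n * (q + 1) ^ n := by
  have h1 := Ty.dvd_sq hn hq hv hvq h
  rw [mul_assoc, ← mul_pow]
  rcases eq_or_ne v 2 with rfl | e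
  · rcases k with _ | k
    · exact Nat.mul_pos two_pos (by positivity)
    rw [pow_succ'] at h1 ⊢
    exact Nat.mul_le_mul_left _ (pp_sq hq hv hvq (Nat.dvd_of_mul_dvd_mul_left two_pos h1))
  · exact (pp_sq hq hv hvq ((((Nat.coprime_primes hv Nat.prime_two).2
      e).pow_left k).dvd_of_dvd_mul_left h1)).trans (Nat.le_mul_of_pos_left _ two_pos)

theorem pp_big {t : Ty} (hn : 2 ≤ n) (hq : 2 ≤ q) (hv : v.Prime) (hvq : ¬ v ∣ q) (hl : n < v)
    (h : ((v ^ k : ℕ) : ℤ) ∣ t.ord n q) : v ^ k ≤ (q + 1) ^ n := by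
  have := Fact.mk hv
  have c : v ≠ 2 := by omega
  have h0 := (((Nat.coprime_primes hv Nat.prime_two).2 c).pow_left k).dvd_of_dvd_mul_left
    (Ty.dvd_sq (by omega) hq hv hvq h)
  have h2 : 2 ≤ q ^ 2 := by nlinarith
  obtain ⟨e, he, hp⟩ := exists_prim hv (fun d => hvq (hv.dvd_of_dvd_pow d) : ¬ v ∣ q ^ 2)
  have h1 : 1 < (q ^ 2) ^ e := Nat.one_lt_pow he.ne' h2
  have h5 := ((padicValNat_dvd_iff_le (prod_ne_zero_iff.2 fun i hi => (Nat.sub_pos_of_lt
    (Nat.one_lt_pow (Nat.pos_iff_ne_zero.1 (mem_Icc.1 hi).1) h2)).ne')).1 h0).trans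
      (pp_le_val (e := e) (s := padicValNat v ((q ^ 2) ^ e - 1)) (c := 0) h2
        (fun j hj => by
          have := padicValNat.pow_sub_pow (hv.odd_of_ne_two c) h1 hp.dvd
            (fun e => hvq (hv.dvd_of_dvd_pow (hv.dvd_of_dvd_pow e))) hj.ne'
          rw [one_pow, ← pow_mul] at this
          exact this.le) (fun i hi => (padicValNat.eq_zero_of_not_dvd fun e =>
            hi ((hp.dvd_iff (by omega) he i).1 e)).le) n)
  rw [padicValNat.eq_zero_of_not_dvd (n := (n / e).factorial) fun d =>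
    (hv.dvd_factorial.1 d).not_gt ((Nat.div_le_self n e).trans_lt hl), zero_mul, zero_add,
    add_zero] at h5
  have h3 : 1 < q ^ e := Nat.one_lt_pow he.ne' hq
  have h4 : v ^ padicValNat v ((q ^ 2) ^ e - 1) ≤ (q + 1) ^ e := by
    refine le_trans ?_ (by simpa using pow_add_pow_le q.zero_le zero_le_one he.ne' :
      q ^ e + 1 ≤ (q + 1) ^ e)
    rcases pp_split (x := q ^ e) hv c h3.le (pow_padicValNat_dvd.trans
      (dvd_of_eq (show (q ^ 2) ^ e - 1 = _ by rw [pow_right_comm]))) with d | d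
    · exact Nat.le_of_dvd (by omega) d
    · exact (Nat.le_of_dvd (by omega) d).trans (by omega)
  refine (Nat.pow_le_pow_right hv.pos h5).trans ?_
  rw [pow_mul]
  refine (Nat.pow_le_pow_left h4 _).trans ?_
  rw [← pow_mul]
  exact Nat.pow_le_pow_right (by omega) (Nat.mul_div_le n e)

end Pool.Agent.Lib.MP_7d41f7_al.B8
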