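import Pool.Agent.Lib.MP_7d41f7_al.F.BP

/-! The tests for small fields and their meaning. -/

set_option autoImplicit false

namespace Pool.Agent.Lib.MP_7d41f7_al.B8

open Finset

variable {O X Y Z B h v k y c q n a g e m : ℕ} {t : Ty}

theorem beq_zero {x d : ℕ} (hd : d ∣ x) : (x % d).beq 0 = true := by
  rw [Nat.mod_eq_zero_of_dvd hd]; rfl

theorem sz_cut (h0 : h ≠ 0) (hv : v.Prime) (h1 : Z ∣ h) (h2 : Z.Coprime v) (h3 : v ^ k ∣ h)
    (h4 : h ^ 3 ≤ (v ^ k) ^ (c + 3)) : Z ^ 3 ≤ (v ^ k) ^ c := by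
  have a := (Nat.pow_le_pow_left (Nat.le_of_dvd (Nat.pos_of_ne_zero h0)
    ((h2.pow_right k).mul_dvd_of_dvd_of_dvd h1 h3)) 3).trans h4
  rwa [mul_pow, pow_add, Nat.mul_le_mul_right_iff (pow_pos (pow_pos hv.pos k) 3)] at a

/-- The test for one group of Lie type in characteristic `v`. -/
def okF (Z v Y a g : ℕ) (d : ℕ × Finset ℕ) : Bool :=
  a.blt (g * d.1) || Y.blt (v ^ (g * d.1)) || !(strip Z (∏ j ∈ d.2, ((v ^ g) ^ j - 1))).beq 1

/-- The test for all groups of Lie type in characteristic `v`. -/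
def enum (Z v Y a : ℕ) : Bool :=
  allR (fun g => g.beq 0 || (allR (fun i => allR (fun m => m.blt 2 || (m.blt 3 && !i.beq 2) ||
    okF Z v Y a g (fam i m)) (a + 1)) 5 && excData.all fun x => okF Z v Y a g (x.1, x.2.2))) (a + 1)

/-- The test for the prime `v`. -/
def tv (O X v : ℕ) : Bool :=
  frc (part O v) fun Y => frc (strip X v) fun Z => (Y ^ 5).blt (Z ^ 3) || frc Y.log2 (enum Z v Y)

theorem le_fam {i : ℕ} (h1 : 2 ≤ m) (h2 : i ≠ 2 → 3 ≤ m) : m ≤ (fam i m).1 := by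
  have a : 3 ≤ m → m * 2 ≤ m * (m - 1) := fun e => Nat.mul_le_mul_left m (by omega)
  have b := Nat.mul_le_mul_left m h1
  match i with
  | 0 | 1 | 2 | 3 | i + 4 => simp only [fam]; omega

theorem tv_spec (H : tv O X v = true) (h0 : O ≠ 0) (h3 : h ≠ 0) (h1 : X ∣ h)
    (h2 : ∀ j, v ^ j ∣ h → v ^ j ∣ O) (L : LZ h v k) : False := by
  have hv := L.pv
  have h4 := ne_zero_of_dvd_ne_zero h3 h1
  have y0 := ne_zero_of_dvd_ne_zero h0 (part_dvd O v)
  have le : ∀ j, v ^ j ∣ h → v ^ j ≤ part O v := fun j d =>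
    Nat.le_of_dvd (Nat.pos_of_ne_zero y0) (pow_dvd_part h0 hv dvd_rfl (h2 j d))
  have z1 := (strip_dvd X v).trans h1
  have z2 := strip_cop h4 v
  simp only [tv, frc_eq, Bool.or_eq_true, Nat.blt_eq] at H
  rcases H with H | H
  · exact H.not_ge ((sz_cut h3 hv z1 z2 L.pp L.sz).trans (Nat.pow_le_pow_left (le k L.pp) 5))
  obtain ⟨g, N, D, I, T, F⟩ := L.lt
  have a1 := le _ (pow_mul v g N ▸ T.pp)
  have a2 : g * N ≤ (part O v).log2 :=
    (Nat.le_log2 y0).2 ((Nat.pow_le_pow_left hv.two_le _).trans a1)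
  have ok : okF (strip X v) v (part O v) (part O v).log2 g (N, I) ≠ true := fun e => by
    simp only [okF, Bool.or_eq_true, Nat.blt_eq, Bool.not_eq_true', ← Bool.not_eq_true,
      Nat.beq_eq] at e
    obtain ⟨r, hr, d⟩ := Nat.exists_prime_and_dvd (e.resolve_left (by omega))
    have d1 := d.trans (strip_dvd _ _)
    rcases T.div r hr (d1.trans z1) with rfl | ⟨j, hj, d2⟩
    · exact Nat.not_coprime_of_dvd_of_dvd hr.one_lt d1 dvd_rfl z2
    · exact Nat.not_coprime_of_dvd_of_dvd hr.one_lt d (d2.trans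
        (dvd_prod_of_mem (fun j => (v ^ g) ^ j - 1) hj))
        (strip_cop (ne_zero_of_dvd_ne_zero h3 z1) _)
  have g0 := T.g0
  have n0 : 0 < N := by
    rcases F with ⟨i, -, m, b1, b2, b3⟩ | ⟨x, hx, b⟩
    · have := le_fam b1 b2
      rw [b3] at this
      omega
    · exact (Prod.mk.inj b).1 ▸ (by decide : ∀ x ∈ excData, 0 < x.1) x hx
  have a3 := Nat.le_mul_of_pos_left N g0
  have a4 := Nat.le_mul_of_pos_right g n0
  have H1 := allR_spec H g (by omega)
  simp only [Bool.or_eq_true, Nat.beq_eq, Bool.and_eq_true, List.all_eq_true] at H1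
  obtain ⟨H2, H3⟩ := H1.resolve_left g0.ne'
  rcases F with ⟨i, i5, m, b1, b2, b3⟩ | ⟨x, hx, b⟩
  · have b4 := le_fam b1 b2
    rw [b3] at b4
    have H4 := allR_spec (allR_spec H2 i i5) m (by omega)
    simp only [Bool.or_eq_true, Nat.blt_eq, Bool.and_eq_true, Bool.not_eq_true',
      ← Bool.not_eq_true, Nat.beq_eq, b3] at H4
    exact ok (H4.resolve_left (by omega))
  · exact ok (b ▸ H3 x hx)

/-- The test for the primes of `y`. -/
def tc (O X B : ℕ) (gd : Bool) (y : ℕ) : Bool :=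
  frc (part O y) fun Y => Y.beq 1 || frc (strip X y ^ 3) fun Z => (Y ^ 5).blt Z ||
    (gd && (Y ^ 4).blt Z) || (y.blt (B * B) && (y * y % Y).beq 0 &&
      allR (fun d => d.blt 2 || !(y % (d * d)).beq 0) B)

theorem tc_spec {gd : Bool} (H : tc O X B gd y = true) (h0 : O ≠ 0) (h3 : h ≠ 0) (y0 : y ≠ 0)
    (h1 : X ∣ h) (h2 : ∀ j, v ^ j ∣ h → v ^ j ∣ O) (L : LZ h v k) (v2 : v ≠ 2) (hy : v ∣ y)
    (hg : gd = true → h ^ 3 ≤ (v ^ k) ^ 7) : False := by
  have hv := L.pv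
  have d3 := pow_dvd_part h0 hv hy (h2 _ (L.cube v2))
  have le := Nat.le_of_dvd (Nat.pos_of_ne_zero (ne_zero_of_dvd_ne_zero h0 (part_dvd O y)))
    (pow_dvd_part h0 hv hy (h2 _ L.pp))
  have z1 := (strip_dvd X y).trans h1
  have z2 := (strip_cop (ne_zero_of_dvd_ne_zero h3 h1) y).coprime_dvd_right hy
  simp only [tc, frc_eq, Bool.or_eq_true, Nat.blt_eq, Nat.beq_eq, Bool.and_eq_true] at H
  rcases H with H | (H | H) | ⟨⟨H1, H2⟩, H3⟩
  · exact hv.not_dvd_one ((dvd_pow_self v three_ne_zero).trans (H ▸ d3))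
  · exact H.not_ge ((sz_cut h3 hv z1 z2 L.pp L.sz).trans (Nat.pow_le_pow_left le 5))
  · exact H.2.not_ge ((sz_cut h3 hv z1 z2 L.pp (hg H.1)).trans (Nat.pow_le_pow_left le 4))
  have d4 : v * v ∣ y := by
    obtain ⟨w, rfl⟩ := hy
    have d5 := d3.trans (Nat.dvd_of_mod_eq_zero H2)
    rw [mul_mul_mul_comm, pow_succ, pow_two, Nat.mul_dvd_mul_iff_left (Nat.mul_pos hv.pos hv.pos),
      hv.dvd_mul, or_self] at d5
    exact Nat.mul_dvd_mul_left v d5
  have := allR_spec H3 v (Nat.mul_self_lt_mul_self_iff.1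
    ((Nat.le_of_dvd (Nat.pos_of_ne_zero y0) d4).trans_lt H1))
  rw [beq_zero d4, Bool.not_true, Bool.or_false, Nat.blt_eq] at this
  exact this.not_ge hv.two_le

/-- The primes that are tested one by one. -/
def LL : List ℕ := [2, 3, 5, 13, 17, 29, 31, 41, 257]

/-- The test for all primes. -/
def ck (n q O X B : ℕ) (gd : ℕ → Bool) : Bool :=
  (LL.all fun v => (q % v).beq 0 || tv O X v) &&
    allR (fun e => e.beq 0 || frc (strip (pkc q e) 62804418690) (tc O X B (gd e))) (2 * n + 1)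

theorem dvd_pk_ord (hq : 2 ≤ q) (hv : v.Prime) (h0 : 0 < Ord q v) : v ∣ pk q (Ord q v) :=
  (pow_one v).symm.dvd.trans (pk_pow (by simpa using hq) h0 hv rfl
    (by simpa using (Ord.dvd_iff _).2 dvd_rfl))

theorem ord_ne (hq : 2 ≤ q) : (t.ord n q).natAbs ≠ 0 := Int.natAbs_ne_zero.2 (t.ord_pos hq n).ne'

theorem ord_ne' (hq : 2 ≤ q) : strip (t.ord n q).natAbs q ≠ 0 :=
  ne_zero_of_dvd_ne_zero (ord_ne hq) (strip_dvd _ _)

theorem dvd_ord' (hv : v.Prime) (hvq : ¬ v ∣ q) (h2 : ((v ^ k : ℕ) : ℤ) ∣ t.ord n q) :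
    v ^ k ∣ strip (t.ord n q).natAbs q :=
  dvd_strip (Int.natCast_dvd.1 h2) ((hv.coprime_iff_not_dvd.2 hvq).pow_left k)

theorem ck_spec {gd : ℕ → Bool} (H : ck n q (strip (t.ord n q).natAbs q) X B gd = true) (hn : 3 ≤ n)
    (hq : 2 ≤ q) (h1 : X ∣ h) (h2 : (h : ℤ) ∣ t.ord n q) (hvq : ¬ v ∣ q) (L : LZ h v k)
    (hg : gd (Ord q v) = true → h ^ 3 ≤ (v ^ k) ^ 7) : False := by
  have hv := L.pv
  obtain ⟨H1, H2⟩ := Bool.and_eq_true_iff.1 H
  have h0 := ne_zero_of_dvd_ne_zero (ord_ne hq) (Int.natCast_dvd.1 h2)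
  have h4 : ∀ j, v ^ j ∣ h → v ^ j ∣ strip (t.ord n q).natAbs q := fun j d =>
    dvd_ord' hv hvq ((Int.natCast_dvd_natCast.2 d).trans h2)
  by_cases c : v ∈ LL
  · have := List.all_eq_true.1 H1 v c
    rw [Bool.or_eq_true, Nat.beq_eq] at this
    exact tv_spec (this.resolve_left fun e => hvq (Nat.dvd_of_mod_eq_zero e)) (ord_ne' hq) h0 h1
      h4 L
  have v2 : v ≠ 2 := fun e => c (e ▸ by decide)
  obtain ⟨i, i0, i1, d⟩ := Ty.dvd_top hn hv v2 hvq ((Int.natCast_dvd_natCast.2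
    ((dvd_pow_self v three_ne_zero).trans (L.cube v2))).trans h2)
  rw [Ty.dvd_top_aux (by omega), Ord.dvd_iff] at d
  have e0 := Nat.pos_of_dvd_of_pos d i0
  have e1 := Nat.le_of_dvd i0 d
  have e2 : t.top n ≤ n := by cases t <;> simp only [Ty.top] <;> first | omega | split_ifs <;> omega
  have H3 := allR_spec H2 (Ord q v) (by omega)
  rw [frc_eq, Bool.or_eq_true, Nat.beq_eq, ← pk_eq_pkc hq e0] at H3
  refine tc_spec (H3.resolve_left e0.ne') (ord_ne' hq) h0 (ne_zero_of_dvd_ne_zero pk_pos.ne'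
    (strip_dvd _ _)) h1 h4 L v2 (dvd_strip (dvd_pk_ord hq hv e0)
      (hv.coprime_iff_not_dvd.2 fun d => c ?_)) hg
  obtain ⟨x, hx, d⟩ := (hv.prime.dvd_prod_iff (L := LL)).1 d
  rwa [(Nat.prime_dvd_prime_iff_eq hv ((by decide +kernel : ∀ x ∈ LL, x.Prime) x hx)).1 d]

/-- The test for the sporadic groups. -/
def cs (O X : ℕ) : Bool := sporOrd.all fun h => !(h % X).beq 0 || !(O % h).beq 0

theorem cs_spec (H : cs O X = true) (hh : h ∈ sporOrd) (h1 : X ∣ h) (h2 : h ∣ O) : False := by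
  have := List.all_eq_true.1 H h hh
  rw [beq_zero h1, beq_zero h2] at this
  exact absurd this (by decide)

/-- The test for the alternating groups. -/
def ca (O X k : ℕ) : ℕ → ℕ → Bool :=
  Nat.rec (fun _ _ => false) (fun _ ih m f => !(O % f).beq 0 ||
    (!(f % X).beq 0 && frc (m + 1) fun l => frc (f * l) (ih l))) k

theorem ca_spec (h1 : X ∣ h) (h2 : h ∣ O) (hh : 2 * h = m.factorial) (k : ℕ) :
    ∀ l f, ca O X k l f = true → 2 * f = l.factorial → ¬ l ≤ m := by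
  induction k with
  | zero => exact fun _ _ H => absurd H Bool.false_ne_true
  | succ k ih =>
    intro l f H e c
    have H1 : (!(O % f).beq 0 || (!(f % X).beq 0 && frc (l + 1) fun j => frc (f * j)
      (ca O X k j))) = true := H
    rw [beq_zero ((Nat.dvd_of_mul_dvd_mul_left two_pos
      (e ▸ hh ▸ Nat.factorial_dvd_factorial c)).trans h2), frc_eq, frc_eq, Bool.not_true,
      Bool.false_or, Bool.and_eq_true] at H1
    rcases c.eq_or_lt with rfl | c
    · obtain rfl : f = h := by omega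
      rw [beq_zero h1] at H1
      exact absurd H1.1 (by decide)
    · exact ih _ _ H1.2 (by rw [Nat.factorial_succ, ← e]; ring) c

/-- The product of the primitive parts, computed. -/
def prc (q : ℕ) (P : ℕ → Prop) [DecidablePred P] (b : ℕ) : ℕ :=
  prodR (fun e => if P e then pkc q e else 1) b

theorem prc_eq (hq : 2 ≤ q) {P : ℕ → Prop} [DecidablePred P] {b : ℕ}
    (hP : ∀ e, P e → 0 < e ∧ e < b ∧ e < 64) : pr q ((range 64).filter P) = prc q P b := by
  rw [prc, prodR_eq, ← prod_filter, pr, show (range 64).filter P = (range b).filter P from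
    ext fun e => by
      simp only [mem_filter, mem_range]
      exact ⟨fun c => ⟨(hP e c.2).2.1, c.2⟩, fun c => ⟨(hP e c.2).2.2, c.2⟩⟩]
  exact prod_congr rfl fun e he => pk_eq_pkc hq (hP e (mem_filter.1 he).2).1

/-- All tests. -/
def cky (t : Ty) (n q : ℕ) : Bool :=
  frs (t.ord n q).natAbs fun O => frs (strip O q) fun U => frc (prc q (Kp t n) (2 * n + 1)) fun X =>
    frc (prc q (Gq t n) (2 * n + 1)) fun W => ck n q U X 0 (fun e => decide (Gq t n e)) &&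
      cs O X && ca O X 200 5 60 && ((xcl t n).beq 0 || (part U (pkc q (xcl t n))).ble W) &&
        (!n.beq 3 || [3, 4, 6].all fun e => frc (pkc q e) fun y =>
          !((y - 1) * (y + 1) % (W / y)).beq 0)

theorem par_of_cky (R : Rng t n) (hq : 2 ≤ q) (z6 : q = 2 → ¬ Kp t n 6) (H : cky t n q = true) :
    Par t n q := by
  have b : ∀ e, Kp t n e → 0 < e ∧ e < 2 * n + 1 ∧ e < 64 := fun e k => by
    obtain ⟨a1, a2, a3⟩ := k.facts R
    have := mem_range.1 (mem_filter.1 a3).1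
    unfold Pres jc at a2
    split_ifs at a2 <;> omega
  simp only [cky, frc_eq, frs_eq, ← prc_eq hq b, ← prc_eq hq fun e k => b e (.inl k), Bool.and_eq_true,
    Bool.or_eq_true, Nat.beq_eq, Nat.ble_eq, List.all_eq_true] at H
  obtain ⟨⟨⟨⟨H1, H2⟩, H3⟩, H4⟩, H5⟩ := H
  refine ⟨R, hq, z6, fun u k hu x0 hx d l d2 => ?_, fun h v k h1 h2 h3 L g =>
    ck_spec H1 R.2.1 hq h1 h2 h3 L fun e => g (of_decide_eq_true e), fun h m h1 h2 m5 e _ =>
      ca_spec h1 (Int.natCast_dvd.1 h2) e 200 5 60 H3 rfl m5,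
    fun h hh h1 h2 => cs_spec H2 hh h1 (Int.natCast_dvd.1 h2), fun n3 e g d => ?_⟩
  · have x1 := Nat.pos_of_ne_zero x0
    have a := Nat.le_of_dvd (Nat.pos_of_ne_zero (ne_zero_of_dvd_ne_zero (ord_ne' hq) (part_dvd _ _)))
      (pow_dvd_part (ord_ne' hq) hu (pk_eq_pkc hq x1 ▸ hx ▸ dvd_pk_ord hq hu (hx ▸ x1))
        (dvd_ord' hu (q4_le hu (hx ▸ x1)).2 d))
    have := (Nat.le_of_dvd (by omega) d2)
    have := a.trans (H4.resolve_left x0)
    unfold gs at *
    omega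
  · subst n3
    have tb : ∀ t ∈ [Ty.B, .C, .Dp, .Dm], Rng t 3 → ∀ e < 64, Gq t 3 e → e ∈ [3, 4, 6] := by
      decide +kernel
    have a := H5.resolve_left (by decide) e (tb t R.mem.1 R e (g.lt R) g)
    rw [pr, gs] at d
    rw [← pk_eq_pkc hq (b e (.inl g)).1, pr, ← mul_prod_erase _ _ (mem_filter.2
      ⟨mem_range.2 (g.lt R), g⟩), Nat.mul_div_cancel_left _ pk_pos, beq_zero d] at a
    exact absurd a (by decide)

end Pool.Agent.Lib.MP_7d41f7_al.B8
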