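import Pool.Agent.Lib.MP_7d41f7_al.Ch2

/-! The number of characters that do not vanish on an abelian trivial intersection set. -/

set_option autoImplicit false

namespace Pool.Agent.Lib.MP_7d41f7_al

open Finset Subgroup Pool.Agent.Lib.MP_b6945b_al
open scoped Classical IsMulCommutative

theorem bc_supp {ι : Type} [Fintype ι] (v : ι → ℤ) (s : Finset ι) (h : ∀ i ∈ s, v i ≠ 0) :
    (s.card : ℤ) ≤ ∑ i, v i * v i := by
  rw [card_eq_sum_ones, Nat.cast_sum]
  exact (sum_le_sum fun i hi => Int.add_one_le_of_lt (mul_self_pos.2 (h i hi))).trans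
    (sum_le_univ_sum_of_nonneg fun i => mul_self_nonneg _)

/-- Each class contributes one new index. -/
theorem bc_int {ι Λ : Type} [Fintype ι] [Fintype Λ] (o : Λ) (R : Setoid Λ) (e : ℕ)
    (m : ι → Λ → ℤ) (hR : ∀ α, α ≠ o → e ≤ (univ.filter (R α)).card ∧ ¬ R α o)
    (inv : ∀ i α β, R α β → m i α = m i β)
    (g1 : ∀ α, α ≠ o → ∑ i, (m i α - m i o) * (m i α - m i o) = 1 + e)
    (g2 : ∀ α β, α ≠ o → β ≠ o → ¬ R α β → ∑ i, (m i α - m i β) * (m i α - m i β) = 2 ∧
      ∑ i, (m i α - m i β) * (m i β - m i o) ≠ 0) :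
    (univ.filter fun i => ∃ α, m i α ≠ m i o).card * e + 1 ≤ e * e + Fintype.card Λ := by
  by_cases hβ : ∀ β, β = o
  · rw [filter_eq_empty_iff.2 fun i _ ⟨α, h⟩ => h (hβ α ▸ rfl), card_empty, zero_mul, zero_add]
    exact le_add_left (Fintype.card_pos_iff.2 ⟨o⟩)
  push Not at hβ
  obtain ⟨β, hβ⟩ := hβ
  have hV := bc_supp (fun i => m i β - m i o) (univ.filter fun i => m i β ≠ m i o)
    fun i hi => sub_ne_zero.2 (mem_filter.1 hi).2
  rw [g1 β hβ] at hV
  let U := univ.filter fun i => (∃ α, m i α ≠ m i o) ∧ m i β = m i o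
  have : Nonempty Λ := ⟨o⟩
  choose! a ha using fun i (hi : i ∈ U) => (mem_filter.1 hi).2.1
  have a1 : ∀ i ∈ U, a i ≠ o := fun i hi c => ha i hi (c ▸ rfl)
  have a2 : ∀ i ∈ U, m i (a i) - m i β ≠ 0 := fun i hi =>
    sub_ne_zero.2 ((mem_filter.1 hi).2.2 ▸ ha i hi)
  have a3 : ∀ i ∈ U, ¬ R (a i) β := fun i hi c => a2 i hi (sub_eq_zero.2 (inv i _ _ c))
  have a4 : ∀ i ∈ U, ∀ j ∈ U, R (a i) (a j) → i = j := fun i hi j hj c => by_contra fun ne => by
    obtain ⟨b1, b2⟩ := g2 _ β (a1 i hi) hβ (a3 i hi)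
    obtain ⟨t, -, ht⟩ := exists_ne_zero_of_sum_ne_zero b2
    have t1 : ∀ i ∈ U, t ≠ i := fun i hi c =>
      right_ne_zero_of_mul ht (sub_eq_zero.2 (c ▸ (mem_filter.1 hi).2.2))
    have := bc_supp (fun t => m t (a i) - m t β) {t, i, j} fun s hs => by
      simp only [mem_insert, mem_singleton] at hs
      rcases hs with rfl | rfl | rfl
      · exact left_ne_zero_of_mul ht
      · exact a2 _ hi
      · exact inv _ _ _ c ▸ a2 _ hj
    rw [b1, card_eq_three.2 ⟨t, i, j, t1 i hi, t1 j hj, ne, rfl⟩] at this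
    omega
  have c1 : U.card * e ≤ (U.biUnion fun i => univ.filter (R (a i))).card := by
    rw [card_biUnion (t := fun i => univ.filter (R (a i))) fun i hi j hj ne => disjoint_left.2
      fun γ h1 h2 => ne (a4 i hi j hj (R.trans (mem_filter.1 h1).2 (R.symm (mem_filter.1 h2).2)))]
    exact card_nsmul_le_sum U _ e fun i hi => (hR _ (a1 i hi)).1
  have c2 : (U.biUnion fun i => univ.filter (R (a i))).card + (univ.filter (R β)).card ≤
      (univ.erase o).card := by
    rw [← card_union_of_disjoint (disjoint_left.2 fun γ h1 h2 => by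
      obtain ⟨i, hi, h1⟩ := mem_biUnion.1 h1
      exact a3 i hi (R.trans (mem_filter.1 h1).2 (R.symm (mem_filter.1 h2).2)))]
    refine card_le_card fun γ h => mem_erase.2 ⟨fun c => ?_, mem_univ _⟩
    rcases mem_union.1 h with h | h
    · obtain ⟨i, hi, h⟩ := mem_biUnion.1 h
      exact (hR _ (a1 i hi)).2 (c ▸ (mem_filter.1 h).2)
    · exact (hR _ hβ).2 (c ▸ (mem_filter.1 h).2)
  have c3 : (univ.filter fun i => ∃ α, m i α ≠ m i o).card ≤
      (univ.filter fun i => m i β ≠ m i o).card + U.card :=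
    (card_le_card fun i hi => by
      by_cases c : m i β = m i o
      · exact mem_union_right _ (mem_filter.2 ⟨mem_univ _, (mem_filter.1 hi).2, c⟩)
      · exact mem_union_left _ (mem_filter.2 ⟨mem_univ _, c⟩)).trans (card_union_le _ _)
  have c4 := card_erase_add_one (mem_univ o)
  have c5 := (hR β hβ).1
  rw [card_univ] at c4
  have c6 := Nat.mul_le_mul_right e (c3.trans (Nat.add_le_add_right
    (show _ ≤ 1 + e by exact_mod_cast hV) _))
  nlinarith

variable {G : Type} [Group G] [Fintype G]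

theorem bc_nat (I : IrrData G) {H : Type} [Group H] [Fintype H] (ι : H →* G) (ψ : H →* ℂˣ)
    (i : Fin I.n) : ∃ m : ℤ, ∑ h, (ψ h : ℂ)⁻¹ * I.χ i (ι h) = Fintype.card H * (m : ℂ) ∧
      ∑ h, ψ h * I.χ i (ι h)⁻¹ = Fintype.card H * (m : ℂ) := by
  obtain ⟨J⟩ := exists_irrData H
  obtain ⟨j, hj⟩ := exists_idx J ((Matrix.scalar (Fin 1)).toMonoidHom.comp
    ((Units.coeHom ℂ).comp ψ)) (by simp)
  obtain ⟨m, hm, -⟩ := mlt_nat J ((I.ρ i).comp ι) j
  rw [mlt, div_eq_iff IrrData.card_ne, mul_comm] at hm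
  have e : ∑ h, (ψ h : ℂ)⁻¹ * I.χ i (ι h) = Fintype.card H * ((m : ℤ) : ℂ) := by
    simp only [hj] at hm
    simpa [IrrData.χ] using hm
  exact ⟨m, e, e ▸ Fintype.sum_equiv (Equiv.inv H) _ _ fun h => by simp⟩

theorem bc_gram (I : IrrData G) {H : Type} [Fintype H] (ι : H → G) (η η' : H → ℂ) :
    ∑ i, (∑ h, η h * I.χ i (ι h)) * ∑ h, η' h * I.χ i (ι h)⁻¹ =
      ∑ u, ∑ h, ∑ h', if u * ι h * u⁻¹ = ι h' then η h * η' h' else 0 := by
  have h1 : ∀ h h', ∑ i, η h * I.χ i (ι h) * (η' h' * I.χ i (ι h')⁻¹) =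
      ∑ u, if u * ι h * u⁻¹ = ι h' then η h * η' h' else 0 := fun h h' => by
    rw [sum_congr rfl fun i _ => mul_mul_mul_comm _ _ _ _, ← mul_sum, col_orth, ch1_cnt, mul_sum]
    simp
  simp only [sum_mul_sum]
  rw [sum_comm, sum_comm (s := (univ : Finset G))]
  refine sum_congr rfl fun h _ => ?_
  rw [sum_comm, sum_comm (s := (univ : Finset G))]
  exact sum_congr rfl fun h' _ => h1 h h'

noncomputable instance bc_fin (H : Type) [Group H] [Finite H] : Fintype (H →* ℂˣ) :=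
  Fintype.ofFinite _

/-- Fourier inversion. -/
theorem bc_inv {H : Type} [CommGroup H] [Fintype H] (F : H → ℂ) (t : H) :
    ∑ ψ : H →* ℂˣ, (∑ h, (ψ h : ℂ)⁻¹ * F h) * ψ t = Fintype.card (H →* ℂˣ) * F t := by
  have : NeZero (Monoid.exponent H : ℂ) := ⟨Nat.cast_ne_zero.2 Monoid.exponent_ne_zero_of_finite⟩
  simp only [sum_mul]
  rw [sum_comm, sum_eq_single t]
  · simp [mul_right_comm _ (F t)]
  · intro h _ ne
    obtain ⟨φ, hφ⟩ := CommGroup.exists_apply_ne_one_of_hasEnoughRootsOfUnity H ℂ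
      (a := h⁻¹ * t) (inv_mul_eq_one.not.2 ne)
    have := sum_hom_units_eq_zero ((Units.coeHom ℂ).comp (MonoidHom.eval (N := ℂˣ) (h⁻¹ * t)))
      fun e => hφ (Units.val_eq_one.1 (DFunLike.congr_fun e φ))
    rw [← zero_mul (F h), ← this, sum_mul]
    exact sum_congr rfl fun ψ _ => by simp [mul_right_comm]
  · simp

/-- An abelian subgroup `A * D` that is the centraliser of all nontrivial elements of `A`. -/
structure Tz (A D : Subgroup G) (e : ℕ) : Prop where
  cA : IsMulCommutative A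
  cD : IsMulCommutative D
  nD : ∀ u ∈ normalizer (A : Set G), ∀ y ∈ D, u * y = y * u
  cen : ∀ a ∈ A, a ≠ 1 → ∀ u, u * a = a * u → ∃ b ∈ A, ∃ y ∈ D, u = b * y
  cop : (Nat.card A).Coprime (Nat.card D)
  card : Nat.card (normalizer (A : Set G)) = e * (Nat.card A * Nat.card D)

namespace Tz

variable {A D : Subgroup G} {e : ℕ} (T : Tz A D e)
include T

omit [Fintype G] in
theorem dis {a : G} (h1 : a ^ Nat.card A = 1) (h2 : a ^ Nat.card D = 1) : a = 1 :=
  (pow_eq_one_iff_of_coprime T.cop).1 ⟨h1, h2⟩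

theorem ti {a y b z u : G} (ha : a ∈ A) (a1 : a ≠ 1) (hy : y ∈ D) (hb : b ∈ A) (hz : z ∈ D)
    (h : u * (a * y) * u⁻¹ = b * z) : u ∈ normalizer (A : Set G) := by
  have := T.cA
  have pA : ∀ a ∈ A, a ^ Nat.card A = 1 := fun a ha =>
    orderOf_dvd_iff_pow_eq_one.1 (A.orderOf_dvd_natCard ha)
  have pD : ∀ a ∈ D, a ^ Nat.card D = 1 := fun a ha =>
    orderOf_dvd_iff_pow_eq_one.1 (D.orderOf_dvd_natCard ha)
  have cm : ∀ a ∈ A, ∀ y ∈ D, Commute a y := fun a ha y hy => T.nD a (le_normalizer ha) y hy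
  have h1 := congrArg (· ^ Nat.card D) h
  simp only [conj_pow, (cm a ha y hy).mul_pow, (cm b hb z hz).mul_pow, pD y hy, pD z hz,
    mul_one] at h1
  refine mem_normalizer_fintype fun c hc => ?_
  obtain ⟨b', hb', y', hy', h2⟩ := T.cen _ (pow_mem hb (Nat.card D)) (fun e => a1 (T.dis (pA a ha)
    (conj_eq_one_iff.1 (h1.trans e)))) (u * c * u⁻¹) (by
      rw [← h1, conj_mul, conj_mul, setLike_mul_comm hc (pow_mem ha _)])
  have h3 := congrArg (· ^ Nat.card A) h2
  simp only [conj_pow, (cm b' hb' y' hy').mul_pow, pA c hc, pA b' hb', mul_one, mul_inv_cancel,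
    one_mul] at h3
  rw [h2, T.dis h3.symm (pD y' hy'), mul_one]
  exact hb'

theorem cnt (I : IrrData G) (hv : ∀ i, ∃ a ∈ A, a ≠ 1 ∧ ∃ y ∈ D, I.χ i (a * y) ≠ 0) :
    I.n * e + Nat.card D ≤ Nat.card D * (e * e + Nat.card A) := by
  have := T.cA
  have := T.cD
  have : NeZero (Monoid.exponent A : ℂ) := ⟨Nat.cast_ne_zero.2 Monoid.exponent_ne_zero_of_finite⟩
  have : NeZero (Monoid.exponent D : ℂ) := ⟨Nat.cast_ne_zero.2 Monoid.exponent_ne_zero_of_finite⟩
  let ι : A × D →* G := A.subtype.noncommCoprod D.subtype fun a y =>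
    T.nD a (le_normalizer a.2) y y.2
  have i1 : Function.Injective ι := (injective_iff_map_eq_one ι).2 fun p h => by
    have h1 : (p.1 : G) = (p.2 : G)⁻¹ := eq_inv_of_mul_eq_one_left h
    have h2 : (p.1 : G) = 1 := T.dis (orderOf_dvd_iff_pow_eq_one.1 (A.orderOf_dvd_natCard p.1.2))
      (orderOf_dvd_iff_pow_eq_one.1 (D.orderOf_dvd_natCard (h1 ▸ inv_mem p.2.2)))
    exact Prod.ext (Subtype.ext h2) (Subtype.ext (inv_eq_one.1 (h1.symm.trans h2)))
  let c := A.normalizerMonoidHom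
  have c1 : ∀ (u : normalizer (A : Set G)) (p : A × D), u * ι p * (u : G)⁻¹ = ι (c u p.1, p.2) :=
    fun u p => by
      change u * (p.1 * p.2 : G) * _ = u * p.1 * (u : G)⁻¹ * p.2
      rw [mul_assoc _ (u : G)⁻¹, T.nD _ (inv_mem u.2) _ p.2.2]
      group
  let ac : (A →* ℂˣ) → normalizer (A : Set G) → A →* ℂˣ := fun γ u => γ.comp (c u).toMonoidHom
  have ac1 : ∀ γ u v, ac γ (u * v) = ac (ac γ u) v := fun γ u v =>
    MonoidHom.ext fun a => congrArg γ (by rw [map_mul]; rfl)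
  have ac2 : ∀ γ, ac γ 1 = γ := fun γ => MonoidHom.ext fun a => congrArg γ (by rw [map_one]; rfl)
  have ac3 : ∀ γ u, ac (ac γ u) u⁻¹ = γ := fun γ u => by rw [← ac1, mul_inv_cancel, ac2]
  let R : Setoid (A →* ℂˣ) := ⟨fun γ α => ∃ u, ac γ u = α, fun γ => ⟨1, ac2 γ⟩,
    fun ⟨u, h⟩ => ⟨u⁻¹, h ▸ ac3 _ u⟩, fun ⟨u, h⟩ ⟨v, h'⟩ => ⟨u * v, by rw [ac1, h, h']⟩⟩
  let M : (A →* ℂˣ) → (A →* ℂˣ) → ℕ := fun α γ => (univ.filter fun u => ac γ u = α).card
  have hH : Fintype.card (A × D) = Nat.card A * Nat.card D := by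
    rw [← Nat.card_eq_fintype_card, Nat.card_prod]
  have H0 : 0 < Fintype.card (A × D) := Fintype.card_pos
  have M0 : ∀ α γ, ¬ R γ α → M α γ = 0 := fun α γ h =>
    card_eq_zero.2 (filter_eq_empty_iff.2 fun u _ e => h ⟨u, e⟩)
  have M1 : M 1 1 = e * Fintype.card (A × D) := by
    rw [hH, ← T.card, Nat.card_eq_fintype_card]
    exact congrArg Finset.card (filter_true_of_mem fun u _ => MonoidHom.ext fun _ => rfl)
  have M2 : ∀ γ, γ ≠ 1 → M γ γ = Fintype.card (A × D) := fun γ hγ => by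
    refine (card_bij (s := univ) (t := univ.filter fun u => ac γ u = γ)
      (fun p _ => ⟨ι p, mul_mem (le_normalizer p.1.2) (mem_normalizer_fintype
      fun a ha => by rwa [subtype_apply, ← T.nD a (le_normalizer ha) _ p.2.2, mul_inv_cancel_right])⟩)
      (fun p _ => mem_filter.2 ⟨mem_univ _, MonoidHom.ext fun a => congrArg γ ?_⟩)
      (fun p _ q _ h => i1 (congrArg Subtype.val h)) fun u hu => by_contra fun hn => hγ ?_).symm
    · refine congrArg Prod.fst (i1 (a₂ := (a, 1)) ((c1 _ (a, 1)).symm.trans ?_))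
      change ι p * _ * (ι p)⁻¹ = _
      rw [← map_inv, ← map_mul, ← map_mul, mul_comm p, mul_inv_cancel_right]
    · let f : A →* A := (c u).toMonoidHom / MonoidHom.id A
      have f1 : Function.Surjective f := Finite.surjective_of_injective
        ((injective_iff_map_eq_one f).2 fun a h => by_contra fun a1 => by
          obtain ⟨b, hb, y, hy, e⟩ := T.cen a a.2 (fun e => a1 (Subtype.ext e)) u
            (mul_inv_eq_iff_eq_mul.1 (congrArg Subtype.val (div_eq_one.1 h)))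
          exact hn ⟨(⟨b, hb⟩, ⟨y, hy⟩), mem_univ _, Subtype.ext e.symm⟩)
      refine MonoidHom.ext (f1.forall.2 fun a => ?_)
      exact (map_div γ _ _).trans (div_eq_one.2 (DFunLike.congr_fun (mem_filter.1 hu).2 a))
  have R1 : ∀ γ, γ ≠ 1 → ¬ R γ 1 ∧ ¬ R 1 γ := fun γ h =>
    have : ¬ R 1 γ := fun ⟨_, e⟩ => h e.symm
    ⟨fun e => this (R.symm e), this⟩
  have R2 : ∀ γ, γ ≠ 1 → e ≤ (univ.filter (R γ)).card := fun γ h => by
    have := card_le_mul_card_image_of_maps_to (s := univ) (t := univ.filter (R γ)) (f := ac γ)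
      (fun u _ => mem_filter.2 ⟨mem_univ _, u, rfl⟩) (Fintype.card (A × D)) fun α hα => by
        obtain ⟨v, rfl⟩ := (mem_filter.1 hα).2
        rw [← M2 γ h]
        exact card_le_card_of_injOn (· * v⁻¹) (fun u hu => mem_coe.2 (mem_filter.2 ⟨mem_univ _, by
          rw [ac1, (mem_filter.1 (mem_coe.1 hu)).2, ac3]⟩)) fun _ _ _ _ => mul_right_cancel
    rw [card_univ, ← Nat.card_eq_fintype_card, T.card, ← hH, mul_comm e] at this
    exact Nat.le_of_mul_le_mul_left this H0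
  choose m m1 m2 using fun (θ : D →* ℂˣ) i (α : A →* ℂˣ) => bc_nat I ι (α.coprod θ) i
  have H1 : (Fintype.card (A × D) : ℂ) ≠ 0 := Nat.cast_ne_zero.2 H0.ne'
  have gr : ∀ θ α β γ δ, Fintype.card (A × D) * ∑ i, (m θ i α - m θ i β) * (m θ i γ - m θ i δ) =
      (M α γ : ℤ) - M α δ - M β γ + M β δ := fun θ α β γ δ => by
    have s1 : ∀ α γ u, ∑ p : A × D, ((α.coprod θ p)⁻¹ : ℂ) * γ.coprod θ (c u p.1, p.2) =
        Fintype.card (A × D) * if ac γ u = α then 1 else 0 := fun α γ u => by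
      have := sum_hom_units ((Units.coeHom ℂ).comp ((ac γ u / α).coprod (1 : D →* ℂˣ)))
      refine (sum_congr rfl fun p _ => ?_).trans (this.trans ?_)
      · simp [ac]
        field_simp
      · split_ifs with h1 h2 h2
        · simp
        · exact absurd (div_eq_one.1 (MonoidHom.ext fun a => Units.val_eq_one.1 (by
            simpa using DFunLike.congr_fun h1 (a, 1)))) h2
        · exact absurd (MonoidHom.ext fun p => by simp [h2]) h1
        · simp
    have s2 := bc_gram I ι (fun p => (α.coprod θ p : ℂ)⁻¹ - (β.coprod θ p : ℂ)⁻¹)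
      fun p => γ.coprod θ p - δ.coprod θ p
    rw [← Fintype.sum_subtype_add_sum_subtype (· ∈ normalizer (A : Set G)),
      sum_eq_zero (s := (univ : Finset {u // u ∉ normalizer (A : Set G)})) fun u _ =>
        sum_eq_zero fun p _ => sum_eq_zero fun p' _ => ite_eq_right_iff.2 fun h => by
          have : p.1 = 1 := by_contra fun c =>
            u.2 (T.ti p.1.2 (fun e => c (Subtype.ext e)) p.2.2 p'.1.2 p'.2.2 h)
          simp [this], add_zero] at s2
    simp only [c1, i1.eq_iff, sum_ite_eq, mem_univ, if_true] at s2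
    simp only [sub_mul, mul_sub, sum_sub_distrib, m1, m2, s1, ← mul_sum] at s2
    refine Int.cast_injective (α := ℂ) (mul_left_cancel₀ H1 ?_)
    simp only [M, natCast_card_filter, sub_mul, mul_sub, sum_sub_distrib]
    push_cast
    simp only [mul_mul_mul_comm (Fintype.card (A × D) : ℂ) _ (Fintype.card (A × D) : ℂ),
      ← mul_sum] at s2
    linear_combination s2
  have inv : ∀ θ i α β, R α β → m θ i α = m θ i β := by
    rintro θ i α _ ⟨u, rfl⟩
    refine Int.cast_injective (α := ℂ) (mul_left_cancel₀ H1 ?_)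
    rw [← m1, ← m1]
    refine (Fintype.sum_equiv ((c u).toEquiv.prodCongr (Equiv.refl D)) _ _ fun p => ?_).symm
    rw [← I.χ_conj i u, c1]
    rfl
  have H2 : (Fintype.card (A × D) : ℤ) ≠ 0 := Nat.cast_ne_zero.2 H0.ne'
  have key := fun θ => bc_int 1 R e (m θ) (fun γ h => ⟨R2 γ h, (R1 γ h).1⟩) (inv θ)
    (fun α h => mul_left_cancel₀ H2 (by
      rw [gr, M2 α h, M0 _ _ (R1 α h).1, M0 _ _ (R1 α h).2, M1]
      push_cast
      ring)) fun α β h h' n => ⟨mul_left_cancel₀ H2 (by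
        rw [gr, M2 α h, M2 β h', M0 _ _ n, M0 _ _ fun c => n (R.symm c)]
        push_cast
        ring), fun c => by
          have := gr θ α β β 1
          rw [c, M2 β h', M0 _ _ (R1 α h).2, M0 _ _ (R1 β h').2, M0 _ _ fun c => n (R.symm c)] at this
          simp at this⟩
  have cov : (univ : Finset (Fin I.n)) ⊆
      univ.biUnion fun θ => univ.filter fun i => ∃ α, m θ i α ≠ m θ i 1 := fun i _ => by
    by_contra hc
    obtain ⟨a, ha, a1, y, hy, h⟩ := hv i
    have h1 : ∀ θ : D →* ℂˣ, ∑ z : D, (θ z : ℂ)⁻¹ * I.χ i (a * z) = 0 := fun θ => by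
      have h2 := bc_inv (fun b : A => ∑ z : D, (θ z : ℂ)⁻¹ * I.χ i (b * z)) ⟨a, ha⟩
      have h3 := bc_inv (fun b : A => if b = 1 then (1 : ℂ) else 0) ⟨a, ha⟩
      rw [if_neg fun e => a1 (congrArg Subtype.val e), mul_zero] at h3
      refine (mul_eq_zero.1 (h2.symm.trans ?_)).resolve_left
        (Nat.cast_ne_zero.2 Fintype.card_ne_zero)
      rw [← mul_zero (Fintype.card (A × D) * m θ i 1 : ℂ), ← h3, mul_sum]
      refine sum_congr rfl fun α _ => ?_
      have h4 : m θ i α = m θ i 1 := by_contra fun e =>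
        hc (mem_biUnion.2 ⟨θ, mem_univ _, mem_filter.2 ⟨mem_univ _, α, e⟩⟩)
      rw [← h4, ← m1, Fintype.sum_prod_type]
      simp [mul_sum, mul_assoc, mul_left_comm, ι]
    have h2 := bc_inv (fun z : D => I.χ i (a * z)) ⟨y, hy⟩
    simp only [h1, zero_mul, sum_const_zero] at h2
    exact h ((mul_eq_zero.1 h2.symm).resolve_left (Nat.cast_ne_zero.2 Fintype.card_ne_zero))
  have c2 := Nat.mul_le_mul_right e ((card_le_card cov).trans card_biUnion_le)
  have c3 := sum_le_sum fun θ (_ : θ ∈ univ) => key θ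
  rw [sum_add_distrib, ← sum_mul, sum_const, sum_const, card_univ, ← Nat.card_eq_fintype_card,
    ← Nat.card_eq_fintype_card, CommGroup.card_monoidHom_of_hasEnoughRootsOfUnity,
    CommGroup.card_monoidHom_of_hasEnoughRootsOfUnity, smul_eq_mul, smul_eq_mul, mul_one] at c3
  rw [card_univ, Fintype.card_fin] at c2
  omega

end Tz

end Pool.Agent.Lib.MP_7d41f7_al
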