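import Pool.Agent.Lib.MP_7d41f7_al.F.BCa
import Pool.Agent.Lib.MP_7d41f7_al.D.ZCore

/-! Counting conjugacy classes. -/

set_option autoImplicit false

namespace Pool.Agent.Lib.MP_7d41f7_al

open Finset Subgroup Pool.Agent.Lib.MP_b6945b_al
open scoped Classical IsMulCommutative

/-- A family of classes of elements of order `o` with weight at least `w`. -/
def Mny (G : Type) [Group G] (o : ℕ → Prop) (w : ℚ) : Prop :=
  ∃ (X : Finset G) (N : Subgroup G) (z : ℕ), (∀ x ∈ X, o (orderOf x) ∧ z ≤ Nat.card (Cx x) ∧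
    ∀ u, u * x * u⁻¹ ∈ X ↔ u ∈ N) ∧ w * Nat.card N ≤ X.card * (z - 4)

section

variable {G : Type} [Group G] [Fintype G]

theorem bc_conj (X : Finset G) (N : Subgroup G) (h : ∀ x ∈ X, ∀ u, u * x * u⁻¹ ∈ X ↔ u ∈ N) :
    (univ.filter fun g => ∃ u, u * g * u⁻¹ ∈ X).card * Nat.card N = Nat.card G * X.card := by
  have h1 : ∀ u : G, (univ.filter fun g => u * g * u⁻¹ ∈ X).card = X.card := fun u =>
    card_equiv (MulAut.conj u).toEquiv (by simp)
  have h2 : ∀ g : G, (univ.filter fun u => u * g * u⁻¹ ∈ X).card =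
      if ∃ u, u * g * u⁻¹ ∈ X then Nat.card N else 0 := fun g => by
    split_ifs with c
    · obtain ⟨v, hv⟩ := c
      rw [Nat.card_eq_fintype_card, Fintype.card_subtype]
      refine card_equiv (Equiv.mulRight v⁻¹) fun u => ?_
      simp only [mem_filter, mem_univ, true_and, Equiv.coe_mulRight, ← h _ hv]
      rw [show u * v⁻¹ * (v * g * v⁻¹) * (u * v⁻¹)⁻¹ = u * g * u⁻¹ by group]
    · exact card_eq_zero.2 (filter_eq_empty_iff.2 fun u _ e => c ⟨u, e⟩)
  have h3 := sum_card_bipartiteAbove_eq_sum_card_bipartiteBelow (s := (univ : Finset G))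
    (t := (univ : Finset G)) fun g u => u * g * u⁻¹ ∈ X
  simp only [bipartiteAbove, bipartiteBelow, h1, h2, ← sum_filter, sum_const, smul_eq_mul,
    card_univ] at h3
  rw [h3, Nat.card_eq_fintype_card]

theorem bc_sum (I : IrrData G) : ∑ g : G, Nat.card (Cx g) = I.n * Nat.card G := by
  refine Nat.cast_injective (R := ℂ) ?_
  simp only [← cnt_self, Nat.cast_sum, ← col_orth I]
  rw [sum_comm, sum_congr rfl fun i _ => (sum_congr rfl fun _ _ => mul_comm _ _).trans
    ((I.orth i i).trans (if_pos rfl))]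
  simp

omit [Fintype G] in
theorem cx_conj (u g : G) : Nat.card (Cx (u * g * u⁻¹)) = Nat.card (Cx g) :=
  (Nat.card_congr ((MulAut.conj u).toEquiv.subtypeEquiv fun k => by
    simp only [mem_centralizer_singleton_iff, MulEquiv.toEquiv_eq_coe, EquivLike.coe_coe,
      MulAut.conj_apply, conj_mul, mul_left_inj, mul_right_inj])).symm

theorem Mny.le {o : ℕ → Prop} [DecidablePred o] {w : ℚ} (h : Mny G o w)
    (h4 : ∀ g : G, 4 ≤ Nat.card (Cx g)) :
    w * Nat.card G ≤ ∑ g : G with o (orderOf g), (Nat.card (Cx g) - 4 : ℚ) := by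
  obtain ⟨X, N, z, h1, h2⟩ := h
  have h3 := bc_conj X N fun x hx => (h1 x hx).2.2
  have h0 : (0 : ℚ) < Nat.card N := Nat.cast_pos.2 Nat.card_pos
  refine le_trans ?_ (sum_le_sum_of_subset_of_nonneg (s := univ.filter fun g => ∃ u, u * g * u⁻¹ ∈ X)
    (fun g hg => ?_) fun g _ _ => sub_nonneg.2 (by exact_mod_cast h4 g))
  · refine le_trans ?_ (card_nsmul_le_sum _ _ (z - 4 : ℚ) fun g hg => ?_)
    · refine le_of_mul_le_mul_right ?_ h0
      rw [nsmul_eq_mul, mul_right_comm, mul_right_comm _ _ (Nat.card N : ℚ), ← Nat.cast_mul, h3,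
        Nat.cast_mul, mul_assoc (Nat.card G : ℚ), mul_comm]
      exact mul_le_mul_of_nonneg_left h2 (Nat.cast_nonneg _)
    · obtain ⟨u, hu⟩ := (mem_filter.1 hg).2
      exact sub_le_sub_right (Nat.cast_le.2 (cx_conj u g ▸ (h1 _ hu).2.1)) 4
  · obtain ⟨u, hu⟩ := (mem_filter.1 hg).2
    exact mem_filter.2 ⟨mem_univ _, (MulAut.conj u).orderOf_eq g ▸ (h1 _ hu).1⟩

theorem bc_list (h4 : ∀ g : G, 4 ≤ Nat.card (Cx g)) (L : List (ℕ × ℚ))
    (hL : (L.map Prod.fst).Nodup) (hM : ∀ p ∈ L, Mny G (· = p.1) p.2) :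
    (L.map Prod.snd).sum * Nat.card G ≤
      ∑ g : G with orderOf g ∈ L.map Prod.fst, (Nat.card (Cx g) - 4 : ℚ) := by
  induction L with
  | nil => simp
  | cons p L ih =>
    rw [List.map_cons, List.nodup_cons] at hL
    simp only [List.map_cons, List.sum_cons, List.mem_cons, filter_or, add_mul]
    rw [sum_union (disjoint_filter.2 fun g _ (e : orderOf g = p.1) c => hL.1 (e ▸ c))]
    exact add_le_add ((hM p List.mem_cons_self).le h4)
      (ih hL.2 fun q hq => hM q (List.mem_cons_of_mem _ hq))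

theorem Tz.van {A D : Subgroup G} {e : ℕ} (T : Tz A D e) (h4 : ∀ g : G, 4 ≤ Nat.card (Cx g))
    (L : List (ℕ × ℚ)) (hL : (L.map Prod.fst).Nodup)
    (hM : ∀ p ∈ L, p.1.Coprime (Nat.card A) ∧ Mny G (· = p.1) p.2)
    (h : (Nat.card D * e : ℚ) < 4 * (1 - (Nat.card A - 1) / (e * Nat.card A)) +
      (L.map Prod.snd).sum) {a y : G} (ha : a ∈ A) (a1 : a ≠ 1) (hy : y ∈ D) :
    orderOf (a * y) ∈ Vo G := by
  have := T.cA
  have := T.cD
  obtain ⟨I⟩ := exists_irrData G
  by_contra hc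
  have h1 := T.cnt I fun i => ⟨a, ha, a1, y, hy, fun e => hc ((mem_Vo I _).2 ⟨_, rfl, i, e⟩)⟩
  have pA : ∀ a ∈ A, a ^ Nat.card A = 1 := fun a ha =>
    orderOf_dvd_iff_pow_eq_one.1 (A.orderOf_dvd_natCard ha)
  have pD : ∀ a ∈ D, a ^ Nat.card D = 1 := fun a ha =>
    orderOf_dvd_iff_pow_eq_one.1 (D.orderOf_dvd_natCard ha)
  have cm : ∀ a ∈ A, ∀ y ∈ D, Commute a y := fun a ha y hy => T.nD a (le_normalizer ha) y hy
  have i1 : Function.Injective fun p : A × D => (p.1 * p.2 : G) := fun p q e => by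
    have e1 : ((q.1 : G)⁻¹ * p.1) = q.2 * (p.2 : G)⁻¹ := by
      rw [inv_mul_eq_iff_eq_mul, ← mul_assoc, eq_mul_inv_iff_mul_eq]
      exact e
    have e2 := T.dis (pA _ (mul_mem (inv_mem q.1.2) p.1.2))
      (pD _ (e1 ▸ mul_mem q.2.2 (inv_mem p.2.2)))
    exact Prod.ext (Subtype.ext (inv_mul_eq_one.1 e2).symm)
      (Subtype.ext (mul_inv_eq_one.1 (e1 ▸ e2)).symm)
  have k0 : (0 : ℚ) < Nat.card A := Nat.cast_pos.2 Nat.card_pos
  have d0 : (0 : ℚ) < Nat.card D := Nat.cast_pos.2 Nat.card_pos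
  have e0 : (0 : ℚ) < e := Nat.cast_pos.2 (Nat.pos_of_mul_pos_right (T.card ▸ Nat.card_pos))
  have h2 : Mny G (fun o => ¬ o.Coprime (Nat.card A))
      ((Nat.card A - 1) * (Nat.card A * Nat.card D - 4) / (e * Nat.card A)) := by
    refine ⟨((univ.erase 1) ×ˢ univ).map ⟨_, i1⟩, normalizer (A : Set G),
      Nat.card A * Nat.card D, fun x hx => ?_, le_of_eq ?_⟩
    · obtain ⟨⟨b, z⟩, hp, rfl⟩ := mem_map.1 hx
      have b1 : (b : G) ≠ 1 := fun e => (mem_erase.1 (mem_product.1 hp).1).1 (Subtype.ext e)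
      change (¬ (orderOf (b * z : G)).Coprime _) ∧ _ ≤ Nat.card (Cx (b * z : G)) ∧
        ∀ u, u * (b * z : G) * u⁻¹ ∈ _ ↔ _
      refine ⟨fun c => b1 (T.dis (pA _ b.2) ((pow_eq_one_iff_of_coprime c).1 ⟨?_,
        pA _ (pow_mem b.2 _)⟩)), ?_, fun u => ⟨fun hu => ?_, fun hu => ?_⟩⟩
      · have := congrArg (· ^ Nat.card D) (pow_orderOf_eq_one (b * z : G))
        simp only [one_pow] at this
        rwa [← pow_mul, mul_comm (orderOf _), pow_mul, (cm _ b.2 _ z.2).mul_pow, pD _ z.2,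
          mul_one] at this
      · rw [← Nat.card_prod]
        exact Nat.card_le_card_of_injective (fun p : A × D => (⟨p.1 * p.2,
          mem_centralizer_singleton_iff.2 (((show Commute (p.1 : G) b from
            setLike_mul_comm p.1.2 b.2).mul_right (cm _ p.1.2 _ z.2)).mul_left
              ((cm _ b.2 _ p.2.2).symm.mul_right (setLike_mul_comm p.2.2 z.2)))⟩ : Cx (b * z : G)))
          fun p q e => i1 (congrArg Subtype.val e)
      · obtain ⟨q, -, e⟩ := mem_map.1 hu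
        exact T.ti b.2 b1 z.2 q.1.2 q.2.2 e.symm
      · refine mem_map.2 ⟨(⟨_, (mem_normalizer_iff.1 hu _).1 b.2⟩, z), mem_product.2
          ⟨mem_erase.2 ⟨fun e => b1 (conj_eq_one_iff.1 (congrArg Subtype.val e)), mem_univ _⟩,
            mem_univ _⟩, ?_⟩
        change u * b * u⁻¹ * z = _
        rw [mul_assoc _ u⁻¹, T.nD _ (inv_mem hu) _ z.2]
        group
    · rw [T.card, card_map, card_product, card_erase_of_mem (mem_univ _), card_univ, card_univ,
        ← Nat.card_eq_fintype_card, ← Nat.card_eq_fintype_card, Nat.cast_mul, Nat.cast_mul,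
        Nat.cast_mul, Nat.cast_pred Nat.card_pos]
      field_simp
  have h3 := add_le_add (h2.le h4) (bc_list h4 L hL fun p hp => (hM p hp).2)
  rw [← sum_union (disjoint_left.2 fun g e c => by
    obtain ⟨p, hp, e1⟩ := List.mem_map.1 (mem_filter.1 c).2
    simp only [mem_filter] at e
    exact e.2 (e1 ▸ (hM p hp).1))] at h3
  have h5 := h3.trans (sum_le_univ_sum_of_nonneg fun g => sub_nonneg.2 (by exact_mod_cast h4 g))
  rw [sum_sub_distrib, ← Nat.cast_sum, bc_sum I, sum_const, card_univ, ← Nat.card_eq_fintype_card,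
    nsmul_eq_mul, Nat.cast_mul, mul_comm _ (4 : ℚ), ← add_mul, ← sub_mul] at h5
  have h6 := le_of_mul_le_mul_right h5 (Nat.cast_pos.2 Nat.card_pos)
  have h7 : (I.n * e + Nat.card D : ℚ) ≤ Nat.card D * (e * e + Nat.card A) := by exact_mod_cast h1
  generalize (Nat.card A : ℚ) = k, (Nat.card D : ℚ) = d, (L.map Prod.snd).sum = w, (I.n : ℚ) = n,
    (e : ℚ) = f at *
  have h8 : (k - 1) * (k * d - 4) / (f * k) = (k - 1) * d / f - 4 * ((k - 1) / (f * k)) := by
    field_simp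
  have h9 : n - (k - 1) * d / f ≤ d * f := by
    rw [sub_le_iff_le_add, ← sub_le_iff_le_add', le_div_iff₀ e0]
    linarith
  linarith

end

variable {G : Type} [Group G] [Finite G] {r c k d e p : ℕ} {y : G}

omit [Finite G] in
theorem cx_zp (y : G) : centralizer (zpowers y : Set G) = Cx y := by
  rw [zpowers_eq_closure, centralizer_closure]

omit [Finite G] in
theorem mny_cl (x : G) {z : ℕ} (h0 : 0 < z) (h : z ≤ Nat.card (Cx x)) :
    Mny G (· = orderOf x) (1 - 4 / z) := by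
  refine ⟨{x}, Cx x, Nat.card (Cx x), fun y hy => ?_, ?_⟩
  · rw [mem_singleton.1 hy]
    exact ⟨rfl, le_rfl, fun u => by
      rw [mem_singleton, mem_centralizer_singleton_iff, mul_inv_eq_iff_eq_mul]⟩
  · have h1 : (4 : ℚ) ≤ 4 / z * Nat.card (Cx x) := by
      rw [div_mul_eq_mul_div, le_div_iff₀ (Nat.cast_pos.2 h0)]
      exact mul_le_mul_of_nonneg_left (Nat.cast_le.2 h) (by norm_num)
    rw [card_singleton, Nat.cast_one]
    linarith

theorem mny_one {z : ℕ} (h0 : 0 < z) (h : z ∣ Nat.card G) : Mny G (· = 1) (1 - 4 / z) := by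
  have := mny_cl (1 : G) h0 (by
    rw [show Cx (1 : G) = ⊤ from eq_top_iff.2 fun g _ => by simp [mem_centralizer_iff], card_top]
    exact Nat.le_of_dvd Nat.card_pos h)
  rwa [orderOf_one] at this

theorem syl_cen [Fact p.Prime] (P : Sylow p G) (h : p ∣ Nat.card G) :
    ∃ z ∈ P, orderOf z = p ∧ (P : Subgroup G) ≤ Cx z := by
  have : Nontrivial P := Finite.one_lt_card_iff_nontrivial.1
    ((Fact.out : p.Prime).one_lt.trans_le (Nat.le_of_dvd Nat.card_pos (P.dvd_card_of_dvd_card h)))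
  have := P.2.center_nontrivial
  obtain ⟨n, hn, e⟩ := (P.2.to_subgroup (center P)).nontrivial_iff_card.1 this
  obtain ⟨z, hz, o⟩ := exists_socle_elt Fact.out (e ▸ dvd_pow_self p hn.ne')
  exact ⟨z, z.2, (orderOf_coe z).trans o, fun g hg => mem_centralizer_singleton_iff.2
    (congrArg Subtype.val (mem_center_iff.1 hz ⟨g, hg⟩))⟩

theorem mny_p (hp : p.Prime) {a : ℕ} (ha : 0 < a) (h : p ^ a ∣ Nat.card G) :
    Mny G (· = p) (1 - 4 / (p ^ a : ℕ)) := by
  have := Fact.mk hp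
  obtain ⟨P⟩ : Nonempty (Sylow p G) := inferInstance
  obtain ⟨z, -, o, hz⟩ := syl_cen P ((dvd_pow_self p ha.ne').trans h)
  have := mny_cl z (pow_pos hp.pos a) ((Nat.le_of_dvd Nat.card_pos
    (P.pow_dvd_card_of_pow_dvd_card h)).trans (card_le_of_le hz))
  rwa [o] at this

theorem cx_four (h : 36 ∣ Nat.card G) (g : G) : 4 ≤ Nat.card (Cx g) := by
  have h0 : orderOf g ≤ Nat.card (Cx g) := Nat.le_of_dvd Nat.card_pos
    (Subgroup.orderOf_dvd_natCard _ (mem_centralizer_singleton_iff.2 rfl))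
  have key : ∀ p, p.Prime → p ^ 2 ∣ 36 → g ^ p = 1 → 4 ≤ Nat.card (Cx g) := fun p hp d hg => by
    have := Fact.mk hp
    obtain ⟨P, hP⟩ := (IsPGroup.of_card_dvd_pow (G := zpowers g) (p := p) (n := 1) (by
      rw [Nat.card_zpowers, pow_one]
      exact orderOf_dvd_of_pow_eq_one hg)).exists_le_sylow
    obtain ⟨z, z1, z2, z3⟩ := syl_cen P (((dvd_pow_self p two_ne_zero).trans d).trans h)
    have c1 : Cx z ≤ Cx g → 4 ≤ Nat.card (Cx g) := fun c => le_trans (le_trans
      (Nat.pow_le_pow_left hp.two_le 2) (Nat.le_of_dvd Nat.card_pos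
        (P.pow_dvd_card_of_pow_dvd_card (d.trans h)))) (card_le_of_le (z3.trans c))
    by_cases g1 : g ∈ zpowers z
    · exact c1 (cx_zp z ▸ centralizer_le (Set.singleton_subset_iff.2 g1))
    have g0 : g ≠ 1 := fun e => g1 (e ▸ one_mem _)
    have z4 : z ∈ Cx g := mem_centralizer_singleton_iff.2
      (mem_centralizer_singleton_iff.1 (z3 (hP (mem_zpowers g)))).symm
    have := (zpowers z).subgroupOf (Cx g) |>.card_mul_index
    rw [Nat.card_congr (subgroupOfEquivOfLe (zpowers_le.2 z4)).toEquiv, Nat.card_zpowers, z2] at this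
    have i1 : ((zpowers z).subgroupOf (Cx g)).index ≠ 1 := fun e => g1
      (mem_subgroupOf.1 (index_eq_one.1 e ▸ mem_top (xc g)))
    have i2 := ((zpowers z).subgroupOf (Cx g)).index_ne_zero_of_finite
    exact this ▸ Nat.mul_le_mul hp.two_le (show 2 ≤ _ by omega)
  by_contra c
  have := orderOf_pos g
  obtain e | e | e : orderOf g = 1 ∨ orderOf g = 2 ∨ orderOf g = 3 := by omega
  · exact c (key 2 Nat.prime_two (by decide) (by rw [orderOf_eq_one_iff.1 e, one_pow]))
  · exact c (key 2 Nat.prime_two (by decide) (e ▸ pow_orderOf_eq_one g))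
  · exact c (key 3 Nat.prime_three (by decide) (e ▸ pow_orderOf_eq_one g))

omit [Finite G] in
theorem nx_ker (y : G) :
    Nat.card (Cx y) * (zpowers y).normalizerMonoidHom.ker.index = Nat.card (Nx y) := by
  rw [← (zpowers y).normalizerMonoidHom.ker.card_mul_index, normalizerMonoidHom_ker,
    Nat.card_congr (subgroupOfEquivOfLe (centralizer_le_normalizer _)).toEquiv, cx_zp]

/-- Sylow's theorem for a prime that divides the order once. -/
theorem syl_cnt (hr : r.Prime) (hy : orderOf y = r) (hc : Nat.card G = r * c) (h : ¬ r ∣ c) :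
    ∃ d e, Nat.card (Cx y) = r * d ∧ Nat.card (Nx y) = e * (r * d) ∧ e ∣ r - 1 ∧
      d * e ≡ c [MOD r] := by
  have := Fact.mk hr
  obtain ⟨d, hd⟩ : r ∣ Nat.card (Cx y) :=
    hy ▸ Subgroup.orderOf_dvd_natCard _ (mem_centralizer_singleton_iff.2 rfl)
  have h1 := nx_ker y
  have c0 : c ≠ 0 := fun e => h (e ▸ dvd_zero r)
  let P : Sylow r G := Sylow.ofCard (zpowers y) (by
    rw [Nat.card_zpowers, hy, hc, Nat.factorization_mul hr.ne_zero c0, Finsupp.add_apply,
      hr.factorization_self, Nat.factorization_eq_zero_of_not_dvd h, add_zero, pow_one])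
  have h2 : (Nx y).index ≡ 1 [MOD r] := P.card_eq_index_normalizer ▸ card_sylow_modEq_one r G
  refine ⟨d, _, hd, by rw [← h1, hd, mul_comm], ?_, ?_⟩
  · rw [index_ker, ← Nat.totient_prime hr, ← hy, ← Nat.card_zpowers, ← IsCyclic.card_mulAut]
    exact card_subgroup_dvd_card _
  · have h3 := (Nx y).card_mul_index
    rw [← h1, hd, hc, mul_assoc, mul_assoc] at h3
    rw [← Nat.eq_of_mul_eq_mul_left hr.pos h3, ← mul_assoc]
    simpa using (h2.mul_left _).symm

theorem mny_tor (hp : p.Prime) (h4 : 4 ≤ p) (hy : orderOf y = p) {E : ℕ}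
    (h : Nat.card (Nx y) = e * Nat.card (Cx y)) (hE : e ≤ E) :
    Mny G (· = p) ((p - 1) / E * (1 - 4 / p)) := by
  have := Fact.mk hp
  have := Fintype.ofFinite G
  have h1 : p ≤ Nat.card (Cx y) := Nat.le_of_dvd Nat.card_pos
    (hy ▸ Subgroup.orderOf_dvd_natCard _ (mem_centralizer_singleton_iff.2 rfl))
  have e0 : 0 < e := Nat.pos_of_mul_pos_right (h ▸ Nat.card_pos)
  refine ⟨(univ.filter (· ∈ zpowers y)).erase 1, Nx y, Nat.card (Cx y), fun x hx => ?_, ?_⟩
  · obtain ⟨x1, x2⟩ := mem_erase.1 hx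
    replace x2 := (mem_filter.1 x2).2
    have o : orderOf x = p := ((Nat.dvd_prime hp).1 (hy ▸ orderOf_dvd_of_mem_zpowers x2)).resolve_left
      (mt orderOf_eq_one_iff.1 x1)
    have z : zpowers x = zpowers y := eq_of_le_of_card_ge (zpowers_le.2 x2) (by
      rw [Nat.card_zpowers, Nat.card_zpowers, o, hy])
    refine ⟨o, by rw [← cx_zp, ← cx_zp, z], fun u => ⟨fun hu => ?_, fun hu => mem_erase.2
      ⟨fun e => x1 (conj_eq_one_iff.1 e), mem_filter.2 ⟨mem_univ _,
        (mem_normalizer_iff.1 hu _).1 x2⟩⟩⟩⟩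
    have := mem_norm x2 (mem_filter.1 (mem_erase.1 hu).2).2
    rwa [z] at this
  · rw [h, card_erase_of_mem (mem_filter.2 ⟨mem_univ _, one_mem _⟩), ← Fintype.card_subtype,
      ← Nat.card_eq_fintype_card, Nat.card_zpowers, hy, Nat.cast_pred hp.pos, Nat.cast_mul]
    have a1 : (4 : ℚ) ≤ p := by exact_mod_cast h4
    have a2 : (p : ℚ) ≤ Nat.card (Cx y) := by exact_mod_cast h1
    have a3 : (0 : ℚ) < e := by exact_mod_cast e0
    have a4 : (e : ℚ) ≤ E := by exact_mod_cast hE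
    generalize (Nat.card (Cx y) : ℚ) = z at *
    have a5 : (1 - 4 / p) * z ≤ z - 4 := by
      have : (4 : ℚ) ≤ 4 / p * z := by
        rw [div_mul_eq_mul_div, le_div_iff₀ (by linarith)]
        linarith
      linarith
    have a6 : (0 : ℚ) ≤ (1 - 4 / p) * z := mul_nonneg
      (sub_nonneg.2 ((div_le_one (by linarith)).2 a1)) (by linarith)
    calc _ = (p - 1) * (e / E * ((1 - 4 / p) * z)) := by ring
      _ ≤ _ := mul_le_mul_of_nonneg_left ((mul_le_of_le_one_left a6
        ((div_le_one (by linarith)).2 a4)).trans a5) (by linarith)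

end Pool.Agent.Lib.MP_7d41f7_al
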