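import Pool.Agent.Lib.MP_7d41f7_al.F.BCb

/-! Vanishing on the elements whose order is divisible by a prime of an abelian centraliser. -/

set_option autoImplicit false

namespace Pool.Agent.Lib.MP_7d41f7_al

open Subgroup
open scoped IsMulCommutative

variable {G : Type} [Group G] [Finite G] {r c k d e : ℕ} {y : G}

/-- The elements of `C` whose order divides `k`. -/
def pw (C : Subgroup G) [IsMulCommutative C] (k : ℕ) : Subgroup G :=
  (powMonoidHom k : C →* C).ker.map C.subtype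

omit [Finite G] in
theorem mem_pw {C : Subgroup G} [IsMulCommutative C] {t : G} : t ∈ pw C k ↔ t ∈ C ∧ t ^ k = 1 :=
  ⟨fun ⟨a, h, e⟩ => e ▸ ⟨a.2, congrArg Subtype.val h⟩, fun h => ⟨⟨t, h.1⟩, Subtype.ext h.2, rfl⟩⟩

theorem pw_dvd {C : Subgroup G} [IsMulCommutative C] (h : Nat.card C = k * d) (cop : k.Coprime d) :
    Nat.card (pw C k) ∣ k :=
  (Nat.coprime_of_dvd fun p hp h1 h2 => by
    obtain ⟨a, ha, o⟩ := exists_socle_elt hp h1
    exact Nat.not_coprime_of_dvd_of_dvd hp.one_lt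
      (o ▸ orderOf_dvd_of_pow_eq_one (mem_pw.1 ha).2) h2 cop).dvd_of_dvd_mul_right
    (h ▸ card_dvd_of_le fun _ ha => (mem_pw.1 ha).1)

omit [Finite G] in
theorem pw_split {C : Subgroup G} [IsMulCommutative C] (h : Nat.card C = k * d)
    (cop : k.Coprime d) {t : G} (ht : t ∈ C) : ∃ b ∈ pw C k, ∃ z ∈ pw C d, t = b * z := by
  obtain ⟨u, v, e⟩ := Nat.isCoprime_iff_coprime.2 cop
  have h1 : t ^ (k * d : ℤ) = 1 := by
    exact_mod_cast orderOf_dvd_iff_pow_eq_one.1 (h ▸ C.orderOf_dvd_natCard ht)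
  refine ⟨t ^ (v * d), mem_pw.2 ⟨zpow_mem ht _, ?_⟩, t ^ (u * k), mem_pw.2 ⟨zpow_mem ht _, ?_⟩, by
    rw [← zpow_add, add_comm, e, zpow_one]⟩
  · rw [← zpow_natCast, ← zpow_mul, show v * d * k = k * d * v by ring, zpow_mul, h1, one_zpow]
  · rw [← zpow_natCast, ← zpow_mul, show u * k * d = k * d * u by ring, zpow_mul, h1, one_zpow]

theorem pw_card {C : Subgroup G} [IsMulCommutative C] (h : Nat.card C = k * d)
    (cop : k.Coprime d) : Nat.card (pw C k) = k ∧ Nat.card (pw C d) = d := by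
  have h0 : 0 < k * d := h ▸ Nat.card_pos
  have h1 := Nat.le_of_dvd (Nat.pos_of_mul_pos_right h0) (pw_dvd h cop)
  have h2 := Nat.le_of_dvd (Nat.pos_of_mul_pos_left h0) (pw_dvd (h.trans (mul_comm _ _)) cop.symm)
  have h3 := Nat.card_le_card_of_surjective (fun p : pw C k × pw C d =>
    (⟨p.1 * p.2, mul_mem (mem_pw.1 p.1.2).1 (mem_pw.1 p.2.2).1⟩ : C)) fun t => by
      obtain ⟨b, hb, z, hz, e⟩ := pw_split h cop t.2
      exact ⟨(⟨b, hb⟩, ⟨z, hz⟩), Subtype.ext e.symm⟩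
  rw [Nat.card_prod, h] at h3
  have := Nat.pos_of_mul_pos_right h0
  have := Nat.pos_of_mul_pos_left h0
  constructor <;> nlinarith

/-- If there are many classes, some character vanishes on all `k`-singular elements. -/
theorem bc_van (hr : r.Prime) (hy : orderOf y = r) (hk : Nat.card (Cx y) = k * d)
    (cop : k.Coprime d) (rk : r ∣ k) (hN : Nat.card (Nx y) = e * (k * d))
    (hab : ∀ z : G, (orderOf z).Prime → orderOf z ∣ k → IsMulCommutative (Cx z))
    (hcy : ∀ s, s.Prime → s ∣ k → Cyc G s) (hd : d = 1 ∨ d.Prime) (he : d.totient.Coprime e)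
    (h4 : 36 ∣ Nat.card G) (L : List (ℕ × ℚ)) (hL : (L.map Prod.fst).Nodup)
    (hM : ∀ p ∈ L, p.1.Coprime k ∧ Mny G (· = p.1) p.2)
    (h : (d * e : ℚ) < 4 * (1 - (k - 1) / (e * k)) + (L.map Prod.snd).sum)
    {s : ℕ} (hs : s.Prime) (sk : s ∣ k) (z : G) (hz : s ∣ orderOf z) : orderOf z ∈ Vo G := by
  have := Fintype.ofFinite G
  have := hab y (hy ▸ hr) (hy ▸ rk)
  obtain ⟨cA, cD⟩ := pw_card hk cop
  have y1 : y ∈ Cx y := mem_centralizer_singleton_iff.2 rfl
  have hn : normalizer (pw (Cx y) k : Set G) = Nx y := le_antisymm (fun u hu => by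
      have := Fact.mk hr
      have a := (mem_pw.1 ((mem_normalizer_iff.1 hu y).1
        (mem_pw.2 ⟨y1, orderOf_dvd_iff_pow_eq_one.1 (hy ▸ rk)⟩))).1
      obtain ⟨l, hl, b⟩ := cyc_conj (hcy r hr rk) (Cx y) hy
        (((MulAut.conj u).orderOf_eq y).trans hy) y1 a
      rw [MulAut.conj_apply, setLike_mul_comm hl a, mul_inv_cancel_right] at b
      exact mem_norm (mem_zpowers y) b)
    fun u hu => mem_normalizer_fintype fun a ha => mem_pw.2 ⟨conj_mem_Cx hu (mem_pw.1 ha).1, by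
      rw [conj_pow, (mem_pw.1 ha).2, mul_one, mul_inv_cancel]⟩
  have le : ∀ j, IsMulCommutative (pw (Cx y) j) := fun j =>
    ⟨⟨fun a b => Subtype.ext (setLike_mul_comm (mem_pw.1 a.2).1 (mem_pw.1 b.2).1)⟩⟩
  have T : Tz (pw (Cx y) k) (pw (Cx y) d) e := by
    refine ⟨le k, le d, fun u hu t ht => ?_, fun a ha a1 u hu => pw_split hk cop ?_,
      by rwa [cA, cD], by rwa [hn, cA, cD]⟩
    · rw [hn] at hu
      have n1 : Nx y ≤ normalizer (pw (Cx y) d : Set G) := fun u hu =>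
        mem_normalizer_fintype fun a ha => mem_pw.2 ⟨conj_mem_Cx hu (mem_pw.1 ha).1, by
          rw [conj_pow, (mem_pw.1 ha).2, mul_one, mul_inv_cancel]⟩
      have : IsCyclic (pw (Cx y) d) := hd.elim
        (fun c => have := (Nat.card_eq_one_iff_unique.1 (cD.trans c)).1; isCyclic_of_subsingleton)
        fun c => have := Fact.mk c; isCyclic_of_prime_card cD
      have n2 : (zpowers y).normalizerMonoidHom.ker.index = e :=
        Nat.eq_of_mul_eq_mul_left (Nat.card_pos (α := Cx y)) (by rw [nx_ker, hN, hk, mul_comm])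
      have n3 := (zpowers y).normalizerMonoidHom.ker.pow_index_mem ⟨u, hu⟩
      rw [n2, normalizerMonoidHom_ker, cx_zp] at n3
      have n4 : (pw (Cx y) d).normalizerMonoidHom ⟨u, n1 hu⟩ = 1 :=
        (pow_eq_one_iff_of_coprime he).1 ⟨by
          rw [← congrArg Nat.totient cD, ← IsCyclic.card_mulAut, pow_card_eq_one'], by
          rw [← map_pow, ← MonoidHom.mem_ker, normalizerMonoidHom_ker]
          exact fun a ha => setLike_mul_comm (mem_pw.1 ha).1 n3⟩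
      rw [← MonoidHom.mem_ker, normalizerMonoidHom_ker] at n4
      exact (n4 t ht).symm
    · obtain ⟨p, hp, c⟩ := Nat.exists_prime_and_dvd (mt orderOf_eq_one_iff.1 a1)
      have o := orderOf_pow_orderOf_div (orderOf_pos a).ne' c
      have := hab _ (o.symm ▸ hp) (o.symm ▸ c.trans (orderOf_dvd_of_pow_eq_one (mem_pw.1 ha).2))
      exact mem_centralizer_singleton_iff.2 (setLike_mul_comm (s := Cx (a ^ (orderOf a / p)))
        (mem_centralizer_singleton_iff.2 (Commute.pow_right hu _))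
        (mem_centralizer_singleton_iff.2 (Commute.pow_right
          (mem_centralizer_singleton_iff.1 (mem_pw.1 ha).1).symm _)))
  have := Fact.mk hs
  obtain ⟨a, ha, oa⟩ := exists_socle_elt hs (cA.symm ▸ sk)
  have o := orderOf_pow_orderOf_div (orderOf_pos z).ne' hz
  obtain ⟨l, -, hl⟩ := cyc_conj (hcy s hs sk) ⊤ oa o trivial trivial
  obtain ⟨b, hb, t, ht, e1⟩ := T.cen _ (zpowers_le.2 ha hl)
    (fun c => hs.ne_one (o ▸ orderOf_eq_one_iff.2 (conj_eq_one_iff.1 c))) (l * z * l⁻¹) (by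
      rw [conj_mul, conj_mul, (Commute.self_pow z _).eq])
  have o1 : orderOf z = orderOf (b * t) := e1 ▸ ((MulAut.conj l).orderOf_eq z).symm
  rw [o1]
  refine T.van (cx_four h4) L hL (by rwa [cA]) (by rwa [cA, cD]) hb (fun c => ?_) ht
  rw [o1, c, one_mul] at hz
  exact Nat.not_coprime_of_dvd_of_dvd hs.one_lt sk
    (hz.trans (orderOf_dvd_of_pow_eq_one (mem_pw.1 ht).2)) cop

theorem cyc_once (hr : r.Prime) (hc : Nat.card G = r * c) (h : ¬ r ∣ c) : Cyc G r := by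
  have := Fact.mk hr
  obtain ⟨y, hy⟩ := exists_prime_orderOf_dvd_card' (G := G) r (hc ▸ Dvd.intro _ rfl)
  refine cyc_of_order hr (c := 1) (hy.trans (pow_one r).symm) fun a => h ?_
  rwa [hc, pow_succ, pow_one, Nat.mul_dvd_mul_iff_left hr.pos] at a

/-- The case of one prime whose centraliser is abelian of order dividing `r * B`. -/
theorem bc_prime (hr : r.Prime) (hc : Nat.card G = r * c) (h : ¬ r ∣ c) {B : ℕ}
    (hab : ∀ z : G, orderOf z = r → IsMulCommutative (Cx z) ∧ Nat.card (Cx z) ∣ r * B)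
    (h4 : 36 ∣ Nat.card G) (L : List (ℕ × ℚ)) (hL : (L.map Prod.fst).Nodup)
    (hM : ∀ p ∈ L, p.1.Coprime r ∧ Mny G (· = p.1) p.2)
    (hi : ∀ d ∈ B.divisors, ∀ e ∈ (r - 1).divisors, d * e % r = c % r → (d = 1 ∨ d.Prime) ∧
      d.totient.Coprime e ∧ (d * e : ℚ) < 4 * (1 - (r - 1) / (e * r)) + (L.map Prod.snd).sum)
    (hB : B ≠ 0) (z : G) (hz : r ∣ orderOf z) : orderOf z ∈ Vo G := by
  have := Fact.mk hr
  obtain ⟨y, hy⟩ := exists_prime_orderOf_dvd_card' (G := G) r (hc ▸ Dvd.intro _ rfl)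
  obtain ⟨d, e, h1, h2, h3, h5⟩ := syl_cnt hr hy hc h
  obtain ⟨a1, a2, a3⟩ := hi d (Nat.mem_divisors.2 ⟨Nat.dvd_of_mul_dvd_mul_left hr.pos
    (h1 ▸ (hab y hy).2), hB⟩) e (Nat.mem_divisors.2 ⟨h3, (Nat.sub_pos_of_lt hr.one_lt).ne'⟩) h5
  refine bc_van hr hy h1 (hr.coprime_iff_not_dvd.2 fun a => h ((Nat.modEq_zero_iff_dvd.1
    (h5.symm.trans (Nat.modEq_zero_iff_dvd.2 (a.mul_right e)))))) dvd_rfl h2 (fun z p a => (hab z
      ((Nat.prime_dvd_prime_iff_eq p hr).1 a)).1) (fun s p a => (Nat.prime_dvd_prime_iff_eq p hr).1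
        a ▸ cyc_once hr hc h) a1 a2 h4 L hL hM a3 hr dvd_rfl z hz

/-- The classes of elements of a second prime order. -/
theorem mny_prime (hr : r.Prime) (h4 : 4 ≤ r) (hc : Nat.card G = r * c) (h : ¬ r ∣ c) {B E : ℕ}
    (hab : ∀ z : G, orderOf z = r → Nat.card (Cx z) ∣ r * B)
    (hi : ∀ d ∈ B.divisors, ∀ e ∈ (r - 1).divisors, d * e % r = c % r → e ≤ E) (hB : B ≠ 0) :
    Mny G (· = r) ((r - 1) / E * (1 - 4 / r)) := by
  have := Fact.mk hr
  obtain ⟨y, hy⟩ := exists_prime_orderOf_dvd_card' (G := G) r (hc ▸ Dvd.intro _ rfl)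
  obtain ⟨d, e, h1, h2, h3, h5⟩ := syl_cnt hr hy hc h
  exact mny_tor hr h4 hy (h1 ▸ h2) (hi d (Nat.mem_divisors.2 ⟨Nat.dvd_of_mul_dvd_mul_left hr.pos
    (h1 ▸ hab y hy), hB⟩) e (Nat.mem_divisors.2 ⟨h3, (Nat.sub_pos_of_lt hr.one_lt).ne'⟩) h5)

/-- An isolated prime has a centraliser of prime order. -/
theorem cx_isol (hr : r.Prime) (hc : Nat.card G = r * c) (h : ¬ r ∣ c)
    (ha : ∀ u, u.Prime → Adj G u r → u ∣ r) (z : G) (hz : orderOf z = r) :
    IsMulCommutative (Cx z) ∧ Nat.card (Cx z) ∣ r * 1 := by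
  have I : Isol z c := ⟨hz ▸ hc, hz ▸ hr.coprime_iff_not_dvd.2 h, fun s u hs hu a b e => by
    obtain rfl := (Nat.prime_dvd_prime_iff_eq hs hr).1 (hz ▸ a)
    exact h ((Nat.prime_dvd_prime_iff_eq hu hs).1 (ha u hu e) ▸ b)⟩
  have := I.cen (mem_zpowers z) fun a => hr.ne_one (hz ▸ orderOf_eq_one_iff.2 a)
  rw [← cx_zp, this, Nat.card_zpowers, hz, mul_one]
  exact ⟨inferInstance, dvd_rfl⟩

end Pool.Agent.Lib.MP_7d41f7_al
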