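import Pool.Agent.Lib.MP_7d41f7_al.F.NList
import Pool.Agent.Lib.MP_7d41f7_al.D.AFin

/-! The checker: definitions. -/

set_option autoImplicit false

namespace Pool.Agent.Lib.MP_7d41f7_al

open Subgroup

/-- The primes of `k` have cyclic Sylow subgroups and their neighbours divide `C`. -/
def ND (G : Type) [Group G] (k C : ℕ) : Prop :=
  ∀ r, r.Prime → r ∣ k → Cyc G r ∧ ∀ u, u.Prime → u ≠ r → Adj G u r → u ∣ C

/-- `H` is the socle of `G ⧸ K`. -/
structure Sec {G : Type} [Group G] (K : Subgroup G) [K.Normal] (H : Subgroup (G ⧸ K)) : Prop where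
  nrm : H.Normal
  sim : IsSimpleGroup H
  nab : ¬ IsMulCommutative H
  cen : centralizer (H : Set (G ⧸ K)) = ⊥

/-- The second case of the theorem. -/
def Off5 (G : Type) [Group G] : Prop :=
  ∃ (K : Subgroup G) (_ : K.Normal) (H : Subgroup (G ⧸ K)), H.Normal ∧
    IsSimpleGroup H ∧ ¬ IsMulCommutative H ∧ centralizer (H : Set (G ⧸ K)) = ⊥ ∧ ¬ OnList5 H

/-- Names of the simple groups. -/
inductive Ds
  | alt (m : ℕ) | lin (m u : ℕ) | uni (m u : ℕ) | sym (m u : ℕ) | dp (m u : ℕ) | dm (m u : ℕ)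
  | chev (x : Ex) (u : ℕ) | ree (y : Re) (m : ℕ) | spor (N r : ℕ)
  deriving DecidableEq

/-- `H` is the group named `d`. -/
def IsD (H : Type) [Group H] : Ds → Prop
  | .alt m => 5 ≤ m ∧ Nonempty (H ≃* alternatingGroup (Fin m))
  | .lin m u => 2 ≤ m ∧ IsSL H m u
  | .uni m u => 3 ≤ m ∧ IsSU H m u
  | .sym m u => 2 ≤ m ∧ IsSp H m u ∨ 3 ≤ m ∧ IsOm H (2 * m + 1) u
  | .dp m u => 4 ≤ m ∧ IsOm H (2 * m) u ∧ OrdD 1 m u (Nat.card H)
  | .dm m u => 4 ≤ m ∧ IsOm H (2 * m) u ∧ OrdD (-1) m u (Nat.card H)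
  | .chev x u => IsChev H x u
  | .ree y m => IsRee H y m
  | .spor N r => Spor H N r

/-- The result of the checker. -/
def Out (G : Type) [Group G] (al : List Ds) : Prop :=
  ∃ (K : Subgroup G) (_ : K.Normal) (H : Subgroup (G ⧸ K)), Sec K H ∧
    (OnList5 H → ∃ d ∈ al, IsD H d)

/-- Facts about the orders of the three factors. -/
structure NF0 (G : Type) [Group G] (k h i E : ℕ) : Prop where
  prod : Nat.card G = k * h * i
  idx : i ∣ E
  free : ∀ r u, r.Prime → u.Prime → ¬ r ∣ k → NAd G u r →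
    u ^ k.factorization u ≡ 1 [MOD r ^ (Nat.card G).factorization r]
  top : ∀ r u, r.Prime → u.Prime → Cyc G r → r ∣ h → NAd G u r → u ^ i.factorization u ∣ r - 1

/-- More facts, for a nonabelian socle. -/
structure NF (G : Type) [Group G] (k h i E : ℕ) : Prop extends NF0 G k h i E where
  ni : ∀ r, r.Prime → Cyc G r → r ∣ h → ¬ r ∣ i
  gl : ∀ r u, r.Prime → u.Prime → r ∣ h → ¬ r ∣ k → u ∣ k → NAd G u r →
    ∃ j, u ^ j ∣ k ∧ h ∣ ∏ x ∈ Finset.range j, (u ^ j - u ^ x)
  inK : ∀ s u, s.Prime → u.Prime → Cyc G s → s ∣ k → u ∣ h → ¬ NAd G u s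
  inI : ∀ s u, s.Prime → u.Prime → s ∣ i → ¬ s ∣ k → ¬ s ∣ h → NAd G u s →
    u ^ h.factorization u ≡ 1 [MOD s]

/-- Facts for a cyclic socle. -/
structure NC0 (G : Type) [Group G] (r k i : ℕ) : Prop extends
    NF0 G k (r ^ (Nat.card G).factorization r) i (r - 1) where
  nk : ¬ r ∣ k
  one : ∀ s, s.Prime → Cyc G s → s ∣ k → 1 < i → ¬ NAd G r s
  two : ∀ s u, s.Prime → u.Prime → Cyc G s → s ∣ k → NAd G u s →
    u ^ (Nat.card G / k).factorization u ∣ s - 1

/-- A block: a Hall divisor `B`, its prime (or `0`), the bound for its neighbours (or `0`). -/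
abbrev Blk := ℕ × ℕ × ℕ

/-- The blocks are a coprime factorisation of the order. -/
structure Bls (G : Type) [Group G] (bl : List Blk) : Prop where
  dvd : ∀ b ∈ bl, 1 < b.1 ∧ b.1 ∣ Nat.card G ∧ b.1.Coprime (Nat.card G / b.1)
  cop : bl.Pairwise fun b c => b.1.Coprime c.1
  cov : ∀ r, r.Prime → r ∣ Nat.card G → ∃ b ∈ bl, r ∣ b.1
  pp : ∀ b ∈ bl, b.2.1 ≠ 0 → b.2.1.Prime ∧ ∃ a, b.1 = b.2.1 ^ a
  nd : ∀ b ∈ bl, b.2.2 ≠ 0 → ND G b.1 b.2.2

section prim

variable {α β : Type}

/-- Evaluate `x` first. -/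
def fN (x : ℕ) (k : ℕ → α) : α := Nat.rec (k 0) (fun n _ => k n.succ) x

/-- Evaluate `l` first. -/
def fL (l : List Blk) : (List Blk → α) → α :=
  List.rec (fun k => k []) (fun b _ ih k => fN b.1 fun x => fN b.2.1 fun y => fN b.2.2 fun z =>
    ih fun t => k ((x, y, z) :: t)) l

/-- All members. -/
def aL (l : List α) (p : α → Bool) : Bool := List.rec true (fun a _ ih => p a && ih) l

/-- Some member. -/
def eL (l : List α) (p : α → Bool) : Bool := List.rec false (fun a _ ih => p a || ih) l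

/-- Right fold. -/
def rL (l : List α) (f : α → β → β) (z : β) : β := List.rec z (fun a _ ih => f a ih) l

/-- Filter. -/
def flt (l : List α) (p : α → Bool) : List α :=
  List.rec [] (fun a _ ih => bif p a then a :: ih else ih) l

/-- All numbers below `n`. -/
def aN (n : ℕ) (p : ℕ → Bool) : Bool := Nat.rec true (fun i ih => p i && ih) n

/-- Product over the numbers below `n`. -/
def pN (n : ℕ) (f : ℕ → ℕ) : ℕ := Nat.rec 1 (fun i ih => Nat.mul (f i) ih) n

/-- Check `q` upwards while `p` holds. -/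
def lp (p q : ℕ → Bool) (F : ℕ) : ℕ → Bool :=
  Nat.rec (fun _ => false) (fun _ ih n => bif p n then q n && fN n.succ ih else true) F

/-- Coprime. -/
def cp (a b : ℕ) : Bool := Nat.beq (Nat.gcd a b) 1

/-- Divides. -/
def dv (a b : ℕ) : Bool := Nat.beq (Nat.mod b a) 0

/-- Congruent to one. -/
def m1 (x P : ℕ) : Bool := Nat.beq (Nat.mod x P) (Nat.mod 1 P)

/-- Zero. -/
def z0 (x : ℕ) : Bool := Nat.beq x 0

/-- The part of `x` prime to `y`. -/
def cop (x y : ℕ) : ℕ :=
  Nat.rec (motive := fun _ => ℕ → ℕ → ℕ) (fun _ _ => 1) (fun _ ih x y => fN (Nat.gcd x y) fun d =>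
    bif Nat.beq d 1 then x else fN (Nat.div x d) fun z => ih z (Nat.mul d d)) x.log2.succ x y

/-- The primitive part of `q ^ e - 1`. -/
def pkc (q e : ℕ) : ℕ := fN (q ^ e - 1) fun x => fN (pN (e - 1) fun j => q ^ (j + 1) - 1) (cop x)

/-- Every prime of `B` divides `k`. -/
def sub (B k : ℕ) : Bool := dv B (Nat.pow k B.log2)

/-- The product of the primes below `2100`. -/
def PRM : ℕ :=
  6853237086613402904325039546665345564280764694650259095088048661767515843425416072058440776120316130065616287922166491177483476421157520059738606431843168970457691831918941537385700453432846542341423915156456627748553688168162795250966210890914859947899911558322981972705573745561147211796197739439695219610453884644462421380168396264503845785159077237162279985433516857719431167309653221504019122557228857030538029402655807787789043766489181779145671597051960736767637173121034491249565299020949538472484855561112835394836077078608438970744177709981646411102019388052693715892406717187586841224945843998049358996272706410708307771265050166583929741545799955093010098437655871619041483293772363027998899568338092105446446142037761017016878185935360135514081736956269366772906295720182291698521577536053744932399481036859600944485541354202579566877761620621397864265326968768705245955140190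

/-- The primes below `2100`. -/
def SP : List ℕ :=
  [2, 3, 5, 7, 11, 13, 17, 19, 23, 29, 31, 37, 41, 43, 47, 53, 59, 61, 67, 71, 73, 79, 83, 89,
    97, 101, 103, 107, 109, 113, 127, 131, 137, 139, 149, 151, 157, 163, 167, 173, 179, 181,
    191, 193, 197, 199, 211, 223, 227, 229, 233, 239, 241, 251, 257, 263, 269, 271, 277, 281,
    283, 293, 307, 311, 313, 317, 331, 337, 347, 349, 353, 359, 367, 373, 379, 383, 389, 397,
    401, 409, 419, 421, 431, 433, 439, 443, 449, 457, 461, 463, 467, 479, 487, 491, 499, 503,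
    509, 521, 523, 541, 547, 557, 563, 569, 571, 577, 587, 593, 599, 601, 607, 613, 617, 619,
    631, 641, 643, 647, 653, 659, 661, 673, 677, 683, 691, 701, 709, 719, 727, 733, 739, 743,
    751, 757, 761, 769, 773, 787, 797, 809, 811, 821, 823, 827, 829, 839, 853, 857, 859, 863,
    877, 881, 883, 887, 907, 911, 919, 929, 937, 941, 947, 953, 967, 971, 977, 983, 991, 997,
    1009, 1013, 1019, 1021, 1031, 1033, 1039, 1049, 1051, 1061, 1063, 1069, 1087, 1091, 1093,
    1097, 1103, 1109, 1117, 1123, 1129, 1151, 1153, 1163, 1171, 1181, 1187, 1193, 1201, 1213,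
    1217, 1223, 1229, 1231, 1237, 1249, 1259, 1277, 1279, 1283, 1289, 1291, 1297, 1301, 1303,
    1307, 1319, 1321, 1327, 1361, 1367, 1373, 1381, 1399, 1409, 1423, 1427, 1429, 1433, 1439,
    1447, 1451, 1453, 1459, 1471, 1481, 1483, 1487, 1489, 1493, 1499, 1511, 1523, 1531, 1543,
    1549, 1553, 1559, 1567, 1571, 1579, 1583, 1597, 1601, 1607, 1609, 1613, 1619, 1621, 1627,
    1637, 1657, 1663, 1667, 1669, 1693, 1697, 1699, 1709, 1721, 1723, 1733, 1741, 1747, 1753,
    1759, 1777, 1783, 1787, 1789, 1801, 1811, 1823, 1831, 1847, 1861, 1867, 1871, 1873, 1877,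
    1879, 1889, 1901, 1907, 1913, 1931, 1933, 1949, 1951, 1973, 1979, 1987, 1993, 1997, 1999,
    2003, 2011, 2017, 2027, 2029, 2039, 2053, 2063, 2069, 2081, 2083, 2087, 2089, 2099]

/-- A primality test below `2100 ^ 2`. -/
def primeB (v : ℕ) : Bool :=
  bif Nat.blt v 47 then eL [2, 3, 5, 7, 11, 13, 17, 19, 23, 29, 31, 37, 41, 43] (Nat.beq v)
  else bif Nat.blt v 2209 then cp v 13082761331670030 else Nat.blt v 4410000 && cp v PRM

/-- A test passed by all prime powers. -/
def ppB (q : ℕ) : Bool :=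
  aL [2, 3, 5, 7, 11, 13, 17, 19, 23, 29, 31, 37, 41, 43] fun p => !dv p q || sub q p

end prim

section order

/-- The field. -/
def Ds.u : Ds → ℕ
  | .lin _ u => u | .uni _ u => u | .sym _ u => u | .dp _ u => u | .dm _ u => u | .chev _ u => u
  | .ree y m => y.q m | _ => 1

/-- The exponent of the field order. -/
def Ds.N : Ds → ℕ
  | .lin m _ => m * (m - 1) / 2 | .uni m _ => m * (m - 1) / 2 | .sym m _ => m * m
  | .dp m _ => m * (m - 1) | .dm m _ => m * (m - 1) | .chev x _ => x.N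
  | .ree .B2 _ => 2 | .ree .G2 _ => 3 | .ree .F4 _ => 12 | _ => 0

/-- The product of the numbers `u ^ i - 1`. -/
def pmL (u : ℕ) (l : List ℕ) : ℕ := rL l (fun i x => (u ^ i - 1) * x) 1

/-- The part of the order of the universal group prime to the characteristic. -/
def Ds.W : Ds → ℕ
  | .lin m u => pN (m - 1) fun i => u ^ (i + 2) - 1
  | .uni m u => pN (m - 1) fun i => bif dv 2 i then u ^ (i + 2) - 1 else u ^ (i + 2) + 1
  | .sym m u => pN m fun i => u ^ (2 * i + 2) - 1
  | .dp m u => (u ^ m - 1) * pN (m - 1) fun i => u ^ (2 * i + 2) - 1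
  | .dm m u => (u ^ m + 1) * pN (m - 1) fun i => u ^ (2 * i + 2) - 1
  | .chev .E6 u => pmL u [12, 9, 8, 6, 5, 2]
  | .chev .U6 u => (u ^ 9 + 1) * (u ^ 5 + 1) * pmL u [12, 8, 6, 2]
  | .chev .E7 u => pmL u [18, 14, 12, 10, 8, 6, 2]
  | .chev .E8 u => pmL u [30, 24, 20, 18, 14, 12, 8, 2]
  | .chev .F4 u => pmL u [12, 8, 6, 2]
  | .chev .G2 u => pmL u [6, 2]
  | .chev .D3 u => (u ^ 8 + u ^ 4 + 1) * pmL u [6, 2]
  | .ree .B2 m => fN (Re.B2.q m) fun u => (u ^ 2 + 1) * (u - 1)
  | .ree .G2 m => fN (Re.G2.q m) fun u => (u ^ 3 + 1) * (u - 1)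
  | .ree .F4 m => fN (Re.F4.q m) fun u => (u ^ 6 + 1) * (u ^ 3 + 1) * pmL u [4, 1]
  | .alt m => pN (m - 2) fun i => i + 3
  | .spor N _ => N

/-- The order of the centre of the universal group. -/
def Ds.c : Ds → ℕ
  | .lin m u => Nat.gcd m (u - 1) | .uni m u => Nat.gcd m (u + 1) | .sym _ u => Nat.gcd 2 (u - 1)
  | .dp m u => Nat.gcd 4 (u ^ m - 1) | .dm m u => Nat.gcd 4 (u ^ m + 1)
  | .chev .E6 u => Nat.gcd 3 (u - 1) | .chev .U6 u => Nat.gcd 3 (u + 1)
  | .chev .E7 u => Nat.gcd 2 (u - 1) | _ => 1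

/-- The order of the group named `d`. -/
def Ds.ord (d : Ds) : ℕ := d.u ^ d.N * d.W / d.c

/-- The names left out. -/
def Ds.ex : Ds → Bool
  | .lin m u => Nat.beq m 2 && (Nat.ble u 5 || Nat.beq u 9) || Nat.ble m 4 && Nat.beq u 2
  | .uni m u => Nat.beq m 3 && Nat.beq u 2
  | .sym m u => Nat.beq m 2 && Nat.ble u 3
  | .chev .G2 u => Nat.beq u 2
  | .ree _ m => z0 m
  | _ => false

end order

section check

/-- No prime of `a` is adjacent to a prime of `b`. -/
def na (a b : Blk) : Bool := cp a.1 b.1 && (cp a.1 b.2.2 || cp b.1 a.2.2)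

/-- The blocks are correct. -/
def valid (g : ℕ) (nd : List (ℕ × ℕ)) (bl : List Blk) : Bool :=
  Nat.beq g (rL bl (fun b x => fN x fun x => bif cp b.1 x then Nat.mul b.1 x else 0) 1) &&
  aL bl fun b => Nat.blt 1 b.1 && (z0 b.2.1 || primeB b.2.1 && sub b.1 b.2.1) &&
    (z0 b.2.2 || eL nd fun x => Nat.beq b.2.2 x.2 && sub (bif z0 b.2.1 then b.1 else b.2.1) x.1)

/-- The blocks, found by stripping small primes and by the hints. -/
def mkBl (g : ℕ) (hs : List ℕ) (nd : List (ℕ × ℕ)) : List Blk :=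
  let C := fun v => rL nd (fun x c => bif sub v x.1 then x.2 else c) 0
  fN (Nat.gcd g PRM) fun s =>
  List.rec (motive := fun _ => ℕ → List Blk → List Blk)
    (fun g acc => List.rec (motive := fun _ => ℕ → List Blk → List Blk)
      (fun g acc => bif Nat.beq g 1 then acc else
        (g, bif Nat.blt g 4410000 then g else 0, C g) :: acc)
      (fun x _ ih g acc => fN (Nat.gcd g x) fun d => bif Nat.beq d 1 then ih g acc else
        fN (cop g d) fun z => ih z
          ((Nat.div g z, bif Nat.blt d 4410000 then d else 0, C d) :: acc)) hs g acc)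
    (fun p _ ih g acc => bif dv p s then fN (cop g p) fun z => ih z ((Nat.div g z, p, C p) :: acc)
      else ih g acc) SP g []

/-- The product of the blocks. -/
def prP (A : List Blk) : ℕ := rL A (fun c x => Nat.mul c.1 x) 1

/-- The bound for the top factor. -/
def prJ (A : List Blk) (E : ℕ) : ℕ :=
  rL A (fun c x => bif z0 c.2.2 then x else Nat.gcd c.1.pred x) E

/-- The bound for the part in the radical. -/
def mxX (v P B : ℕ) : ℕ :=
  Nat.rec (motive := fun _ => ℕ → ℕ) (fun X => X) (fun _ ih X => bif Nat.ble X P then 1 else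
    bif z0 v || m1 X P then X else fN (Nat.div X v) ih) B.log2.succ B

/-- A divisor of the part of `b` in the socle. -/
def keep (R : List Blk) (E : ℕ) (b : Blk) : ℕ :=
  bif eL R fun c => Nat.beq c.1 b.1 then b.1 else fL (flt R (na b)) fun A => fN (prP A) fun P =>
    Nat.div b.1 (Nat.gcd b.1 (Nat.mul (mxX b.2.1 P b.1) (prJ A E)))

/-- Rounds. -/
def rnd (bl : List Blk) (E n : ℕ) : List Blk → (List Blk → Bool) → Bool :=
  Nat.rec (fun R k => k R)
    (fun _ ih R k => fL (flt bl fun b => Nat.beq (keep R E b) b.1) fun R' => ih R' k) n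

/-- The order of `GL(x, v)` modulo `h`. -/
def glm (v h x : ℕ) : ℕ :=
  Nat.rec (motive := fun _ => ℕ → ℕ) (fun a => a)
    (fun j ih a => fN (a * v ^ j * (v ^ (j + 1) - 1) % h) ih) x 1

/-- The part of the block `b` outside the socle cannot be distributed. -/
def k1 (E h : ℕ) (bl R : List Blk) (b : Blk) : Bool :=
  fN (Nat.div b.1 (Nat.gcd b.1 h)) fun w => !Nat.beq w 1 &&
  bif z0 b.2.1 then !dv (keep R E b) h else
  fL (flt R (na b)) fun A => fN (prP A) fun P => fN (prJ A E) fun J =>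
  aN w.log2.succ fun x => fN (Nat.pow b.2.1 x) fun X => !dv X w || !m1 X P ||
    fN (Nat.div w X) fun Y => !dv Y J ||
    !z0 x && (!z0 b.2.2 && (eL bl fun c => na b c && !cp c.1 h) ||
      !Nat.beq P 1 && !dv h (glm b.2.1 h x)) ||
    !Nat.beq Y 1 && bif cp b.2.1 h then
      z0 x && eL bl fun c => na b c && !m1 (Nat.gcd c.1 h) b.2.1 else !z0 b.2.2

/-- Two members that are not adjacent. -/
def pr2 (A : List Blk) : Bool := eL A fun b => eL A (na b)

/-- Rules for alternating groups and for `L₂(u)`. -/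
def k3 (bl : List Blk) : Ds → Bool
  | .alt m => fL (flt bl fun b => !z0 b.2.1 && Nat.ble b.2.1 m) fun A => eL A fun b =>
      bif Nat.beq b.2.1 2 then eL A fun c => Nat.ble (c.2.1 + 4) m && na b c else
      !z0 b.2.2 && Nat.ble (2 * b.2.1) m ||
        eL A fun c => Nat.ble (b.2.1 + c.2.1) m && !Nat.beq c.2.1 2 && na b c
  | .lin m u => Nat.beq m 2 && (fL (flt bl fun b => !dv 2 b.1 && !cp b.1 (u - 1)) pr2 ||
      fL (flt bl fun b => !dv 2 b.1 && !cp b.1 (u + 1)) pr2)
  | _ => false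

/-- The bound for the index. -/
def Ds.E (E : ℕ) : Ds → ℕ
  | .spor _ _ => Nat.gcd E 2
  | _ => E

/-- The candidate `d` of order `h` is allowed or impossible. -/
def cand (g E D : ℕ) (bl : List Blk) (al : List Ds) (d : Ds) (h : ℕ) : Bool :=
  !dv h g || !dv D h || d.ex || (eL al fun e => decide (e = d)) || k3 bl d ||
    fL (flt bl fun b => dv b.1 h) fun R => fN (d.E E) fun E => eL bl (k1 E h bl R)

/-- The alternating groups. -/
def altL (g : ℕ) (cd : Ds → ℕ → Bool) : Bool :=
  Nat.rec (motive := fun _ => ℕ → ℕ → Bool) (fun _ _ => false) (fun _ ih m h => bif dv h g then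
    cd (.alt m) h && fN m.succ fun m => fN (Nat.mul h m) (ih m) else true) g.log2 5 60

/-- One group of Lie type. -/
def lie (B D3 : ℕ) (cd : Ds → ℕ → Bool) (d : Ds) : Bool :=
  fN (Nat.pow d.u d.N) fun X => Nat.blt B X || Nat.ble (Nat.pow X 5) D3 || fN d.ord (cd d)

/-- One family of classical groups. -/
def fam (B D3 : ℕ) (cd : Ds → ℕ → Bool) (mk : ℕ → Ds) (n : ℕ) : Bool :=
  lp (fun n => Nat.ble (Nat.pow (mk n).u (mk n).N) B) (fun n => lie B D3 cd (mk n)) B.log2 n

/-- All groups of Lie type other than `L₂` over the field with `u = v ^ f` elements. -/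
def allT (B D3 : ℕ) (cd : Ds → ℕ → Bool) (v f u : ℕ) : Bool :=
  (Nat.blt B (Nat.pow u 3) || fam B D3 cd (.lin · u) 3 && fam B D3 cd (.uni · u) 3 &&
    fam B D3 cd (.sym · u) 2 && (Nat.blt B (Nat.pow u 6) || fam B D3 cd (.dp · u) 4 &&
      fam B D3 cd (.dm · u) 4 &&
      aL [Ex.E6, .U6, .E7, .E8, .F4, .G2, .D3] fun x => lie B D3 cd (.chev x u))) &&
  (dv 2 f || (!Nat.beq v 2 || lie B D3 cd (.ree .B2 (f / 2)) && lie B D3 cd (.ree .F4 (f / 2))) &&
    (!Nat.beq v 3 || lie B D3 cd (.ree .G2 (f / 2))))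

/-- Three odd blocks of the socle, prime to `B` and pairwise not adjacent. -/
def tri (R : List Blk) (B : ℕ) : Bool :=
  fL (flt R fun c => !dv 2 c.1 && cp c.1 B) fun A => eL A fun x => fL (flt A (na x)) pr2

/-- The integer cube root, by bisection. -/
def cbrt (x : ℕ) : ℕ :=
  Nat.rec (motive := fun _ => ℕ → ℕ) (fun z => z) (fun j ih z => fN (z + 2 ^ j) fun y =>
    bif Nat.ble (y ^ 3) x then ih y else ih z) (x.log2 / 3 + 1) 0

/-- All groups `L₂(u)` whose order lies between `D` and `g`. -/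
def l2a (g D : ℕ) (cd : Ds → ℕ → Bool) : Bool :=
  fN (g / D) fun w => Nat.ble w 5000 && aN w fun t => !dv t.succ w || aL [1, 2] fun c =>
    fN (D * t.succ * c) fun x => fN (cbrt x) fun z => Nat.ble (z ^ 3) x &&
      fN z.succ fun u => Nat.blt x (u ^ 3) &&
        (!Nat.beq (x + u) (u ^ 3) || fN (Ds.lin 2 u).ord (cd (.lin 2 u)))

/-- All groups of Lie type whose characteristic divides the block `b = (B, v, keep)`. -/
def blkC (g D : ℕ) (R : List Blk) (cd : Ds → ℕ → Bool) (b : Blk) : Bool :=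
  fN (Nat.div D b.2.2) fun D1 => Nat.ble (Nat.mul b.1 b.1) D1 || fN (Nat.pow D1 3) fun D3 =>
  bif z0 b.2.1 then Nat.ble (Nat.pow b.1 5) D3 && (tri R b.1 || l2a g D cd) else
  lp (fun f => Nat.ble (Nat.pow b.2.1 f) b.1) (fun f => fN (Nat.pow b.2.1 f) fun u =>
    Nat.ble (Nat.mul u u) D1 || fN (Ds.lin 2 u).ord (cd (.lin 2 u))) b.1.log2.succ 1 &&
  (Nat.ble (Nat.pow b.1 5) D3 || lp (fun f => Nat.ble (Nat.pow b.2.1 (2 * f)) b.1)
    (fun f => fN (Nat.pow b.2.1 f) (allT b.1 D3 cd b.2.1 f)) b.1.log2 1)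

/-- All candidates. -/
def allC (g D : ℕ) (R Kp : List Blk) (cd : Ds → ℕ → Bool) : Bool :=
  (aL sporTab fun x => cd (.spor x.1 x.2) x.1) && altL g cd && aL Kp (blkC g D R cd)

/-- The common part of the three checkers. -/
def core (g E n : ℕ) (bl R : List Blk) (al : List Ds) : Bool :=
  rnd bl E n R fun R => fL (rL bl (fun b l => (b.1, b.2.1, keep R E b) :: l) []) fun Kp =>
    fN (rL Kp (fun b x => Nat.mul b.2.2 x) 1) fun D => allC g D R Kp (cand g E D bl al)

/-- The selected blocks are linked and tight. -/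
def lnk (bl M : List Blk) : Bool :=
  (eL M fun _ => true) && aL M fun b =>
    Nat.beq (rL bl (fun c x => bif na b c then Nat.gcd c.1.pred x else x) b.1) 1 &&
    fL (flt M (na b)) fun A => aL M fun c => eL A fun t => Nat.beq t.1 c.1 || na c t

/-- Several primes with cyclic Sylow subgroups: the blocks that meet `sel`. -/
def chkM (g : ℕ) (nd : List (ℕ × ℕ)) (hs : List ℕ) (sel n : ℕ) (al : List Ds) : Bool :=
  fN g fun g => fL (mkBl g hs nd) fun bl => valid g nd bl &&
    fL (flt bl fun b => !z0 b.2.2 && !cp b.1 sel) fun M => lnk bl M && core g 0 n bl M al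

/-- The socle is not cyclic. -/
def cycS (g : ℕ) (bl : List Blk) (b : Blk) : Bool :=
  (eL bl fun c => cp c.1 b.1 && !Nat.beq (keep [b] b.2.1.pred c) 1) ||
  Nat.ble b.2.1 3000 && aN b.2.1 fun i => !dv i b.2.1.pred || !dv (b.1 * i) g ||
    fN (g / (b.1 * i)) fun k => eL bl fun s =>
      bif cp s.1 k then eL bl fun c => na c s && !m1 (Nat.gcd c.1 k) s.1 else
      !z0 s.2.1 && !z0 s.2.2 && (Nat.blt 1 i && na b s ||
        eL bl fun c => na c s && !dv (c.1 / Nat.gcd c.1 k) s.2.1.pred)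

/-- One prime `r` with cyclic Sylow subgroups; `r = 0` tries all. -/
def chkS (g : ℕ) (nd : List (ℕ × ℕ)) (hs : List ℕ) (r n : ℕ) (al : List Ds) : Bool :=
  fN g fun g => fL (mkBl g hs nd) fun bl => valid g nd bl && eL bl fun b =>
    !z0 b.2.1 && !z0 b.2.2 && (z0 r || Nat.beq r b.2.1) && cycS g bl b && core g 0 n bl [b] al

/-- An isolated cyclic Hall subgroup of order `T` and index `e` in its normaliser; the proper
divisors of `e` divide `E`. -/
def chkI (g : ℕ) (nd : List (ℕ × ℕ)) (hs : List ℕ) (T e E n : ℕ) (al : List Ds) : Bool :=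
  fN g fun g => fN T fun T => fL (mkBl g hs nd) fun bl => valid g nd bl && Nat.blt 1 T &&
    fN (g / T) fun c => Nat.beq (c % T) (e % T) && cp T (pN e Nat.succ) &&
    (aN e fun i => !dv i e || dv i E) &&
    (!dv e c || eL bl fun b => !m1 (Nat.gcd b.1 (c / e)) T) &&
    fL (flt bl fun b => dv b.1 T) fun R => core g E n bl R al

end check

end Pool.Agent.Lib.MP_7d41f7_al
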