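import Pool.Agent.Lib.MP_7d41f7_al.F.RegC
import Pool.Agent.Lib.MP_7d41f7_al.H.HCh

/-! Regular numbers for the exceptional groups. -/

set_option autoImplicit false

namespace Pool.Agent.Lib.MP_7d41f7_al

open Polynomial Finset

variable {S G : Type} [Group S] [Group G] {x : Ex} {q r u : ℕ}

/-- The regular numbers that are used. -/
def Ex.rg : Ex → List ℕ
  | .E6 => [8, 9, 12] | .U6 => [8, 12, 18] | .E7 => [7, 9, 14, 18] | .E8 => [15, 20, 24, 30]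
  | .F4 => [8, 12] | _ => []

/-- A multiple of the primes in the cofactor. -/
def Ex.co : Ex → ℤ → ℤ
  | .E6, q => q ^ 12 - 1 | .U6, q => q ^ 12 - 1 | .E7, q => q ^ 2 - 1 | _, _ => 1

theorem Ord.lt (hr : r.Prime) (h : 0 < Ord q r) : Ord q r < r := by
  have := Fact.mk hr
  have e1 : Ord q r ∣ r - 1 := ZMod.orderOf_dvd_card_sub_one fun e' =>
    h.ne' (Ord.eq_zero hr ((ZMod.intCast_zmod_eq_zero_iff_dvd _ _).1 e'))
  have := Nat.le_of_dvd (Nat.sub_pos_of_lt hr.one_lt) e1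
  have := hr.pos
  omega

theorem Ex.rg_prop {e : ℕ} (he : e ∈ x.rg) : 7 ≤ e ∧ x.rk < 2 * e.totient ∧ ¬ e ∣ x.dk ∧
    x.rk - e.totient ≤ 2 ∧ (x = .E7 → x.rk - e.totient = 1) ∧
      (x ≠ .E6 → x ≠ .U6 → x ≠ .E7 → x.rk - e.totient = 0) := by
  revert e
  cases x <;> decide

/-- The centraliser of an element of prime order `r` in a regular class. -/
theorem IsChev.reg (h : IsChev S x q) (hr : r.Prime) (he : Ord q r ∈ x.rg) {y : S}
    (hy : orderOf y = r) : IsMulCommutative (Cx y) ∧ ∃ c, Cof (x.rk - (Ord q r).totient) q c ∧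
      (Nat.card (Cx y) : ℤ) ∣ (cyclotomic (Ord q r) ℤ).eval (q : ℤ) * c := by
  have h7 := (Ex.rg_prop he).1
  have h8 := Ord.lt hr (q := q) (by omega)
  have h9 : r ≠ 8 ∧ r ≠ 9 := by constructor <;> rintro rfl <;> exact absurd hr (by decide)
  have k : ∀ (L : List ℕ) (n l : ℕ), (∀ e ∈ L, e ∣ 2 * n ∧ l ≤ e.totient + 2) → Ord q r ∈ L →
    Ord q r ∣ 2 * n ∧ l ≤ (Ord q r).totient + 2 := fun L n l a b => a _ b
  have e6 := ade_E6.card_roots pn_E6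
  cases x
  · obtain ⟨a, b⟩ := k _ 36 6 (by decide) he
    exact (tp_one ade_E6).reg h hr (gd_of_lt _ hr (by omega)) (e6 ▸ a) h7 b hy
  · obtain ⟨a, b⟩ := k _ 36 6 (by decide) he
    exact tp_U6.reg h hr (gd_of_lt _ hr (by omega)) (e6 ▸ a) h7 b hy
  · obtain ⟨a, b⟩ := k _ 63 7 (by decide) he
    exact (tp_one ade_E7).reg h hr (gd_of_lt _ hr (by omega)) (ade_E7.card_roots pn_E7 ▸ a) h7 b hy
  · obtain ⟨a, b⟩ := k _ 120 8 (by decide) he
    exact (tp_one ade_E8).reg h hr (gd_of_lt _ hr (by omega)) (ade_E8.card_roots pn_E8 ▸ a) h7 b hy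
  · obtain ⟨a, b⟩ := k _ 36 6 (by decide) he
    exact tp_F4.reg h hr (gd_of_lt _ hr (by omega)) (e6 ▸ a) h7 b hy
  · exact absurd he List.not_mem_nil
  · exact absurd he List.not_mem_nil

theorem IsChev.reg_cyc (h : IsChev S x q) (hr : r.Prime) (he : Ord q r ∈ x.rg) : Cyc S r := by
  obtain ⟨h7, h1, -⟩ := Ex.rg_prop he
  have h8 := Ord.lt hr (q := q) (by omega)
  obtain ⟨l, M, g, g₀, g₁, k, T, a, -, -, b⟩ := h.tp
  exact T.cyc a hr (by omega) (b r hr (lt_of_le_of_lt (b := 7) (by cases x <;> decide)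
    (by omega))) h1

theorem adj_cen [Finite S] (h : Adj S u r) : ∃ y : S, orderOf y = r ∧ u * r ∣ Nat.card (Cx y) := by
  obtain ⟨z, hz⟩ := h
  have u0 : u ≠ 0 := left_ne_zero_of_mul (hz ▸ (orderOf_pos z).ne')
  refine ⟨z ^ u, by rw [orderOf_pow' _ u0, hz, Nat.gcd_eq_right (Dvd.intro _ rfl),
    Nat.mul_div_cancel_left _ (Nat.pos_of_ne_zero u0)], ?_⟩
  rw [← hz]
  exact Subgroup.orderOf_dvd_natCard _
    (Subgroup.mem_centralizer_singleton_iff.2 (Commute.self_pow z u).eq)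

theorem IsChev.reg_adj (h : IsChev S x q) (hr : r.Prime) (he : Ord q r ∈ x.rg) (hu : u.Prime)
    (ha : Adj S u r) : (u : ℤ) ∣ (cyclotomic (Ord q r) ℤ).eval (q : ℤ) * x.co q := by
  have := h.finite
  obtain ⟨y, hy, h1⟩ := adj_cen ha
  obtain ⟨-, c, h2, h3⟩ := h.reg hr he hy
  obtain ⟨-, -, -, -, a1, a2⟩ := Ex.rg_prop he
  have p := Nat.prime_iff_prime_int.1 hu
  rcases p.dvd_or_dvd ((Int.natCast_dvd_natCast.2 ((Dvd.intro _ rfl).trans h1)).trans h3) with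
    h4 | h4
  · exact h4.mul_right _
  refine Dvd.dvd.mul_left ?_ _
  have k1 : (q : ℤ) - 1 ∣ q ^ 2 - 1 := ⟨q + 1, by ring⟩
  have k2 : (q : ℤ) + 1 ∣ q ^ 2 - 1 := ⟨q - 1, by ring⟩
  have k3 : (q : ℤ) ^ 2 - 1 ∣ (q : ℤ) ^ 12 - 1 :=
    ⟨q ^ 10 + q ^ 8 + q ^ 6 + q ^ 4 + q ^ 2 + 1, by ring⟩
  have k4 : (u : ℤ) ∣ q ^ 12 - 1 := by
    rcases h2 with ⟨-, rfl⟩ | ⟨-, rfl | rfl⟩ | ⟨-, rfl | ⟨a, b1, b2, rfl⟩⟩
    · exact h4.trans (one_dvd _)
    · exact h4.trans (k1.trans k3)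
    · exact h4.trans (k2.trans k3)
    · exact h4.trans k3
    · interval_cases a
      · exact (p.dvd_of_dvd_pow (n := 2) (h4.trans ⟨1, by ring⟩)).trans (k1.trans k3)
      · exact h4.trans ⟨(q + 1) * (q ^ 3 - 1) * (q ^ 6 + 1), by ring⟩
      · exact h4.trans ⟨(q ^ 2 - 1) * (q ^ 8 + q ^ 4 + 1), by ring⟩
      · exact h4.trans ⟨(q - 1) * (q ^ 3 + 1) * (q ^ 6 + 1), by ring⟩
      · exact (p.dvd_of_dvd_pow (n := 2) (h4.trans ⟨1, by ring⟩)).trans (k2.trans k3)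
  by_cases e1 : x = .E6
  · exact e1 ▸ k4
  by_cases e2 : x = .U6
  · exact e2 ▸ k4
  by_cases e3 : x = .E7
  · rw [a1 e3] at h2
    subst e3
    rcases h2 with ⟨e, -⟩ | ⟨-, rfl | rfl⟩ | ⟨e, -⟩
    · omega
    · exact h4.trans k1
    · exact h4.trans k2
    · omega
  · rw [a2 e1 e2 e3] at h2
    rcases h2 with ⟨-, rfl⟩ | ⟨e, -⟩ | ⟨e, -⟩
    · exact h4.trans (one_dvd _)
    · omega
    · omega

theorem IsChev.reg_nad (h : IsChev S x q) (hr : r.Prime) (he : Ord q r ∈ x.rg) (hu : u.Prime)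
    (hq : u ∣ q) : ¬ Adj S u r := fun ha => by
  have h7 := (Ex.rg_prop he).1
  have p := Nat.prime_iff_prime_int.1 hu
  have key : ∀ j, 0 < j → ¬ (u : ℤ) ∣ (q : ℤ) ^ j - 1 := fun j hj e => p.not_dvd_one
    ((dvd_sub_right ((Int.natCast_dvd_natCast.2 hq).trans (dvd_pow_self _ hj.ne'))).1 e)
  rcases p.dvd_or_dvd (h.reg_adj hr he hu ha) with e | e
  · refine key (Ord q r) (by omega) (e.trans ?_)
    simpa using eval_dvd (x := (q : ℤ)) (cyclotomic.dvd_X_pow_sub_one (Ord q r) ℤ)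
  · cases x <;> first | exact key _ (by omega) e | exact p.not_dvd_one e

/-- The elements of order divisible by `r` vanish. -/
theorem IsChev.reg_van (h : IsChev S x q) (hq : 4 ≤ q) (hr : r.Prime) (he : Ord q r ∈ x.rg)
    (y : S) (hy : r ∣ orderOf y) : orderOf y ∈ Vo S := by
  obtain ⟨h7, -, h1, -⟩ := Ex.rg_prop he
  exact h.van' hq (fun e => absurd (e ▸ he) List.not_mem_nil) hr (by omega) h1
    (fun p hp d => h.reg_nad hr he hp d) y hy

/-- The data for the unknown group. -/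
theorem IsChev.reg_G [Finite G] (h : IsChev S x q) (hc : Nat.card G = Nat.card S)
    (hV : Vo G = Vo S) (hr : r.Prime) (he : Ord q r ∈ x.rg)
    (hv : ∀ y : S, r ∣ orderOf y → orderOf y ∈ Vo S) : Cyc G r ∧ ∀ u, u.Prime → u ≠ r →
      (Adj G u r ↔ Adj S u r) ∧
        (Adj G u r → (u : ℤ) ∣ (cyclotomic (Ord q r) ℤ).eval (q : ℤ) * x.co q) :=
  have := h.finite
  ⟨transfer_cyc hr hc hV (h.reg_cyc hr he) hv, fun _ hu ne =>
    have e := transfer_adj hr ((Nat.coprime_primes hu hr).2 ne) hc hV (h.reg_cyc hr he) hv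
    ⟨e, fun a => h.reg_adj hr he hu (e.1 a)⟩⟩

end Pool.Agent.Lib.MP_7d41f7_al
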