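import Pool.Agent.Lib.MP_7d41f7_al.F.BCc
import Pool.Agent.Lib.MP_7d41f7_al.F.Reg
import Pool.Agent.Lib.MP_7d41f7_al.F.NDef
import Pool.Agent.Lib.MP_7d41f7_al.H.HFin

/-! The exceptional groups over the smallest fields: vanishing and neighbours. -/

set_option autoImplicit false

namespace Pool.Agent.Lib.MP_7d41f7_al

open Polynomial Subgroup

variable {S G : Type} [Group S] [Group G] {x : Ex} {q r e B C N : ℕ}

/-- The order of the simple group. -/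
def Ex.sz (x : Ex) (q : ℕ) : ℕ := (x.ord q).toNat / x.cen q

theorem IsChev.sz (h : IsChev S x q) : Nat.card S = x.sz q := by
  rw [Ex.sz, ← h.card, ← Nat.cast_mul, Int.toNat_natCast, Nat.mul_div_cancel _ (x.cen_ord q).1]

/-- A multiple of the value of the cyclotomic polynomial. -/
def phB (q e : ℕ) : ℕ := e.properDivisors.gcd fun d => (q ^ e - 1) / (q ^ d - 1)

theorem phB_dvd (hq : 0 < q) : (cyclotomic e ℤ).eval (q : ℤ) ∣ phB q e :=
  Int.natAbs_dvd.1 (Int.natCast_dvd_natCast.2 (Finset.dvd_gcd fun d hd =>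
    Nat.dvd_div_of_mul_dvd (Int.natCast_dvd_natCast.1 (by
      have := eval_dvd (x := (q : ℤ)) (X_pow_sub_one_mul_cyclotomic_dvd_X_pow_sub_one_of_dvd ℤ hd)
      rw [Nat.cast_mul, Nat.cast_pred (pow_pos hq _), Nat.cast_pred (pow_pos hq _)]
      refine (mul_dvd_mul_left _ (Int.natAbs_dvd.2 dvd_rfl)).trans ?_
      simpa using this))))

/-- The check for a prime in a regular class. -/
abbrev RgOk (x : Ex) (q r e B : ℕ) : Prop :=
  0 < q ∧ (2 ≤ r ∧ r.minFac = r) ∧ e ∈ x.rg ∧ (r : ℤ) ∣ q ^ e - 1 ∧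
    (∀ d ∈ e.properDivisors, ¬ (r : ℤ) ∣ q ^ d - 1) ∧ (x.rk - e.totient = 0 ∧ phB q e ∣ B ∨
      x.rk - e.totient = 1 ∧ phB q e * (q - 1) ∣ B ∧ phB q e * (q + 1) ∣ B)

theorem IsChev.cx_reg (h : IsChev S x q) (hc : RgOk x q r e B) (z : S) (hz : orderOf z = r) :
    IsMulCommutative (Cx z) ∧ Nat.card (Cx z) ∣ B := by
  obtain ⟨q0, hr, he, h1, h2, h3⟩ := hc
  rw [← Nat.prime_def_minFac] at hr
  have e0 : 0 < e := by have := (Ex.rg_prop he).1; omega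
  obtain rfl : Ord q r = e := Ord.eq_of e0 h1 fun p hp d => h2 _ (Nat.mem_properDivisors.2
    ⟨Nat.div_dvd_of_dvd d, Nat.div_lt_self e0 hp.one_lt⟩)
  obtain ⟨a, c, a1, a2⟩ := h.reg hr he hz
  refine ⟨a, Int.natCast_dvd_natCast.1 ((a2.trans (mul_dvd_mul_right (phB_dvd q0) c)).trans ?_)⟩
  rcases h3 with ⟨b, b1⟩ | ⟨b, b1, b2⟩ <;> rw [b] at a1
  · obtain ⟨-, rfl⟩ | ⟨c, -⟩ | ⟨c, -⟩ := a1
    · rw [mul_one]
      exact_mod_cast b1
    all_goals omega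
  · obtain ⟨c, -⟩ | ⟨-, rfl | rfl⟩ | ⟨c, -⟩ := a1
    · omega
    · rw [← Nat.cast_pred q0]
      exact_mod_cast b1
    · exact_mod_cast b2
    · omega

/-- The classes of the identity and of the central elements of Sylow subgroups. -/
def mL (N : ℕ) (ps : List (ℕ × ℕ)) : List (ℕ × ℚ) :=
  (1, 1 - 4 / N) :: ps.map fun p => (p.1, 1 - 4 / (p.1 ^ p.2 : ℕ))

theorem mL_mny [Finite S] (hN : Nat.card S = N) {ps : List (ℕ × ℕ)}
    (h : ∀ p ∈ ps, p.1.Prime ∧ 0 < p.2 ∧ p.1 ^ p.2 ∣ N) : ∀ p ∈ mL N ps, Mny S (· = p.1) p.2 := by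
  subst hN
  refine List.forall_mem_cons.2 ⟨mny_one Nat.card_pos dvd_rfl, List.forall_mem_map.2 fun p hp => ?_⟩
  exact mny_p (h p hp).1 (h p hp).2.1 (h p hp).2.2

/-- All divisors. -/
def AllD (n : ℕ) (P : ℕ → Prop) : Prop :=
  n ≤ 10000 ∧ ∀ a < 101, a ∣ n → ∀ e ∈ [a, n / a], P e

instance {P : ℕ → Prop} [DecidablePred P] : Decidable (AllD N P) :=
  inferInstanceAs (Decidable (_ ∧ _))

theorem AllD.ok {P : ℕ → Prop} (h : AllD N P) (e : ℕ) (he : e ∈ N.divisors) : P e := by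
  obtain ⟨⟨f, rfl⟩, h0⟩ := Nat.mem_divisors.1 he
  by_cases c : e < 101
  · exact h.2 e c (Dvd.intro _ rfl) e List.mem_cons_self
  · refine h.2 f (by nlinarith [h.1]) (Dvd.intro_left _ rfl) e ?_
    simp [right_ne_zero_of_mul h0]

/-- The check for the count of classes. -/
abbrev BcOk (N r B C : ℕ) (ps : List (ℕ × ℕ)) (X : List (ℕ × ℚ)) : Prop :=
  (2 ≤ r ∧ r.minFac = r) ∧ r ∣ N ∧ ¬ r ∣ N / r ∧ 36 ∣ N ∧ B ≠ 0 ∧
    (∀ p ∈ ps, p.1.Prime ∧ 0 < p.2 ∧ p.1 ^ p.2 ∣ N) ∧ ((mL N ps ++ X).map Prod.fst).Nodup ∧ (∀ p ∈ mL N ps ++ X, p.1.Coprime r) ∧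
      ∀ d ∈ B.divisors, AllD (r - 1) fun e => d * e % r = N / r % r → d ∣ C ∧ (d = 1 ∨ d.Prime) ∧
        d.totient.Coprime e ∧
          (d * e : ℚ) < 4 * (1 - (r - 1) / (e * r)) + ((mL N ps ++ X).map Prod.snd).sum

theorem nd_tr [Finite S] [Finite G] (hc : Nat.card G = Nat.card S) (hV : Vo G = Vo S) {k : ℕ}
    (h : ND S k C) (hv : ∀ r, r.Prime → r ∣ k → ∀ z : S, r ∣ orderOf z → orderOf z ∈ Vo S) :
    ND G k C := fun r hr d =>
  ⟨transfer_cyc hr hc hV (h r hr d).1 (hv r hr d), fun u hu ne a => (h r hr d).2 u hu ne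
    ((transfer_adj hr ((Nat.coprime_primes hu hr).2 ne) hc hV (h r hr d).1 (hv r hr d)).1 a)⟩

theorem bc_nd [Finite S] [Finite G] (hc : Nat.card G = Nat.card S) (hV : Vo G = Vo S)
    (hN : Nat.card S = N) (ps : List (ℕ × ℕ)) {X : List (ℕ × ℚ)} (ok : BcOk N r B C ps X)
    (hab : ∀ z : S, orderOf z = r → IsMulCommutative (Cx z) ∧ Nat.card (Cx z) ∣ r * B)
    (hX : ∀ p ∈ X, Mny S (· = p.1) p.2) : ND G r C := by
  obtain ⟨hr, a1, a2, a3, a4, a5, a6, a7, a8⟩ := ok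
  rw [← Nat.prime_def_minFac] at hr
  have hc' : Nat.card S = r * (N / r) := hN.trans (Nat.mul_div_cancel' a1).symm
  refine nd_tr hc hV (fun s hs d => ?_) fun s hs d => ?_ <;>
    obtain rfl := (Nat.prime_dvd_prime_iff_eq hs hr).1 d
  · refine ⟨cyc_once hr hc' a2, fun u _ _ a => ?_⟩
    obtain ⟨y, hy, b⟩ := adj_cen a
    obtain ⟨d, e, h1, -, h3, h5⟩ := syl_cnt hr hy hc' a2
    rw [h1, mul_comm] at b
    exact (Nat.dvd_of_mul_dvd_mul_left hr.pos b).trans ((a8 d (Nat.mem_divisors.2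
      ⟨Nat.dvd_of_mul_dvd_mul_left hr.pos (h1 ▸ (hab y hy).2), a4⟩)).ok e
        (Nat.mem_divisors.2 ⟨h3, (Nat.sub_pos_of_lt hr.one_lt).ne'⟩) h5).1
  · exact bc_prime hr hc' a2 hab (hN ▸ a3) _ a6 (fun p hp => ⟨a7 p hp,
      (List.mem_append.1 hp).elim (mL_mny hN a5 p) (hX p)⟩) (fun d a e b c => ((a8 d a).ok e b c).2) a4

section

variable [Finite G] (h : IsChev S x q) (hc : Nat.card G = Nat.card S) (hV : Vo G = Vo S)
include h hc hV

/-- One regular prime. -/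
theorem IsChev.nd1 (e B : ℕ) (ps : List (ℕ × ℕ))
    (ok : RgOk x q r e (r * B) ∧ BcOk (x.sz q) r B C ps []) : ND G r C :=
  have := h.finite
  bc_nd hc hV h.sz ps ok.2 (h.cx_reg ok.1) (List.forall_mem_nil _)

/-- A second regular prime contributes classes. -/
theorem IsChev.nd2 (e : ℕ) (ps : List (ℕ × ℕ)) (s f B E : ℕ)
    (ok : RgOk x q r e (r * 1) ∧ RgOk x q s f (s * B) ∧ (4 ≤ s ∧ s ∣ x.sz q ∧ ¬ s ∣ x.sz q / s ∧
      B ≠ 0 ∧ ∀ d ∈ B.divisors, AllD (s - 1) fun e => d * e % s = x.sz q / s % s → e ≤ E) ∧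
        BcOk (x.sz q) r 1 C ps [(s, (s - 1) / E * (1 - 4 / s))]) : ND G r C :=
  have := h.finite
  have ⟨a1, a2, ⟨b1, b2, b3, b4, b5⟩, a3⟩ := ok
  bc_nd hc hV h.sz ps a3 (h.cx_reg a1) (List.forall_mem_singleton.2 (mny_prime
    (Nat.prime_def_minFac.2 a2.2.1) b1
    (h.sz.trans (Nat.mul_div_cancel' b2).symm) b3 (fun z hz => (h.cx_reg a2 z hz).2)
      (fun d hd => (b5 d hd).ok) b4))

/-- The prime of the isolated torus. -/
theorem IsChev.nd3 (ps : List (ℕ × ℕ)) (ok : (x = .G2 ∨ x = .D3) ∧ 2 ≤ q ∧ x.tor q = r ∧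
    BcOk (x.sz q) r 1 C ps []) : ND G r C := by
  have := h.finite
  obtain ⟨hx, hq, rfl, a⟩ := ok
  have ho : (Nat.card S : ℤ) = x.ord q := by
    rw [← h.card]
    rcases hx with rfl | rfl <;> simp [Ex.cen]
  have p := Nat.prime_def_minFac.2 a.1
  exact bc_nd hc hV h.sz ps a (cx_isol p (h.sz.trans (Nat.mul_div_cancel' a.2.1).symm) a.2.2.1
    fun u _ => ((h.itor hx hq ho).2.2 _ p dvd_rfl).2.2.2 u) (List.forall_mem_nil _)

/-- The torus of order `19 * 37`. -/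
theorem IsChev.ndU (hx : x = .U6) (hq : q = 3) : ND G 703 703 := by
  have := h.finite
  subst hx hq
  have ab : ∀ z : S, (orderOf z).Prime → orderOf z ∣ 703 →
      IsMulCommutative (Cx z) ∧ Nat.card (Cx z) ∣ 703 := fun z p d => by
    rcases (Nat.Prime.dvd_mul p (m := 19) (n := 37)).1 d with d | d <;>
      exact h.cx_reg (e := 18) (by decide +kernel) z
        ((Nat.prime_dvd_prime_iff_eq p (by norm_num)).1 d)
  have c1 : Nat.card S = 19 * (Ex.U6.sz 3 / 19) := h.sz.trans (by decide +kernel)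
  have c2 : Nat.card S = 37 * (Ex.U6.sz 3 / 37) := h.sz.trans (by decide +kernel)
  have cy : ∀ s, s.Prime → s ∣ 703 → Cyc S s := fun s p d => by
    rcases (Nat.Prime.dvd_mul p (m := 19) (n := 37)).1 d with d | d <;>
      obtain rfl := (Nat.prime_dvd_prime_iff_eq p (by norm_num)).1 d
    · exact cyc_once p c1 (by decide +kernel)
    · exact cyc_once p c2 (by decide +kernel)
  refine nd_tr hc hV (fun s p d => ⟨cy s p d, fun u _ _ a => ?_⟩) fun s p d => ?_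
  · obtain ⟨y, rfl, b⟩ := adj_cen a
    exact (Dvd.intro _ rfl).trans (b.trans (ab y p d).2)
  have p1 : Nat.Prime 19 := by norm_num
  have := Fact.mk p1
  obtain ⟨y, hy⟩ := exists_prime_orderOf_dvd_card' (G := S) 19 (c1 ▸ Dvd.intro _ rfl)
  obtain ⟨d, e, h1, h2, h3, h5⟩ := syl_cnt p1 hy c1 (by decide +kernel)
  obtain ⟨rfl, rfl⟩ := (by decide +kernel : ∀ d ∈ Nat.divisors 37, ∀ e ∈ Nat.divisors 18,
    d * e % 19 = Ex.U6.sz 3 / 19 % 19 → d = 37 ∧ e = 9) d (Nat.mem_divisors.2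
      ⟨Nat.dvd_of_mul_dvd_mul_left p1.pos (h1 ▸ (ab y (hy ▸ p1) (hy ▸ by decide)).2), by decide⟩) e
        (Nat.mem_divisors.2 ⟨h3, by decide⟩) h5
  refine bc_van (k := 703) (d := 1) p1 hy h1 (by decide) (by decide) h2 (fun z a b => (ab z a b).1)
    cy (.inl rfl) (by decide) (h.sz ▸ by decide +kernel)
    (mL (Ex.U6.sz 3) [(2, 19), (3, 36), (5, 2), (7, 3), (13, 2), (41, 1)]) (by decide +kernel)
    (fun t ht => ⟨?_, mL_mny h.sz (by decide +kernel) t ht⟩) (by decide +kernel) p d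
  revert t
  decide +kernel

end

/-- The table: type, field, product of the primes, bound for the neighbours. -/
def smallT : List (Ex × ℕ × ℕ × ℕ) :=
  [(.G2, 3, 7, 1), (.G2, 4, 13, 1), (.D3, 2, 13, 1), (.D3, 3, 73, 1), (.F4, 2, 17, 1),
    (.F4, 3, 73, 1), (.E6, 2, 73, 1), (.E6, 3, 757, 1), (.U6, 2, 19, 3), (.U6, 3, 703, 703),
    (.E7, 2, 127, 1), (.E7, 3, 1093, 2), (.E8, 2, 241, 1), (.E8, 3, 6481, 1)]

theorem IsChev.nd_small [Finite G] (h : IsChev S x q) (hc : Nat.card G = Nat.card S)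
    (hV : Vo G = Vo S) (ht : (x, q, r, C) ∈ smallT) : ND G r C := by
  simp only [smallT, List.mem_cons, Prod.mk.injEq, List.not_mem_nil, or_false] at ht
  rcases ht with ⟨rfl, rfl, rfl, rfl⟩ | ⟨rfl, rfl, rfl, rfl⟩ | ⟨rfl, rfl, rfl, rfl⟩ |
    ⟨rfl, rfl, rfl, rfl⟩ | ⟨rfl, rfl, rfl, rfl⟩ | ⟨rfl, rfl, rfl, rfl⟩ | ⟨rfl, rfl, rfl, rfl⟩ |
    ⟨rfl, rfl, rfl, rfl⟩ | ⟨rfl, rfl, rfl, rfl⟩ | ⟨rfl, rfl, rfl, rfl⟩ | ⟨rfl, rfl, rfl, rfl⟩ |
    ⟨rfl, rfl, rfl, rfl⟩ | ⟨rfl, rfl, rfl, rfl⟩ | ⟨rfl, rfl, rfl, rfl⟩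
  · exact h.nd3 hc hV [(2, 6), (3, 6), (13, 1)] (by decide +kernel)
  · exact h.nd3 hc hV [(2, 12), (3, 3), (5, 2)] (by decide +kernel)
  · exact h.nd3 hc hV [(2, 12)] (by decide +kernel)
  · exact h.nd3 hc hV [(2, 6)] (by decide +kernel)
  · exact h.nd1 hc hV 8 1 [(2, 24), (3, 6), (5, 2), (7, 2), (13, 1)] (by decide +kernel)
  · exact h.nd2 hc hV 12 [(2, 15), (3, 24), (5, 2), (7, 2), (13, 2)] 41 8 2 8 (by decide +kernel)
  · exact h.nd1 hc hV 9 1 [(2, 36), (3, 6), (5, 2), (7, 3), (13, 1), (17, 1)] (by decide +kernel)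
  · exact h.nd1 hc hV 9 1 [(2, 17), (3, 36), (5, 2), (7, 2), (11, 2), (13, 3)] (by decide +kernel)
  · exact h.nd1 hc hV 18 3 [(2, 36), (3, 9), (5, 2), (7, 2), (11, 1), (13, 1), (17, 1)]
      (by decide +kernel)
  · exact h.ndU hc hV rfl rfl
  · exact h.nd1 hc hV 7 3 [(2, 63), (3, 11), (5, 2), (7, 3), (11, 1), (13, 1), (17, 1), (19, 1),
      (31, 1), (43, 1), (73, 1)] (by decide +kernel)
  · exact h.nd1 hc hV 7 4 [(2, 23), (3, 63), (5, 2), (7, 3), (11, 2), (13, 3), (19, 1), (37, 1),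
      (41, 1), (61, 1), (73, 1)] (by decide +kernel)
  · exact h.nd2 hc hV 24 [(2, 120), (3, 13), (5, 5), (7, 4), (11, 2), (13, 2), (17, 2), (19, 1),
      (31, 2), (41, 1)] 331 30 1 30 (by decide +kernel)
  · exact h.nd2 hc hV 24 [] 4561 15 1 30 (by decide +kernel)

end Pool.Agent.Lib.MP_7d41f7_al
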