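import Pool.Agent.Lib.MP_7d41f7_al.F.BCd
import Pool.Agent.Lib.MP_7d41f7_al.F.NOut
import Pool.Agent.Lib.MP_7d41f7_al.H.KX
import Pool.Agent.Lib.MP_7d41f7_al.H.FFin

/-! The exceptional groups and the Suzuki and Ree groups over all fields. -/

set_option autoImplicit false

namespace Pool.Agent.Lib.MP_7d41f7_al

variable {S G : Type} [Group S] [Group G] [Finite G] {x : Ex} {y : Re} {q m : ℕ}

theorem chk_small : ∀ t ∈ smallT,
    chkS (Ds.chev t.1 t.2.1).ord [t.2.2] [6481, 4561] 0 2 [.chev t.1 t.2.1] = true := by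
  decide +kernel

theorem IsChev.fin (h : IsChev S x q) (hc : Nat.card G = Nat.card S) {k C : ℕ} {hs : List ℕ}
    (hn : ND G k C) (e : chkS (Ds.chev x q).ord [(k, C)] hs 0 2 [.chev x q] = true) :
    Nonempty (G ≃* S) ∨ Off5 G :=
  have := h.finite
  (chkS_out (hc.trans (IsD.card (d := .chev x q) h)) (List.forall_mem_singleton.2 hn) e).fin hc
    fun _ _ _ hd a => h.iso (List.mem_singleton.1 hd ▸ a : IsD _ (.chev x q))

theorem all_chev5 (h : IsChev S x q) (hx : (x, q) ≠ (.G2, 2)) (hc : Nat.card G = Nat.card S)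
    (hV : Vo G = Vo S) : Nonempty (G ≃* S) ∨ Off5 G := by
  by_cases a : ∃ t ∈ smallT, x = t.1 ∧ q = t.2.1
  · obtain ⟨t, ht, rfl, rfl⟩ := a
    exact h.fin hc (h.nd_small hc hV ht) (chk_small t ht)
  by_cases b : x = .G2 ∧ (q = 5 ∨ q = 7)
  · obtain ⟨rfl, b⟩ := b
    exact h.fin hc (h.ndI (.inl rfl) (by omega) (fun r => h.ivan (.inl rfl) (by omega)
      (by omega) (by simpa [Ex.cen] using h.card)) hc hV)
        (chk_chevI (.G2, q) (by rcases b with rfl | rfl <;> decide))
  have p := h.pp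
  have c : 4 ≤ q ∧ (x = .G2 → 8 ≤ q) := by
    by_contra c
    have : q < 8 := by omega
    revert a b c hx
    interval_cases q <;> first | exact absurd p (by decide) | (cases x <;> decide)
  by_cases d : x ≠ .G2 ∧ x ≠ .D3
  · exact (all_chevF h d c.1 hc hV).imp_right Off4.off5
  · exact (all_chevI h (by tauto) hc hV).imp_right Off4.off5

theorem all_ree5 (h : IsRee S y m) (hm : 0 < m) (hc : Nat.card G = Nat.card S)
    (hV : Vo G = Vo S) : Nonempty (G ≃* S) ∨ Off5 G := by
  by_cases a : 512 ≤ y.q m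
  · exact (all_ree' h a hc hV).imp_right Off4.off5
  have := h.finite
  have b : m < 4 := lt_of_not_ge fun b => a (by
    have := Nat.pow_le_pow_right two_pos (show 9 ≤ 2 * m + 1 by omega)
    have := Nat.pow_le_pow_left (show 2 ≤ 3 by decide) (2 * m + 1)
    cases y <;> simp only [Re.q, Re.p] <;> omega)
  exact (chkS_out (hc.trans (IsD.card (d := .ree y m) h)) (List.forall_mem_singleton.2
    (h.rdata' hm hc hV).nd) (chk_ree m b hm (not_le.1 a))).fin hc
      fun _ _ _ hd a => h.iso (List.mem_singleton.1 hd ▸ a : IsD _ (.ree y m))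

end Pool.Agent.Lib.MP_7d41f7_al
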