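import Pool.Agent.Lib.MP_7d41f7_al.F.BI
import Pool.Agent.Lib.MP_7d41f7_al.D.DOff

/-! The section of a group with the data of a symplectic or orthogonal group of small rank. -/

set_option autoImplicit false

namespace Pool.Agent.Lib.MP_7d41f7_al.B8

open Subgroup

variable {G : Type} [Group G] [Finite G] {t : Ty} {n p f q e r u : ℕ}

theorem kp_dvd (P : Par t n q) (hr : r.Prime) (g : Kp t n (Ord q r)) : (r : ℤ) ∣ t.ord n q := by
  have := P.q2
  obtain ⟨a, b, -⟩ := g.facts P.rng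
  have d : r ^ 1 ∣ pk q (Ord q r) := pk_pow (by rw [Int.natAbs_natCast]; omega) (by omega) hr rfl
    (by simpa using (Ord.dvd_iff _).2 dvd_rfl)
  exact (Int.natCast_dvd_natCast.2 ((dvd_pow_self r one_ne_zero).trans d)).trans (pk_ord_dvd P.rng.1 a b)

theorem ysec (P : Par t n q) (h : TData G t n q) :
    ∃ (K : Subgroup G) (_ : K.Normal) (H : Subgroup (G ⧸ K)), H.Normal ∧ IsSimpleGroup H ∧
      ¬ IsMulCommutative H ∧ centralizer (H : Set (G ⧸ K)) = ⊥ ∧ KD (Nat.card H) t n q := by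
  have R := P.rng
  obtain ⟨c, hc, hc'⟩ := h.card
  have nc : ∀ r, r.Prime → Kp t n (Ord q r) → ¬ r ∣ c := fun r hr g d => by
    have := hc' r hr d
    have := (g.facts R).1
    omega
  have ex : ∀ e, ∃ r, (r.Prime ∧ Gq t n (Ord q r)) ∧ Ord q r ≠ e := fun e => by
    obtain ⟨x, hx, a⟩ := Finset.exists_mem_ne (s := gs t n)
      (by have := (tb_xc t R.mem.1 n R.mem.2 R).2.2.2.2.1; omega) e
    have g := (Finset.mem_filter.1 hx).2
    obtain ⟨r, hr, rfl⟩ := P.cls (.inl g)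
    exact ⟨r, ⟨hr, g⟩, a⟩
  obtain ⟨K, _, H, h0, h1, h2, h3, h4, h5⟩ := gsec2 (G := G) (fun r => r.Prime ∧ Gq t n (Ord q r))
    (fun r ⟨hr, g⟩ => ⟨hr, by
      have a := kp_dvd P hr (.inl g)
      rw [← hc, ← Nat.cast_mul, Int.natCast_dvd_natCast] at a
      exact (hr.dvd_mul.1 a).resolve_right (nc r hr (.inl g)), h.cyc r hr g, by
      obtain ⟨u, hu, a, b, d⟩ := tight_ar P hc hc' hr g
      exact ⟨u, hu, (h.na hr hu g a b).1, (h.na hr hu g a b).2, d⟩⟩)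
    (fun r s ⟨hr, g⟩ ⟨hs, k⟩ => by
      by_cases e : Ord q s = Ord q r
      · obtain ⟨x, ⟨hx, a⟩, b⟩ := ex (Ord q r)
        exact ⟨x, ⟨hx, a⟩, h.nk R hr hx (.inl g) (.inl a) b,
          .inr (h.nk R hx hs (.inl a) (.inl k) (e ▸ b.symm))⟩
      · exact ⟨s, ⟨hs, k⟩, h.nk R hr hs (.inl g) (.inl k) e, .inl rfl⟩)
    ((ex 0).imp fun _ a => a.1)
  have cG : Nat.card G = Nat.card H * H.index * Nat.card K := by
    rw [H.card_mul_index, card_eq_card_quotient_mul_card_subgroup K]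
  refine ⟨K, inferInstance, H, h0, h1, h2, h3, P, hc ▸ (Int.natCast_dvd_natCast.2
    (cG ▸ (dvd_mul_right _ _).mul_right _)).mul_right _, fun u i hu g d => ?_⟩
  have a : ¬ u ∣ Nat.card K ∧ ¬ u ∣ H.index := by
    by_cases e : Gq t n (Ord q u)
    · exact h4 u ⟨hu, e⟩
    have b := g.resolve_left e
    have k := fun r hr (a : Gq t n (Ord q r)) =>
      h5 r u ⟨hr, a⟩ hu (h.nk R hr hu (.inl a) g fun c => e (c ▸ a))
    exact ⟨not_k2 P hc hc' K.card_subgroup_dvd_card hu (b.1 ▸ b.2) b.1 fun r hr a => (k r hr a).1,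
      fun d => not_a2 P hu (b.1 ▸ b.2) b.1 fun r hr a => (dvd_pow_self u
        (hu.factorization_pos_of_dvd H.index_ne_zero_of_finite d).ne').trans (k r hr a).2⟩
  rw [← hc, ← Nat.cast_mul, Int.natCast_dvd_natCast, cG] at d
  have cp : ∀ x, ¬ u ∣ x → (u ^ i).Coprime x := fun x e => (hu.coprime_iff_not_dvd.2 e).pow_left i
  exact (cp _ a.2).dvd_of_dvd_mul_right ((cp _ a.1).dvd_of_dvd_mul_right
    ((cp c (nc u hu g)).dvd_of_dvd_mul_right d))

theorem KD.l2 {F : Type} [Field F] [Finite F] (D : KD (Nat.card G) t n q) (φ : G ≃* PL 2 F)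
    {v g : ℕ} (hv : v.Prime) (hg : 0 < g) (hF : Nat.card F = v ^ g)
    (nk : ∀ r u, r.Prime → u.Prime → Kp t n (Ord q r) → Kp t n (Ord q u) → Ord q u ≠ Ord q r →
      NAd G u r) : False := by
  have R := D.par.rng
  have T := tb_xc t R.mem.1 n R.mem.2 R
  have ex : ∀ e, Kp t n e → e ≠ Ord q v → ∃ r, (r.Prime ∧ r ≠ v) ∧ Ord q r = e := fun e k a => by
    obtain ⟨r, hr, b⟩ := D.par.cls k
    exact ⟨r, ⟨hr, fun c => a (c ▸ b.symm)⟩, b⟩
  have tri : ∀ x y z, Kp t n x → Kp t n y → Kp t n z → x ≠ y → x ≠ z → y ≠ z →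
      (∃ r, (r.Prime ∧ r ≠ v) ∧ Ord q r = x) → y ≠ Ord q v → z ≠ Ord q v → False := by
    rintro _ y z k1 k2 k3 e1 e2 e3 ⟨a, ha, rfl⟩ e4 e5
    obtain ⟨b, hb, rfl⟩ := ex y k2 e4
    obtain ⟨c, hc, rfl⟩ := ex z k3 e5
    have k : ∀ x, x.Prime ∧ x ≠ v → Kp t n (Ord q x) →
        x.Prime ∧ x ≠ 2 ∧ x ∣ Nat.card G ∧ ¬ x ∣ Nat.card F := fun x hx k =>
      ⟨hx.1, Ord.ne_two (b := q) (by have := (k.facts R).1; omega),
        pow_one x ▸ D.kept x 1 hx.1 k (by simpa using kp_dvd D.par hx.1 k), fun d => hx.2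
          ((Nat.prime_dvd_prime_iff_eq hx.1 hv).1 (hx.1.dvd_of_dvd_pow (hF ▸ d)))⟩
    refine three_L2 φ (a := a) (b := b) (c := c) ?_ (nk b a hb.1 ha.1 k2 k1 e1)
      (nk c a hc.1 ha.1 k3 k1 e2) (nk c b hc.1 hb.1 k3 k2 e3)
    rintro _ (rfl | rfl | rfl)
    exacts [k _ ha k1, k _ hb k2, k _ hc k3]
  have tr : ∀ s : Finset ℕ, (∀ e ∈ s, Kp t n e ∧ e ≠ Ord q v) → ¬ 2 < s.card := fun s hs a => by
    obtain ⟨x, y, z, b1, b2, b3, e1, e2, e3⟩ := Finset.two_lt_card_iff.1 a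
    exact tri x y z (hs x b1).1 (hs y b2).1 (hs z b3).1 e1 e2 e3 (ex x (hs x b1).1 (hs x b1).2)
      (hs y b2).2 (hs z b3).2
  by_cases g : Gq t n (Ord q v)
  swap
  · exact tr (gs t n) (fun e he => ⟨.inl (Finset.mem_filter.1 he).2,
      fun c => g (c ▸ (Finset.mem_filter.1 he).2)⟩) T.2.2.2.2.1
  by_cases n3 : n = 3
  swap
  · refine tr ((ks t n).erase (Ord q v)) (fun e he => ⟨(Finset.mem_filter.1
      (Finset.mem_of_mem_erase he)).2, Finset.ne_of_mem_erase he⟩) ?_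
    have := Finset.pred_card_le_card_erase (s := ks t n) (a := Ord q v)
    have := T.2.2.2.2.2 n3
    omega
  subst n3
  refine D.l2_three hv g (by rw [Nat.card_congr φ.toEquiv, ← hF]; exact card_PL two_pos) hg
    fun w hw e => by_contra fun a => ?_
  obtain ⟨y, b1, z, b2, e1⟩ := Finset.one_lt_card.1 (show 1 < ((gs t 3).erase (Ord q v)).card by
    have := Finset.pred_card_le_card_erase (s := gs t 3) (a := Ord q v)
    have := T.2.2.2.2.1
    omega)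
  exact tri _ y z (.inl g) (.inl (Finset.mem_filter.1 (Finset.mem_of_mem_erase b1)).2)
    (.inl (Finset.mem_filter.1 (Finset.mem_of_mem_erase b2)).2) (Finset.ne_of_mem_erase b1).symm
    (Finset.ne_of_mem_erase b2).symm e1 ⟨w, ⟨hw, a⟩, e⟩ (Finset.ne_of_mem_erase b1)
    (Finset.ne_of_mem_erase b2)

theorem exc_cube {h : ℕ} (hh : ExcOrd2 u h) (h2 : ¬ 2 ∣ u) : u ^ 3 ∣ h := by
  have o := one_mul (1 : ℤ)
  have k : ∀ {e X ε : ℤ}, ε * ε = 1 → e ∣ u - ε → h * e = X → (u : ℤ) ^ 3 ∣ X → u ^ 3 ∣ h :=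
    fun a b c ⟨_, d⟩ => sz_dvd a b (c.trans d)
  rcases hh with e | e | e | e | e | e | e | e | e | e
  rotate_left 7
  · exact absurd (by exact_mod_cast e.1) h2
  all_goals
    first
    | refine k o (one_dvd _) ((mul_one _).trans e) ?_
    | refine k o (Int.gcd_dvd_right _ _) e ?_
    | refine k (ε := -1) rfl (Int.gcd_dvd_right 3 (u + 1)) e ?_
    simp only [mul_assoc]
    exact (pow_dvd_pow _ (by decide)).mul_right _

theorem lz_exc {h v g : ℕ} (hv : v.Prime) (hg : 0 < g) (hh : ExcOrd2 (v ^ g : ℕ) h) :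
    ∃ k, LZ h v k ∧ (v ≠ 2 → h ^ 3 ≤ (v ^ k) ^ 7) := by
  obtain ⟨x, hx, L⟩ : ∃ x ∈ excData, LT h v g x.1 x.2.1 x.2.2 := by
    rcases hh.exc with e | e | e | e | e | e | e
    · exact lt_exc1 hv hg rfl (Or.inl e)
    · exact lt_exc1 hv hg rfl (Or.inr (Or.inl e))
    · exact lt_exc1 hv hg rfl (Or.inr (Or.inr (Or.inl e)))
    · exact lt_exc2 hv hg rfl (Or.inl e)
    · exact lt_exc1 hv hg rfl (Or.inr (Or.inr (Or.inr (Or.inl e))))
    · exact lt_exc1 hv hg rfl (Or.inr (Or.inr (Or.inr (Or.inr e))))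
    · exact lt_exc2 hv hg rfl (Or.inr e)
  obtain ⟨N, b1, b2, b3⟩ := sz_exc (Nat.one_lt_pow hg.ne' hv.one_lt) hh
  rw [← pow_mul v] at b1 b2 b3
  have o : v ≠ 2 → ¬ 2 ∣ v ^ g := fun e d => e ((Nat.prime_dvd_prime_iff_eq Nat.prime_two hv).1
    (Nat.prime_two.dvd_of_dvd_pow d)).symm
  exact ⟨_, ⟨⟨g, _, _, _, L, .inr ⟨x, hx, rfl⟩⟩, b1, b2, fun e =>
    (pow_dvd_pow_of_dvd (dvd_pow_self v hg.ne') 3).trans (exc_cube hh (o e))⟩, fun e => b3 (o e)⟩

theorem lz_cl {h v g N D : ℕ} {I : Finset ℕ} (L : LT h v g N D I) (a : h ^ 3 ≤ ((v ^ g) ^ N) ^ 8)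
    (i m : ℕ) (hi : i < 5) (hm : 2 ≤ m ∧ (i ≠ 2 → 3 ≤ m)) (e : fam i m = (N, I)) (h3 : 3 ≤ N) :
    LZ h v (g * N) :=
  ⟨⟨g, N, D, I, L, .inl ⟨i, hi, m, hm.1, hm.2, e⟩⟩, pow_mul v g N ▸ L.pp, pow_mul v g N ▸ a,
    fun _ => (pow_dvd_pow_of_dvd (dvd_pow_self v L.g0.ne') 3).trans ((pow_dvd_pow _ h3).trans L.pp)⟩

theorem ymain (hp : p.Prime) (hf : 0 < f) (P : Par t n (p ^ f)) (h : TData G t n (p ^ f)) :
    ∃ (K : Subgroup G) (_ : K.Normal) (H : Subgroup (G ⧸ K)), H.Normal ∧ IsSimpleGroup H ∧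
      ¬ IsMulCommutative H ∧ centralizer (H : Set (G ⧸ K)) = ⊥ ∧ HOut2 H t n (p ^ f) := by
  obtain ⟨K, _, H, h0, h1, h2, h3, D⟩ := ysec P h
  have R := P.rng
  have q2 := P.q2
  have n3 := R.2.1
  have sj := QuotientGroup.mk'_surjective K
  have cy : ∀ r, r.Prime → Gq t n (Ord (p ^ f : ℕ) r) → Cyc H r := fun r hr g =>
    ((h.cyc r hr g).of_surj sj hr).sub hr H
  have nk : ∀ r u, r.Prime → u.Prime → Kp t n (Ord (p ^ f : ℕ) r) → Kp t n (Ord (p ^ f : ℕ) u) →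
      Ord (p ^ f : ℕ) u ≠ Ord (p ^ f : ℕ) r → NAd H u r := fun r u hr hu a b c =>
    (h.nk R hr hu a b c).imp_right (mt fun e => e.of_sub.of_surj sj)
  have nq : ∀ v, v.Prime → v ≠ p → ¬ v ∣ p ^ f := fun v hv e d =>
    e ((Nat.prime_dvd_prime_iff_eq hv hp).1 (hv.dvd_of_dvd_pow d))
  have lie : ∀ {v g N D' d : ℕ} {I : Finset ℕ} (i m : ℕ), LT (Nat.card H) v g N D' I →
      Nat.card H ^ 3 ≤ ((v ^ g) ^ N) ^ 8 → NC H v d → d ≤ N + 1 → 3 ≤ N → i < 5 →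
      2 ≤ m ∧ (i ≠ 2 → 3 ≤ m) → fam i m = (N, I) → v = p := by
    intro v g N D' d I i m L a b c e i5 hm e'
    by_contra hne
    refine P.cross _ v _ D.ks_dvd D.dvd (nq v L.pv hne) (lz_cl L a i m i5 hm e' e) fun k => ?_
    obtain ⟨j, rfl⟩ : ∃ j, N = j + 2 + 1 := ⟨N - 3, by omega⟩
    refine (b (j + 2) (c.trans (le_trans ?_ (Nat.pow_le_pow_left L.pv.two_le _)))
      ((pow_dvd_pow_of_dvd (dvd_pow_self v L.g0.ne') _).trans L.pp) (cy v L.pv k)).elim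
    have := @Nat.lt_two_pow_self j
    rw [pow_add]
    omega
  have u2 : ∀ {v g : ℕ}, v.Prime → 0 < g → 2 ≤ v ^ g := fun hv hg => Nat.one_lt_pow hg.ne' hv.one_lt
  have tri : ∀ m, 3 ≤ m → m ≤ m * (m - 1) / 2 + 1 ∧ 3 ≤ m * (m - 1) / 2 := fun m hm => by
    have := Nat.mul_le_mul_left m (show 2 ≤ m - 1 by omega)
    omega
  have om : ∀ {m u : ℕ}, IsOm H m u → ∃ v g : ℕ, v.Prime ∧ 0 < g ∧ v ^ g = u :=
    fun ⟨F, _, _, _, e, _⟩ => e ▸ card_vg F
  refine ⟨K, inferInstance, H, h0, h1, h2, h3, fun m => ⟨fun φ => ?_⟩, fun m F _ _ => ⟨fun φ => ?_⟩,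
    fun m u hm a b => ?_, fun m u hm a b => ?_, fun m u hm a b => ?_, fun m u hm a b => ?_,
    fun u hu a => ?_, fun e => P.spor _ e D.ks_dvd D.dvd⟩
  · have m5 := alt_five h1 h2 φ
    have : Nontrivial (Fin m) := Fin.nontrivial_iff_two_le.2 (by omega)
    refine P.alt _ m D.ks_dvd D.dvd m5 ?_ fun r hr d => ?_
    swap
    · have g := (Finset.mem_filter.1 (pr_ord hr d)).2
      exact alt_lt hr (Ord.ne_two (b := (p ^ f : ℕ)) (by have := g.1.1; omega))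
        ((cy r hr g).of_surj (φ := φ.toMonoidHom) φ.surjective hr)
    rw [Nat.card_congr φ.toEquiv, two_mul_nat_card_alternatingGroup, Nat.card_perm, Nat.card_fin]
  · have hm : 2 ≤ m := by
      by_contra hm
      have := pl_small (F := F) (not_le.1 hm)
      have := φ.injective.subsingleton
      exact false_of_nontrivial_of_subsingleton H
    obtain ⟨v, g, hv, hg, e⟩ := card_vg F
    rcases hm.eq_or_lt with rfl | m3
    · exact D.l2 φ hv hg e.symm nk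
    have hh : Nat.card H * Nat.gcd m (v ^ g - 1) = ordSL m (v ^ g) := by
      rw [Nat.card_congr φ.toEquiv, e]
      exact card_PL (by omega)
    obtain rfl := lie 0 m (lt_A hv hg hm hh) (sz_A (u2 hv hg) m3 hh)
      (nc_PL φ hv (e ▸ dvd_pow_self v hg.ne')) (tri m m3).1 (tri m m3).2 (by omega) (by omega) rfl
    obtain ⟨ht, rfl, e'⟩ := D.lin hp hf hg hm hh
    rw [e'] at e
    have T := (tb_xc t R.mem.1 m R.mem.2 R).2
    have T1 : Gq t m (2 * m) := by rcases ht with rfl | rfl <;> exact T.1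
    have T2 : Kp t m m := T.2.2.1 (by rcases ht with rfl | rfl <;> simp)
    obtain ⟨r, hr⟩ := zsig (m := 2 * m) q2 (by omega) fun c => P.z6 c.1 (.inl (c.2 ▸ T1))
    obtain ⟨u, hu⟩ := zsig (m := m) q2 (by omega) fun c => P.z6 c.1 (by simpa only [c.2] using T2)
    have cp : (u * r).Coprime (Nat.card F - 1) := e ▸ Nat.Coprime.mul_left
      (hu.pr.coprime_iff_not_dvd.2 (hu.min 2 two_pos (by omega)))
      (hr.pr.coprime_iff_not_dvd.2 (hr.min 2 two_pos (by omega)))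
    obtain ⟨A, hA⟩ := exists_el (F := F) (n := m) (m := m) (e := u * r) (by omega) le_rfl (by
      rw [← e, ← pow_mul]
      exact ((Nat.coprime_primes hu.pr hr.pr).2 fun a => hr.min m (by omega) (by omega)
        (a ▸ hu.dvd)).mul_dvd_of_dvd_of_dvd ((hu.dvd_iff (by omega) (by omega) _).2
          (dvd_mul_left _ _)) hr.dvd) cp
    have o1 := hr.ord_eq (by omega) (by omega)
    have o2 := hu.ord_eq (by omega) (by omega)
    exact (nk r u hr.pr hu.pr (o1 ▸ .inl T1) (o2.symm ▸ T2) (by omega)).2 (Adj.of_surj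
      (φ := φ.toMonoidHom) φ.surjective ⟨_, (orderOf_mk_center (hA ▸ cp.coprime_dvd_right
        (card_center (F := F) (by omega : 0 < m) ▸ Nat.gcd_dvd_right _ _))).trans hA⟩)
  · obtain ⟨v, g, hv, hg, rfl⟩ : ∃ v g : ℕ, v.Prime ∧ 0 < g ∧ v ^ g = u := by
      obtain ⟨F, _, _, _, e, -⟩ := a
      obtain ⟨v, g, hv, hg, e'⟩ := card_vg F
      exact (isPrimePow_nat_iff u).1 ((isPrimePow_pow_iff two_ne_zero).1
        (e ▸ e' ▸ hv.prime.isPrimePow.pow hg.ne'))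
    obtain rfl := lie 1 m (lt_2A hv hg hm b) (sz_U (u2 hv hg) hm b)
      (nc_SU a hv (dvd_pow_self v hg.ne')) (tri m hm).1 (tri m hm).2 (by omega) (by omega) rfl
    exact (D.uni hp hf hg hm b).elim
  · obtain ⟨v, g, hv, hg, rfl⟩ : ∃ v g : ℕ, v.Prime ∧ 0 < g ∧ v ^ g = u :=
      a.elim (fun ⟨F, _, _, e, _⟩ => e ▸ card_vg F) om
    have := Nat.mul_le_mul_left m hm
    obtain rfl : v = p := a.elim (fun a => lie 2 m (lt_B hv hg hm b) (sz_B (u2 hv hg) hm b)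
      (nc_Sp a hv (dvd_pow_self v hg.ne')) (by omega) (by omega) (by omega) (by omega) rfl)
      fun a => lie 2 m (lt_B hv hg hm b) (sz_B (u2 hv hg) hm b)
        (nc_Om a hv (dvd_pow_self v hg.ne')) (by omega) (by omega) (by omega) (by omega) rfl
    exact D.sym hp hf hg hm b
  · obtain ⟨v, g, hv, hg, rfl⟩ := om a
    have := Nat.mul_le_mul_left m (show 3 ≤ m - 1 by omega)
    obtain rfl := lie 3 m (lt_D hv hg hm b) (sz_D (.inl rfl) (u2 hv hg) hm b)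
      (nc_Om a hv (dvd_pow_self v hg.ne')) (by omega) (by omega) (by omega) (by omega) rfl
    exact D.dp hp hf hg hm b
  · obtain ⟨v, g, hv, hg, rfl⟩ := om a
    have := Nat.mul_le_mul_left m (show 3 ≤ m - 1 by omega)
    obtain rfl := lie 4 m (lt_2D hv hg hm (by simpa only [OrdD, sub_neg_eq_add] using b))
      (sz_D (.inr rfl) (u2 hv hg) hm b) (nc_Om a hv (dvd_pow_self v hg.ne')) (by omega) (by omega)
      (by omega) (by omega) rfl
    exact D.dm hp hf hg hm b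
  · obtain ⟨v, g, hv, hg, rfl⟩ := (isPrimePow_nat_iff u).1 hu
    by_cases e : v = p
    · exact D.exc hp hf hg (e ▸ a.exc)
    obtain ⟨k, L, b⟩ := lz_exc hv hg a
    exact P.cross _ v k D.ks_dvd D.dvd (nq v hv e) L fun k =>
      b (Ord.ne_two (b := (p ^ f : ℕ)) (by have := k.1.1; omega))

end Pool.Agent.Lib.MP_7d41f7_al.B8
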