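import Pool.Agent.Lib.MP_7d41f7_al.F.BTa

/-! Small fields: a computation. -/

set_option autoImplicit false

namespace Pool.Agent.Lib.MP_7d41f7_al.B8

theorem lq6_0 : lp ck4
    1095 5 = true := by
  decide +kernel

theorem lq6_1 : lp ck4
    1415 6 = true := by
  decide +kernel

theorem lq6_2 : lp ck4
    1799 6 = true := by
  decide +kernel

theorem lq6 : lp ck4 1095 17 = true :=
  lp_app (k := 17) (lp_app (k := 11) lq6_0 lq6_1 rfl rfl) lq6_2 rfl rfl

theorem lq7 : lp (fun q => qk (8 * (q ^ 2 - 1) ^ 4) (x4 q)) 2176 154 = true := by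
  decide +kernel

end Pool.Agent.Lib.MP_7d41f7_al.B8
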