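import Pool.Agent.Lib.MP_7d41f7_al.F.BL4
import Pool.Agent.Lib.MP_7d41f7_al.F.BL5
import Pool.Agent.Lib.MP_7d41f7_al.D.QMain

/-! The orthogonal group of plus type in dimension eight over all fields: other characteristics. -/

set_option autoImplicit false

namespace Pool.Agent.Lib.MP_7d41f7_al.B8

variable {h q a b v k p f : ℕ}

theorem ck4_all (hp : p.Prime) (h1 : 7 ≤ p ^ f) (h2 : p ^ f < 2183) : ck4 (p ^ f) = true := by
  by_cases c : p ^ f < 1095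
  · exact lp_spec lq5 hp (by omega) h1 c
  · exact lp_spec lq6 hp (by omega) (by omega) h2

theorem K4.xh (K : K4 h q a b) : x4 q ∣ h := K.x4_dvd.trans K.kept

theorem K4.cross_a (hp : p.Prime) (K : K4 h (p ^ f) a b) (hv : v.Prime) (ha : v ∣ a)
    (h1 : v ^ k ∣ h) (h2 : h ≤ (v ^ k) ^ 3) : False := by
  have d := (Int.natCast_dvd_natCast.2 h1).trans K.dvd
  by_cases c : p ^ f < 2183
  · have H := ck4_all hp K.big c
    simp only [ck4, frs_eq, frc_eq, Bool.and_eq_true, Nat.blt_eq] at H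
    have a1 := Nat.pow_le_pow_left (Nat.le_of_dvd pk_pos (one_pow_dvd (by decide) K.q2 four_pos hv
      (q4_gq (K.oa hv ha)).1 d)) 3
    have a2 := (Nat.le_of_dvd K.pos K.xh).trans (h2.trans a1)
    rcases K.oa hv ha with e | e <;> rw [e, pk_eq_pkc K.q2 (by omega)] at a2
    exacts [a2.not_gt H.1.2, a2.not_gt H.2]
  generalize p ^ f = q at *
  have a1 := (q4_ppA K.q2 hv (K.oa hv ha) d).2
  have a2 : q + 1 ≤ 2 * q := by omega
  have a3 := K.low.2.trans (Nat.mul_le_mul_left _ ((Nat.le_of_dvd K.pos K.kept).trans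
    (h2.trans (Nat.pow_le_pow_left (a1.trans (Nat.pow_le_pow_left a2 2)) 3))))
  rw [show q ^ 8 = q ^ 2 * q ^ 6 by ring,
    show 84 * ((2 * q) ^ 2) ^ 3 = 5376 * q ^ 6 by ring] at a3
  exact absurd ((Nat.pow_le_pow_left (not_lt.1 c) 2).trans (Nat.le_of_mul_le_mul_right a3
    (pow_pos (two_pos.trans_le K.q2) 6))) (by norm_num)

theorem K4.small (hp : p.Prime) (K : K4 h (p ^ f) a b) (c : p ^ f < 2183) (hq : ¬ v ∣ p ^ f)
    (L : LZ h v k) : False := by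
  have H := ck4_all hp K.big c
  simp only [ck4, frs_eq, frc_eq, Bool.and_eq_true] at H
  exact ck_spec H.1.1.1.1 (by omega) K.q2 K.xh K.dvd hq L fun e => absurd e Bool.false_ne_true

theorem K4.rest (K : K4 h q a b) (hv : v.Prime) (hq : ¬ v ∣ q) (ha : ¬ v ∣ a) (hb : ¬ v ∣ b)
    (h1 : v ^ k ∣ h) : v ^ k ∣ 168 * ((q - 1) * (q + 1)) ^ 4 := by
  have cp : ∀ x, ¬ v ∣ x → ∀ i, (v ^ k).Coprime (x ^ i) := fun x e i =>
    (hv.coprime_iff_not_dvd.2 e).pow k i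
  obtain ⟨w, rfl⟩ : ∃ w, q = w + 1 := ⟨q - 1, by have := K.q2; omega⟩
  have d := (Int.natCast_dvd_natCast.2 h1).trans K.dvd
  rw [q4_ord, show 2 * ((w + 1 : ℕ) : ℤ) ^ 12 * (((w + 1 : ℕ) : ℤ) ^ 2 - 1) ^ 4 *
    (((w + 1 : ℕ) : ℤ) ^ 2 + 1) ^ 2 * (((w + 1 : ℕ) : ℤ) ^ 4 + ((w + 1 : ℕ) : ℤ) ^ 2 + 1) =
    ((2 * (w * (w + 1 + 1)) ^ 4 * (w + 1) ^ 12 * (((w + 1) ^ 2 + 1) ^ 2 *
      ((w + 1) ^ 4 + (w + 1) ^ 2 + 1)) : ℕ) : ℤ) by push_cast; ring, Int.natCast_dvd_natCast] at d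
  have d1 := d.trans (Nat.mul_dvd_mul_left _ (mul_dvd_mul (pow_dvd_pow_of_dvd K.b2 2) K.a2))
  rw [show 2 * (w * (w + 1 + 1)) ^ 4 * (w + 1) ^ 12 * ((2 * b) ^ 2 * (21 * a)) =
    168 * (w * (w + 1 + 1)) ^ 4 * (w + 1) ^ 12 * b ^ 2 * a ^ 1 by ring] at d1
  exact (cp _ hq 12).dvd_of_dvd_mul_right ((cp _ hb 2).dvd_of_dvd_mul_right
    ((cp _ ha 1).dvd_of_dvd_mul_right d1))

theorem rest_aux {c e x y : ℕ} (hv : v.Prime) (he : ¬ v ∣ e) (hn : ¬ (v ∣ x ∧ v ∣ x + y))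
    (h0 : 0 < c * x) (d : v ^ k ∣ c * e * (x * (x + y)) ^ 4) : v ^ k ≤ c * (x + y) ^ 4 := by
  have cp : ∀ x, ¬ v ∣ x → ∀ i, (v ^ k).Coprime (x ^ i) := fun x e i =>
    (hv.coprime_iff_not_dvd.2 e).pow k i
  have c0 := Nat.pos_of_mul_pos_right h0
  have x0 := Nat.pos_of_mul_pos_left h0
  rw [show c * e * (x * (x + y)) ^ 4 = c * x ^ 4 * (x + y) ^ 4 * e ^ 1 by ring] at d
  have d1 := (cp _ he 1).dvd_of_dvd_mul_right d
  by_cases g : v ∣ x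
  · refine (Nat.le_of_dvd (by positivity) ((cp _ (fun j => hn ⟨g, j⟩) 4).dvd_of_dvd_mul_right
      d1)).trans ?_
    gcongr
    omega
  · rw [mul_right_comm] at d1
    exact Nat.le_of_dvd (by positivity) ((cp _ g 4).dvd_of_dvd_mul_right d1)

theorem K4.fin (K : K4 h q a b) (a2 : (a * b ^ 2) ^ 3 ≤ v ^ 5) (C x : ℕ)
    (e : 84 ^ 3 * C ^ 5 * (x + 2) ^ 20 < 1 * x ^ 24) (x0 : 0 < x) (l : x < q)
    (a3 : v ≤ C * (q + 1) ^ 4) : False := by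
  have a6 := mono (y := q - 1) e (by omega) x0 (by omega)
  rw [show q - 1 + 2 = q + 1 by omega, one_mul] at a6
  refine (a6.trans_le (Nat.pow_le_pow_left (Nat.sub_le _ 1) 24)).not_ge ?_
  calc q ^ 24 = (q ^ 8) ^ 3 := by ring
    _ ≤ (84 * (a * b ^ 2)) ^ 3 := Nat.pow_le_pow_left K.low.2 3
    _ = 84 ^ 3 * (a * b ^ 2) ^ 3 := mul_pow _ _ _
    _ ≤ 84 ^ 3 * (C * (q + 1) ^ 4) ^ 5 :=
      Nat.mul_le_mul_left _ (a2.trans (Nat.pow_le_pow_left a3 5))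
    _ = _ := by rw [mul_pow, ← pow_mul (q + 1), mul_assoc]

theorem K4.cross (hp : p.Prime) (K : K4 h (p ^ f) a b) (c : 2176 ≤ p ^ f) (hv : v.Prime)
    (hq : ¬ v ∣ p ^ f) (ha : ¬ v ∣ a) (hb : ¬ v ∣ b) (h1 : v ^ k ∣ h) (h2 : h ^ 3 ≤ (v ^ k) ^ 8) :
    False := by
  have a2 := sz_cut (c := 5) K.pos.ne' hv K.kept (hv.coprime_iff_not_dvd.2 fun d =>
    (hv.dvd_mul.1 d).elim ha fun e => hb (hv.dvd_of_dvd_pow e)).symm h1 h2
  have d := K.rest hv hq ha hb h1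
  have fin := K.fin a2
  rcases eq_or_ne v 2 with rfl | v2
  · by_cases c2 : p ^ f < 12032
    · have H : qk (8 * ((p ^ f) ^ 2 - 1) ^ 4) (x4 (p ^ f)) = true :=
        lp_spec lq7 hp (by omega) c (by omega)
      have a3 := qk_spec H (k := k) (Nat.mul_ne_zero (by omega)
        (pow_ne_zero 4 (Nat.sub_ne_zero_of_lt (by nlinarith)))) hv (by omega) (by
          rw [show 168 = 21 * 8 from rfl, mul_assoc, mul_comm (p ^ f - 1), ← Nat.sq_sub_sq _ 1] at d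
          exact (Nat.Coprime.pow_left k (by decide)).dvd_of_dvd_mul_left d)
      exact (a3.trans_le ((Nat.pow_le_pow_left (Nat.le_of_dvd (Nat.pos_of_dvd_of_pos K.kept K.pos)
        K.x4_dvd) 3).trans a2)).false
    refine fin 128 12000 (by decide +kernel) (by omega) (by omega) ?_
    obtain ⟨w, e⟩ : ∃ w, p ^ f = 2 * w + 1 := ⟨p ^ f / 2, by omega⟩
    rw [e] at d c ⊢
    rw [Nat.add_sub_cancel, show 168 * (2 * w * (2 * w + 1 + 1)) ^ 4 =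
      2048 * 21 * (w * (w + 1)) ^ 4 by ring] at d
    exact (rest_aux hv (by omega) (by omega) (by omega) d).trans (le_of_eq (by ring))
  refine fin 21 2000 (by decide +kernel) (by omega) (by omega) ?_
  have n2 : ¬ v ∣ 2 := fun e => v2 ((Nat.prime_dvd_prime_iff_eq hv Nat.prime_two).1 e)
  obtain ⟨w, e⟩ : ∃ w, p ^ f = w + 1 := ⟨p ^ f - 1, by omega⟩
  rw [e] at d c ⊢
  exact rest_aux (e := 2 ^ 3) (x := w) (y := 2) hv (fun j => n2 (hv.dvd_of_dvd_pow j))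
    (fun j => n2 ((Nat.dvd_add_right j.1).1 j.2)) (by omega) d

end Pool.Agent.Lib.MP_7d41f7_al.B8
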