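import Pool.Agent.Lib.MP_7d41f7_al.F.BC

/-! The estimates for large fields. -/

set_option autoImplicit false

namespace Pool.Agent.Lib.MP_7d41f7_al.B8

open Finset

variable {T h m v k x q n p f e : ℕ} {t : Ty}

/-- An upper bound for the product of the primes between `m / 2` and `m`. -/
def tm (m : ℕ) : ℕ := strip (m.factorial / ((m / 2).factorial * (m / 2).factorial)) (m / 2).factorial

theorem tb_alt : allR (fun m => frc (tm m) fun T => T.blt (2 ^ 31) ||
    ((T ^ 3).ble (2 ^ ((∑ i ∈ Ico 1 9, m / 2 ^ i - 1) * 5 - 65)) &&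
      (2 ^ 65 * T ^ 3).ble ((3 ^ ∑ i ∈ Ico 1 9, m / 3 ^ i) ^ 5))) 380 = true := by
  decide +kernel

theorem alt_strip (hT : T ∣ m.factorial) (hm : ∀ r, r.Prime → r ∣ T → m < 2 * r) : T ≤ tm m := by
  have c : T.Coprime (m / 2).factorial := Nat.coprime_of_dvd fun r hr d1 d2 => by
    have := hm r hr d1
    have := hr.dvd_factorial.1 d2
    omega
  have e := Nat.div_mul_cancel ((Nat.factorial_mul_factorial_dvd_factorial_add (m / 2)
    (m / 2)).trans (Nat.factorial_dvd_factorial (show m / 2 + m / 2 ≤ m by omega)))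
  exact Nat.le_of_dvd (Nat.pos_of_dvd_of_pos ((strip_dvd _ _).trans (Dvd.intro _ e))
    m.factorial_pos) (dvd_strip ((c.mul_right c).dvd_of_dvd_mul_right (e.symm ▸ hT)) c)

theorem alt_core (hh : 2 * h = m.factorial) (hT : T ∣ h) (hm : ∀ r, r.Prime → r ∣ T → m < 2 * r)
    (h1 : 2 ^ 31 ≤ T) (hv : v = 2 ∨ v = 3) (h2 : ∀ j, v ^ j ∣ h → (v ^ j) ^ 5 < 2 ^ 65 * T ^ 3) :
    False := by
  have d := hh ▸ hT.mul_left 2
  by_cases c : m < 380
  · have a := allR_spec tb_alt m c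
    have b := alt_strip d hm
    simp only [frc_eq, Bool.or_eq_true, Bool.and_eq_true, Nat.blt_eq, Nat.ble_eq] at a
    obtain ⟨a1, a2⟩ := a.resolve_left (h1.trans b).not_gt
    have b3 := Nat.pow_le_pow_left b 3
    have l : ∀ p, p.Prime → p ^ (∑ i ∈ Ico 1 9, m / p ^ i) ∣ 2 * h := fun p hp =>
      hh ▸ (hp.pow_dvd_factorial_iff (Nat.log_lt_of_lt_pow' (by omega)
        ((c.trans (by norm_num)).trans_le (Nat.pow_le_pow_left hp.two_le 9)))).2 le_rfl
    rcases hv with rfl | rfl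
    · have l2 := l 2 Nat.prime_two
      generalize ∑ i ∈ Ico 1 9, m / 2 ^ i = s at a1 l2
      have a3 := (Nat.pow_le_pow_iff_right one_lt_two).1 (((pow_mul 2 31 3).trans_le
        (Nat.pow_le_pow_left h1 3)).trans (b3.trans a1))
      obtain ⟨j, rfl⟩ : ∃ j, s = j + 1 := ⟨s - 1, by omega⟩
      rw [pow_succ', Nat.mul_dvd_mul_iff_left two_pos] at l2
      refine (h2 j l2).not_ge ((Nat.mul_le_mul_left _ (b3.trans a1)).trans_eq ?_)
      rw [← pow_add, ← pow_mul]
      congr 1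
      omega
    · exact (h2 _ (Nat.Coprime.dvd_of_dvd_mul_left (Nat.Coprime.pow_left _ (by norm_num))
        (l 3 Nat.prime_three))).not_ge ((Nat.mul_le_mul_left _ b3).trans a2)
  have b1 : 2 ^ 65 * T ^ 3 ≤ 2 ^ (65 + (m / 16 + m) * 3) := by
    have a := KD.not_alt_aux21 (j := m / 16) (by omega)
    rw [pow_add, pow_mul, pow_add]
    exact Nat.mul_le_mul_left _ (Nat.pow_le_pow_left ((KD.not_alt_aux22 (by omega) d hm).trans
      (Nat.mul_le_mul_right _ (by omega))) 3)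
  rcases hv with rfl | rfl
  · have c := not_alt_aux1 (a := m / 4) (m := m) Nat.prime_two (by omega)
    rw [← hh, show m / 4 + 2 * (m / 4) = 3 * (m / 4) - 1 + 1 by omega, pow_succ',
      Nat.mul_dvd_mul_iff_left two_pos] at c
    have := (h2 _ c).trans_le b1
    rw [← pow_mul, Nat.pow_lt_pow_iff_right one_lt_two] at this
    omega
  · have c := (h2 _ (Nat.Coprime.dvd_of_dvd_mul_left (Nat.Coprime.pow_left _ (by norm_num))
      (hh ▸ not_alt_aux1 (a := m / 9) Nat.prime_three (by omega)))).trans_le b1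
    rw [← pow_mul, show (m / 9 + 3 * (m / 9)) * 5 = 20 * (m / 9) by ring, pow_mul] at c
    have := (Nat.pow_le_pow_left (show 2 ^ 31 ≤ 3 ^ 20 by norm_num) _).trans_lt c
    rw [← pow_mul, Nat.pow_lt_pow_iff_right one_lt_two] at this
    omega

/-- One inequality between the parameters. -/
def Iq (x : ℕ) (s : Finset ℕ) (C D a c : ℕ) : Prop :=
  C * lo s ^ c * (x + 2) ^ a < D * x ^ (c * dgs s) ∧ a ≤ c * dgs s

instance (x : ℕ) (s : Finset ℕ) (C D a c : ℕ) : Decidable (Iq x s C D a c) := by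
  unfold Iq; infer_instance

theorem Iq.use {s : Finset ℕ} {C D a c : ℕ} (H : Iq x s C D a c) (x0 : 0 < x) (hx : x < q)
    (hs : ∀ e ∈ s, 3 ≤ e) : C * (q + 1) ^ a < D * pr q s ^ c := by
  have h1 := mono H.1 H.2 x0 (show x ≤ q - 1 by omega)
  rw [show q - 1 + 2 = q + 1 by omega, mul_comm c, pow_mul] at h1
  have h2 := h1.trans_le (Nat.mul_le_mul_left D
    (Nat.pow_le_pow_left (pr_low (show 2 ≤ q by omega) hs) c))
  rw [mul_pow, mul_right_comm, mul_left_comm D, mul_comm] at h2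
  exact Nat.lt_of_mul_lt_mul_left h2

/-- The primes of the sporadic groups that do not belong to a class in `s`. -/
def sq (s : Finset ℕ) : List ℕ :=
  [2, 3, 5, 7, 11, 13, 17, 19, 23, 29, 31, 37, 41, 43, 47, 59, 67, 71].filter
    fun r => ∀ e ∈ s, ¬ e ∣ r - 1

theorem le_sq {s : Finset ℕ} (h0 : h ≠ 0) (h1 : T ∣ h)
    (h2 : ∀ r, r.Prime → r ∣ T → ∃ e ∈ s, e ∣ r - 1) : T ≤ strip h (sq s).prod := by
  refine Nat.le_of_dvd (Nat.pos_of_ne_zero (ne_zero_of_dvd_ne_zero h0 (strip_dvd _ _)))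
    (dvd_strip h1 (Nat.coprime_of_dvd fun r hr d1 d2 => ?_))
  obtain ⟨y, hy, d⟩ := hr.prime.dvd_prod_iff.1 d2
  obtain ⟨y1, y2⟩ := List.mem_filter.1 hy
  have y3 : y.Prime := by
    revert y1
    generalize y = z
    revert z
    decide +kernel
  obtain ⟨e, he, o⟩ := h2 r hr d1
  exact of_decide_eq_true y2 e he ((Nat.prime_dvd_prime_iff_eq hr y3).1 d ▸ o)

/-- The classes that are used against the sporadic groups. -/
def ss (t : Ty) (n : ℕ) : Finset ℕ := if n = 3 then {3, 6} else ks t n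

/-- The inequalities at the bound. -/
def An (t : Ty) (n x : ℕ) : Prop :=
  2 ≤ x ∧ (n = 3 → 240 ≤ x) ∧ (xcl t n = 0 ∨ xcl t n = n ∨ n = 5 ∧ xcl t n = 3) ∧
    ss t n ⊆ ks t n ∧ Iq x (gs t n) 1 1 (n * 5) 3 ∧
    (∀ e ∈ gs t n, Iq x ((ks t n).erase e) 1 1 (e.totient * 4) 3) ∧
    (∀ h ∈ sporOrd, Iq x (ss t n) (strip h (sq (ss t n)).prod) 1 0 1) ∧
    Iq x (gs t n) ((2 * 4 ^ n) ^ 5) (2 ^ 65) (n * 5) 3 ∧ Iq x (gs t n) (2 ^ 31) 1 0 1

instance (t : Ty) (n x : ℕ) : Decidable (An t n x) := by unfold An; infer_instance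

theorem par_of_an (hp : p.Prime) (R : Rng t n) (A : An t n x) (hx : x < p ^ f)
    (sm : ∀ v k : ℕ, v.Prime → v ≤ n → ¬ v ∣ p ^ f → ((v ^ k : ℕ) : ℤ) ∣ t.ord n (p ^ f : ℕ) →
      (v ^ k) ^ 5 < pr (p ^ f) (ks t n) ^ 3) : Par t n (p ^ f) := by
  obtain ⟨x2, a3, a4, A1, A2, A3, A4, A5, A6⟩ := A
  have v0 : ∃ v, (v = 2 ∨ v = 3) ∧ v.Prime ∧ ¬ v ∣ p ^ f := by
    by_cases c : p = 2
    · exact ⟨3, .inr rfl, Nat.prime_three, fun d => absurd (c ▸ Nat.prime_three.dvd_of_dvd_pow d)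
        (by decide)⟩
    · exact ⟨2, .inl rfl, Nat.prime_two, fun d => c ((Nat.prime_dvd_prime_iff_eq Nat.prime_two
        hp).1 (Nat.prime_two.dvd_of_dvd_pow d)).symm⟩
  generalize p ^ f = q at *
  have n3 := R.2.1
  have q2 : 2 ≤ q := by omega
  have x0 : 0 < x := by omega
  have k3 : ∀ e ∈ ks t n, 3 ≤ e := fun e he => ((mem_filter.1 he).2.facts R).1
  have g3 := Par2.sz1_aux2 t n
  have B2 := A2.use x0 hx g3
  rw [one_mul, one_mul, pow_mul] at B2
  have gk : pr q (gs t n) ∣ pr q (ks t n) := prod_dvd_prod_of_subset _ _ _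
    (monotone_filter_right _ fun _ _ => .inl)
  have big : ∀ u : ℕ, u.Prime → xcl t n ≠ 0 → Ord q u = xcl t n → n < u := fun u hu c0 c => by
    have b1 := (q4_le (q := q) hu (by omega)).1
    have := hu.two_le
    have : u ≠ 4 := fun e => absurd (e ▸ hu) (by decide)
    rw [c] at b1
    rcases a4 with e | e | ⟨e', e⟩
    · exact absurd e c0
    · have := Nat.le_of_dvd (by omega) b1
      omega
    · rw [e] at b1
      omega
  have h0 : ∀ h : ℕ, (h : ℤ) ∣ t.ord n q → h ≠ 0 := fun h d =>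
    ne_zero_of_dvd_ne_zero (ord_ne q2) (Int.natCast_dvd.1 d)
  refine ⟨R, q2, by omega, fun u k hu c0 c d l d2 => ?_, fun h v k h1 h2 h3 L g => ?_,
    fun h m h1 h2 _ e hm => ?_, fun h hh h1 h2 => ?_, fun n3 e g d => ?_⟩
  · refine B2.not_ge ((Nat.pow_le_pow_left (((Nat.le_of_dvd (by omega) d2).trans
      (Nat.sub_le _ _)).trans (pp_big (by omega) q2 hu (q4_le hu (by omega)).2 (big u hu c0 c) d)) 3).trans (Nat.pow_le_pow_right ?_ (by omega)))
    positivity
  · have hv := L.pv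
    have d := (Int.natCast_dvd_natCast.2 L.pp).trans h2
    have cp : ∀ s : Finset ℕ, Ord q v ∉ s → (pr q s).Coprime v := fun s hs =>
      (hv.coprime_iff_not_dvd.2 fun d => hs (pr_ord hv d)).symm
    by_cases c : Gq t n (Ord q v)
    · have B := (A3 _ (mem_filter.2 ⟨mem_range.2 (c.lt R), c⟩)).use x0 hx
        fun e he => k3 e (mem_of_mem_erase he)
      rw [one_mul, one_mul, pow_mul] at B
      exact B.not_ge ((sz_cut (h0 h h2) hv ((prod_dvd_prod_of_subset _ _ _
        (erase_subset _ _)).trans h1) (cp _ (notMem_erase _ _)) L.pp (g c)).trans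
          (Nat.pow_le_pow_left ((Nat.le_of_dvd pk_pos (one_pow_dvd R.1 q2 (by omega) hv c.1 d)).trans
            (pk_le q2 (by have := c.1.1; omega))) 4))
    by_cases l : n < v
    · exact B2.not_ge ((sz_cut (h0 h h2) hv (gk.trans h1) (cp _ fun e => c (mem_filter.1 e).2) L.pp
        L.sz).trans (Nat.pow_le_pow_left (pp_big (by omega) q2 hv h3 l d) 5))
    · exact (sm v k hv (not_lt.1 l) h3 d).not_ge (sz_cut (h0 h h2) hv h1 (cp _ fun e =>
        (mem_filter.1 e).2.elim c fun b => l (big v hv (b.1 ▸ b.2) b.1)) L.pp L.sz)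
  · obtain ⟨v, v1, hv, v2⟩ := v0
    have B := A5.use x0 hx g3
    have B6 := A6.use x0 hx g3
    rw [pow_mul, ← mul_pow] at B
    rw [pow_zero, mul_one, one_mul, pow_one] at B6
    exact alt_core e (gk.trans h1) hm B6.le v1 fun j d => (Nat.pow_le_pow_left
      (pp_any (by omega) q2 hv v2 ((Int.natCast_dvd_natCast.2 d).trans h2)) 5).trans_lt B
  · have B := (A4 h hh).use x0 hx fun e he => k3 e (A1 he)
    rw [pow_zero, mul_one, one_mul, pow_one] at B
    exact B.not_ge (le_sq (h0 h h2) ((prod_dvd_prod_of_subset _ _ _ A1).trans h1) fun r hr d =>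
      have o := pr_ord hr d
      ⟨_, o, (q4_le hr (by have := k3 _ (A1 o); omega)).1⟩)
  · subst n3
    have tb : ∀ t ∈ [Ty.B, .C, .Dp, .Dm], Rng t 3 → gs t 3 = {3, 4, 6} := by decide +kernel
    have e1 := tb t R.mem.1 R
    have e2 : e ∈ gs t 3 := mem_filter.2 ⟨mem_range.2 (g.lt R), g⟩
    have e3 : e = 3 ∨ e = 4 ∨ e = 6 := by simpa [e1] using e2
    have q3 := a3 rfl
    obtain ⟨z, z0, z1, z2⟩ := pk_small (q := q) (by omega) e3
    have d5 : pr q ((gs t 3).erase e) ∣ z * (pk q e + 1) := by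
      refine Int.natCast_dvd_natCast.1 (IsCoprime.dvd_of_dvd_mul_left
        (y := (q : ℤ) ^ 2 * (q ^ 2 - 1))
        (Int.isCoprime_iff_gcd_eq_one.2 (Nat.coprime_of_dvd fun r hr a b => ?_))
        ((Int.natCast_dvd_natCast.2 d).trans ?_))
      · have := g3 _ (mem_of_mem_erase (pr_ord hr a))
        exact (Ord.of_mul hr (Int.natCast_dvd.2 b)).elim (by omega) fun c => by
          have := Nat.le_of_dvd two_pos c
          omega
      · rw [Nat.cast_mul, Nat.cast_mul, Nat.cast_pred pk_pos, ← mul_assoc]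
        exact mul_dvd_mul_right z2 _
    have b1 := Nat.le_of_dvd (by positivity) d5
    have b2 := pr_six q2
    have b3 := pk_le (e := e) q2 (by omega)
    rw [show e.totient = 2 by rcases e3 with c | c | c <;> rw [c] <;> decide] at b3
    rw [← e1, pr, ← mul_prod_erase _ _ e2, ← pr] at b2
    have b4 : pk q e ≤ 4 * q ^ 2 := by nlinarith
    have b5 : z * (pk q e + 1) ≤ 2 * q * (5 * q ^ 2) := Nat.mul_le_mul (by omega) (by nlinarith)
    have b6 := b2.trans (Nat.mul_le_mul_left 6 (Nat.mul_le_mul b4 (b1.trans b5)))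
    have b7 := Nat.mul_lt_mul_of_pos_right (show 240 < q by omega) (pow_pos (by omega : 0 < q) 5)
    linarith

end Pool.Agent.Lib.MP_7d41f7_al.B8
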