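import Pool.Agent.Lib.MP_7d41f7_al.F.BT
import Pool.Agent.Lib.MP_7d41f7_al.F.BN

/-! The orthogonal group of plus type in dimension eight over all fields: sporadic and alternating
sections. -/

set_option autoImplicit false

namespace Pool.Agent.Lib.MP_7d41f7_al.B8

open Finset

variable {h q a b r u v i k p f g c m : ℕ}

theorem ck4_parts (H : ck4 q = true) :
    ck 4 q (strip (Ty.Dp.ord 4 q).natAbs q) (x4 q) 2200 (fun _ => false) = true ∧
      cs (Ty.Dp.ord 4 q).natAbs (x4 q) = true ∧ ca (Ty.Dp.ord 4 q).natAbs (x4 q) 200 5 60 = true ∧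
        pkc q 3 ^ 3 < x4 q ∧ pkc q 6 ^ 3 < x4 q := by
  simpa only [ck4, frc_eq, frs_eq, Bool.and_eq_true, Nat.blt_eq, and_assoc] using H

theorem K4.not_spor (K : K4 h q a b) (L : q < 2183 → ck4 q = true) : h ∉ sporOrd := by
  intro e
  by_cases hq : q < 2183
  · exact cs_spec (ck4_parts (L hq)).2.1 e (K.x4_dvd.trans K.kept) (Int.natCast_dvd.1 K.dvd)
  have h3 : ∀ x ∈ sporOrd, 84 * strip x [2, 3, 11, 23, 47, 59, 71].prod < 2183 ^ 8 := by
    decide +kernel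
  refine (h3 h e).not_ge ((Nat.pow_le_pow_left (not_lt.1 hq) 8).trans (K.low.2.trans
    (Nat.mul_le_mul_left 84 (Nat.le_of_dvd (Nat.pos_of_ne_zero (ne_zero_of_dvd_ne_zero K.pos.ne'
      (strip_dvd _ _))) (dvd_strip K.kept (Nat.coprime_of_dvd fun r hr d1 d2 => ?_))))))
  obtain ⟨y, hy, d⟩ := hr.prime.dvd_prod_iff.1 d2
  have t : ∀ y ∈ [2, 3, 11, 23, 47, 59, 71], y.Prime ∧ ¬ 3 ∣ y - 1 ∧ ¬ 4 ∣ y - 1 := by
    decide +kernel
  obtain rfl := (Nat.prime_dvd_prime_iff_eq hr (t y hy).1).1 d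
  rcases hr.dvd_mul.1 d1 with c | c
  · have o := K.oa hr c
    refine (t r hy).2.1 (dvd_trans ?_ (q4_le (q := q) hr (by omega)).1)
    rcases o with o | o <;> simp [o]
  · have o := K.ob hr (hr.dvd_of_dvd_pow c)
    exact (t r hy).2.2 (o ▸ (q4_le (q := q) hr (by omega)).1)

theorem tb_alt4 : allR (fun m => frc (21 * tm m) fun T => T.blt (2176 ^ 4) ||
    (4 * (2 ^ m * T ^ 4)).blt m.factorial) 200 = true := by
  decide +kernel

theorem K4.not_alt_big (hp : p.Prime) (K : K4 h (p ^ f) a b) (h0 : 2176 ≤ p ^ f)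
    (hh : 2 * h = m.factorial) (hm : ∀ r, r.Prime → r ∣ a → m < 2 * r) : False := by
  have m0 : 0 < m := Nat.pos_of_ne_zero fun e => by
    rw [e, Nat.factorial_zero] at hh
    omega
  have d : h ∣ m.factorial := hh ▸ dvd_mul_left h 2
  have da := ((dvd_mul_right _ _).trans K.kept).trans d
  obtain ⟨j, w, hw, e⟩ := Nat.exists_eq_pow_mul_and_not_dvd K.pos.ne' p hp.ne_one
  have b2 := K4.not_alt_aux2 hp ((Dvd.intro _ e.symm).trans d)
  have b3 := K4.not_alt_aux3 K.q2 ((hp.coprime_iff_not_dvd.2 hw).symm.pow_right f)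
    ((Int.natCast_dvd_natCast.2 (Dvd.intro_left _ e.symm)).trans K.dvd)
  have b4 : ∀ T, (p ^ f) ^ 4 ≤ T → m.factorial ≤ 4 * (2 ^ m * T ^ 4) := fun T b0 => calc
    m.factorial = 2 * (p ^ j * w) := by rw [← hh, e]
    _ ≤ 2 * (2 ^ m * (2 * T ^ 4)) := by
      gcongr
      exact b3.trans (by gcongr)
    _ = _ := by ring
  by_cases b1 : 200 ≤ m
  · refine (K4.not_alt_aux1 b1).not_ge ((b4 _ (K.low.1.trans (Nat.mul_le_mul_left 21
      (KD.not_alt_aux22 m0 da hm)))).trans_eq ?_)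
    rw [show 32 ^ m = (2 ^ m) ^ 5 by rw [← pow_mul, mul_comm, pow_mul]; rfl]
    ring
  have b0 := K.low.1.trans (Nat.mul_le_mul_left 21 (alt_strip da hm))
  have t := allR_spec tb_alt4 m (by omega)
  simp only [frc_eq, Bool.or_eq_true, Nat.blt_eq] at t
  exact t.elim (fun t => t.not_ge ((Nat.pow_le_pow_left h0 4).trans b0))
    fun t => t.not_ge (b4 _ b0)

theorem K4.not_alt (hp : p.Prime) (K : K4 h (p ^ f) a b) (L : p ^ f < 2183 → ck4 (p ^ f) = true)
    (m5 : 5 ≤ m) (hh : 2 * h = m.factorial) (hm : ∀ r, r.Prime → r ∣ a → m < 2 * r) : False := by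
  by_cases hq : p ^ f < 2183
  · exact ca_spec (K.x4_dvd.trans K.kept) (Int.natCast_dvd.1 K.dvd) hh 200 5 60
      (ck4_parts (L hq)).2.2.1 rfl m5
  · exact K.not_alt_big hp (by omega) hh hm

end Pool.Agent.Lib.MP_7d41f7_al.B8
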