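import Pool.Agent.Lib.MP_7d41f7_al.F.BQC
import Pool.Agent.Lib.MP_7d41f7_al.F.BQS
import Pool.Agent.Lib.MP_7d41f7_al.F.BQX
import Pool.Agent.Lib.MP_7d41f7_al.F.BQZ
import Pool.Agent.Lib.MP_7d41f7_al.F.BM

/-! The orthogonal group of plus type in dimension eight over all fields: the section. -/

set_option autoImplicit false

namespace Pool.Agent.Lib.MP_7d41f7_al.B8

open Subgroup

variable {G : Type} [Group G] [Finite G] {r s q p f : ℕ}

theorem qsec (hq : 7 ≤ q) (h : TData G .Dp 4 q) :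
    ∃ (K : Subgroup G) (_ : K.Normal) (H : Subgroup (G ⧸ K)), H.Normal ∧ IsSimpleGroup H ∧
      ¬ IsMulCommutative H ∧ centralizer (H : Set (G ⧸ K)) = ⊥ ∧ ∃ a b, K4 (Nat.card H) q a b := by
  classical
  have q2 : 2 ≤ q := le_trans (by norm_num) hq
  obtain ⟨c, hc, hc'⟩ := h.card
  obtain ⟨a, b, a1, a3, b1, b3⟩ := q4_split q
  have a2 : a ∣ q ^ 4 + q ^ 2 + 1 ∧ q ^ 4 + q ^ 2 + 1 ∣ 3 * a :=
    a1.elim (fun e => ⟨e.dvd, e ▸ dvd_mul_left _ _⟩) fun e => ⟨Dvd.intro_left _ e, e.symm.dvd⟩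
  have b2 : b ∣ q ^ 2 + 1 ∧ q ^ 2 + 1 ∣ 2 * b :=
    b1.elim (fun e => ⟨e.dvd, e ▸ dvd_mul_left _ _⟩) fun e => ⟨Dvd.intro_left _ e, e.symm.dvd⟩
  have oa : ∀ r, r.Prime → r ∣ a → Ord q r = 3 ∨ Ord q r = 6 := fun r hr d =>
    q4_clsA hr (fun e => a3 (e ▸ d)) (d.trans a2.1)
  have ob : ∀ r, r.Prime → r ∣ b → Ord q r = 4 := fun r hr d =>
    q4_cls4 hr (fun e => b3 (e ▸ d)) (d.trans b2.1)
  have dG : ∀ r i, r.Prime → 2 < Ord q r → ((r ^ i : ℕ) : ℤ) ∣ Ty.Dp.ord 4 q →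
      r ^ i ∣ Nat.card G := fun r i hr g d => by
    rw [← hc, ← Nat.cast_mul, Int.natCast_dvd_natCast] at d
    exact ((hr.coprime_iff_not_dvd.2 fun e => (hc' r hr e).not_gt g).pow_left i).dvd_of_dvd_mul_right d
  have lost : ∀ r, r.Prime → Ord q r = 3 ∨ Ord q r = 6 → r ∣ (commutator G).index →
      r ^ (Nat.card G).factorization r ∣ 7 := fun r hr g d => by
    refine q4_lost q2 hc hc' hr g fun u hu o => ?_
    have n := h.na4 hr hu g (.inl o)
    have := Fact.mk hr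
    obtain ⟨P⟩ : Nonempty (Sylow r G) := inferInstance
    have := h.cyc r hr (q4_gq g) P
    have e := free_pow (commutator G) hr
      (P.not_dvd_card_commutator_or_not_dvd_index_commutator.resolve_right (not_not.2 d)) hu n.1 n.2
    have k : (Nat.card G).factorization u = (Nat.card (commutator G)).factorization u := by
      rw [← (commutator G).card_mul_index, Nat.factorization_mul Nat.card_pos.ne'
        (commutator G).index_ne_zero_of_finite, Finsupp.add_apply,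
        Nat.factorization_eq_zero_of_not_dvd fun e => n.2 (adj_of_index _ le_rfl hu hr n.1 e d),
        add_zero]
    rwa [k]
  set π := fun r : ℕ => r.Prime ∧ (Ord q r = 3 ∨ Ord q r = 6) ∧ ¬ r ∣ (commutator G).index
  have key : ∀ x, (∀ r, π r → r ^ (Nat.card G).factorization r ∣ x) → a ∣ 7 * x := fun x hx => by
    refine (Nat.dvd_iff_prime_pow_dvd_dvd _ _).2 fun r i hr d => ?_
    rcases i with _ | i
    · simp
    have g := oa r hr ((dvd_pow_self r i.succ_ne_zero).trans d)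
    have e := pow_dvd_pow r ((hr.pow_dvd_iff_le_factorization Nat.card_pos.ne').1 (dG r _ hr
      (by omega) ((Int.natCast_dvd_natCast.2 (d.trans a2.1)).trans
        (by rw [q4_ord]; push_cast; exact dvd_mul_left _ _))))
    by_cases k : r ∣ (commutator G).index
    · exact (e.trans (lost r hr g k)).mul_right _
    · exact (e.trans (hx r ⟨hr, g, k⟩)).mul_left _
  have key' : ∀ x, a ∣ 7 * x → q ^ 4 + q ^ 2 + 1 ∣ 21 * x := fun x d =>
    a2.2.trans ((mul_dvd_mul_left 3 d).trans (mul_assoc 3 7 x).symm.dvd)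
  have ex : (∃ r, π r ∧ Ord q r = 3) ∧ ∃ r, π r ∧ Ord q r = 6 := by
    have m : ∀ r, r.Prime → r ∣ ∏ r ∈ (Nat.card G).primeFactors with π r,
        r ^ (Nat.card G).factorization r → π r := fun r hr d => by
      obtain ⟨x, hx, e⟩ := (hr.prime.dvd_finsetProd_iff _).1 d
      have k := (Finset.mem_filter.1 hx).2
      rwa [(Nat.prime_dvd_prime_iff_eq hr k.1).1 (hr.dvd_of_dvd_pow e)]
    obtain ⟨⟨x, x1, x2, x3⟩, y, y1, y2, y3⟩ := q4_ex hq (key' _ (key _ fun r hr => by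
      by_cases e : r ∣ Nat.card G
      · exact Finset.dvd_prod_of_mem _
          (Finset.mem_filter.2 ⟨Nat.mem_primeFactors.2 ⟨hr.1, e, Nat.card_pos.ne'⟩, hr⟩)
      · simp [Nat.factorization_eq_zero_of_not_dvd e]))
      fun d => by have := q4_seven Nat.prime_three (m 3 Nat.prime_three d).2.1; omega
    exact ⟨⟨x, m x x1 x2, x3⟩, y, m y y1 y2, y3⟩
  have ex' : ∀ r, π r → ∃ t, π t ∧ Ord q r + Ord q t = 9 := fun r hr => hr.2.1.elim
    (fun e => ex.2.imp fun _ k => ⟨k.1, by rw [e, k.2]⟩)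
    fun e => ex.1.imp fun _ k => ⟨k.1, by rw [e, k.2]⟩
  obtain ⟨K, _, H, h0, h1, h2, h3, h4, h5⟩ := gsec3 (G := G) π
    (fun r ⟨hr, g, k⟩ => ⟨hr, pow_one r ▸ dG r 1 hr (by omega) (by
      rw [pow_one]
      exact ((Ord.dvd_iff 6).2 (by rcases g with g | g <;> rw [g] <;> decide)).trans
        ⟨2 * q ^ 12 * (q ^ 2 - 1) ^ 3 * (q ^ 2 + 1) ^ 2, by rw [q4_ord]; ring⟩),
      h.cyc r hr (q4_gq g), k⟩)
    (fun r s hr hs => by
      by_cases e : Ord q s = Ord q r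
      · obtain ⟨t, ht, k⟩ := ex' r hr
        exact ⟨t, ht, h.na4 hr.1 ht.1 hr.2.1 (.inr k),
          .inr (h.na4 ht.1 hs.1 ht.2.1 (.inr (by omega)))⟩
      · exact ⟨s, hs, h.na4 hr.1 hs.1 hr.2.1 (.inr (by have := hr.2.1; have := hs.2.1; omega)),
          .inl rfl⟩)
    (ex.1.imp fun _ k => k.1)
  have cG : Nat.card G = Nat.card H * H.index * Nat.card K := by
    rw [H.card_mul_index, card_eq_card_quotient_mul_card_subgroup K]
  have dH : ∀ u i, u.Prime → ¬ u ∣ Nat.card K ∧ ¬ u ∣ H.index → u ^ i ∣ Nat.card G →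
      u ^ i ∣ Nat.card H := fun u i hu k d =>
    ((hu.coprime_iff_not_dvd.2 k.2).pow_left i).dvd_of_dvd_mul_right
      (((hu.coprime_iff_not_dvd.2 k.1).pow_left i).dvd_of_dvd_mul_right (cG ▸ d))
  have dO : ∀ x, x ∣ Nat.card G → (x : ℤ) ∣ Ty.Dp.ord 4 q := fun x d =>
    hc ▸ (Int.natCast_dvd_natCast.2 d).mul_right _
  have hb : b ^ 2 ∣ Nat.card H := by
    refine (Nat.dvd_iff_prime_pow_dvd_dvd _ _).2 fun u i hu d => ?_
    rcases i with _ | i
    · simp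
    have o := ob u hu (hu.dvd_of_dvd_pow ((dvd_pow_self u i.succ_ne_zero).trans d))
    have k := fun r (hr : π r) => h5 r u hr hu (h.na4 hr.1 hu hr.2.1 (.inl o))
    refine dH u _ hu ⟨fun e => ?_, fun e => q4_notI hu o fun r hr g => ((k r ⟨hr, g, fun j => ?_⟩).2 e).1⟩
      (dG u _ hu (by omega) ((Int.natCast_dvd_natCast.2 (d.trans (pow_dvd_pow_of_dvd b2.1 2))).trans
        (by rw [q4_ord]; push_cast; exact (dvd_mul_left _ _).mul_right _)))
    · have l := Nat.one_lt_pow (hu.factorization_pos_of_dvd Nat.card_pos.ne' e).ne' hu.one_lt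
      exact q4_notK hq (q4_ppZ hu o (dO _ ((Nat.ordProj_dvd _ u).trans K.card_subgroup_dvd_card))) l
        (key' _ (key _ fun r hr => (Nat.modEq_iff_dvd' l.le).1 (k r hr).1.symm))
    · obtain ⟨x, hx, -⟩ := ex.1
      have n := h.na4 hr hu g (.inl o)
      exact n.2 (adj_of_index _ le_rfl hu hr n.1 ((k x hx).2 e).2 j)
  have ha := key _ fun r hr => dH r _ hr.1 (h4 r hr) (Nat.ordProj_dvd _ r)
  refine ⟨K, inferInstance, H, h0, h1, h2, h3, a.gcd (Nat.card H), b, hq,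
    dO _ (cG ▸ (dvd_mul_right _ _).mul_right _), Nat.Coprime.mul_dvd_of_dvd_of_dvd
      (Nat.Coprime.pow_right _ (Nat.coprime_of_dvd fun r hr x y => ?_)) (Nat.gcd_dvd_right _ _) hb,
    (Nat.gcd_dvd_left _ _).trans a2.1, key' _ ?_, fun d => a3 (d.trans (Nat.gcd_dvd_left _ _)),
    b2.1, b2.2, b3⟩
  · have := oa r hr (x.trans (Nat.gcd_dvd_left _ _))
    have := ob r hr y
    omega
  · rw [← Nat.gcd_mul_left]
    exact Nat.dvd_gcd (dvd_mul_left _ _) ha

theorem dmain (hp : p.Prime) (hf : 0 < f) (hq : 7 ≤ p ^ f) (h : TData G .Dp 4 (p ^ f)) :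
    ∃ (K : Subgroup G) (_ : K.Normal) (H : Subgroup (G ⧸ K)), H.Normal ∧ IsSimpleGroup H ∧
      ¬ IsMulCommutative H ∧ centralizer (H : Set (G ⧸ K)) = ⊥ ∧ HOut2 H .Dp 4 (p ^ f) := by
  obtain ⟨K, _, H, h0, h1, h2, h3, a, b, D⟩ := qsec hq h
  have sj := QuotientGroup.mk'_surjective K
  have cy : ∀ r, r.Prime → r ∣ a → Cyc H r := fun r hr g =>
    ((h.cyc r hr (q4_gq (D.oa hr g))).of_surj sj hr).sub hr H
  have da : ∀ r, r ∣ a → r ∣ Nat.card H := fun r d => (d.mul_right _).trans D.kept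
  have lie0 : ∀ {v k : ℕ}, LZ (Nat.card H) v k → (2176 ≤ p ^ f → ¬ v ∣ b) → v = p := by
    intro v k L z
    have hv := L.pv
    by_contra hne
    have nq : ¬ v ∣ p ^ f := fun d =>
      hne ((Nat.prime_dvd_prime_iff_eq hv hp).1 (hv.dvd_of_dvd_pow d))
    by_cases c : p ^ f < 2176
    · exact D.small hp (by omega) nq L
    by_cases j : v ∣ a
    · refine D.cross_a hp hv j L.pp (le_of_pow_le_pow_left₀ three_ne_zero (Nat.zero_le _)
        (L.sz.trans ?_))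
      rw [← pow_mul _ 3 3]
      exact Nat.pow_le_pow_right (pow_pos hv.pos _) (by norm_num)
    · exact D.cross hp (not_lt.1 c) hv nq j (z (not_lt.1 c)) L.pp L.sz
  have lie : ∀ {v g N D' : ℕ} {I : Finset ℕ} (i m : ℕ), LT (Nat.card H) v g N D' I →
      Nat.card H ^ 3 ≤ ((v ^ g) ^ N) ^ 8 → 3 ≤ N → i < 5 → 2 ≤ m ∧ (i ≠ 2 → 3 ≤ m) →
      fam i m = (N, I) → (1238 ^ 8 < Nat.card H → v ∣ b →
        ∀ X, C4 (Nat.card H) (v ^ g) N a X → False) → v = p := by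
    intro v g N D' I i m L y e i5 hm e' z
    refine lie0 (lz_cl L y i m i5 hm e' e) fun c k => ?_
    obtain ⟨X, C, -⟩ := D.c4 L.pv L.g0 k L.pp
    exact z (D.huge c) k X C
  have tri : ∀ m, 3 ≤ m → 3 ≤ m * (m - 1) / 2 := fun m hm => by
    have := Nat.mul_le_mul hm (show 2 ≤ m - 1 by omega)
    omega
  have c4 : ∀ {v i d d' : ℕ}, v.Prime → v ∣ b → CY H (v ^ i) d → d ≤ d' →
      Cy4 (Nat.card H) a (v ^ i) d' := fun hv k c e r hr x =>
    (c r hr (fun y => by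
      have := D.oa hr x
      rw [(Nat.prime_dvd_prime_iff_eq hr hv).1 (hr.dvd_of_dvd_pow y), D.ob hv k] at this
      omega) (da r x) (cy r hr x)).imp fun _ z => ⟨z.1, z.2.1.trans e, z.2.2⟩
  have u2 : ∀ {v g : ℕ}, v.Prime → 0 < g → 2 ≤ v ^ g := fun hv hg => Nat.one_lt_pow hg.ne' hv.one_lt
  have om : ∀ {m u : ℕ}, IsOm H m u → ∃ v g : ℕ, v.Prime ∧ 0 < g ∧ v ^ g = u :=
    fun ⟨F, _, _, _, e, _⟩ => e ▸ card_vg F
  refine ⟨K, inferInstance, H, h0, h1, h2, h3, fun m => ⟨fun φ => ?_⟩, fun m F _ _ => ⟨fun φ => ?_⟩,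
    fun m u hm x y => ?_, fun m u hm x y => ?_, fun m u hm x y => ?_, fun m u hm x y => ?_,
    fun u hu x => ?_, D.not_spor (ck4_all hp hq)⟩
  · have m5 := alt_five h1 h2 φ
    have : Nontrivial (Fin m) := Fin.nontrivial_iff_two_le.2 (by omega)
    refine D.not_alt (m := m) hp (ck4_all hp hq) m5 ?_ fun r hr g => alt_lt hr (fun e => by
      have := q4_seven hr (D.oa hr g); omega) ((cy r hr g).of_surj (φ := φ.toMonoidHom) φ.surjective hr)
    rw [Nat.card_congr φ.toEquiv, two_mul_nat_card_alternatingGroup, Nat.card_perm, Nat.card_fin]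
  · have hm : 2 ≤ m := by
      by_contra hm
      have := pl_small (F := F) (not_le.1 hm)
      have := φ.injective.subsingleton
      exact false_of_nontrivial_of_subsingleton H
    obtain ⟨v, g, hv, hg, e⟩ := card_vg F
    have hh : Nat.card H * Nat.gcd m (v ^ g - 1) = ordSL m (v ^ g) := by
      rw [Nat.card_congr φ.toEquiv, e]
      exact card_PL (by omega)
    have L := lt_A hv hg hm hh
    rcases hm.eq_or_lt with rfl | m3
    swap
    · obtain rfl := lie 0 m L (sz_A (u2 hv hg) m3 hh) (tri m m3) (by omega) (by omega) rfl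
        fun w k X C => C.lin w m3 hh (c4 hv k (e ▸ cy_PL φ) le_rfl)
      exact D.lin hp hf hg hm hh
    by_cases j : v ∣ a
    · exact D.cross_a hp hv j (pow_mul v g _ ▸ L.pp) (pow_mul v g _ ▸ L.le)
    obtain ⟨w, hw, k, e'⟩ : ∃ w, w.Prime ∧ w ∣ b ∧ w ≠ v := by
      by_contra c
      push Not at c
      obtain ⟨w, hw, k⟩ := D.exb
      exact D.l2 hv hg (c w hw k ▸ k) c hh
    obtain ⟨⟨x, x1, x2, x3⟩, y, y1, y2, y3⟩ := q4_ex hq D.a2 D.a3
    have n : ∀ r u, r.Prime → u.Prime → r ∣ a → Ord (p ^ f : ℕ) u = 4 ∨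
        Ord (p ^ f : ℕ) r + Ord (p ^ f : ℕ) u = 9 → NAd H u r := fun r u hr hu d o =>
      (h.na4 hr hu (D.oa hr d) o).imp_right (mt fun e => e.of_sub.of_surj sj)
    have t : ∀ r, r.Prime → r ≠ v → ¬ r ∣ Nat.card F := fun r hr c d =>
      c ((Nat.prime_dvd_prime_iff_eq hr hv).1 (hr.dvd_of_dvd_pow (e ▸ d)))
    refine three_L2 φ (a := w) (b := x) (c := y) ?_ (n x w x1 hw x2 (.inl (D.ob hw k)))
      (n y w y1 hw y2 (.inl (D.ob hw k))) (n y x y1 x1 y2 (.inr (by omega)))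
    rintro _ (rfl | rfl | rfl)
    · exact ⟨hw, fun c => D.b3 (c ▸ k), ((k.trans (dvd_pow_self b two_ne_zero)).mul_left _).trans
        D.kept, t _ hw e'⟩
    · exact ⟨x1, Ord.ne_two (b := (p ^ f : ℕ)) (by omega), da _ x2, t _ x1 fun c => j (c ▸ x2)⟩
    · exact ⟨y1, Ord.ne_two (b := (p ^ f : ℕ)) (by omega), da _ y2, t _ y1 fun c => j (c ▸ y2)⟩
  · obtain ⟨v, g, hv, hg, rfl⟩ : ∃ v g : ℕ, v.Prime ∧ 0 < g ∧ v ^ g = u := by
      obtain ⟨F, _, _, _, e, -⟩ := x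
      obtain ⟨v, g, hv, hg, e'⟩ := card_vg F
      exact (isPrimePow_nat_iff u).1 ((isPrimePow_pow_iff two_ne_zero).1
        (e ▸ e' ▸ hv.prime.isPrimePow.pow hg.ne'))
    obtain rfl := lie 1 m (lt_2A hv hg hm y) (sz_U (u2 hv hg) hm y) (tri m hm) (by omega)
      (by omega) rfl fun w k X C => C.uni w hm y (pow_mul v g 2 ▸ c4 hv k (pow_mul v g 2 ▸ cy_SU x) le_rfl)
    exact (D.uni hp hf hg hm y).elim
  · obtain ⟨v, g, hv, hg, rfl⟩ : ∃ v g : ℕ, v.Prime ∧ 0 < g ∧ v ^ g = u :=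
      x.elim (fun ⟨F, _, _, e, _⟩ => e ▸ card_vg F) om
    have := Nat.mul_le_mul hm hm
    obtain rfl := lie 2 m (lt_B hv hg hm y) (sz_B (u2 hv hg) hm y) (by omega) (by omega)
      (by omega) rfl fun w k X C => C.sym w hm y (x.elim (fun z => c4 hv k (cy_Sp z) (Nat.le_succ _)) fun z =>
        c4 hv k (cy_Om z) le_rfl)
    exact (D.sym hp hf hg hm y).elim
  · obtain ⟨v, g, hv, hg, rfl⟩ := om x
    have := Nat.mul_le_mul hm (show 3 ≤ m - 1 by omega)
    obtain rfl := lie 3 m (lt_D hv hg hm y) (sz_D (.inl rfl) (u2 hv hg) hm y) (by omega) (by omega)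
      (by omega) rfl fun w k X C => C.ort w (.inl rfl) hm y (c4 hv k (cy_Om x) le_rfl)
    exact ⟨rfl, D.dp hp hf hg hm y⟩
  · obtain ⟨v, g, hv, hg, rfl⟩ := om x
    have := Nat.mul_le_mul hm (show 3 ≤ m - 1 by omega)
    obtain rfl := lie 4 m (lt_2D hv hg hm (by simpa only [OrdD, sub_neg_eq_add] using y))
      (sz_D (.inr rfl) (u2 hv hg) hm y) (by omega) (by omega) (by omega) rfl fun w k X C =>
        C.ort w (.inr rfl) hm y (c4 hv k (cy_Om x) le_rfl)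
    exact (D.dm hp hf hg hm y).elim
  · obtain ⟨v, g, hv, hg, rfl⟩ := (isPrimePow_nat_iff u).1 hu
    obtain ⟨N, L, -⟩ := lz_exc hv hg x
    obtain rfl := lie0 L fun c k => D.exc4 c hv hg k x
    exact D.exc hp hf hg x.exc

end Pool.Agent.Lib.MP_7d41f7_al.B8
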