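import Pool.Agent.Lib.MP_7d41f7_al.F.BY
import Pool.Agent.Lib.MP_7d41f7_al.F.BQM

/-! Symplectic and orthogonal groups of small rank over all fields: the simple section. -/

set_option autoImplicit false

namespace Pool.Agent.Lib.MP_7d41f7_al.B8

open Subgroup

theorem gen_all (G : Type) [Group G] [Finite G] (t : Ty) (n p f : ℕ) (hp : p.Prime) (hf : 0 < f)
    (ht : t ≠ .U) (h3 : 3 ≤ n) (hD : n = 3 → t = .B ∨ t = .C) (hn : n < 32)
    (hs : ¬ Spec t n (p ^ f)) (h : TData G t n (p ^ f)) :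
    ∃ (K : Subgroup G) (_ : K.Normal) (H : Subgroup (G ⧸ K)), H.Normal ∧ IsSimpleGroup H ∧
      ¬ IsMulCommutative H ∧ centralizer (H : Set (G ⧸ K)) = ⊥ ∧ HOut2 H t n (p ^ f) := by
  by_cases c : t = .Dp ∧ n = 4
  · obtain ⟨rfl, rfl⟩ := c
    exact dmain hp hf (not_lt.1 fun e => hs (.inr (.inr ⟨rfl, rfl, e⟩))) h
  refine ymain hp hf (par_all hp hf ⟨ht, h3, hn, fun e => ?_, fun e => ?_⟩ hs) h
  · by_contra a
    rcases hD (by omega) with b | b <;> simp [e] at b
  · by_contra a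
    rcases h3.eq_or_lt with b | b
    · rcases hD b.symm with b | b <;> simp [e] at b
    · exact c ⟨e, by omega⟩

end Pool.Agent.Lib.MP_7d41f7_al.B8
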