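import Pool.Agent.Lib.MP_7d41f7_al.F.BTa
import Pool.Agent.Lib.MP_7d41f7_al.F.BN

/-! The inequalities at the bounds: a computation. -/

set_option autoImplicit false

namespace Pool.Agent.Lib.MP_7d41f7_al.B8

/-- The statement at one value of the parameter. -/
abbrev tbAP (n : ℕ) : Prop :=
  ∀ t ∈ [Ty.B, .Dp, .Dm], Rng t n → An t n (x1 t n) ∧ x1 t n ≤ x0 t n ∧
    x0 t n < 20000 ∧ Iq (x0 t n) (ks t n) ((2 * 4 ^ n) ^ 5) 1 (n * 5) 3

theorem tbA0 : ∀ n < 17, tbAP n := by decide +kernel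

theorem tbA1 : ∀ n < 23, 17 ≤ n → tbAP n := by decide +kernel

theorem tbA2 : ∀ n < 27, 23 ≤ n → tbAP n := by decide +kernel

theorem tbA3 : ∀ n < 30, 27 ≤ n → tbAP n := by decide +kernel

theorem tbA4 : ∀ n < 32, 30 ≤ n → tbAP n := by decide +kernel

theorem tb_an : ∀ t ∈ [Ty.B, .Dp, .Dm], ∀ n < 32, Rng t n → An t n (x1 t n) ∧ x1 t n ≤ x0 t n ∧
    x0 t n < 20000 ∧ Iq (x0 t n) (ks t n) ((2 * 4 ^ n) ^ 5) 1 (n * 5) 3 :=
  fun t ht n hn => ball_app (ball_app (ball_app (ball_app tbA0 tbA1) tbA2) tbA3) tbA4 n hn t ht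

end Pool.Agent.Lib.MP_7d41f7_al.B8
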