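import Pool.Agent.Lib.MP_7d41f7_al.F.BTa

/-! Small fields: a computation. -/

set_option autoImplicit false

namespace Pool.Agent.Lib.MP_7d41f7_al.B8

theorem lq1 : lq .B 3 = true := by
  decide +kernel

theorem lq2_0 : lp (fun q => qk (2 * ((q ^ 2 - 1) * ((q ^ 4 - 1) * (q ^ 6 - 1)))) (q ^ 6 / 6))
    1288 90 = true := by
  decide +kernel

theorem lq2_1 : lp (fun q => qk (2 * ((q ^ 2 - 1) * ((q ^ 4 - 1) * (q ^ 6 - 1)))) (q ^ 6 / 6))
    7048 96 = true := by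
  decide +kernel

theorem lq2_2 : lp (fun q => qk (2 * ((q ^ 2 - 1) * ((q ^ 4 - 1) * (q ^ 6 - 1)))) (q ^ 6 / 6))
    13192 100 = true := by
  decide +kernel

theorem lq2 : lp (fun q => qk (2 * ((q ^ 2 - 1) * ((q ^ 4 - 1) * (q ^ 6 - 1)))) (q ^ 6 / 6))
    1288 286 = true :=
  lp_app (k := 286) (lp_app (k := 186) lq2_0 lq2_1 rfl rfl) lq2_2 rfl rfl

end Pool.Agent.Lib.MP_7d41f7_al.B8
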