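import Pool.Agent.Lib.MP_7d41f7_al.F.BTa

/-! Small fields: a computation. -/

set_option autoImplicit false

namespace Pool.Agent.Lib.MP_7d41f7_al.B8

/-- The statement at one value of the parameter. -/
abbrev lqCP (n : ℕ) : Prop :=
  ∀ t ∈ [Ty.B, .Dp, .Dm], 4 ≤ n → Rng t n → lq t n = true

theorem lqC0 : ∀ n < 5, lqCP n := by decide +kernel

theorem lqC1 : ∀ n < 6, 5 ≤ n → lqCP n := by decide +kernel

theorem lqC2 : ∀ n < 7, 6 ≤ n → lqCP n := by decide +kernel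

theorem lqC3 : ∀ n < 8, 7 ≤ n → lqCP n := by decide +kernel

theorem lq3 : ∀ t ∈ [Ty.B, .Dp, .Dm], ∀ n < 8, 4 ≤ n → Rng t n → lq t n = true :=
  fun t ht n hn => ball_app (ball_app (ball_app lqC0 lqC1) lqC2) lqC3 n hn t ht

end Pool.Agent.Lib.MP_7d41f7_al.B8
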