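import Pool.Agent.Lib.MP_7d41f7_al.F.BTa

/-! Small fields: a computation. -/

set_option autoImplicit false

namespace Pool.Agent.Lib.MP_7d41f7_al.B8

/-- The statement at one value of the parameter. -/
abbrev lqDP (n : ℕ) : Prop :=
  ∀ t ∈ [Ty.B, .Dp, .Dm], 8 ≤ n → lq t n = true

theorem lqD0 : ∀ n < 20, lqDP n := by decide +kernel

theorem lqD1 : ∀ n < 32, 20 ≤ n → lqDP n := by decide +kernel

theorem lq4 : ∀ t ∈ [Ty.B, .Dp, .Dm], ∀ n < 32, 8 ≤ n → lq t n = true :=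
  fun t ht n hn => ball_app lqD0 lqD1 n hn t ht

end Pool.Agent.Lib.MP_7d41f7_al.B8
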