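import Pool.Agent.Lib.MP_7d41f7_al.F.BTa

/-! Small fields: a computation. -/

set_option autoImplicit false

namespace Pool.Agent.Lib.MP_7d41f7_al.B8

theorem lq5_0 : lp ck4
    7 3 = true := by
  decide +kernel

theorem lq5_1 : lp ck4
    199 4 = true := by
  decide +kernel

theorem lq5_2 : lp ck4
    455 5 = true := by
  decide +kernel

theorem lq5_3 : lp ck4
    775 5 = true := by
  decide +kernel

theorem lq5 : lp ck4 7 17 = true :=
  lp_app (k := 17) (lp_app (k := 12) (lp_app (k := 7) lq5_0 lq5_1 rfl rfl) lq5_2 rfl rfl) lq5_3 rfl rfl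

end Pool.Agent.Lib.MP_7d41f7_al.B8
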