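import Pool.Agent.Lib.MP_7d41f7_al.F.BA
import Pool.Agent.Lib.MP_7d41f7_al.D.YMain

/-! Symplectic and orthogonal groups over all fields: the order of the section. -/

set_option autoImplicit false

namespace Pool.Agent.Lib.MP_7d41f7_al.B8

open Finset

variable {k h a n p f q c u v e : ℕ} {t : Ty}

/-- The number of positive roots and the exponents of the classical families. -/
def fam : ℕ → ℕ → ℕ × Finset ℕ
  | 0, m => (m * (m - 1) / 2, Icc 2 m)
  | 1, m => (m * (m - 1) / 2, (Icc 2 m).image fun i => if i % 2 = 1 then 2 * i else i)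
  | 2, m => (m * m, (Icc 1 m).image fun i => 2 * i)
  | 3, m => (m * (m - 1), (Icc 1 m).image fun i => if i = m then m else 2 * i)
  | _, m => (m * (m - 1), (Icc 1 m).image fun i => 2 * i)

/-- The data of the groups of Lie type other than the two-dimensional linear groups. -/
def Fm (N : ℕ) (I : Finset ℕ) : Prop :=
  (∃ i < 5, ∃ m, 2 ≤ m ∧ (i ≠ 2 → 3 ≤ m) ∧ fam i m = (N, I)) ∨ ∃ x ∈ excData, (x.1, x.2.2) = (N, I)

/-- The number `h` looks like the order of such a group in characteristic `v`. -/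
structure LZ (h v k : ℕ) : Prop where
  lt : ∃ g N D I, LT h v g N D I ∧ Fm N I
  pp : v ^ k ∣ h
  sz : h ^ 3 ≤ (v ^ k) ^ 8
  cube : v ≠ 2 → v ^ 3 ∣ h

theorem LZ.pv (L : LZ h v k) : v.Prime := let ⟨_, _, _, _, a, _⟩ := L.lt; a.pv

/-- The parameters, with the facts that replace the lower bound for the order. -/
structure Par (t : Ty) (n q : ℕ) : Prop where
  rng : Rng t n
  q2 : 2 ≤ q
  z6 : q = 2 → ¬ Kp t n 6
  k2 : ∀ u k : ℕ, u.Prime → xcl t n ≠ 0 → Ord q u = xcl t n → ((u ^ k : ℕ) : ℤ) ∣ t.ord n q →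
    1 < u ^ k → ¬ pr q (gs t n) ∣ u ^ k - 1
  cross : ∀ h v k : ℕ, pr q (ks t n) ∣ h → (h : ℤ) ∣ t.ord n q → ¬ v ∣ q → LZ h v k →
    (Gq t n (Ord q v) → h ^ 3 ≤ (v ^ k) ^ 7) → False
  alt : ∀ h m : ℕ, pr q (ks t n) ∣ h → (h : ℤ) ∣ t.ord n q → 5 ≤ m → 2 * h = m.factorial →
    (∀ r, r.Prime → r ∣ pr q (gs t n) → m < 2 * r) → False
  spor : ∀ h ∈ sporOrd, pr q (ks t n) ∣ h → ¬ (h : ℤ) ∣ t.ord n q
  l2 : n = 3 → ∀ e, Gq t n e → ¬ pr q ((gs t n).erase e) ∣ (pk q e - 1) * (pk q e + 1)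

theorem Par.cls (P : Par t n q) (h : Kp t n e) : ∃ r, r.Prime ∧ Ord q r = e := by
  have he := (h.facts P.rng).1
  obtain ⟨r, hr⟩ := zsig P.q2 he fun c => P.z6 c.1 (c.2 ▸ h)
  exact ⟨r, hr.pr, hr.ord_eq (by have := P.q2; omega) (by omega)⟩

/-- What is known about the order `h` of the section. -/
structure KD (h : ℕ) (t : Ty) (n q : ℕ) : Prop where
  par : Par t n q
  dvd : (h : ℤ) ∣ t.ord n q
  kept : ∀ u i : ℕ, u.Prime → Kp t n (Ord q u) → ((u ^ i : ℕ) : ℤ) ∣ t.ord n q → u ^ i ∣ h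

theorem tight_ar (P : Par t n q) {g r : ℕ} (hc : (g : ℤ) * c = t.ord n q)
    (hc' : ∀ r, r.Prime → r ∣ c → Ord q r ≤ 2) (hr : r.Prime) (hg : Gq t n (Ord q r)) :
    ∃ u, u.Prime ∧ 2 < Ord q u ∧ ¬ Ad n (Ord q r) (Ord q u) ∧
      ¬ u ^ g.factorization u ≡ 1 [MOD r] := by
  have R := P.rng
  have hq : 2 ≤ q := P.q2
  have h3 : 3 ≤ Ord q r := hg.1.1
  obtain ⟨y, ⟨hy, ha⟩, hw⟩ := (tb_tw t R.mem.1 n R.mem.2 R _ (hg.lt R) hg).ex hq (by omega)
  by_contra hn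
  refine hw r hr rfl ?_
  have hp : pk (q : ℤ) y ≠ 0 := pk_pos.ne'
  have g0 : g ≠ 0 := fun e => (t.ord_pos hq n).ne' (by rw [← hc, e]; simp)
  rw [← Nat.prod_factorization_pow_eq_self hp]
  refine prod_induction _ (· ≡ 1 [MOD r]) (fun _ _ i j => by simpa using i.mul j) rfl
    fun u hu => ?_
  have u1 := Nat.prime_of_mem_primeFactors hu
  have u2 : Ord q u = y := pk_ord u1 (Nat.dvd_of_mem_primeFactors hu)
  have u3 : ¬ u ∣ c := fun e => by have := hc' u u1 e; have := hy.1; omega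
  have e : (pk (q : ℤ) y).factorization u = g.factorization u := by
    refine le_antisymm ((u1.pow_dvd_iff_le_factorization g0).1 ?_)
      ((u1.pow_dvd_iff_le_factorization hp).1 ?_)
    · refine ((u1.coprime_iff_not_dvd.2 u3).pow_left _).dvd_of_dvd_mul_right ?_
      have := (Int.natCast_dvd_natCast.2 (Nat.ordProj_dvd (pk (q : ℤ) y) u)).trans
        (pk_ord_dvd R.1 hy.1 hy.2.1)
      rw [← hc] at this
      exact_mod_cast this
    · rw [← u2]
      exact one_pow_dvd R.1 hq (by have := R.2.1; omega) u1 (u2 ▸ hy)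
        ((Int.natCast_dvd_natCast.2 (Nat.ordProj_dvd g u)).trans ⟨c, hc.symm⟩)
  rw [e]
  by_contra k
  exact hn ⟨u, u1, by have := hy.1; omega, u2 ▸ ha, k⟩

theorem not_k2 (P : Par t n q) {g : ℕ} (hc : (g : ℤ) * c = t.ord n q)
    (hc' : ∀ r, r.Prime → r ∣ c → Ord q r ≤ 2) (hk : k ∣ g) (hu : u.Prime) (h0 : xcl t n ≠ 0)
    (hx : Ord q u = xcl t n) (free : ∀ r, r.Prime → Gq t n (Ord q r) →
      u ^ k.factorization u ≡ 1 [MOD r ^ g.factorization r]) : ¬ u ∣ k := by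
  intro uk
  have q2 := P.q2
  have g0 : g ≠ 0 := fun e => (t.ord_pos q2 n).ne' (by rw [← hc, e]; simp)
  have h4 : 1 < u ^ k.factorization u := Nat.one_lt_pow
    (hu.factorization_pos_of_dvd (ne_zero_of_dvd_ne_zero g0 hk) uk).ne' hu.one_lt
  refine P.k2 u _ hu h0 hx
    (hc ▸ (Int.natCast_dvd_natCast.2 ((Nat.ordProj_dvd k u).trans hk)).mul_right _) h4 ?_
  refine (Nat.dvd_iff_prime_pow_dvd_dvd _ _).2 fun r i hr hi => ?_
  rcases i with _ | i
  · simp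
  have a1 := (mem_filter.1 (pr_ord hr ((dvd_pow_self r i.succ_ne_zero).trans hi))).2
  have a2 := pk_ord_dvd (q := q) P.rng.1 a1.1.1 a1.1.2.1
  rw [← hc, ← Nat.cast_mul, Int.natCast_dvd_natCast] at a2
  have a3 := ((hr.coprime_iff_not_dvd.2 fun d => by
    have := hc' r hr d
    have := a1.1.1
    omega).pow_left _).dvd_of_dvd_mul_right ((pr_pow hr hi).trans a2)
  exact (pow_dvd_pow r ((hr.pow_dvd_iff_le_factorization g0).1 a3)).trans
    ((Nat.modEq_iff_dvd' h4.le).1 (free r hr a1).symm)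

theorem not_a2 (P : Par t n q) (hu : u.Prime) (h0 : xcl t n ≠ 0) (hx : Ord q u = xcl t n)
    (top : ∀ r, r.Prime → Gq t n (Ord q r) → u ∣ r - 1) : False := by
  have R := P.rng
  obtain ⟨y, hy, hw⟩ := ((tb_xc t R.mem.1 n R.mem.2 R).1 h0).2.2.2.ex
    P.q2 h0
  exact hw u hu hx (not_a_aux2 _ pk_pos fun r hr e => top r hr ((pk_ord hr e).symm ▸ hy))

theorem KD.pos (K : KD h t n q) : 0 < h := Nat.pos_of_ne_zero fun e =>
  (t.ord_pos K.par.q2 n).ne' (zero_dvd_iff.1 (by simpa [e] using K.dvd))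

theorem KD.pr_dvd (K : KD h t n q) {s : Finset ℕ} (hs : ∀ e ∈ s, Kp t n e) : pr q s ∣ h := by
  refine (Nat.dvd_iff_prime_pow_dvd_dvd _ _).2 fun r i hr hi => ?_
  rcases i with _ | i
  · simp
  have a1 := hs _ (pr_ord hr ((dvd_pow_self r i.succ_ne_zero).trans hi))
  have R := K.par.rng
  have a2 : 3 ≤ Ord q r ∧ Pres t n (Ord q r) := by
    rcases a1 with a | ⟨a, b⟩
    · exact ⟨a.1.1, a.1.2.1⟩
    · have := (tb_xc t R.mem.1 n R.mem.2 R).1 (a ▸ b)
      exact a ▸ ⟨this.1, this.2.2.1⟩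
  exact K.kept r _ hr a1
    ((Int.natCast_dvd_natCast.2 (pr_pow hr hi)).trans (pk_ord_dvd R.1 a2.1 a2.2))

theorem KD.gs_dvd (K : KD h t n q) : pr q (gs t n) ∣ h :=
  K.pr_dvd fun _ he => .inl (mem_filter.1 he).2

theorem KD.ks_dvd (K : KD h t n q) : pr q (ks t n) ∣ h :=
  K.pr_dvd fun _ he => (mem_filter.1 he).2

theorem KD.l2_three {g : ℕ} (K : KD h t 3 q) (hv : v.Prime) (hg : Gq t 3 (Ord q v))
    (hh : h * Nat.gcd 2 (v ^ g - 1) = ordSL 2 (v ^ g)) (h0 : 0 < g)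
    (h1 : ∀ w, w.Prime → Ord q w = Ord q v → w = v) : False := by
  have q2 := K.par.q2
  have R := K.par.rng
  have m : ∀ e ∈ (gs t 3).erase (Ord q v), Gq t 3 e := fun e he =>
    (mem_filter.1 (mem_of_mem_erase he)).2
  obtain ⟨w, hw⟩ : ∃ w, v ^ g = w + 1 := ⟨_, (Nat.succ_pred_eq_of_pos (pow_pos hv.pos g)).symm⟩
  have e1 : ordSL 2 (v ^ g) = v ^ g * (w * (w + 2)) := by
    rw [ordSL, Icc_self, prod_singleton, hw,
      Nat.sub_eq_of_eq_add (show (w + 1) ^ 2 = w * (w + 2) + 1 by ring)]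
    simp
  have c1 : (v ^ g).Coprime (w * (w + 2)) := by
    rw [hw]
    exact Nat.Coprime.mul_right (by simp) (by simp [show w + 2 = w + 1 + 1 from rfl])
  rw [e1, show v ^ g - 1 = w by omega] at hh
  have d1 : v ^ g ∣ h := (c1.coprime_dvd_right
    ((Nat.gcd_dvd_right 2 w).mul_right _)).dvd_of_dvd_mul_right (hh ▸ dvd_mul_right _ _)
  have d2 : h ∣ v ^ g * (w * (w + 2)) := hh ▸ dvd_mul_right _ _
  have d3 := K.pr_dvd (s := {Ord q v}) fun e he => .inl (mem_singleton.1 he ▸ hg)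
  rw [pr, prod_singleton] at d3
  have e2 : pk q (Ord q v) = v ^ g := Nat.dvd_antisymm
    ((Nat.coprime_of_dvd fun r hr a b => Nat.not_coprime_of_dvd_of_dvd hr.one_lt
      (h1 r hr (pk_ord hr a) ▸ dvd_pow_self r h0.ne') b c1).dvd_of_dvd_mul_right (d3.trans d2))
    (one_pow_dvd R.1 (by omega) three_pos hv hg.1 ((Int.natCast_dvd_natCast.2 d1).trans K.dvd))
  have d4' := (Nat.coprime_of_dvd fun r hr a b => notMem_erase _ _
    (pk_ord hr (e2 ▸ b) ▸ pr_ord hr a)).dvd_of_dvd_mul_left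
      ((K.pr_dvd fun e he => .inl (m e he)).trans d2)
  refine K.par.l2 rfl _ hg ?_
  rwa [e2, hw, Nat.add_sub_cancel]

end Pool.Agent.Lib.MP_7d41f7_al.B8
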