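import Pool.Agent.Lib.MP_7d41f7_al.F.BA

/-! The orthogonal group of plus type in dimension eight over all fields: the order. -/

set_option autoImplicit false

namespace Pool.Agent.Lib.MP_7d41f7_al.B8

open Finset

variable {h q a b r u v i k p f g c m : ℕ}

/-- What is known about the order `h` of the simple section. -/
structure K4 (h q a b : ℕ) : Prop where
  big : 7 ≤ q
  dvd : (h : ℤ) ∣ Ty.Dp.ord 4 q
  kept : a * b ^ 2 ∣ h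
  a1 : a ∣ q ^ 4 + q ^ 2 + 1
  a2 : q ^ 4 + q ^ 2 + 1 ∣ 21 * a
  a3 : ¬ 3 ∣ a
  b1 : b ∣ q ^ 2 + 1
  b2 : q ^ 2 + 1 ∣ 2 * b
  b3 : ¬ 2 ∣ b

theorem q4_notK (hq : 7 ≤ q) {y : ℕ} (h1 : y ∣ (q ^ 2 + 1) ^ 2) (h2 : 1 < y)
    (h3 : q ^ 4 + q ^ 2 + 1 ∣ 21 * (y - 1)) : False := by
  obtain ⟨s, hs⟩ := h1
  obtain ⟨z, rfl⟩ : ∃ z, y = z + 1 := ⟨y - 1, by omega⟩
  rw [Nat.add_sub_cancel, show q ^ 4 = (q ^ 2) ^ 2 by ring] at h3
  have hx : 43 ≤ q ^ 2 := by nlinarith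
  generalize q ^ 2 = x at *
  have h4 := Nat.le_of_dvd (by omega) h3
  have h5 : s ≤ 42 := by
    by_contra hc
    have := Nat.mul_le_mul_left (z + 1) (not_le.1 hc)
    nlinarith
  have h6 : ((x ^ 2 + x + 1 : ℕ) : ℤ) ∣ 21 * (x - s) := by
    have e : (21 * (x - s) : ℤ) = (21 * z : ℕ) * s - 21 * (x ^ 2 + x + 1 : ℕ) := by
      zify at hs
      push_cast
      linear_combination 21 * hs
    rw [e]
    exact ((Int.natCast_dvd_natCast.2 h3).mul_right _).sub (dvd_mul_left _ _)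
  have h7 := Int.le_of_dvd (by omega) h6
  have h8 : x ^ 2 + x + 1 ≤ 21 * x := by omega
  nlinarith

theorem q4_ex (hq : 7 ≤ q) {y : ℕ} (h : q ^ 4 + q ^ 2 + 1 ∣ 21 * y) (h3 : ¬ 3 ∣ y) :
    (∃ r, r.Prime ∧ r ∣ y ∧ Ord q r = 3) ∧ ∃ r, r.Prime ∧ r ∣ y ∧ Ord q r = 6 := by
  obtain ⟨w, rfl⟩ : ∃ w, q = w + 1 := ⟨q - 1, by omega⟩
  rw [show (w + 1) ^ 4 + (w + 1) ^ 2 + 1 = ((w + 1) ^ 2 + (w + 1) + 1) * (w ^ 2 + w + 1) by
    ring] at h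
  obtain ⟨r, hr, d, e⟩ := q4_ex_aux (by nlinarith) ((dvd_mul_right _ _).trans h)
  obtain ⟨s, hs, d', e'⟩ := q4_ex_aux (by nlinarith) ((dvd_mul_left _ _).trans h)
  refine ⟨⟨r, hr, e, q4_cls3 hr (fun k => h3 (k ▸ e)) (by exact_mod_cast d)⟩,
    s, hs, e', q4_cls6 hs (fun k => h3 (k ▸ e')) ?_⟩
  rw [show ((w + 1 : ℕ) : ℤ) ^ 2 - (w + 1 : ℕ) + 1 = (w ^ 2 + w + 1 : ℕ) by push_cast; ring]
  exact Int.natCast_dvd_natCast.2 d'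

theorem K4.oa (K : K4 h q a b) (hr : r.Prime) (d : r ∣ a) : Ord q r = 3 ∨ Ord q r = 6 :=
  q4_clsA hr (fun e => K.a3 (e ▸ d)) (d.trans K.a1)

theorem K4.ob (K : K4 h q a b) (hr : r.Prime) (d : r ∣ b) : Ord q r = 4 :=
  q4_cls4 hr (fun e => K.b3 (e ▸ d)) (d.trans K.b1)

theorem K4.q2 (K : K4 h q a b) : 2 ≤ q := le_trans (by norm_num) K.big

theorem K4.pos (K : K4 h q a b) : 0 < h := Nat.pos_of_ne_zero fun e =>
  (Ty.Dp.ord_pos K.q2 4).ne' (zero_dvd_iff.1 (by simpa [e] using K.dvd))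

theorem K4.exb (K : K4 h q a b) : ∃ r, r.Prime ∧ r ∣ b := by
  refine Nat.exists_prime_and_dvd fun e => ?_
  have := Nat.le_of_dvd (by omega) K.b2
  have := K.q2
  nlinarith

theorem K4.low (K : K4 h q a b) : q ^ 4 ≤ 21 * a ∧ q ^ 8 ≤ 84 * (a * b ^ 2) := by
  have h1 : q ^ 4 ≤ 21 * a := le_trans (by omega) (Nat.le_of_dvd (by have := K.a3; omega) K.a2)
  have h2 : q ^ 2 ≤ 2 * b := le_trans (by omega) (Nat.le_of_dvd (by have := K.b3; omega) K.b2)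
  have := Nat.mul_le_mul h1 (Nat.pow_le_pow_left h2 2)
  rw [show q ^ 4 * (q ^ 2) ^ 2 = q ^ 8 by ring,
    show 21 * a * (2 * b) ^ 2 = 84 * (a * b ^ 2) by ring] at this
  exact ⟨h1, this⟩

theorem K4.huge (K : K4 h q a b) (hq : 2176 ≤ q) : 1238 ^ 8 < h := by
  have := (Nat.pow_le_pow_left hq 8).trans (K.low.2.trans
    (Nat.mul_le_mul_left 84 (Nat.le_of_dvd K.pos K.kept)))
  omega

/-- A divisor of the order of the section. -/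
def x4 (q : ℕ) : ℕ :=
  (q ^ 4 + q ^ 2 + 1) / (q ^ 4 + q ^ 2 + 1).gcd 21 * ((q ^ 2 + 1) / (q ^ 2 + 1).gcd 2) ^ 2

theorem div_gcd_dvd {x : ℕ} (hc : 0 < c) (d : x ∣ c * a) : x / x.gcd c ∣ a := by
  have g0 := Nat.gcd_pos_of_pos_right x hc
  refine (Nat.coprime_div_gcd_div_gcd g0).dvd_of_dvd_mul_left (Nat.dvd_of_mul_dvd_mul_right g0 ?_)
  rwa [Nat.div_mul_cancel (Nat.gcd_dvd_left x c), mul_right_comm,
    Nat.div_mul_cancel (Nat.gcd_dvd_right x c)]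

theorem K4.x4_dvd (K : K4 h q a b) : x4 q ∣ a * b ^ 2 :=
  mul_dvd_mul (div_gcd_dvd (by omega) K.a2) (pow_dvd_pow_of_dvd (div_gcd_dvd two_pos K.b2) 2)

end Pool.Agent.Lib.MP_7d41f7_al.B8
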