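import Pool.Agent.Lib.MP_7d41f7_al.F.BC
import Pool.Agent.Lib.MP_7d41f7_al.F.BQA

/-! The bounds and the loops. -/

set_option autoImplicit false

namespace Pool.Agent.Lib.MP_7d41f7_al.B8

open Finset

variable {t : Ty} {n q p f a c : ℕ}

/-- The bound between small and large fields. -/
def x0 : Ty → ℕ → ℕ
  | .Dp, n => [0, 0, 0, 0, 0, 197, 304, 62, 11, 12, 8, 5, 4, 4, 4, 4, 3, 3, 3, 3, 3, 3, 3, 3].getD n 2
  | .Dm, n => [0, 0, 0, 0, 285, 238, 54, 68, 8, 12, 6, 6, 4, 4, 3, 4, 3, 3, 3, 3, 3, 3, 3, 3].getD n 2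
  | _, n => [0, 0, 0, 19516, 285, 36, 26, 12, 6, 7, 5, 4, 4, 4, 3, 3, 3, 3, 3, 3, 3, 3, 3].getD n 2

/-- The bound below which all tests are made. -/
def x1 (t : Ty) (n : ℕ) : ℕ := if n = 3 then 1287 else x0 t n

/-- A necessary condition for prime powers. -/
def ppc (q : ℕ) : Bool :=
  [2, 3, 5, 7, 11, 13, 17, 19, 23, 29, 31, 37, 41, 43, 47, 53, 59, 61, 67, 71, 73, 79, 83, 89,
    97].all fun p => !(q % p).beq 0 || (p ^ 17 % q).beq 0

theorem ppc_spec (hp : p.Prime) (h : p ^ f < 2 ^ 17) : ppc (p ^ f) = true := by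
  refine List.all_eq_true.2 fun r hr => ?_
  have pr : r.Prime := by
    revert hr
    generalize r = z
    revert z
    decide +kernel
  by_cases c : r ∣ p ^ f
  · rw [(Nat.prime_dvd_prime_iff_eq pr hp).1 (pr.dvd_of_dvd_pow c), beq_zero (pow_dvd_pow p
      ((Nat.pow_lt_pow_iff_right one_lt_two).1 ((Nat.pow_le_pow_left hp.two_le f).trans_lt h)).le),
      Bool.or_true]
  · rw [Bool.eq_false_iff.2 fun e => c (Nat.dvd_of_mod_eq_zero (Nat.beq_eq.mp e))]
    rfl

/-- The test holds for all prime powers in an interval of length `64 c`. -/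
def lp (F : ℕ → Bool) (a c : ℕ) : Bool :=
  allR (fun i => allR (fun j => frc (a + 64 * i + j) fun q => !ppc q || F q) 64) c

theorem lp_spec {F : ℕ → Bool} (H : lp F a c = true) (hp : p.Prime) (h : p ^ f < 2 ^ 17)
    (h1 : a ≤ p ^ f) (h2 : p ^ f < a + 64 * c) : F (p ^ f) = true := by
  have := allR_spec (allR_spec H ((p ^ f - a) / 64) (by omega)) ((p ^ f - a) % 64) (by omega)
  rwa [frc_eq, show a + 64 * ((p ^ f - a) / 64) + (p ^ f - a) % 64 = p ^ f by omega,
    ppc_spec hp h, Bool.not_true, Bool.false_or] at this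

/-- The groups that are treated elsewhere. -/
def Spec (t : Ty) (n q : ℕ) : Prop :=
  q = 2 ∧ Kp t n 6 ∨ n = 3 ∧ q = 3 ∨ t = .Dp ∧ n = 4 ∧ q < 7

instance (t : Ty) (n q : ℕ) : Decidable (Spec t n q) := by unfold Spec; infer_instance

/-- The test for all small fields. -/
def lq (t : Ty) (n : ℕ) : Bool :=
  lp (fun q => (x1 t n).blt q || decide (Spec t n q) || cky t n q) 2 (x1 t n / 64 + 1)

/-- The test for the primes two and three. -/
def qk (U X : ℕ) : Bool :=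
  frs U fun U => frc (X ^ 3) fun Z => (part U 2 ^ 5).blt Z && (part U 3 ^ 5).blt Z

theorem qk_spec {U X v k : ℕ} (H : qk U X = true) (h0 : U ≠ 0) (hv : v.Prime) (h4 : v ≤ 4)
    (h : v ^ k ∣ U) : (v ^ k) ^ 5 < X ^ 3 := by
  simp only [qk, frs_eq, frc_eq, Bool.and_eq_true, Nat.blt_eq] at H
  have a := Nat.pow_le_pow_left (Nat.le_of_dvd (Nat.pos_of_ne_zero (ne_zero_of_dvd_ne_zero h0
    (part_dvd _ _))) (pow_dvd_part h0 hv dvd_rfl h)) 5
  have := hv.two_le
  have : v ≠ 4 := fun e => absurd (e ▸ hv) (by decide)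
  obtain rfl | rfl : v = 2 ∨ v = 3 := by omega
  exacts [a.trans_lt H.1, a.trans_lt H.2]

/-- All tests for the orthogonal group of plus type in dimension eight. -/
def ck4 (q : ℕ) : Bool :=
  frs (Ty.Dp.ord 4 q).natAbs fun O => frs (strip O q) fun U => frc (x4 q) fun X =>
    ck 4 q U X 2200 (fun _ => false) && cs O X && ca O X 200 5 60 && (pkc q 3 ^ 3).blt X &&
      (pkc q 6 ^ 3).blt X

theorem Par.toC (P : Par .B n q) : Par .C n q := by
  have g : ∀ e, Gq .C n e ↔ Gq .B n e := fun e => by simp [Gq, Onq, Pres]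
  have x : xcl .C n = xcl .B n := rfl
  have k : ∀ e, Kp .C n e ↔ Kp .B n e := fun e => by rw [Kp, Kp, g, x]
  have g' : gs .C n = gs .B n := filter_congr fun e _ => g e
  have k' : ks .C n = ks .B n := filter_congr fun e _ => k e
  have d : Ty.C.ord n q ∣ Ty.B.ord n q := dvd_mul_left _ _
  obtain ⟨-, a1, a2, -⟩ := P.rng
  exact ⟨⟨by simp, a1, a2, by simp, by simp⟩, P.q2, fun e => (k 6).not.2 (P.z6 e),
    fun u j hu c0 c e => g' ▸ P.k2 u j hu c0 c (e.trans d),
    fun h v j h1 h2 h3 L e => P.cross h v j (k' ▸ h1) (h2.trans d) h3 L fun c => e ((g _).2 c),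
    fun h m h1 h2 m5 e hm => P.alt h m (k' ▸ h1) (h2.trans d) m5 e (g' ▸ hm),
    fun h hh h1 h2 => P.spor h hh (k' ▸ h1) (h2.trans d),
    fun n3 e c => g' ▸ P.l2 n3 e ((g e).1 c)⟩

end Pool.Agent.Lib.MP_7d41f7_al.B8
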