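import Pool.Agent.Lib.MP_7d41f7_al.F.BT
import Pool.Agent.Lib.MP_7d41f7_al.Ball

/-! Cutting a loop in two. -/

set_option autoImplicit false

namespace Pool.Agent.Lib.MP_7d41f7_al.B8

theorem allR_app {f : ℕ → Bool} {c d : ℕ} (h1 : allR f c = true)
    (h2 : allR (fun i => f (c + i)) d = true) : allR f (c + d) = true := by
  induction d with
  | zero => exact h1
  | succ d ih =>
    obtain ⟨h3, h4⟩ := Bool.and_eq_true_iff.1 h2
    exact Bool.and_eq_true_iff.2 ⟨h3, ih h4⟩

theorem lp_app {F : ℕ → Bool} {a b c d k : ℕ} (h1 : lp F a c = true) (h2 : lp F b d = true)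
    (hb : b = a + 64 * c) (hk : k = c + d) : lp F a k = true := by
  subst hb hk
  refine allR_app h1 ?_
  simpa only [lp, Nat.mul_add, Nat.add_assoc] using h2

end Pool.Agent.Lib.MP_7d41f7_al.B8
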