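import Pool.Agent.Lib.MP_7d41f7_al.F.BL0
import Pool.Agent.Lib.MP_7d41f7_al.F.BL1
import Pool.Agent.Lib.MP_7d41f7_al.F.BL2
import Pool.Agent.Lib.MP_7d41f7_al.F.BL3

/-! The facts about the parameters for all fields. -/

set_option autoImplicit false

namespace Pool.Agent.Lib.MP_7d41f7_al.B8

open Finset

variable {t : Ty} {n p f : ℕ}

theorem par_aux (hp : p.Prime) (hf : 0 < f) (ht : t ∈ [Ty.B, .Dp, .Dm]) (R : Rng t n)
    (hs : ¬ Spec t n (p ^ f)) : Par t n (p ^ f) := by
  have n32 := R.2.2.1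
  have n3 := R.2.1
  have q2 : 2 ≤ p ^ f := Nat.one_lt_pow hf.ne' hp.one_lt
  obtain ⟨A, a1, a2, A1⟩ := tb_an t ht n n32 R
  by_cases c : x1 t n < p ^ f
  swap
  · have L : lq t n = true := by
      rcases (by omega : n = 3 ∨ 4 ≤ n ∧ n < 8 ∨ 8 ≤ n) with rfl | e | e
      · obtain rfl : t = .B := by
          obtain ⟨-, -, -, b1, b2⟩ := R
          cases t <;> simp at ht b1 b2 ⊢
        exact lq1
      · exact lq3 t ht n e.2 e.1 R
      · exact lq4 t ht n n32 e
    have := lp_spec L hp (by omega) q2 (by omega)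
    simp only [Bool.or_eq_true, Nat.blt_eq, decide_eq_true_eq] at this
    exact par_of_cky R q2 (fun e k => hs (.inl ⟨e, k⟩)) (this.resolve_left (not_or.2 ⟨c, hs⟩))
  refine par_of_an hp R A c fun v k hv l d1 d2 => ?_
  by_cases c' : x0 t n < p ^ f
  · have B := A1.use (by have := A.1; omega) c' fun e he => ((mem_filter.1 he).2.facts R).1
    rw [one_mul, pow_mul, ← mul_pow] at B
    exact (Nat.pow_le_pow_left (pp_any (by omega) q2 hv d1 d2) 5).trans_lt B
  obtain rfl : n = 3 := by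
    by_contra e
    rw [x1, if_neg e] at c
    exact c' c
  obtain rfl : t = .B := by
    obtain ⟨-, -, -, b1, b2⟩ := R
    cases t <;> simp at ht b1 b2 ⊢
  have c1 : 1287 < p ^ f := c
  have c2 : ¬ 19516 < p ^ f := c'
  have H := lp_spec lq2 hp (by omega) c1 (by omega)
  generalize p ^ f = q at *
  have z : ∀ i, i ≠ 0 → q ^ i - 1 ≠ 0 := fun i hi => Nat.sub_ne_zero_of_lt (Nat.one_lt_pow hi q2)
  refine (qk_spec H (by simp [z]) hv (by omega) ((Ty.dvd_sq three_pos q2 hv d1 d2).trans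
    (dvd_of_eq ?_))).trans_le (Nat.pow_le_pow_left (Nat.div_le_of_le_mul ?_) 3)
  · rw [show Icc 1 3 = {1, 2, 3} from rfl, prod_insert (by decide), prod_pair (by decide),
      ← pow_mul, ← pow_mul, ← pow_mul]
  · exact (show ks .B 3 = {3, 4, 6} by decide +kernel) ▸ pr_six q2

theorem par_all (hp : p.Prime) (hf : 0 < f) (R : Rng t n) (hs : ¬ Spec t n (p ^ f)) :
    Par t n (p ^ f) := by
  by_cases c : t = .C
  · subst c
    refine (par_aux hp hf (by simp) ⟨by simp, R.2.1, R.2.2.1, by simp, by simp⟩ fun e => hs ?_).toC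
    simpa [Spec, Kp, Gq, Onq, Pres, xcl] using e
  · refine par_aux hp hf ?_ R hs
    have := R.1
    cases t <;> simp at this c ⊢

end Pool.Agent.Lib.MP_7d41f7_al.B8
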