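import Pool.Agent.Lib.MP_7d41f7_al.F.NOut

/-! The alternating group of degree ten and the order `604800`. -/

set_option autoImplicit false

namespace Pool.Agent.Lib.MP_7d41f7_al

open Subgroup Equiv Pool.Agent.Lib.MP_b6945b_al

variable {G : Type} [Group G] [Finite G]

theorem vo_center {z : G} (hz : z ∈ center G) {n : ℕ} (hn : n ∈ Vo G)
    (hc : (orderOf z).Coprime n) : orderOf z * n ∈ Vo G := by
  have := Fintype.ofFinite G
  obtain ⟨I⟩ := exists_irrData G
  obtain ⟨g, rfl, i, hi⟩ := (mem_Vo I n).1 hn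
  refine (mem_Vo I _).2 ⟨z * g, (show Commute z g from
    (mem_center_iff.1 hz g).symm).orderOf_mul_eq_mul_orderOf_of_coprime hc, i, ?_⟩
  have h1 := I.scalar_of_comm i (I.ρ i z) fun g => by
    rw [← map_mul, ← map_mul, mem_center_iff.1 hz g]
  unfold IrrData.χ at hi ⊢
  rw [map_mul, h1, smul_mul_assoc, one_mul, Matrix.trace_smul, hi, smul_zero]

theorem a10_ten : 10 ∈ Vo (alternatingGroup (Fin 10)) := by
  let g : alternatingGroup (Fin 10) :=
    ⟨swap 0 1 * swap 1 2 * swap 2 3 * swap 3 4 * (swap 5 6 * swap 7 8),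
      Perm.mem_alternatingGroup.2 (by decide +kernel)⟩
  have o : orderOf g = 10 := by
    rw [← orderOf_coe, orderOf_eq_iff (by decide)]
    decide +kernel
  refine Set.mem_of_eq_of_mem o.symm (perm_van (X := KSub 10 1) (Y := KSub 10 0) ?_ ?_)
  · rw [sub_orb (by omega) le_rfl, sub_orb (by omega) le_rfl, sub_orb (by omega) (by omega)]
  have a : nFix (KSub 10 0) g = 1 := Nat.card_eq_one_iff_unique.2
    ⟨⟨fun s t => Subtype.ext (Subtype.ext ((Finset.card_eq_zero.1 s.1.2).trans
      (Finset.card_eq_zero.1 t.1.2).symm))⟩, ⟨⟨⟨∅, rfl⟩, rfl⟩⟩⟩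
  have k : ∀ s : MulAction.fixedBy (KSub 10 1) g, s.1.1 = {9} := fun ⟨⟨s, h1⟩, h2⟩ => by
    obtain ⟨x, rfl⟩ := Finset.card_eq_one.1 h1
    have h3 : g.1 x = x := Finset.singleton_injective (congrArg Subtype.val h2)
    exact congrArg singleton ((by decide +kernel : ∀ x, g.1 x = x → x = 9) x h3)
  exact a ▸ Nat.card_eq_one_iff_unique.2 ⟨⟨fun s t => Subtype.ext (Subtype.ext
    ((k s).trans (k t).symm))⟩, ⟨⟨⟨{9}, rfl⟩, Subtype.ext (by decide +kernel)⟩⟩⟩

theorem a10_thirty (g : alternatingGroup (Fin 10)) : orderOf g ≠ 30 := fun h => by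
  have a := (cyc_type g.1 {2, 3, 5} (by decide) (by rw [orderOf_coe, h]; decide)).2 (by decide)
  have b : Perm.sign g.1 = 1 := g.2
  rw [Perm.sign_of_cycleType, a] at b
  revert b
  decide

theorem a10_kill (hV : Vo G = Vo (alternatingGroup (Fin 10)))
    (hc : Nat.card G = Nat.card (alternatingGroup (Fin 10))) {K : Subgroup G} [K.Normal]
    {H : Subgroup (G ⧸ K)} (S : Sec K H) (h : IsD H (.spor 604800 7)) : False := by
  have := S.nrm
  have := S.sim
  have := Fact.mk Nat.prime_three
  have c0 := card_alt (n := 10) (by omega)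
  have c1 := card_eq_card_quotient_mul_card_subgroup K
  have c2 := H.card_mul_index
  have c3 : H.index ∣ 2 := (Ar.idx_dvd S h (dvd_zero _)).trans (Nat.gcd_dvd_right 0 2)
  rw [Spor.card h] at c2
  rw [hc, ← c2, mul_assoc] at c1
  rw [c1, show Nat.factorial 10 = 604800 * 3 * 2 by decide] at c0
  have c4 : H.index * Nat.card K = 3 := by omega
  have c5 : H.index = 1 := Nat.eq_one_of_dvd_coprimes (by decide : Nat.Coprime 2 3) c3
    (Dvd.intro _ c4)
  rw [c5, one_mul] at c4
  obtain rfl := index_eq_one.1 c5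
  have cy : IsCyclic K := isCyclic_of_prime_card c4
  have cz : centralizer (K : Set G) = ⊤ := by
    have k1 : K ≤ centralizer (K : Set G) := le_centralizer K
    have k2 : commutator G ≤ centralizer (K : Set G) := by
      let _ : CommGroup K := IsCyclic.commGroup
      intro x hx y hy
      have := (IsCyclic.mulAutMulEquiv K).map_eq_one_iff.1 (Abelianization.commutator_subset_ker
        ((IsCyclic.mulAutMulEquiv K).toMonoidHom.comp (MulAut.conjNormal (H := K))) hx)
      exact (mul_inv_eq_iff_eq_mul.1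
        (congrArg (fun f : MulAut K => (f ⟨y, hy⟩ : G)) this)).symm
    have k3 : (commutator G).map (QuotientGroup.mk' K) = ⊤ := by
      have a := map_subtype_commutator (⊤ : Subgroup (G ⧸ K))
      rw [perfect_of S.nab, ← MonoidHom.range_eq_map, range_subtype] at a
      rw [_root_.commutator_def, map_commutator, map_top_of_surjective _ (QuotientGroup.mk'_surjective K),
        ← a]
    have k4 := congrArg (comap (QuotientGroup.mk' K)) k3
    rw [comap_map_eq, QuotientGroup.ker_mk', comap_top] at k4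
    exact eq_top_iff.2 (k4 ▸ sup_le k2 k1)
  obtain ⟨z, hz, oz⟩ := exists_socle_elt Nat.prime_three c4.symm.dvd
  have a := vo_center (z := z) (mem_center_iff.2 fun g => (cz.ge (mem_top g) z hz).symm)
    (hV ▸ a10_ten) (by rw [oz]; decide)
  rw [oz, hV] at a
  obtain ⟨g, hg, -⟩ := a
  exact a10_thirty g hg

end Pool.Agent.Lib.MP_7d41f7_al
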