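import Pool.Agent.Lib.MP_7d41f7_al.F.NAa

/-! The alternating group of degree eight and the linear group of the same order. -/

set_option autoImplicit false

namespace Pool.Agent.Lib.MP_7d41f7_al

open Subgroup Equiv

variable {G : Type} [Group G] [Finite G]

theorem a8_van : 15 ∈ Vo (alternatingGroup (Fin 8)) := by
  let g : alternatingGroup (Fin 8) :=
    ⟨swap 0 1 * swap 1 2 * swap 2 3 * swap 3 4 * (swap 5 6 * swap 6 7),
      Perm.mem_alternatingGroup.2 (by decide +kernel)⟩
  have o : orderOf g = 15 := by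
    rw [← orderOf_coe, orderOf_eq_iff (by decide)]
    decide +kernel
  have z : ∀ k, k = 1 ∨ k = 2 → nFix (KSub 8 k) g = 0 := fun k hk =>
    Nat.card_eq_zero.2 (.inl ⟨fun ⟨s, hs⟩ => (by decide +kernel : ∀ s : Finset (Fin 8),
      s.card = 1 ∨ s.card = 2 → s.map g.1.toEmbedding ≠ s) s.1 (s.2.symm ▸ hk)
        (congrArg Subtype.val hs)⟩)
  exact o ▸ sub_van (k := 1) (by omega) (by omega) ((z 2 (.inr rfl)).trans (z 1 (.inl rfl)).symm)

theorem a8_kill (hV : Vo G = Vo (alternatingGroup (Fin 8)))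
    (hc : Nat.card G = Nat.card (alternatingGroup (Fin 8))) {K : Subgroup G} [K.Normal]
    {H : Subgroup (G ⧸ K)} (h : IsD H (.lin 3 4)) : False := by
  have c0 := card_alt (n := 8) (by omega)
  have c1 : Nat.card H = 20160 := h.card.trans (by decide +kernel)
  have c2 : Nat.factorial 8 = 40320 := by decide
  obtain ⟨i⟩ := iso_of_card (K := K) (H := H) (by omega)
  obtain ⟨-, F, _, _, hF, ⟨e⟩⟩ := h
  obtain ⟨g, hg, -⟩ := hV ▸ a8_van
  have c : Nat.card (center (SLn 3 F)) = 3 := by rw [card_center (by omega), hF]; rfl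
  obtain ⟨x, x1, x2⟩ := lift_adj (G := SLn 3 F) Nat.prime_three Nat.prime_five (by decide)
    (by rw [c]; decide) ⟨e (i g), by rw [e.orderOf_eq, i.orderOf_eq, hg]⟩
  have := x2.trans (cen2 (n := 3) le_rfl ⟨Nat.prime_five, by rw [hF]; decide, fun i a b => by
    rw [hF, show i = 1 by omega]; decide⟩ x1)
  rw [c, hF] at this
  exact absurd this (by decide)

end Pool.Agent.Lib.MP_7d41f7_al
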