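import Pool.Agent.Lib.MP_7d41f7_al.F.OQ

/-! The alternating groups of small degree: the input of the checker. -/

set_option autoImplicit false

namespace Pool.Agent.Lib.MP_7d41f7_al

open Finset Equiv

variable {n k j r : ℕ}

/-- The four regions have the same sizes; one of them has two points. -/
theorem sub_tr5 (h : 5 ≤ n) (p p' : KSub n k × KSub n j)
    (e : (p.1.1 ∩ p.2.1).card = (p'.1.1 ∩ p'.2.1).card) :
    ∃ g : alternatingGroup (Fin n), g • p = p' := by
  obtain ⟨⟨s, hs⟩, t, ht⟩ := p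
  obtain ⟨⟨s', hs'⟩, t', ht'⟩ := p'
  change (s ∩ t).card = (s' ∩ t').card at e
  have key : ∀ σ : Perm (Fin n), Perm.sign σ = 1 → (∀ x, (σ x ∈ s' ↔ x ∈ s) ∧ (σ x ∈ t' ↔ x ∈ t)) →
      ∃ g : alternatingGroup (Fin n), g • ((⟨s, hs⟩, ⟨t, ht⟩) : KSub n k × KSub n j) =
        (⟨s', hs'⟩, ⟨t', ht'⟩) := fun σ h1 h2 =>
    ⟨⟨σ, h1⟩, Prod.ext (Subtype.ext (sub_tr_map fun x => (h2 x).1))
      (Subtype.ext (sub_tr_map fun x => (h2 x).2))⟩
  obtain ⟨σ, hσ⟩ : ∃ σ : Perm (Fin n), ∀ x, (σ x ∈ s' ↔ x ∈ s) ∧ (σ x ∈ t' ↔ x ∈ t) := by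
    have E : ∀ c : Bool × Bool, {x // (decide (x ∈ s), decide (x ∈ t)) = c} ≃
        {x // (decide (x ∈ s'), decide (x ∈ t')) = c} := fun c => Fintype.equivOfCardEq (by
      rw [Fintype.card_subtype, Fintype.card_subtype, sub_tr_card, sub_tr_card, hs, ht, hs', ht', e])
    refine ⟨ofFiberEquiv E, fun x => ?_⟩
    simpa using ofFiberEquiv_map E x
  rcases Int.units_eq_one_or (Perm.sign σ) with h1 | h1
  · exact key σ h1 hσ
  obtain ⟨a, b, hab, h0⟩ := Fintype.exists_ne_map_eq_of_card_lt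
    (fun x : Fin n => (decide (x ∈ s), decide (x ∈ t))) (by simpa using Nat.lt_of_succ_le h)
  simp only [Prod.mk.injEq, decide_eq_decide] at h0
  refine key (σ * swap a b) (by rw [map_mul, h1, Perm.sign_swap hab]; rfl) fun x => ?_
  rw [Perm.mul_apply, (hσ _).1, (hσ _).2, swap_apply_def]
  split_ifs with h2 h3
  · simp [h2, h0]
  · simp [h3, h0]
  · exact ⟨Iff.rfl, Iff.rfl⟩

theorem sub_orb5 (h5 : 5 ≤ n) (h : k + j ≤ n) (hj : j ≤ k) :
    nOrb (alternatingGroup (Fin n)) (KSub n k × KSub n j) = j + 1 := by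
  let f : KSub n k × KSub n j → Fin (j + 1) := fun p =>
    ⟨(p.1.1 ∩ p.2.1).card, Nat.lt_succ_of_le ((card_le_card inter_subset_right).trans p.2.2.le)⟩
  refine (Nat.card_eq_of_bijective (Quotient.lift f ?_) ⟨?_, fun i => ?_⟩).trans (Nat.card_fin _)
  · rintro _ p ⟨g, rfl⟩
    exact Fin.ext ((congrArg card (map_inter p.1.1 p.2.1).symm).trans (card_map g.1.toEmbedding))
  · rintro ⟨p⟩ ⟨p'⟩ e
    exact Quotient.sound (sub_tr5 h5 p' p (congrArg Fin.val e).symm)
  · have h0 := i.2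
    obtain ⟨s, -, hs⟩ := exists_subset_card_eq (s := (univ : Finset (Fin n))) (n := k)
      (by rw [card_fin]; omega)
    obtain ⟨a, h1, ha⟩ := exists_subset_card_eq (s := s) (n := i) (by omega)
    obtain ⟨b, h2, hb⟩ := exists_subset_card_eq (s := sᶜ) (n := j - i)
      (by rw [card_compl, Fintype.card_fin]; omega)
    have h3 : Disjoint s b := disjoint_compl_right.mono_right h2
    refine ⟨Quotient.mk _ (⟨s, hs⟩, ⟨a ∪ b, ?_⟩), Fin.ext ?_⟩
    · rw [card_union_of_disjoint (h3.mono_left h1)]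
      omega
    · change (s ∩ (a ∪ b)).card = i
      rw [inter_union_distrib_left, disjoint_iff_inter_eq_empty.1 h3, union_empty,
        inter_eq_right.2 h1, ha]

/-- The characters of the partitions with two rows. -/
theorem sub_van (h5 : 5 ≤ n) (h : 2 * k + 2 ≤ n) {g : alternatingGroup (Fin n)}
    (hg : nFix (KSub n (k + 1)) g = nFix (KSub n k) g) :
    orderOf g ∈ Vo (alternatingGroup (Fin n)) := by
  refine perm_van ?_ hg
  rw [sub_orb5 h5 (by omega) le_rfl, sub_orb5 h5 (by omega) le_rfl,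
    sub_orb5 h5 (by omega) (by omega)]
  omega

theorem alt_van4 (hr : r.Prime) (h : n + 4 ≤ 2 * r) (hn : 5 ≤ n) (g : alternatingGroup (Fin n))
    (hg : r ∣ orderOf g) : orderOf g ∈ Vo (alternatingGroup (Fin n)) := by
  have h1 : r ≤ n := by
    simpa using cyc_sum g.1 {r} (by simpa using hr) (by rwa [prod_singleton, Subgroup.orderOf_coe])
  refine sub_van (k := n + 1 - r) hn (by omega) ?_
  rw [sub_fix hr (by omega) (by omega) (by omega) hg,
    sub_fix hr (by omega) (by omega) (by omega) hg]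

/-- An even permutation of order `2 r` moves at least `r + 4` points. -/
theorem alt_adj2 (hr : r.Prime) (h2 : r ≠ 2) (h : n < 2 * r)
    (a : Adj (alternatingGroup (Fin n)) 2 r) : r + 4 ≤ n := by
  obtain ⟨g, hg⟩ := a
  have k : ∀ p : ℕ, p.Prime → p ∣ 2 * r → ∃ c ∈ g.1.cycleType, p ∣ c := fun p hp d =>
    hp.prime.exists_mem_multiset_dvd (((hg ▸ d).trans (Subgroup.orderOf_coe g).symm.dvd).trans
      (g.1.lcm_cycleType ▸ Multiset.lcm_dvd.2 fun _ => Multiset.dvd_prod))
  have s := g.1.sum_cycleType_le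
  have e := Perm.sign_of_cycleType g.1
  have t : ∀ c ∈ g.1.cycleType, 2 ≤ c := fun _ => Perm.two_le_of_mem_cycleType
  rw [Perm.mem_alternatingGroup.1 g.2] at e
  rw [Fintype.card_fin] at s
  obtain ⟨c, c1, i, rfl⟩ := k r hr (dvd_mul_left _ _)
  obtain ⟨d, d1, j, rfl⟩ := k 2 Nat.prime_two (dvd_mul_right _ _)
  have o := hr.eq_two_or_odd.resolve_left h2
  have c2 := (Multiset.single_le_sum (fun _ _ => Nat.zero_le _) _ c1).trans s
  have c3 := t _ c1
  obtain rfl : i = 1 := by
    rcases i with _ | _ | i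
    · omega
    · rfl
    · nlinarith
  generalize g.1.cycleType = M at *
  obtain ⟨M, rfl⟩ := Multiset.exists_cons_of_mem c1
  obtain ⟨M, rfl⟩ := Multiset.exists_cons_of_mem ((Multiset.mem_cons.1 d1).resolve_left (by omega))
  have d2 := t _ d1
  by_contra l
  simp only [Multiset.sum_cons, Multiset.card_cons] at s e
  obtain rfl : M = 0 := Multiset.eq_zero_of_forall_notMem fun x hx => by
    have := t x (by simp [hx])
    have := Multiset.single_le_sum (fun _ _ => Nat.zero_le _) _ hx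
    omega
  rw [Odd.neg_one_pow ⟨r / 2 + j + 1, by simp only [Multiset.sum_zero, Multiset.card_zero]; omega⟩]
    at e
  exact absurd e (by decide)

/-- The bound for the neighbours of `r`. -/
def cA (n r : ℕ) : ℕ :=
  r * bif Nat.ble (n - r) 2 then 1 else bif Nat.ble (n - r) 3 then 3 else pN (n - r) Nat.succ

/-- The large primes. -/
def ndA (n : ℕ) : List (ℕ × ℕ) :=
  rL SP (fun r l => bif Nat.ble r n && Nat.ble (n + 4) (2 * r) && primeB r then (r, cA n r) :: l
    else l) []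

theorem ndA_mem {x : ℕ × ℕ} (h : x ∈ ndA n) : x.1.Prime ∧ n + 4 ≤ 2 * x.1 ∧ x.2 = cA n x.1 := by
  unfold ndA at h
  generalize SP = l at h
  induction l with
  | nil => exact absurd h List.not_mem_nil
  | cons r l ih =>
    change x ∈ (bif Nat.ble r n && Nat.ble (n + 4) (2 * r) && primeB r then _ else _) at h
    cases e : Nat.ble r n && Nat.ble (n + 4) (2 * r) && primeB r <;> rw [e] at h
    · exact ih h
    rcases List.mem_cons.1 h with rfl | h
    · simp only [Bool.and_eq_true, Nat.ble_eq] at e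
      exact ⟨Ar.primeB_prime e.2, e.1.2, rfl⟩
    · exact ih h

theorem nd_alt {G : Type} [Group G] [Finite G] (hn : 5 ≤ n)
    (hc : Nat.card G = Nat.card (alternatingGroup (Fin n)))
    (hV : Vo G = Vo (alternatingGroup (Fin n))) : ∀ x ∈ ndA n, ND G x.1 x.2 := by
  rintro ⟨r, C⟩ hx
  obtain ⟨hr, h, rfl : C = cA n r⟩ := ndA_mem hx
  change n + 4 ≤ 2 * r at h
  refine ND.transfer (fun s hs d => ?_) hc hV fun s hs d => ?_ <;>
    obtain rfl := (Nat.prime_dvd_prime_iff_eq hs hr).1 d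
  · refine ⟨cyc_of_sq hs fun e => not_sq_fact (n := n) hs (by omega) (by omega)
      (card_alt (n := n) (by omega) ▸ e.trans (dvd_mul_right _ 2)), fun u hu e a => ?_⟩
    have b : u + s ≤ n := by
      obtain ⟨g, hg⟩ := a
      simpa [sum_pair e] using cyc_sum g.1 {u, s} (by simp [hs, hu])
        (by rw [Subgroup.orderOf_coe, hg, prod_pair e])
    have c : u = 2 → s + 4 ≤ n := fun c => alt_adj2 hs (by omega) (by omega) (c ▸ a)
    have := hu.two_le
    refine Dvd.dvd.mul_left ?_ s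
    cases e2 : Nat.ble (n - s) 2
    · cases e3 : Nat.ble (n - s) 3
      · rw [cond_false, cond_false, Ar.pN_eq]
        exact Nat.succ_pred_eq_of_pos hu.pos ▸ dvd_prod_of_mem Nat.succ
          (mem_range.2 ((Nat.pred_lt hu.ne_zero).trans_le (by omega)))
      · have := Nat.ble_eq.mp e3
        rw [cond_false, cond_true, show u = 3 by omega]
    · have := Nat.ble_eq.mp e2
      omega
  · exact alt_van4 hs h hn

end Pool.Agent.Lib.MP_7d41f7_al
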