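import Pool.Agent.Lib.MP_7d41f7_al.F.NAa

/-! The alternating groups of small degree: smaller alternating sections, first kernel run. -/

set_option autoImplicit false

namespace Pool.Agent.Lib.MP_7d41f7_al

open Subgroup

/-- The pairs `(n, m)` that pass the checker, with the data of `alt_end`. -/
def exA : List (ℕ × ℕ × ℕ × List ℕ × ℕ × ℕ) :=
  [(27, 26, 3, [19, 7], 23, 19), (36, 35, 2, [23, 7, 5], 31, 29), (96, 95, 2, [79, 13, 3], 89, 83),
    (120, 119, 2, [109, 7, 3], 113, 109), (125, 124, 5, [113, 11], 113, 109),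
    (126, 124, 3, [113, 11], 113, 109), (126, 125, 3, [113, 7, 5], 113, 109),
    (135, 134, 3, [127, 7], 131, 127), (144, 143, 2, [127, 13, 3], 139, 137),
    (147, 146, 3, [139, 7], 139, 137), (162, 161, 3, [149, 7, 5], 157, 151),
    (189, 188, 3, [181, 7], 181, 179), (210, 209, 3, [197, 7, 5], 199, 197),
    (216, 215, 2, [199, 13, 3], 211, 199), (250, 249, 5, [239, 7, 3], 241, 239),
    (256, 255, 2, [241, 11, 3], 251, 241), (288, 287, 2, [277, 7, 3], 283, 281)]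

theorem exA_ok : ∀ x ∈ exA, 6 ≤ x.2.1 ∧ x.2.1 ≤ x.1 ∧ primeB x.2.2.1 = true ∧ x.1 - x.2.1 < x.2.2.1 ∧
    x.2.2.1 ∣ x.1.descFactorial (x.1 - x.2.1) ∧
    (x.2.2.1 = 2 → 4 ∣ x.1.descFactorial (x.1 - x.2.1)) ∧
    (∀ r ∈ x.2.2.2.1.toFinset, primeB r = true ∧ r ≠ 2 ∧ r ≠ x.2.2.1) ∧
    ∑ r ∈ x.2.2.2.1.toFinset, r = x.2.1 ∧ (∃ t ∈ x.2.2.2.1.toFinset, x.1 + 6 ≤ 2 * t) ∧
    x.2.2.2.2.1 ≠ x.2.2.2.2.2 ∧ ∀ r ∈ [x.2.2.2.2.1, x.2.2.2.2.2],
      primeB r = true ∧ x.1 < 2 * r ∧ r ≤ x.2.1 := by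
  decide +kernel

theorem alt_kill {G : Type} [Group G] [Finite G] {x : ℕ × ℕ × ℕ × List ℕ × ℕ × ℕ} (hx : x ∈ exA)
    (D : AData G x.1) {K : Subgroup G} [K.Normal] {H : Subgroup (G ⧸ K)} (S : Sec K H)
    (e : H ≃* alternatingGroup (Fin x.2.1)) : False := by
  obtain ⟨n, m, u, A, p, p'⟩ := x
  obtain ⟨a1, a2, a3, a4, a5, a6, a7, a8, ⟨t, t1, t2⟩, a9, a0⟩ := exA_ok _ hx
  dsimp only at D e a1 a2 a3 a4 a5 a6 a7 a8 t1 t2 a9 a0
  have := S.nrm
  have := S.sim
  have u1 := Ar.primeB_prime a3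
  have cG : Nat.card G = Nat.card H * H.index * Nat.card K := by
    rw [H.card_mul_index, card_eq_card_quotient_mul_card_subgroup K]
  have p1 : ∀ r ∈ A.toFinset, r.Prime ∧ r ≠ 2 ∧ r ≠ u := fun r hr =>
    (a7 r hr).imp_left Ar.primeB_prime
  obtain ⟨g, hg⟩ := alt_end K H S.cen e ((mul_comm _ _).trans D.card) (by omega) a2 u1 a4 a5 a6
    A.toFinset p1 a8 a9 fun r hr => by
      obtain ⟨b1, b2, b3⟩ := a0 r (by simpa using hr)
      have b := Ar.primeB_prime b1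
      have c : r ∣ Nat.card H := ((Nat.coprime_primes b Nat.prime_two).2
        (by omega)).dvd_of_dvd_mul_right (by
          rw [Nat.card_congr e.toEquiv, card_alt (by omega)]
          exact b.dvd_factorial.2 b3)
      refine ⟨b, b2, cG ▸ (c.mul_right _).mul_right _, fun d => not_sq_fact b b2 (by omega) ?_⟩
      rw [← D.card, cG, sq]
      exact (mul_dvd_mul (c.mul_right _) d).mul_right 2
  have h5 : u ∉ A.toFinset := fun a => (p1 u a).2.2 rfl
  have := D.adj (insert u A.toFinset)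
    (Finset.forall_mem_insert _ _ _ |>.2 ⟨u1, fun r hr => (p1 r hr).1⟩)
    ⟨t, Finset.mem_insert_of_mem t1, t2⟩ (by rw [Finset.prod_insert h5]; exact adj_of_dvd hg)
  rw [Finset.sum_insert h5, a8] at this
  omega

/-- The largest prime up to `n`. -/
def lpA (n : ℕ) : ℕ := rL SP (fun r x => bif Nat.ble r n && Nat.ble x r then r else x) 0

/-- The candidates that pass the checker. -/
def alA (n : ℕ) : List Ds :=
  .alt n :: bif Nat.beq n 8 then [.lin 3 4] else bif Nat.beq n 10 then [.spor 604800 7] else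
    (exA.filter fun x => Nat.beq x.1 n).map fun x => .alt x.2.1

/-- The run of the checker. -/
def okA (n : ℕ) : Bool := chkS (Ds.alt n).ord (ndA n) [] (lpA n) 2 (alA n)

theorem okA1 {n : ℕ} (h1 : 5 ≤ n) (h2 : n < 190) : okA n = true := by
  interval_cases n <;> decide +kernel

end Pool.Agent.Lib.MP_7d41f7_al
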