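import Pool.Agent.Lib.MP_7d41f7_al.F.NAb

/-! The alternating groups of small degree: kernel run. -/

set_option autoImplicit false

namespace Pool.Agent.Lib.MP_7d41f7_al

theorem okA3 {n : ℕ} (h1 : 250 ≤ n) (h2 : n < 296) : okA n = true := by
  interval_cases n <;> decide +kernel

end Pool.Agent.Lib.MP_7d41f7_al
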