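import Pool.Agent.Lib.MP_7d41f7_al.F.NAc
import Pool.Agent.Lib.MP_7d41f7_al.F.NAd
import Pool.Agent.Lib.MP_7d41f7_al.F.NA8
import Pool.Agent.Lib.MP_7d41f7_al.F.NA10

/-! All alternating groups. -/

set_option autoImplicit false

namespace Pool.Agent.Lib.MP_7d41f7_al

variable {G S : Type} [Group G] [Group S] [Finite G] {n : ℕ}

theorem alt_main5 (hn : 5 ≤ n) (hc : Nat.card G = Nat.card (alternatingGroup (Fin n)))
    (hV : Vo G = Vo (alternatingGroup (Fin n))) :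
    Nonempty (G ≃* alternatingGroup (Fin n)) ∨ Off5 G := by
  by_cases a : 296 ≤ n
  · obtain ⟨K, b, H, c, d, e, f, g⟩ := amain a (adata (by omega) hc hV)
    by_cases l : OnList5 H
    exacts [.inl (g l.on4.on3.onList2), .inr ⟨K, b, H, c, d, e, f, l⟩]
  have ok : okA n = true := by
    by_cases b : n < 190
    · exact okA1 hn b
    by_cases c : n < 250
    exacts [okA2 (not_lt.1 b) c, okA3 (not_lt.1 c) (not_le.1 a)]
  obtain ⟨K, b, H, Z, f⟩ := chkS_out (hc.trans (IsD.card (d := .alt n) ⟨hn, ⟨.refl _⟩⟩))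
    (nd_alt hn hc hV) ok
  by_cases l : OnList5 H
  swap
  · exact .inr ⟨K, b, H, Z.nrm, Z.sim, Z.nab, Z.cen, l⟩
  obtain ⟨d, d1, d2⟩ := f l
  rcases List.mem_cons.1 d1 with rfl | d1
  · obtain ⟨-, ⟨i⟩⟩ := d2
    exact .inl ((iso_of_card (hc.trans (Nat.card_congr i.toEquiv).symm).le).map fun j => j.trans i)
  exfalso
  cases e8 : Nat.beq n 8 <;> rw [e8] at d1
  · cases e10 : Nat.beq n 10 <;> rw [e10] at d1
    · obtain ⟨x, x0, rfl⟩ := List.mem_map.1 d1
      obtain ⟨x1, x2⟩ := List.mem_filter.1 x0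
      obtain rfl := Nat.eq_of_beq_eq_true x2
      obtain ⟨-, ⟨i⟩⟩ := d2
      have := exA_ok x x1
      exact alt_kill x1 (adata (by omega) hc hV) Z i
    · obtain rfl := Nat.eq_of_beq_eq_true e10
      exact a10_kill hV hc Z (List.mem_singleton.1 d1 ▸ d2)
  · obtain rfl := Nat.eq_of_beq_eq_true e8
    exact a8_kill hV hc (List.mem_singleton.1 d1 ▸ d2)

theorem all_alt5 (hn : 5 ≤ n) (e : S ≃* alternatingGroup (Fin n)) (hc : Nat.card G = Nat.card S)
    (hV : Vo G = Vo S) : Nonempty (G ≃* S) ∨ Off5 G :=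
  (alt_main5 hn (hc.trans (Nat.card_congr e.toEquiv)) (hV.trans (Vo_congr e))).imp_left
    (.map fun a => a.trans e.symm)

end Pool.Agent.Lib.MP_7d41f7_al
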