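import Pool.Agent.Lib.MP_7d41f7_al.F.NOrd

/-! The checker: the enumeration reaches every group on the list. -/

set_option autoImplicit false

namespace Pool.Agent.Lib.MP_7d41f7_al

open En

variable {H : Type} [Group H] {d : Ds} {h p f B D g : ℕ} {cd : Ds → ℕ → Bool} {R Kp : List Blk}

/-- Facts on the order `h` of the group of Lie type named `d`. -/
structure LieF (d : Ds) (h p f : ℕ) : Prop where
  pr : p.Prime
  f0 : 0 < f
  eq : d.u = p ^ f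
  dvd : d.u ^ d.N ∣ h
  sz : 2 ≤ d.N ∧ h ^ 3 ≤ (d.u ^ d.N) ^ 8 ∧ d ≠ .lin 2 d.u ∨ d = .lin 2 d.u ∧ h ≤ d.u ^ 3
  ree : ∀ y m, d = .ree y m → p = y.p ∧ f = 2 * m + 1

theorem IsD.lief (hd : IsD H d) :
    (∃ m, d = .alt m) ∨ (∃ N r, d = .spor N r) ∨ ∃ p f, LieF d (Nat.card H) p f := by
  have a : ∀ {u : ℕ} (n i : ℕ), IsPrimePow u → 0 < i → (n.gcd (u ^ i - 1)).Coprime u :=
    fun n i hu hi => ((((Nat.coprime_self_sub_right (pow_pos hu.pos i)).2
      (Nat.coprime_one_right _)).coprime_dvd_left (dvd_pow_self _ hi.ne')).symm).coprime_dvd_left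
        (Nat.gcd_dvd_right _ _)
  have b : ∀ (u n i : ℕ), 0 < i → (n.gcd (u ^ i + 1)).Coprime u := fun u n i hi =>
    (Nat.Coprime.coprime_dvd_right (dvd_pow_self _ hi.ne') (by simp)).coprime_dvd_left
      (Nat.gcd_dvd_right _ _)
  have a1 : ∀ {u : ℕ} (n : ℕ), IsPrimePow u → (n.gcd (u - 1)).Coprime u := fun n hu => by
    simpa using a n 1 hu one_pos
  have b1 : ∀ u n : ℕ, (n.gcd (u + 1)).Coprime u := fun u n => by simpa using b u n 1 one_pos
  have v : d.c.Coprime d.u → d.u ^ d.N ∣ Nat.card H := fun c =>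
    (c.symm.pow_left _).dvd_of_dvd_mul_right (hd.fac.1 ▸ dvd_mul_right _ _)
  have k : IsPrimePow d.u → d.c.Coprime d.u → (∀ y m, d ≠ .ree y m) →
      (2 ≤ d.N ∧ Nat.card H ^ 3 ≤ (d.u ^ d.N) ^ 8 ∧ d ≠ .lin 2 d.u ∨
        d = .lin 2 d.u ∧ Nat.card H ≤ d.u ^ 3) → ∃ p f, LieF d (Nat.card H) p f :=
    fun hu c r s =>
      let ⟨p, f, hp, hf, e⟩ := (isPrimePow_nat_iff _).1 hu
      ⟨p, f, hp, hf, e.symm, v c, s, fun y m e => (r y m e).elim⟩
  have w : ∀ {u N n : ℕ}, 2 ≤ u → Nat.card H ≤ u ^ n → n * 3 ≤ N * 8 →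
      Nat.card H ^ 3 ≤ (u ^ N) ^ 8 := fun hu e l => (Nat.pow_le_pow_left e 3).trans (by
    rw [← pow_mul, ← pow_mul]
    exact Nat.pow_le_pow_right (by omega) l)
  have t : ∀ m, 3 ≤ m → 2 ≤ m * (m - 1) / 2 := fun m hm =>
    (Nat.le_div_iff_mul_le two_pos).2 (Nat.mul_le_mul (show 2 ≤ m by omega) (by omega))
  cases d with
  | alt m => exact .inl ⟨m, rfl⟩
  | spor N r => exact .inr (.inl ⟨N, r, rfl⟩)
  | lin m u =>
    obtain ⟨h1, h2⟩ := hd
    refine .inr (.inr (k h2.pp (a1 _ h2.pp) (fun _ _ e => by cases e) ?_))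
    rcases h1.eq_or_lt with rfl | h1
    · exact .inr ⟨rfl, dim_A (m := 1) h2.pp.two_le (h2.ord two_pos)⟩
    · exact .inl ⟨t m h1, sz_A h2.pp.two_le h1 (h2.ord (by omega)),
        fun e => h1.ne' (Ds.lin.inj e).1⟩
  | uni m u =>
    exact .inr (.inr (k hd.2.pp (b1 _ _) (fun _ _ e => by cases e)
      (.inl ⟨t m hd.1, sz_U hd.2.pp.two_le hd.1 (hd.2.ord hd.1), fun e => by cases e⟩)))
  | sym m u =>
    obtain ⟨h1, h2, h3⟩ := hd.ordB
    exact .inr (.inr (k h2 (a1 _ h2) (fun _ _ e => by cases e) (.inl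
      ⟨Nat.mul_le_mul h1 (show 1 ≤ m by omega), sz_B h2.two_le h1 h3, fun e => by cases e⟩)))
  | dp m u =>
    obtain ⟨h1, h2, h3⟩ := hd
    exact .inr (.inr (k h2.pp (a _ _ h2.pp (by omega)) (fun _ _ e => by cases e) (.inl
      ⟨Nat.mul_le_mul (show 2 ≤ m by omega) (show 1 ≤ m - 1 by omega),
        sz_D (.inl rfl) h2.pp.two_le h1 h3, fun e => by cases e⟩)))
  | dm m u =>
    obtain ⟨h1, h2, h3⟩ := hd
    exact .inr (.inr (k h2.pp (b _ _ _ (by omega)) (fun _ _ e => by cases e) (.inl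
      ⟨Nat.mul_le_mul (show 2 ≤ m by omega) (show 1 ≤ m - 1 by omega),
        sz_D (.inr rfl) h2.pp.two_le h1 h3, fun e => by cases e⟩)))
  | chev x u =>
    have hu := IsChev.pp hd
    refine .inr (.inr (k hu ?_ (fun _ _ e => by cases e) (.inl ⟨?_,
      w (n := x.dim) hu.two_le ?_ ?_, fun e => by cases e⟩)))
    · cases x
      exacts [a1 _ hu, b1 _ _, a1 _ hu, Nat.coprime_one_left _, Nat.coprime_one_left _,
        Nat.coprime_one_left _, Nat.coprime_one_left _]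
    · show 2 ≤ x.N
      cases x <;> decide
    · obtain ⟨W, h1, -, h2, -⟩ := x.ord_eq hu.two_le
      have c := IsChev.card hd
      have z : 0 < x.cen u := by
        cases x <;> first | exact one_pos | exact Int.gcd_pos_of_ne_zero_left _ (by decide)
      rw [h1] at c
      refine (Nat.le_mul_of_pos_right _ z).trans ?_
      rw [show Nat.card H * x.cen u = u ^ x.N * W by exact_mod_cast c]
      refine (Nat.mul_le_mul_left _ h2).trans ?_
      rw [← pow_add, Nat.add_sub_cancel' (by cases x <;> decide)]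
      rfl
    · show x.dim * 3 ≤ x.N * 8
      cases x <;> decide
  | ree y m =>
    have hu := (y.qpp m).two_le
    refine .inr (.inr ⟨y.p, 2 * m + 1, y.pp, by omega, rfl, v (Nat.coprime_one_left _),
      .inl ⟨by cases y <;> simp [Ds.N], w (n := y.dim) hu ?_ (by cases y <;> simp [Ds.N, Re.dim]),
        fun e => by cases e⟩, fun _ _ e => by cases e; exact ⟨rfl, rfl⟩⟩)
    have := (y.bd (w := y.q m) (by exact_mod_cast hu)).2
    rw [← IsRee.card hd] at this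
    exact_mod_cast this

/-- The characteristic divides the block `B` and not the divisor `D` of the order. -/
structure EnC (d : Ds) (h p f B D : ℕ) : Prop extends LieF d h p f where
  le : d.u ^ d.N ≤ B
  pos : 0 < h
  dd : D ∣ h
  nd : ¬ p ∣ D

namespace EnC

theorem u2 (C : EnC d h p f B D) : 2 ≤ d.u := C.eq ▸ Nat.one_lt_pow C.f0.ne' C.pr.one_lt

theorem mul (C : EnC d h p f B D) : D * d.u ^ d.N ≤ h := by
  refine Nat.le_of_dvd C.pos (Nat.Coprime.mul_dvd_of_dvd_of_dvd ?_ C.dd C.dvd)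
  rw [C.eq]
  exact (((C.pr.coprime_iff_not_dvd.2 C.nd).pow_left _).pow_left _).symm

theorem ne (C : EnC d h p f B D) {a b : ℕ} (ha : 0 < a) : D ^ b ≠ d.u ^ a := fun e =>
  C.nd (C.pr.dvd_of_dvd_pow (e ▸ C.eq ▸ dvd_pow (dvd_pow_self p C.f0.ne') ha.ne'))

theorem big (C : EnC d h p f B D) (n : 2 ≤ d.N) (s : h ^ 3 ≤ (d.u ^ d.N) ^ 8) :
    D ^ 3 < (d.u ^ d.N) ^ 5 := by
  have x : 0 < (d.u ^ d.N) ^ 3 := by have := C.u2; positivity
  have := (Nat.pow_le_pow_left C.mul 3).trans s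
  rw [mul_pow, pow_add _ 5 3] at this
  refine (Nat.le_of_mul_le_mul_right this x).lt_of_ne ?_
  rw [← pow_mul]
  exact C.ne (by omega)

theorem two (C : EnC d h p f B D) (e : d = .lin 2 d.u) (s : h ≤ d.u ^ 3) :
    d.u ≤ B ∧ D < d.u * d.u := by
  have n : d.N = 1 := by rw [e]; rfl
  have a := C.mul.trans s
  have b := C.le
  have c := C.ne (b := 1) two_pos
  have := C.u2
  rw [n, pow_one] at a b
  rw [pow_one, pow_two] at c
  rw [pow_succ, pow_two] at a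
  exact ⟨b, (Nat.le_of_mul_le_mul_right a (by omega)).lt_of_ne c⟩

theorem sq (C : EnC d h p f B D) : D < B * B := by
  rcases C.sz with ⟨a, b, -⟩ | ⟨a, b⟩
  · refine lt_of_pow_lt_pow_left₀ 3 (Nat.zero_le _) ((C.big a b).trans_le ?_)
    rw [← pow_two, ← pow_mul B]
    exact (Nat.pow_le_pow_left C.le 5).trans (Nat.pow_le_pow_right
      ((pow_pos (by have := C.u2; omega) _).trans_le C.le) (by decide))
  · exact (C.two a b).2.trans_le (Nat.mul_le_mul (C.two a b).1 (C.two a b).1)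

theorem pw (C : EnC d h p f B D) {n : ℕ} (hn : n ≤ d.N) : d.u ^ n ≤ B :=
  (Nat.pow_le_pow_right (by have := C.u2; omega) hn).trans C.le

end EnC

theorem allT_ok (hd : IsD H d) (C : EnC d (Nat.card H) p f B D) (n : 2 ≤ d.N)
    (s : Nat.card H ^ 3 ≤ (d.u ^ d.N) ^ 8) (e : d ≠ .lin 2 d.u)
    (h : allT B (D ^ 3) cd p f d.u = true) : cd d (Nat.card H) = true := by
  suffices k : lie B (D ^ 3) cd d = true by
    simp only [lie, fN_eq, Bool.or_eq_true, Nat.blt_eq, Nat.ble_eq, Nat.pow_eq] at k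
    exact hd.card ▸ k.resolve_left (not_or.2 ⟨C.le.not_gt, (C.big n s).not_ge⟩)
  have fm : ∀ {mk : ℕ → Ds} {n m : ℕ}, fam B (D ^ 3) cd mk n = true → n ≤ m → mk m = d →
      (∀ k, (mk k).u = d.u) → (∀ k ≤ m, (mk k).N ≤ d.N) → lie B (D ^ 3) cd d = true :=
    fun h hm e u N => e ▸ lp_ok h hm fun k hk => Nat.ble_eq ▸ (u k ▸ C.pw (N k hk))
  have t : ∀ m, ∀ k ≤ m, k * (k - 1) ≤ m * (m - 1) := fun m k h =>
    Nat.mul_le_mul h (Nat.sub_le_sub_right h 1)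
  have t3 : ∀ m, 3 ≤ m → 3 ≤ m * (m - 1) / 2 := fun m h =>
    Nat.div_le_div_right (c := 2) (t m 3 h)
  have t6 : ∀ m, 4 ≤ m → 6 ≤ m * (m - 1) := fun m h => le_trans (by decide) (t m 4 h)
  simp only [allT, Bool.and_eq_true, Bool.or_eq_true, Nat.blt_eq, Nat.pow_eq, aL_iff, dv_iff,
    Bool.not_eq_true', ← Bool.not_eq_true, Nat.beq_eq] at h
  obtain ⟨h1, h2⟩ := h
  have h3 := fun a : 3 ≤ d.N => h1.resolve_left (C.pw a).not_gt
  have h6 := fun a : 6 ≤ d.N => (h3 (by omega)).2.resolve_left (C.pw a).not_gt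
  cases d with
  | alt m => cases n
  | spor N r => cases n
  | lin m u =>
    have a : 3 ≤ m := hd.1.lt_of_ne fun a => e (a ▸ rfl)
    exact fm (h3 (t3 m a)).1.1.1 a rfl (fun _ => rfl) fun k l => Nat.div_le_div_right (t m k l)
  | uni m u =>
    exact fm (h3 (t3 m hd.1)).1.1.2 hd.1 rfl (fun _ => rfl) fun k l =>
      Nat.div_le_div_right (t m k l)
  | sym m u =>
    have a := hd.ordB.1
    exact fm (h3 (le_trans (by decide) (Nat.mul_le_mul a a))).1.2 a rfl (fun _ => rfl) fun k l =>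
      Nat.mul_le_mul l l
  | dp m u => exact fm (h6 (t6 m hd.1)).1.1 hd.1 rfl (fun _ => rfl) (t m)
  | dm m u => exact fm (h6 (t6 m hd.1)).1.2 hd.1 rfl (fun _ => rfl) (t m)
  | chev x u => exact (h6 (show 6 ≤ x.N by cases x <;> decide)).2 x (by cases x <;> decide)
  | ree y m =>
    obtain ⟨rfl, rfl⟩ := C.ree y m rfl
    have := h2.resolve_left (by omega)
    rw [show (2 * m + 1) / 2 = m by omega] at this
    cases y
    exacts [(this.1.resolve_left (· rfl)).1, this.2.resolve_left (· rfl),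
      (this.1.resolve_left (· rfl)).2]

theorem altL_ok {m : ℕ} (k : altL g cd = true) (hm : 5 ≤ m) (e : h * 2 = m.factorial)
    (hg : h ∣ g) : cd (.alt m) h = true := by
  simp only [altL, fN_eq] at k
  generalize g.log2 = F at k
  have e0 : 60 * 2 = Nat.factorial 5 := rfl
  generalize 60 = a at k e0
  generalize 5 = n at k e0 hm
  induction F generalizing n a with
  | zero => cases k
  | succ F ih =>
    have := Nat.factorial_dvd_factorial hm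
    rw [← e, ← e0] at this
    simp only [dv_iff.2 ((Nat.dvd_of_mul_dvd_mul_right two_pos this).trans hg), cond_true,
      Bool.and_eq_true] at k
    rcases hm.eq_or_lt with rfl | l
    · exact (show a = h by omega) ▸ k.1
    · exact ih _ _ k.2 (by
        rw [Nat.factorial_succ, ← e0, Nat.mul_eq, Nat.succ_eq_add_one]; ring) l

theorem tri_ok [Finite H] {u : ℕ} (hd : IsSL H 2 u) (hp : p.Prime) (hu : u = p ^ f) (hB : p ∣ B)
    (hR : ∀ c ∈ R, 1 < c.1 ∧ c.1 ∣ Nat.card H)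
    (hna : ∀ x ∈ R, ∀ y ∈ R, na x y = true →
      ∀ r s, r.Prime → s.Prime → r ∣ x.1 → s ∣ y.1 → NAd H r s) : ¬ tri R B = true := by
  intro k
  obtain ⟨F, _, _, hF, ⟨e⟩⟩ := hd
  simp only [tri, pr2, fL_eq, eL_iff, mem_flt, Bool.and_eq_true, cp_iff, Bool.not_eq_true',
    ← Bool.not_eq_true, dv_iff] at k
  obtain ⟨x, hx, y, ⟨hy, xy⟩, z, ⟨hz, xz⟩, yz⟩ := k
  have w : ∀ c : Blk, c ∈ R ∧ ¬ 2 ∣ c.1 ∧ c.1.Coprime B → ∃ a, a ∣ c.1 ∧ a.Prime ∧ a ≠ 2 ∧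
      a ∣ Nat.card H ∧ ¬ a ∣ Nat.card F := fun c hc => by
    obtain ⟨a, h1, h2⟩ := Nat.exists_prime_and_dvd (hR c hc.1).1.ne'
    refine ⟨a, h2, h1, fun k => hc.2.1 (k ▸ h2), h2.trans (hR c hc.1).2, fun k => ?_⟩
    rw [hF, hu] at k
    exact Nat.not_coprime_of_dvd_of_dvd h1.one_lt h2
      ((Nat.prime_dvd_prime_iff_eq h1 hp).1 (h1.dvd_of_dvd_pow k) ▸ hB) hc.2.2
  obtain ⟨a, a1, a2⟩ := w x hx
  obtain ⟨b, b1, b2⟩ := w y hy
  obtain ⟨c, c1, c2⟩ := w z hz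
  exact three_L2 e (by rintro _ (rfl | rfl | rfl) <;> assumption)
    (hna x hx.1 y hy.1 xy a b a2.1 b2.1 a1 b1) (hna x hx.1 z hz.1 xz a c a2.1 c2.1 a1 c1)
    (hna y hy.1 z hz.1 yz b c b2.1 c2.1 b1 c1)

theorem l2a_ok {u : ℕ} (hd : IsD H (.lin 2 u)) (g0 : g ≠ 0) (hg : Nat.card H ∣ g)
    (hD : D ∣ Nat.card H) (k : l2a g D cd = true) : cd (.lin 2 u) (Nat.card H) = true := by
  have hu := hd.2.pp.two_le
  obtain ⟨t, ht⟩ := hD
  obtain ⟨s, hs⟩ := hg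
  have D0 : 0 < D := Nat.pos_of_ne_zero fun e => g0 (by simp [hs, ht, e])
  have w : g / D = t * s := by rw [hs, ht, mul_assoc, Nat.mul_div_cancel_left _ D0]
  have s0 : 0 < s := Nat.pos_of_ne_zero fun e => g0 (by simp [hs, e])
  obtain ⟨t, rfl⟩ := Nat.exists_eq_succ_of_ne_zero (n := t) fun e => g0 (by simp [hs, ht, e])
  simp only [l2a, fN_eq, w, Bool.and_eq_true, aN_iff, Bool.or_eq_true, aL_iff, Nat.ble_eq,
    Nat.blt_eq, Bool.not_eq_true', ← Bool.not_eq_true, dv_iff, Nat.beq_eq] at k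
  have c : Nat.gcd 2 (u - 1) ∈ [1, 2] := by
    simpa using (Nat.dvd_prime Nat.prime_two).1 (Nat.gcd_dvd_left 2 (u - 1))
  obtain ⟨k1, k2, k3⟩ := (k.2 t (Nat.le_mul_of_pos_right _ s0)).resolve_left
    (· (dvd_mul_right _ _)) _ c
  have x : Nat.card H * Nat.gcd 2 (u - 1) + u = u ^ 3 := by
    rw [hd.2.ord two_pos, ordSL, Finset.Icc_self, Finset.prod_singleton]
    have : 1 ≤ u ^ 2 := Nat.one_le_pow _ _ (by omega)
    zify [this]
    norm_num
    ring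
  rw [← ht] at k1 k2 k3
  generalize Nat.card H * Nat.gcd 2 (u - 1) = X at x k1 k2 k3
  generalize cbrt X = z at k1 k2 k3
  obtain rfl : u = z.succ := by
    have a : z < u := lt_of_pow_lt_pow_left₀ 3 (Nat.zero_le _) (by omega)
    obtain ⟨v, rfl⟩ : ∃ v, u = v + 1 := ⟨u - 1, by omega⟩
    have b : v < z.succ := lt_of_pow_lt_pow_left₀ 3 (Nat.zero_le _) (by nlinarith)
    omega
  exact hd.card ▸ k3.resolve_left (· x)

theorem blkC_ok [Finite H] {b : Blk} (hd : IsD H d) (L : LieF d (Nat.card H) p f)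
    (k : blkC g D R cd b = true) (g0 : g ≠ 0) (hg : Nat.card H ∣ g) (hD : D ∣ Nat.card H)
    (hp : p ∣ b.1) (h1 : b.1 ∣ g) (h2 : b.1.Coprime (g / b.1)) (h3 : (D / b.2.2).Coprime b.1)
    (h4 : b.2.2 ∣ D) (h5 : b.2.1 ≠ 0 → b.2.1.Prime ∧ ∃ a, b.1 = b.2.1 ^ a)
    (hR : ∀ c ∈ R, 1 < c.1 ∧ c.1 ∣ Nat.card H)
    (hna : ∀ x ∈ R, ∀ y ∈ R, na x y = true →
      ∀ r s, r.Prime → s.Prime → r ∣ x.1 → s ∣ y.1 → NAd H r s) : cd d (Nat.card H) = true := by
  have C : EnC d (Nat.card H) p f b.1 (D / b.2.2) := by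
    refine ⟨L, Nat.le_of_dvd (Nat.pos_of_dvd_of_pos h1 (Nat.pos_of_ne_zero g0)) ?_, Nat.card_pos,
      (Nat.div_dvd_of_dvd h4).trans hD, fun a =>
        Nat.not_coprime_of_dvd_of_dvd L.pr.one_lt a hp h3⟩
    have := L.dvd.trans hg
    rw [← Nat.mul_div_cancel' h1] at this
    refine Nat.Coprime.dvd_of_dvd_mul_right ?_ this
    rw [L.eq]
    exact ((h2.coprime_dvd_left hp).pow_left _).pow_left _
  have q : 2 ≤ d.N → Nat.card H ^ 3 ≤ (d.u ^ d.N) ^ 8 → ¬ b.1 ^ 5 ≤ (D / b.2.2) ^ 3 :=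
    fun a c => ((C.big a c).trans_le (Nat.pow_le_pow_left C.le 5)).not_ge
  simp only [blkC, fN_eq, Bool.or_eq_true, Nat.ble_eq, Nat.mul_eq, Nat.pow_eq,
    show ∀ a b, Nat.div a b = a / b from fun _ _ => rfl] at k
  replace k := k.resolve_left C.sq.not_ge
  cases e : z0 b.2.1
  · obtain ⟨a1, a, a2⟩ := h5 (mt z0_iff.2 (e ▸ Bool.false_ne_true))
    obtain rfl : p = b.2.1 :=
      (Nat.prime_dvd_prime_iff_eq L.pr a1).1 (L.pr.dvd_of_dvd_pow (a2 ▸ hp))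
    simp only [e, cond_false, Bool.and_eq_true, Bool.or_eq_true, Nat.ble_eq] at k
    have m : ∀ i j, i ≤ j → b.2.1 ^ j ≤ b.1 → Nat.ble (b.2.1 ^ i) b.1 = true := fun i j l r =>
      Nat.ble_eq ▸ (Nat.pow_le_pow_right a1.pos l).trans r
    rcases L.sz with ⟨s1, s2, s3⟩ | ⟨s1, s2⟩
    · refine allT_ok hd C s1 s2 s3 (L.eq ▸ lp_ok (k.2.resolve_left (q s1 s2)) L.f0 fun i l =>
        m _ (f * 2) (by omega) ?_)
      rw [pow_mul, ← L.eq]
      exact C.pw s1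
    · have := lp_ok k.1 L.f0 fun i l => m _ f l (L.eq ▸ (C.two s1 s2).1)
      rw [← L.eq, ← s1, Bool.or_eq_true, Nat.ble_eq] at this
      exact hd.card ▸ this.resolve_left (C.two s1 s2).2.not_ge
  · simp only [e, cond_true, Bool.and_eq_true, Bool.or_eq_true, Nat.ble_eq] at k
    rcases L.sz with ⟨s1, s2, -⟩ | ⟨s1, -⟩
    · exact (q s1 s2 k.1).elim
    · rw [s1] at hd ⊢
      exact l2a_ok hd g0 hg hD (k.2.resolve_left (tri_ok hd.2 L.pr L.eq hp hR hna))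

theorem allC_sound [Finite H] (h : allC g D R Kp cd = true) (hl : OnList5 H) (g0 : g ≠ 0)
    (hg : Nat.card H ∣ g) (hD : D ∣ Nat.card H)
    (cov : ∀ p, p.Prime → p ∣ Nat.card H → ∃ b ∈ Kp, p ∣ b.1)
    (blk : ∀ b ∈ Kp, b.1 ∣ g ∧ b.1.Coprime (g / b.1) ∧ (D / b.2.2).Coprime b.1 ∧ b.2.2 ∣ D ∧
      (b.2.1 ≠ 0 → b.2.1.Prime ∧ ∃ a, b.1 = b.2.1 ^ a))
    (hR : ∀ c ∈ R, 1 < c.1 ∧ c.1 ∣ Nat.card H)
    (hna : ∀ x ∈ R, ∀ y ∈ R, na x y = true →
      ∀ r s, r.Prime → s.Prime → r ∣ x.1 → s ∣ y.1 → NAd H r s) :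
    ∃ d, IsD H d ∧ d.ex = false ∧ cd d (Nat.card H) = true := by
  obtain ⟨d, hd, e⟩ := hl.isD
  refine ⟨d, hd, e, ?_⟩
  simp only [allC, Bool.and_eq_true, aL_iff] at h
  rcases hd.lief with ⟨m, rfl⟩ | ⟨N, r, rfl⟩ | ⟨p, f, L⟩
  · obtain ⟨a, ⟨i⟩⟩ := hd
    exact altL_ok h.1.2 a (Nat.card_congr i.toEquiv ▸ card_alt (by omega)) hg
  · exact Spor.card hd ▸ h.1.1 _ (Spor.mem hd)
  · have n : d.N ≠ 0 := by
      rcases L.sz with a | a
      · omega
      · rw [a.1]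
        exact one_ne_zero
    obtain ⟨b, hb, hp⟩ := cov p L.pr
      ((L.eq ▸ dvd_pow (dvd_pow_self p L.f0.ne') n : p ∣ d.u ^ d.N).trans L.dvd)
    obtain ⟨h1, h2, h3, h4, h5⟩ := blk b hb
    exact blkC_ok hd L (h.2 b hb) g0 hg hD hp h1 h2 h3 h4 h5 hR hna

end Pool.Agent.Lib.MP_7d41f7_al
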