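import Pool.Agent.Lib.MP_7d41f7_al.F.OQ

/-! The sporadic groups and the abelian simple groups. -/

set_option autoImplicit false

namespace Pool.Agent.Lib.MP_7d41f7_al

open Ar

variable {G S : Type} [Group G] [Finite G] [Group S] {N r : ℕ}

theorem ok_spor : (aL sporTab fun x => primeB x.2 && !dv (x.2 ^ 2) x.1 &&
    chkS x.1 [(x.2, x.2)] [] 0 2 [.spor x.1 x.2]) = true := by decide +kernel

/-- A group with the order and the vanishing orders of a sporadic group is simple. -/
theorem all_spor5 (h : Spor S N r) (hc : Nat.card G = Nat.card S) (hV : Vo G = Vo S) :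
    IsSimpleGroup G ∧ Spor G N r ∨ Off5 G := by
  have k := aL_iff.1 ok_spor _ h.mem
  simp only [Bool.and_eq_true, Bool.not_eq_true', ← Bool.not_eq_true, dv_iff] at k
  have hr := primeB_prime k.1.1
  have hg := hc.trans h.card
  obtain ⟨K, _, H, a, b⟩ := chkS_out hg (fun x hx => by
    obtain rfl := List.mem_singleton.1 hx
    exact ND.of_prime hr (h.card ▸ k.1.2) h.van (fun u hu _ ⟨g, e⟩ =>
      Dvd.intro _ (e.symm.trans (h.iso g (e ▸ dvd_mul_left r u)))) hc hV) k.2
  by_cases hl : OnList5 H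
  · obtain ⟨d, e, f⟩ := b hl
    obtain rfl := List.mem_singleton.1 e
    obtain ⟨i⟩ : Nonempty (G ≃* H) := iso_of_card (hg.trans (Spor.card f).symm).le
    have := a.sim
    exact .inl ⟨i.isSimpleGroup, h.mem, hg, hV ▸ h.van,
      fun g d => i.orderOf_eq g ▸ Spor.iso f _ ((i.orderOf_eq g).symm ▸ d),
      Nat.card_congr (MulAut.congr i).toEquiv ▸ Spor.out f⟩
  · exact .inr ⟨K, _, H, a.nrm, a.sim, a.nab, a.cen, hl⟩

/-- A group with the order of an abelian simple group is isomorphic to it. -/
theorem all_comm [IsSimpleGroup S] (h : IsMulCommutative S) (hc : Nat.card G = Nat.card S) :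
    Nonempty (G ≃* S) := by
  have : Finite S := Nat.finite_of_card_ne_zero (hc ▸ Nat.card_pos.ne')
  have := Fact.mk (Group.is_simple_iff_prime_card.1 ‹IsSimpleGroup S›)
  exact ⟨mulEquivOfPrimeCardEq hc rfl⟩

end Pool.Agent.Lib.MP_7d41f7_al
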