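import Pool.Agent.Lib.MP_7d41f7_al.F.OK

/-! The tests for the unitary groups. -/

set_option autoImplicit false

namespace Pool.Agent.Lib.MP_7d41f7_al

theorem okU4 : oN 3 626 (oU 4) = true := by decide +kernel

theorem okU5 : oN 5 10 (fun n => oN 2 (uq n - 2) (oU n)) = true := by decide +kernel

end Pool.Agent.Lib.MP_7d41f7_al
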