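import Pool.Agent.Lib.MP_7d41f7_al.D.SCen

/-! The centre of the unitary and symplectic groups over all fields. -/

set_option autoImplicit false

namespace Pool.Agent.Lib.MP_7d41f7_al

open Module

variable {F V : Type} [Field F] [Finite F] {P : Sca F} [AddCommGroup V] [Module F V] [Finite V]
  {Φ : Frm P V} {e f : V} {z : V ≃ₗ[F] V}

namespace Frm

theorem cen_span (hk : P.k ≠ .O) (hn : Φ.Nd) (hc : ∀ g ∈ Φ.Der, Commute g z) (h : Φ.Hyp e f) :
    ∃ a b : F, z e = a • e + b • f := by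
  obtain ⟨c, c0, c1⟩ := tv_der_aux2 hk
  obtain ⟨s, hs, h3⟩ := trans_vec hn h.qe h.ne h.qf h.symm.ne
  obtain ⟨T, hT, h4⟩ := exists_tv hk hn h.qe c1
  have k : ∀ w, (s * T * s⁻¹ * T⁻¹) (T (s w)) = s w + (c * Φ.B w e) • f := fun w => by
    rw [← LinearEquiv.mul_apply, ← LinearEquiv.mul_apply, inv_mul_cancel_right,
      inv_mul_cancel_right, LinearEquiv.mul_apply, h4, map_add, map_smul, h3]
  have h5 : s * T * s⁻¹ * T⁻¹ * z = z * (s * T * s⁻¹ * T⁻¹) :=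
    (hc _ (Subgroup.commutator_mem_commutator (Sm_le hs) hT)).eq
  obtain ⟨y, hy⟩ := T.surjective (z (T f))
  obtain ⟨w, rfl⟩ := s.surjective y
  have h6 := k e
  have h7 := k w
  rw [h.ee, mul_zero, zero_smul, add_zero, h3] at h6
  rw [hy, ← LinearEquiv.mul_apply _ z, h5, LinearEquiv.mul_apply z, h6] at h7
  rw [h4, h4, h.fe, map_add, map_smul, h7, add_assoc, add_right_inj] at hy
  have h8 := mul_ne_zero c0 P.ε_ne
  refine ⟨(c * P.ε)⁻¹ * (c * Φ.B (s w) e), (c * P.ε)⁻¹ * -(c * Φ.B w e), ?_⟩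
  rw [mul_smul (c * P.ε)⁻¹, mul_smul (c * P.ε)⁻¹, ← smul_add, hy, neg_smul, add_neg_cancel_comm,
    inv_smul_smul₀ h8]

/-- The centraliser of the commutator subgroup of a unitary or symplectic group. -/
theorem cen_all (hk : P.k ≠ .O) (hn : Φ.Nd) (hd : 3 ≤ finrank F V) : Φ.Cen := by
  intro z hz hc
  have nz : ∀ {e f}, Φ.Hyp e f → ∃ w ∈ Φ.pl e f, w ≠ 0 := fun {e f} h => by
    have hr := h.finrank_pl
    have : Nontrivial (Φ.pl e f) := Module.nontrivial_of_finrank_pos (R := F) (by omega)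
    obtain ⟨w, hw⟩ := exists_ne (0 : Φ.pl e f)
    exact ⟨w, w.2, fun a => hw (Subtype.ext a)⟩
  have hs : ∀ u, Φ.Q u = 0 → u ≠ 0 → ∃ d : F, z u = d • u := fun u h1 h2 => by
    obtain ⟨f, h⟩ := hn.partner' h1 h2
    obtain ⟨w, hw, w0⟩ := nz h
    obtain ⟨c, hc'⟩ := Φ.tr w
    obtain ⟨a, b, e1⟩ := cen_span hk hn hc h
    obtain ⟨a', b', e2⟩ := cen_span hk hn hc (e := u) (f := (-c) • u + (1 : F) • f + w) ⟨h1, by
      rw [h.Q_dec _ _ hw, map_one, mul_one, P.τ_neg, hc', neg_add_cancel], by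
      simpa using h.B_dec 1 0 (-c) 1 (zero_mem _) hw⟩
    obtain ⟨φ, hφ⟩ := h.equiv
    have e3 := φ.injective (a₁ := (a, b, 0)) (a₂ := (a' - b' * c, b', b' • ⟨w, hw⟩)) (by
      rw [hφ, hφ, Submodule.coe_zero, add_zero, ← e1, e2, Submodule.coe_smul]
      module)
    obtain ⟨-, rfl, e4⟩ := by simpa only [Prod.mk.injEq] using e3
    obtain rfl := (smul_eq_zero.1 (congrArg Subtype.val e4).symm).resolve_right w0
    exact ⟨a, by rw [e1, zero_smul, add_zero]⟩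
  obtain ⟨e, h0, he⟩ := exists_sing (Φ := Φ) hd
  obtain ⟨f, h⟩ := hn.partner' he h0
  obtain ⟨c, h1⟩ := hs e he h0
  obtain ⟨c', h2⟩ := hs f h.qf h.symm.ne
  have h3 : ∀ x ∈ Φ.pl e f, z x = c' • x := fun x hx => fcenb_pl hz hs h h2 hx
  have h4 : ∀ x ∈ Φ.pl e f, z x = c • x := fun x hx =>
    fcenb_pl hz hs h.symm (by rw [map_smul, h1, smul_comm])
      (Φ.mem_pl.2 ⟨(Φ.mem_pl.1 hx).2, by rw [B_smul, (Φ.mem_pl.1 hx).1, mul_zero]⟩)
  obtain ⟨w, hw, w0⟩ := nz h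
  obtain rfl : c' = c := smul_left_injective F w0 ((h3 w hw).symm.trans (h4 w hw))
  refine ⟨c', ?_, fun v => ?_⟩
  · have h6 := hz.1 e f
    rwa [h1, h2, smul_B, B_smul, h.ef, mul_one] at h6
  · have h6 := h3 _ (h.dec v)
    rw [map_sub, map_sub, map_smul, map_smul, h1, h2, smul_sub, smul_sub, smul_comm c',
      smul_comm c'] at h6
    exact sub_left_injective (sub_left_injective h6)

end Frm

end Pool.Agent.Lib.MP_7d41f7_al
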