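import Pool.Agent.Lib.MP_7d41f7_al.F.UM
import Pool.Agent.Lib.MP_7d41f7_al.F.UC

/-! The unitary groups of small dimension over fields above the bound. -/

set_option autoImplicit false

namespace Pool.Agent.Lib.MP_7d41f7_al

open Subgroup

variable {G : Type} [Group G] [Finite G] {n q : ℕ}

variable {F V : Type} [Field F] [Finite F] {S : Sca F} [AddCommGroup V] [Module F V] [Finite V]
  {Φ : Frm S V} {Γ : Type} [Group Γ]

/-- The data of the unitary group pass to a group with the same order and vanishing orders. -/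
theorem Frm.udata' (hT : Φ.IsTy .U n) (n4 : 4 ≤ n) (R : Φ.Rep Γ) (hR : R.Sp)
    (hc : Nat.card G = Nat.card (PQ Γ)) (hV : Vo G = Vo (PQ Γ)) : UData G n S.q := by
  have := R.finite
  have hC : Φ.Cen := Frm.cen_all (by rw [← hT.kd]; simp [Ty.kd]) hT.nd
    (hT.dim ▸ (by omega : 3 ≤ n))
  have e : ∀ r, S.j r = Ord (-(S.q : ℤ)) r := fun r => by rw [Sca.j, ← hT.kd]; rfl
  have k : ∀ m r, UC n S.q m r → S.j r = m ∧ 2 < S.j r ∧ n ≤ S.j r + 1 ∧ Cyc (PQ Γ) r ∧
      ∀ g : PQ Γ, r ∣ orderOf g → orderOf g ∈ Vo (PQ Γ) := fun m r h => by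
    have a := (e r).trans h.ord
    have b := h.top
    obtain ⟨k, hk⟩ := vank_U (q := S.q) h.pr n4 (h.ord.symm ▸ b)
    exact ⟨a, by omega, by omega, Frm.cyc_U hT n4 R h.pr (by omega),
      Frm.van_k hT hC R h.pr (bg_of (by omega)) hk⟩
  refine ⟨hc ▸ Frm.card_su hT (by omega) R hR hC, fun m r h => ?_, fun m r u h hu ne a => ?_,
    fun m r h h1 h2 a => ?_⟩ <;> obtain ⟨a1, a2, a3, a4, a5⟩ := k m r h
  · exact transfer_cyc h.pr hc hV a4 a5
  · rw [← e, ← a1]
    exact Frm.adj_su hT R h.pr a2 a3 hu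
      ((transfer_adj h.pr ((Nat.coprime_primes hu h.pr).2 ne) hc hV a4 a5).1 a)
  · exact Frm.two_su hT R hR hC h.pr a2 a3 (a1 ▸ h1) h2 ((transfer_adj h.pr
      ((Nat.coprime_primes Nat.prime_two h.pr).2 (Ord.ne_two (lt_trans one_lt_two a2)).symm)
      hc hV a4 a5).1 a)

/-- The data of a group with the order and the vanishing orders of a unitary group. -/
theorem udata_su [StarRing F] (hq : Nat.card F = q ^ 2) (hs : ∃ a : F, star a ≠ a) (n4 : 4 ≤ n)
    (hc : Nat.card G = Nat.card (PQ (Matrix.specialUnitaryGroup (Fin n) F)))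
    (hV : Vo G = Vo (PQ (Matrix.specialUnitaryGroup (Fin n) F))) : UData G n q := by
  obtain ⟨S, Φ, R, hk, rfl, hn, hR⟩ := brg_su' n F hq hs
  obtain ⟨t, m, hT⟩ := Frm.exists_ty hn
  obtain rfl : t = .U := by
    have := hT.kd.trans hk
    cases t <;> simp [Ty.kd] at this ⊢
  obtain rfl : n = m := by simpa [Ty.dim] using hT.dim
  exact Frm.udata' hT n4 R hR hc hV

omit [Finite G] in
theorem IsSU.iso' [StarRing F] (hq : Nat.card F = q ^ 2) (hs : ∃ a : F, star a ≠ a)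
    (h : IsSU G n q) : Nonempty (G ≃* PQ (Matrix.specialUnitaryGroup (Fin n) F)) := by
  obtain ⟨F', _, _, _, hq', hs', ⟨b⟩⟩ := h
  obtain ⟨a⟩ := su_iso (n := n) hq' hs' hq hs
  exact (brg_pq a).map b.trans

/-- The unitary groups of dimension `4 ≤ n < 64` over a field above the bound. -/
theorem main_su2 [StarRing F] (hq : Nat.card F = q ^ 2) (hs : ∃ a : F, star a ≠ a) (P : Pv n q)
    (hc : Nat.card G = Nat.card (PQ (Matrix.specialUnitaryGroup (Fin n) F)))
    (hV : Vo G = Vo (PQ (Matrix.specialUnitaryGroup (Fin n) F))) :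
    Nonempty (G ≃* PQ (Matrix.specialUnitaryGroup (Fin n) F)) ∨ Off G := by
  have h1 := udata_su hq hs P.n4 hc hV
  obtain ⟨p, f, hp, hf, rfl⟩ := (isPrimePow_nat_iff q).1
    ((isPrimePow_pow_iff two_ne_zero).1 (hq ▸ card_pp F))
  obtain ⟨K, _, H, a1, a2, a3, a4, a5⟩ := umain' hp hf P h1
  by_cases hl : OnList H
  · rcases a5.hit hl with ⟨-, b⟩ | ⟨h, -⟩ | ⟨-, h⟩
    · obtain ⟨d⟩ := b.iso' hq hs
      exact .inl (iso_of_iso hc iso_of_card d)
    · simp at h
    · simp at h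
  · exact .inr ⟨K, _, H, a1, a2, a3, a4, hl⟩

end Pool.Agent.Lib.MP_7d41f7_al
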