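import Pool.Agent.Lib.MP_7d41f7_al.F.OG
import Pool.Agent.Lib.MP_7d41f7_al.F.OK2
import Pool.Agent.Lib.MP_7d41f7_al.F.UD

/-! The unitary groups over all fields. -/

set_option autoImplicit false

namespace Pool.Agent.Lib.MP_7d41f7_al

open Matrix

variable {G : Type} [Group G] [Finite G] {n q m : ℕ}

omit [Finite G] in
theorem UData.nd (h : UData G n q) (hq : 2 ≤ q) (h0 : 0 < m) (hm : m = n ∨ m + 1 = n) :
    ND G (kU q m) (cU q m) := fun r hr d => by
  have h1 := (dvd_fu (by omega) r m).1 (d.trans oCop_dvd)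
  have h2 := oCop_not (fu_pos hq h0).ne' hr d
  have h3 : ∀ k j, 0 < j → j ≤ k → fu q j ∣ Nat.rec 1 (fun j x => fu q (j + 1) * x) k := by
    intro k j a b
    induction k with
    | zero => omega
    | succ k ih =>
      rcases b.eq_or_lt with rfl | e
      exacts [Dvd.intro _ rfl, (ih (by omega)).mul_left _]
  have c : UC n q m r := ⟨hr, (Nat.le_of_dvd h0 h1).eq_or_lt.resolve_right fun e => h2
    (((dvd_fu (by omega) r _).2 dvd_rfl).trans (h3 _ _ (Nat.pos_of_dvd_of_pos h1 h0) (by omega))),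
    hm⟩
  refine ⟨h.cyc m r c, fun u hu ne a => ?_⟩
  have h4 := (dvd_fu (by omega) u m).2 (h.adj m r u c hu ne a)
  unfold cU
  split_ifs with e
  · refine dvd_oCop hu h4 fun f => h.two m r c e.1 e.2 ?_
    rwa [(Nat.prime_dvd_prime_iff_eq hu Nat.prime_two).1 f] at a
  · exact h4

variable {F : Type} [Field F] [Finite F]

/-- All unitary groups except `U₃(2)` and `U₄(2)`. -/
theorem all_un [StarRing F] (hq : Nat.card F = q ^ 2) (hs : ∃ a : F, star a ≠ a) (h3 : 3 ≤ n)
    (h2 : q = 2 → 5 ≤ n) (hc : Nat.card G = Nat.card (PQ (specialUnitaryGroup (Fin n) F)))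
    (hV : Vo G = Vo (PQ (specialUnitaryGroup (Fin n) F))) :
    Nonempty (G ≃* PQ (specialUnitaryGroup (Fin n) F)) ∨ Off5 G := by
  have hp : IsPrimePow q := (isPrimePow_pow_iff two_ne_zero).1 (hq ▸ card_pp F)
  have q2 := hp.two_le
  rcases h3.eq_or_lt with rfl | h4
  · exact all_u3 hq hs (by omega) hc hV
  rcases le_or_gt 64 n with c | c
  · exact (main_su hq hs c hc hV).imp_right fun h => h.off3.five
  rcases le_or_gt (uq n) q with d | d
  · exact (main_su2 hq hs ⟨h4, c, d⟩ hc hV).imp_right fun h => h.off3.five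
  have k : oU n q = true ∧ q < 2 ^ 10 := by
    rcases (by omega : n = 4 ∨ 5 ≤ n) with rfl | e
    · have : q < 629 := d
      exact ⟨oN_le okU4 (by omega) (by omega), by omega⟩
    · have : n < 15 ∧ q < 2 ^ 10 := by
        unfold uq at d
        split_ifs at d <;> omega
      exact ⟨oN_le (oN_le okU5 e (by omega)) q2 (by omega), this.2⟩
  have h := udata_su hq hs h4 hc hV
  have : Finite (PQ (specialUnitaryGroup (Fin n) F)) := Quotient.finite _
  have hg := hc.trans (IsD.card (d := .uni n q)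
    ⟨h3, F, inferInstance, inferInstance, inferInstance, hq, hs, ⟨.refl _⟩⟩)
  obtain ⟨k, k1⟩ := k
  rw [oU, oPP_of hp k1, fN_o, fN_o] at k
  refine (chkM_out hg ?_ k).sole hc fun H _ a => a.2.iso' hq hs
  simp only [List.forall_mem_cons, List.not_mem_nil, false_imp_iff, implies_true, and_true]
  exact ⟨h.nd q2 (by omega) (.inl rfl), h.nd q2 (by omega) (.inr (by omega))⟩

variable {S T : Type} [Group S] [Group T]

omit [Finite G] in
theorem via_iso (e : S ≃* T) (hc : Nat.card G = Nat.card S) (hV : Vo G = Vo S)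
    (h : Nat.card G = Nat.card T → Vo G = Vo T → Nonempty (G ≃* T) ∨ Off5 G) :
    Nonempty (G ≃* S) ∨ Off5 G :=
  (h (hc.trans (Nat.card_congr e.toEquiv)) (hV.trans (Vo_congr e))).imp_left
    (.map fun a => a.trans e.symm)

/-- The simple groups `L₂(q)` and `L₃(q)` of the list. -/
theorem all_lin23 (hS : IsSL S n q) (hn : n = 2 ∨ n = 3)
    (hx : (n, q) ∉ [(2, 2), (2, 3), (2, 4), (2, 5), (2, 9), (3, 2), (4, 2)])
    (hc : Nat.card G = Nat.card S) (hV : Vo G = Vo S) : Nonempty (G ≃* S) ∨ Off5 G := by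
  obtain ⟨F, _, _, rfl, ⟨e⟩⟩ := hS
  have hp := card_pp F
  have h2 := hp.two_le
  have h6 : Nat.card F ≠ 6 := fun a => absurd (oPP_of hp (by omega)) (by rw [a]; decide)
  rcases hn with rfl | rfl <;> simp at hx
  exacts [via_iso e hc hV (all_l2s (by omega) (by omega)), via_iso e hc hV (all_l3 (by omega))]

/-- The simple unitary groups other than `U₄(2)`. -/
theorem all_uni (hS : IsSU S n q) (hn : 3 ≤ n) (h3 : (n, q) ≠ (3, 2)) (h4 : (n, q) ≠ (4, 2))
    (hc : Nat.card G = Nat.card S) (hV : Vo G = Vo S) : Nonempty (G ≃* S) ∨ Off5 G := by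
  obtain ⟨F, _, _, _, hq, hs, ⟨e⟩⟩ := hS
  refine via_iso e hc hV (all_un hq hs hn ?_)
  rintro rfl
  simp at h3 h4
  omega

/-- The simple groups `S₄(q)` of the list. -/
theorem all_sp4 (hS : IsSp S 2 q) (hx : (2, q) ∉ [(2, 2), (2, 3)])
    (hc : Nat.card G = Nat.card S) (hV : Vo G = Vo S) : Nonempty (G ≃* S) ∨ Off5 G := by
  obtain ⟨F, _, _, rfl, ⟨e⟩⟩ := hS
  have h2 := (card_pp F).two_le
  simp at hx
  exact via_iso e hc hV (all_s4 (by omega))

end Pool.Agent.Lib.MP_7d41f7_al
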