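import Pool.Agent.Lib.MP_7d41f7_al.F.XB
import Pool.Agent.Lib.MP_7d41f7_al.H.KD

/-! The linear groups of degree at least four over all fields. -/

set_option autoImplicit false

namespace Pool.Agent.Lib.MP_7d41f7_al

variable {G S : Type} [Group G] [Finite G] [Group S] {n q m r : ℕ}

omit [Finite G] in
theorem LData.xnd (h : LData G n q) (hm : m = n ∨ m + 1 = n) (hr : Prim q m r) :
    ND G r (q ^ m - 1) := fun s hs a => by
  obtain rfl := (Nat.prime_dvd_prime_iff_eq hs hr.pr).1 a
  refine ⟨h.cyc m s hm hr, fun u hu ne b => ?_⟩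
  rcases hm with rfl | rfl
  · exact dvd_of_mul_right_dvd (h.adj1 s u hr hu ne b)
  · exact dvd_of_mul_right_dvd (h.adj2 s u hr hu ne b)

theorem xl_one (h : IsSL S n q) (hn : 4 ≤ n) (hc : Nat.card G = Nat.card S) (hV : Vo G = Vo S)
    (hm : m = n ∨ m + 1 = n) (hr : r.Prime) (h1 : r ∣ q ^ m - 1)
    (h2 : ∀ i < m, 0 < i → ¬ r ∣ q ^ i - 1)
    (k : chkS (Ds.lin n q).ord [(r, q ^ m - 1)] [] r 2 [.lin n q] = true) :
    Nonempty (G ≃* S) ∨ Off5 G := by
  have hS : IsD S (.lin n q) := ⟨by omega, h⟩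
  obtain ⟨F, _, _, rfl, ⟨i⟩⟩ := h
  refine xb_sole (chkS_out (hc.trans hS.card) (fun x hx => ?_) k) hS hc fun H _ b _ => ?_
  · obtain rfl := List.mem_singleton.1 hx
    exact (ldata hn (hc.trans (Nat.card_congr i.toEquiv)) (hV.trans (Vo_congr i))).xnd hm
      ⟨hr, h1, fun j a b => h2 j b a⟩
  · obtain ⟨-, K, _, _, e, ⟨j⟩⟩ := b
    exact (psl_iso e).map fun z => (j.trans z).trans i.symm

theorem all_lin4 (h : IsSL S n q) (hn : 4 ≤ n) (hx : (n, q) ≠ (4, 2))
    (hc : Nat.card G = Nat.card S) (hV : Vo G = Vo S) : Nonempty (G ≃* S) ∨ Off5 G := by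
  by_cases c : 256 < q ^ n
  · obtain ⟨F, _, _, rfl, ⟨i⟩⟩ := h
    exact (all_sl (by omega) (.inr (.inr ⟨hn, c⟩)) (hc.trans (Nat.card_congr i.toEquiv))
      (hV.trans (Vo_congr i))).imp (.map fun z => z.trans i.symm) fun a => a.off4.off5
  have q2 := h.pp.two_le
  have a : n < 9 := not_le.1 fun a => c ((by decide : 256 < 2 ^ 9).trans_le
    ((Nat.pow_le_pow_left q2 9).trans (Nat.pow_le_pow_right (by omega) a)))
  have b : q < 5 := not_le.1 fun b => c ((by decide : 256 < 5 ^ 4).trans_le
    ((Nat.pow_le_pow_left b 4).trans (Nat.pow_le_pow_right (by omega) hn)))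
  have k := fun m r => xl_one (G := G) (m := m) (r := r) h hn hc hV
  interval_cases q <;> interval_cases n <;>
    first | exact (hx rfl).elim | exact (c (by decide)).elim | skip
  · exact k 5 31 (by decide) (by norm_num) (by decide) (by decide) (by decide +kernel)
  · exact k 5 31 (by decide) (by norm_num) (by decide) (by decide) (by decide +kernel)
  · exact k 7 127 (by decide) (by norm_num) (by decide) (by decide) (by decide +kernel)
  · exact k 7 127 (by decide) (by norm_num) (by decide) (by decide) (by decide +kernel)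
  · exact k 3 13 (by decide) (by norm_num) (by decide) (by decide) (by decide +kernel)
  · exact k 5 11 (by decide) (by norm_num) (by decide) (by decide) (by decide +kernel)
  · exact k 3 7 (by decide) (by norm_num) (by decide) (by decide) (by decide +kernel)

end Pool.Agent.Lib.MP_7d41f7_al
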