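import Pool.Agent.Lib.MP_7d41f7_al.F.XM
import Pool.Agent.Lib.MP_7d41f7_al.F.BF

/-! The general argument for symplectic and orthogonal groups: assembly. -/

set_option autoImplicit false

namespace Pool.Agent.Lib.MP_7d41f7_al

variable {G S : Type} [Group G] [Finite G] [Group S] {n q : ℕ}

theorem xgen : XGen := fun G _ _ => B8.gen_all G

theorem all_sp5 (h : IsSp S n q) (hn : 3 ≤ n) (hc : Nat.card G = Nat.card S) (hV : Vo G = Vo S) :
    Nonempty (G ≃* S) ∨ Off5 G := all_sp5_of xgen h hn hc hV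

theorem all_om5 (h : IsOm S n q) (hn : 7 ≤ n) (hc : Nat.card G = Nat.card S) (hV : Vo G = Vo S) :
    Nonempty (G ≃* S) ∨ Off5 G := all_om5_of xgen h hn hc hV

end Pool.Agent.Lib.MP_7d41f7_al
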