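import Pool.Agent.Lib.MP_7d41f7_al.F.XU
import Pool.Agent.Lib.MP_7d41f7_al.F.UG

/-! The group `U₄(2)`. -/

set_option autoImplicit false

namespace Pool.Agent.Lib.MP_7d41f7_al

open Polynomial

theorem xv_poly {R : Type} [CommRing R] (h2 : (2 : R) = 0) {t b : R} (x : R)
    (ht : t = 0 ∨ t = 1 ∨ t ^ 2 + t + 1 = 0) (hb : b = 0 ∨ b = 1) :
    ∃ n, (n ∣ 36 ∨ n = 5) ∧ x ^ 4 + t * x ^ 3 + b * x ^ 2 + t ^ 2 * x + 1 ∣ x ^ n - 1 := by
  rcases ht with rfl | rfl | ht <;> rcases hb with rfl | rfl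
  · exact ⟨4, by decide, 1, by linear_combination (-1 : R) * h2⟩
  · exact ⟨6, by decide, 1 + x ^ 2, by linear_combination (-(1 + x ^ 2 + x ^ 4)) * h2⟩
  · exact ⟨6, by decide, 1 + x + x ^ 2, by
      linear_combination (-(1 + x + x ^ 2 + x ^ 3 + x ^ 4 + x ^ 5)) * h2⟩
  · exact ⟨5, by decide, 1 + x, by linear_combination (-(1 + x + x ^ 2 + x ^ 3 + x ^ 4)) * h2⟩
  · exact ⟨9, by decide, 1 + x + x ^ 3 + x ^ 5 + t * (x + x ^ 2 + x ^ 3 + x ^ 4), by
      linear_combination (-(x - x ^ 3 + x ^ 4 + 2 * x ^ 6 + x ^ 7 +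
        t * (x ^ 2 + x ^ 3 + x ^ 4 + x ^ 5))) * ht -
        (1 + x ^ 3 + x ^ 5 - x ^ 6 + t * (x ^ 3 + x ^ 8)) * h2⟩
  · exact ⟨12, by decide, 1 + x + x ^ 2 + x ^ 3 + x ^ 4 + x ^ 8 +
      t * (x + x ^ 2 + x ^ 3 + x ^ 5 + x ^ 6 + x ^ 7), by
      linear_combination (-(x + x ^ 4 + 2 * x ^ 5 - x ^ 7 + 2 * x ^ 9 + x ^ 10 +
        t * (x ^ 2 + x ^ 3 + x ^ 4 + x ^ 6 + x ^ 7 + x ^ 8))) * ht -
        (1 + x ^ 2 + x ^ 3 + x ^ 4 + x ^ 6 + x ^ 7 + x ^ 8 - x ^ 9 +
        t * (x ^ 3 + x ^ 5 + x ^ 6 + 2 * x ^ 7 + x ^ 11)) * h2⟩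

variable {F : Type} [Field F] [Finite F] [StarRing F]

omit [StarRing F] in
theorem xv_four (hq : Nat.card F = 2 ^ 2) :
    (2 : F) = 0 ∧ ∀ x : F, x = 0 ∨ x = 1 ∨ x ^ 2 + x + 1 = 0 := by
  have := Fintype.ofFinite F
  have e := FiniteField.cast_card_eq_zero F
  rw [← Nat.card_eq_fintype_card, hq, Nat.cast_pow] at e
  refine ⟨by simpa using e, fun x => ?_⟩
  have a := FiniteField.pow_card x
  rw [← Nat.card_eq_fintype_card, hq] at a
  have b : x * ((x - 1) * (x ^ 2 + x + 1)) = 0 := by linear_combination a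
  simpa only [mul_eq_zero, sub_eq_zero] using b

theorem xv_star (hq : Nat.card F = 2 ^ 2) (hs : ∃ a : F, star a ≠ a) (x : F) : star x = x ^ 2 := by
  obtain ⟨h2, h⟩ := xv_four hq
  obtain ⟨w, hw⟩ := hs
  have k : ∀ y z : F, y ^ 2 + y + 1 = 0 → z ^ 2 + z + 1 = 0 → z = y ∨ z = y + 1 := fun y z a b => by
    have : (z - y) * (z - (y + 1)) = 0 := by linear_combination b - a + (y ^ 2 + y - z - y * z) * h2
    simpa only [mul_eq_zero, sub_eq_zero] using this
  have w1 : w ^ 2 + w + 1 = 0 := by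
    rcases h w with rfl | rfl | a
    exacts [absurd (star_zero _) hw, absurd (star_one _) hw, a]
  have w2 : star w = w + 1 := (k w _ w1 (by simpa using congrArg star w1)).resolve_left hw
  rcases h x with rfl | rfl | a
  · simp
  · simp
  · rcases k w x w1 a with rfl | rfl
    · linear_combination w2 - a + (x + 1) * h2
    · rw [star_add, star_one, w2]
      linear_combination -w1 + h2

theorem xv_chr (hq : Nat.card F = 2 ^ 2) (hs : ∃ a : F, star a ≠ a) {M : Matrix (Fin 4) (Fin 4) F}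
    (u : star M * M = 1) (d : M.det = 1) : ∃ a b : F, (b = 0 ∨ b = 1) ∧
      M.charpoly = X ^ 4 + C a * X ^ 3 + C b * X ^ 2 + C a ^ 2 * X + 1 := by
  have i : M⁻¹ = star M := Matrix.inv_eq_left_inv u
  have c := Matrix.charpoly_inv M ((Matrix.isUnit_iff_isUnit_det M).2 (d ▸ isUnit_one))
  have s : star M = (M.map (starRingEnd F)).transpose := by
    ext i j
    rfl
  have ev : Even 4 := by decide
  rw [i, s, Matrix.charpoly_transpose, Matrix.charpoly_map, d, ← Matrix.reverse_charpoly] at c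
  have dg : M.charpoly.natDegree = 4 := by simp
  have c0 : M.charpoly.coeff 0 = 1 := by
    simpa [d, ev.neg_one_pow] using (Matrix.det_eq_sign_charpoly_coeff M).symm
  have c4 := M.charpoly_monic.coeff_natDegree
  rw [dg] at c4
  generalize M.charpoly = p at c dg c0 c4
  have ck : ∀ k ≤ 4, p.coeff k ^ 2 = p.coeff (4 - k) := fun k hk => by
    have := congrArg (fun z : F[X] => z.coeff k) c
    simp only [Fintype.card_fin, ev.neg_one_pow, Ring.inverse_one, map_one, one_mul, coeff_map,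
      coeff_reverse, dg, revAt_le hk, starRingEnd_apply, xv_star hq hs] at this
    exact this
  have b : p.coeff 2 * (p.coeff 2 - 1) = 0 := by linear_combination ck 2 (by omega)
  refine ⟨p.coeff 3, p.coeff 2, (mul_eq_zero.1 b).imp_right sub_eq_zero.1,
    p.as_sum_range_C_mul_X_pow.trans ?_⟩
  simp only [dg, Finset.sum_range_succ, Finset.sum_range_zero, c0, c4, ← ck 3 (by omega), map_pow,
    map_one]
  ring

theorem xv_pow (hq : Nat.card F = 2 ^ 2) (hs : ∃ a : F, star a ≠ a)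
    (A : Matrix.specialUnitaryGroup (Fin 4) F) : A ^ 36 = 1 ∨ A ^ 5 = 1 := by
  obtain ⟨h2, h⟩ := xv_four hq
  obtain ⟨u, d⟩ := Matrix.mem_specialUnitaryGroup_iff.1 A.2
  obtain ⟨a, b, hb, e⟩ := xv_chr hq hs u.1 d
  obtain ⟨n, hn, y, f⟩ := xv_poly (R := F[X]) (t := C a) (b := C b)
    (by rw [← map_ofNat C 2, h2, map_zero]) X
    ((h a).imp (fun k => by simp [k]) (.imp (fun k => by simp [k])
      fun k => by simpa using congrArg C k))
    (hb.imp (fun k => by simp [k]) fun k => by simp [k])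
  have g := congrArg (aeval A.1) f
  rw [← e, map_mul, Matrix.aeval_self_charpoly, zero_mul, map_sub, map_pow, aeval_X, map_one,
    sub_eq_zero] at g
  have g' : A ^ n = 1 := Subtype.ext g
  rcases hn with ⟨k, hk⟩ | rfl
  · exact .inl (by rw [hk, pow_mul, g', one_pow])
  · exact .inr g'

/-- The orders of the elements of `U₄(2)` divide `36` or `5`. -/
theorem xv_ord (hq : Nat.card F = 2 ^ 2) (hs : ∃ a : F, star a ≠ a)
    (g : PQ (Matrix.specialUnitaryGroup (Fin 4) F)) : orderOf g ∣ 36 ∨ orderOf g ∣ 5 := by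
  obtain ⟨A, rfl⟩ := QuotientGroup.mk_surjective g
  refine (xv_pow hq hs A).imp (fun h => ?_) fun h => ?_ <;>
    exact orderOf_dvd_of_pow_eq_one (by rw [← QuotientGroup.mk_pow, h, QuotientGroup.mk_one])

variable {G S : Type} [Group G] [Finite G] [Group S]

theorem xv_adj (hq : Nat.card F = 2 ^ 2) (hs : ∃ a : F, star a ≠ a)
    (hc : Nat.card G = Nat.card (PQ (Matrix.specialUnitaryGroup (Fin 4) F)))
    (hV : Vo G = Vo (PQ (Matrix.specialUnitaryGroup (Fin 4) F))) :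
    Cyc G 5 ∧ ∀ u, u.Prime → u ≠ 5 → ¬ Adj G u 5 := by
  have o := xv_ord hq hs
  have hr := Nat.prime_five
  have k : Cyc (PQ (Matrix.specialUnitaryGroup (Fin 4) F)) 5 ∧
      ∀ g : PQ (Matrix.specialUnitaryGroup (Fin 4) F), 5 ∣ orderOf g →
        orderOf g ∈ Vo (PQ (Matrix.specialUnitaryGroup (Fin 4) F)) := by
    obtain ⟨S, Φ, R, hk, e2, hn, hR⟩ := brg_su' 4 F hq hs
    obtain ⟨t, m, hT⟩ := Frm.exists_ty hn
    obtain rfl : t = .U := by
      have := hT.kd.trans hk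
      cases t <;> simp [Ty.kd] at this ⊢
    obtain rfl : 4 = m := by simpa [Ty.dim] using hT.dim
    have hC : Φ.Cen := Frm.cen_all (by rw [← hT.kd]; simp [Ty.kd]) hT.nd
      (hT.dim ▸ (by omega : 3 ≤ 4))
    have o4 : Ord (-(S.q : ℤ)) 5 = 4 := by
      rw [e2]
      exact (orderOf_eq_iff (by decide)).2 (by decide)
    have e : S.j 5 = 4 := by rw [Sca.j, ← hT.kd]; exact o4
    obtain ⟨k, hk⟩ := vank_U (q := S.q) hr le_rfl (.inl o4)
    exact ⟨Frm.cyc_U hT le_rfl R hr (by omega), Frm.van_k hT hC R hr (bg_of (by omega)) hk⟩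
  have : Finite (PQ (Matrix.specialUnitaryGroup (Fin 4) F)) := Quotient.finite _
  refine ⟨transfer_cyc hr hc hV k.1 k.2, fun u hu ne a => ?_⟩
  obtain ⟨g, hg⟩ := (transfer_adj hr ((Nat.coprime_primes hu hr).2 ne) hc hV k.1 k.2).1 a
  rcases o g with b | b <;> rw [hg] at b
  · exact absurd ((Dvd.intro_left _ rfl).trans b) (by decide)
  · exact ne ((Nat.prime_dvd_prime_iff_eq hu hr).1 ((Dvd.intro _ rfl).trans b))

theorem all_u42 (h : IsSU S 4 2) (hc : Nat.card G = Nat.card S) (hV : Vo G = Vo S) :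
    Nonempty (G ≃* S) ∨ Off5 G := by
  have n8 := xu_su h
  have hg : Nat.card G = 25920 := hc.trans (IsD.card (d := .uni 4 2) ⟨by decide, h⟩)
  obtain ⟨F, _, _, _, hq, hs, ⟨e⟩⟩ := h
  obtain ⟨c, a⟩ := xv_adj hq hs (hc.trans (Nat.card_congr e.toEquiv)) (hV.trans (Vo_congr e))
  have nd : ND G 5 5 := fun r hr d => by
    obtain rfl := (Nat.prime_dvd_prime_iff_eq hr Nat.prime_five).1 d
    exact ⟨c, fun u hu ne b => absurd b (a u hu ne)⟩
  have k : chkR 25920 [(5, 5)] [] 5 2 [.uni 4 2] = true := by decide +kernel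
  rcases chkR_out hg (by simpa using nd) k with o | ⟨K, _, i, N⟩
  · exact o.sole hc fun H _ b => (b.2.iso' hq hs).map fun f => f.trans e.symm
  · have a2 := a 2 Nat.prime_two (by decide)
    have a3 := a 3 Nat.prime_three (by decide)
    have f2 := N.free 5 2 Nat.prime_five Nat.prime_two N.nk ⟨by decide, a2⟩
    have p := N.prod
    have f5 : (Nat.card G).factorization 5 = 1 := by
      rw [hg, ← Nat.primeFactorsList_count_eq]
      simp [Nat.primeFactorsList_ofNat]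
    rw [f5, hg] at p
    rw [f5] at f2
    have hi : i ∈ Nat.divisors 4 := Nat.mem_divisors.2 ⟨N.idx, by decide⟩
    have hK : Nat.card K = 1296 := by
      have : ∀ i ∈ Nat.divisors 4, i = 1 ∨ i = 2 ∨ i = 4 := by decide
      have z : ∀ k, Nat.card K = k → 2 ^ k.primeFactorsList.count 2 % 5 = 1 := fun k e => by
        rw [Nat.primeFactorsList_count_eq, ← e]
        exact f2
      rcases this i hi with rfl | rfl | rfl
      · simpa [Nat.primeFactorsList_ofNat] using z 5184 (by omega)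
      · simpa [Nat.primeFactorsList_ofNat] using z 2592 (by omega)
      · omega
    obtain ⟨g, hg, -⟩ := hV ▸ xu_sol hg a2 a3 K hK
    exact absurd hg (n8 g)

end Pool.Agent.Lib.MP_7d41f7_al
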