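import Pool.Agent.Lib.MP_7d41f7_al.F.NAe
import Pool.Agent.Lib.MP_7d41f7_al.F.XN
import Pool.Agent.Lib.MP_7d41f7_al.F.XV
import Pool.Agent.Lib.MP_7d41f7_al.F.UG
import Pool.Agent.Lib.MP_7d41f7_al.F.BCe
import Pool.Agent.Lib.MP_7d41f7_al.F.XL
import Pool.Agent.Lib.MP_7d41f7_al.F.OZ

/-! All finite simple groups. -/

set_option autoImplicit false

namespace Pool.Agent.Lib.MP_7d41f7_al

variable {G S : Type} [Group G] [Group S] [Finite G]

theorem all_lie5 (h : IsLie5 S) (hc : Nat.card G = Nat.card S) (hV : Vo G = Vo S) :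
    Nonempty (G ≃* S) ∨ Off5 G := by
  rcases h with ⟨n, q, ⟨a, h, b⟩ | ⟨a, h, b⟩ | ⟨a, h, b⟩ | ⟨a, h⟩⟩ | ⟨x, q, h, a⟩ | ⟨y, m, a, h⟩
  · by_cases c : 4 ≤ n
    · exact all_lin4 h c (fun e => b (by simp [e])) hc hV
    · exact all_lin23 h (by omega) b hc hV
  · by_cases c : (n, q) = (4, 2)
    · obtain ⟨rfl, rfl⟩ := Prod.mk.inj c
      exact all_u42 h hc hV
    · exact all_uni h a b c hc hV
  · obtain rfl | c := a.eq_or_lt
    · exact all_sp4 h b hc hV
    · exact all_sp5 h c hc hV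
  · exact all_om5 h a hc hV
  · exact all_chev5 h a hc hV
  · exact all_ree5 h a hc hV

theorem all_simple [IsSimpleGroup S] (hc : Nat.card G = Nat.card S) (hV : Vo G = Vo S) :
    Nonempty (G ≃* S) ∨ (IsSimpleGroup G ∧ ∃ N r, Spor S N r ∧ Spor G N r) ∨
      (¬ IsMulCommutative S ∧ ¬ OnList5 S) ∨ Off5 G := by
  by_cases a : IsMulCommutative S
  · have := Fact.mk (open scoped IsMulCommutative in IsSimpleGroup.prime_card (α := S))
    exact .inl ⟨mulEquivOfPrimeCardEq hc rfl⟩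
  by_cases b : OnList5 S
  · rcases b with ⟨n, a, ⟨e⟩⟩ | h | ⟨N, r, h⟩
    · exact (all_alt5 a e hc hV).imp_right fun c => .inr (.inr c)
    · exact (all_lie5 h hc hV).imp_right fun c => .inr (.inr c)
    · exact .inr ((all_spor5 h hc hV).imp (fun c => ⟨c.1, N, r, h, c.2⟩) .inr)
  · exact .inr (.inr (.inl ⟨a, b⟩))

end Pool.Agent.Lib.MP_7d41f7_al
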