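import Pool.Agent.Lib.MP_7d41f7_al.F.NDef

/-! The checker: the group theory behind the tests. -/

set_option autoImplicit false

namespace Pool.Agent.Lib.MP_7d41f7_al

open Subgroup

variable {G : Type} [Group G] [Finite G] {r s u E : ℕ}

theorem top_pow (M : Subgroup G) [M.Normal] (hr : r.Prime) (hc : Cyc G r) (hM : r ∣ Nat.card M)
    (hu : u.Prime) (h : NAd G u r) : u ^ M.index.factorization u ∣ r - 1 := by
  obtain ⟨L, -, l1, -, l3, l4⟩ := exists_top M hr hc hM
  have d := Nat.ordProj_dvd M.index u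
  generalize M.index.factorization u = i at d
  rw [← relIndex_mul_index l1] at d
  exact (((hu.coprime_iff_not_dvd.2 fun c => (l4 u hu c).elim h.1 h.2).pow_left
    i).dvd_of_dvd_mul_left d).trans l3

omit [Finite G] in
theorem NAd.surj {H : Type} [Group H] [Finite G] {φ : G →* H} (hφ : Function.Surjective φ)
    (h : NAd G u r) : NAd H u r := ⟨h.1, fun a => h.2 (a.of_surj hφ)⟩

omit [Finite G] in
theorem NAd.sub (h : NAd G u r) (M : Subgroup G) : NAd M u r := ⟨h.1, fun a => h.2 a.of_sub⟩

omit [Finite G] in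
theorem perfect_of [IsSimpleGroup G] (h : ¬ IsMulCommutative G) : commutator G = ⊤ :=
  (IsSimpleGroup.eq_bot_or_eq_top_of_normal _ inferInstance).resolve_left fun e =>
    h ⟨⟨fun _ _ => commutatorElement_eq_one_iff_mul_comm.1
      (e.le (commutator_mem_commutator trivial trivial))⟩⟩

/-- A prime with cyclic Sylow subgroups does not divide both a perfect kernel and its index. -/
theorem not_index (H : Subgroup G) [H.Normal] (hp : commutator H = ⊤) (hr : r.Prime)
    (hc : Cyc G r) (h : r ∣ Nat.card H) : ¬ r ∣ H.index := fun d => by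
  have := Fact.mk hr
  obtain ⟨y, hy⟩ := exists_prime_orderOf_dvd_card' (G := G ⧸ H) r d
  set M := (zpowers y).comap (QuotientGroup.mk' H)
  have le : H ≤ M := fun x hx => by
    simp only [M, mem_comap, QuotientGroup.mk'_apply, (QuotientGroup.eq_one_iff x).2 hx, one_mem]
  let φ := (QuotientGroup.mk' H).subgroupComap (zpowers y)
  have sj : Function.Surjective φ :=
    MonoidHom.subgroupComap_surjective_of_surjective _ _ (QuotientGroup.mk'_surjective H)
  obtain ⟨P⟩ : Nonempty (Sylow r M) := inferInstance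
  have := hc.sub hr M P
  refine P.not_dvd_card_commutator_or_not_dvd_index_commutator.elim (fun e => e (h.trans ?_))
    fun e => e (dvd_trans ?_ (index_dvd_of_le (K := φ.ker) ?_))
  · rw [← card_map_of_injective M.subtype_injective, map_subtype_commutator]
    refine card_dvd_of_le (le_trans ?_ (commutator_mono le le))
    rw [← map_subtype_commutator, hp, ← MonoidHom.range_eq_map, range_subtype]
  · rw [index_ker, MonoidHom.range_eq_top.2 sj, card_top, Nat.card_zpowers, hy]
  · exact commutator_le.2 fun a _ b _ => by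
      rw [MonoidHom.mem_ker, map_commutatorElement, commutatorElement_eq_one_iff_mul_comm,
        mul_comm']

theorem nf_of_sec {K : Subgroup G} [K.Normal] {H : Subgroup (G ⧸ K)} (S : Sec K H)
    (hE : H.index ∣ E) : NF G (Nat.card K) (Nat.card H) H.index E := by
  have := S.nrm
  have := S.sim
  have sj := QuotientGroup.mk'_surjective K
  have pf := perfect_of S.nab
  set M := H.comap (QuotientGroup.mk' K)
  let φ : M →* H := (QuotientGroup.mk' K).subgroupComap H
  have sφ : Function.Surjective φ := MonoidHom.subgroupComap_surjective_of_surjective _ _ sj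
  have ik : φ.ker.index = Nat.card H := by rw [index_ker, MonoidHom.range_eq_top.2 sφ, card_top]
  have ck : Nat.card φ.ker = Nat.card K := by
    have le : K ≤ M := fun x hx => by
      simp only [M, mem_comap, QuotientGroup.mk'_apply, (QuotientGroup.eq_one_iff x).2 hx, one_mem]
    rw [← Nat.card_congr (subgroupOfEquivOfLe le).toEquiv]
    congr 2
    ext x
    exact Subtype.ext_iff.trans (QuotientGroup.eq_one_iff x.1)
  refine ⟨⟨?_, hE, fun r u hr hu a b => free_pow K hr a hu b.1 b.2, fun r u hr hu a b c =>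
    top_pow H hr (a.of_surj sj hr) b hu (c.surj sj)⟩,
    fun r hr a b => not_index H pf hr (a.of_surj sj hr) b, fun r u hr hu a b c d => ?_,
    fun s u hs hu a b c d => ?_, fun s u hs hu a _ c d => free_mod H hs
      (a.trans H.index_dvd_card) c hu d.1 (d.surj sj).2⟩
  · rw [mul_assoc, H.card_mul_index, mul_comm, ← card_eq_card_quotient_mul_card_subgroup]
  · rw [← ck] at b c ⊢
    obtain ⟨j, -, h1, h2⟩ := section_GL φ.ker hr hr b b (fun N hN e =>
      (IsSimpleGroup.eq_bot_or_eq_top_of_normal _ (hN.map φ sφ)).elim (map_eq_bot_iff N).1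
        fun k => (e (a.trans (card_top (G := H) ▸ k ▸ card_map_dvd N φ))).elim) (fun _ _ e => e)
      hu c fun e => (d.sub M).2 e.1
    exact ⟨j, h1, ik ▸ h2⟩
  · obtain ⟨L, -, l1, l2, -, l4⟩ := exists_top φ.ker hs (a.sub hs M) (ck ▸ b)
    obtain rfl : L = ⊤ := by
      rw [← comap_map_eq_self l1, eq_top_iff.2 (show ⊤ ≤ L.map φ from ?_), comap_top]
      refine le_trans ?_ (map_mono l2)
      rw [← pf, map_commutator_eq, MonoidHom.range_eq_top.2 sφ]
      rfl
    exact (l4 u hu (by rwa [relIndex_top_right, ik])).elim d.1 (d.sub M).2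

/-- A central element of order `r` keeps `r` out of the commutator subgroup. -/
theorem cen_not_comm (hr : r.Prime) (hc : Cyc G r) {z : G} (oz : orderOf z = r)
    (hz : z ∈ center G) : ¬ r ∣ Nat.card (commutator G) := fun d => by
  have := Fact.mk hr
  obtain ⟨y, hy, oy⟩ := exists_socle_elt hr d
  obtain ⟨m, -, hm⟩ := hc.conj hr ⊤ trivial trivial oz oy
  have ow : orderOf (m * y * m⁻¹) = r := ((MulAut.conj m).orderOf_eq y).trans oy
  have cw := (inferInstance : (commutator G).Normal).conj_mem y hy m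
  have zw := zpowers_le.2 hz hm
  generalize m * y * m⁻¹ = w at ow cw zw
  obtain ⟨P⟩ : Nonempty (Sylow r G) := inferInstance
  have := hc P
  let _ : CommGroup P := IsCyclic.commGroup
  have e := MonoidHom.transfer_eq_pow (MonoidHom.id P) w fun k g _ => by
    rw [mul_assoc, ← mem_center_iff.1 (pow_mem zw k) g, inv_mul_cancel_left]
  rw [Abelianization.commutator_subset_ker _ cw] at e
  exact P.not_dvd_index (ow.symm.dvd.trans
    (orderOf_dvd_of_pow_eq_one (congrArg Subtype.val e).symm))

theorem sec_single (hr : r.Prime) (hc : Cyc G r) (hG : r ∣ Nat.card G) :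
    (∃ (K : Subgroup G) (_ : K.Normal) (H : Subgroup (G ⧸ K)), Sec K H ∧
      r ^ (Nat.card G).factorization r ∣ Nat.card H) ∨
    ∃ (K : Subgroup G) (_ : K.Normal) (i : ℕ), NC0 G r (Nat.card K) i := by
  have := Fact.mk hr
  obtain ⟨K, _, k1, kmax⟩ := exists_core (G := G) hr
  have sj := QuotientGroup.mk'_surjective K
  have al : ∀ M : Subgroup (G ⧸ K), M.Normal → ¬ r ∣ Nat.card M → M = ⊥ := by
    intro M hM h0
    refine eq_bot_iff.2 fun x hx => ?_
    obtain ⟨y, rfl⟩ := sj x
    exact (QuotientGroup.eq_one_iff y).2 (kmax (M.comap (QuotientGroup.mk' K)) inferInstance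
      (fun a => (hr.dvd_mul.1 (a.trans (QuotientGroup.card_preimage_mk K M).dvd)).elim k1 h0) hx)
  have cq := card_eq_card_quotient_mul_card_subgroup K
  have : Nontrivial (G ⧸ K) := Finite.one_lt_card_iff_nontrivial.1 (hr.one_lt.trans_le
    (Nat.le_of_dvd Nat.card_pos ((hr.dvd_mul.1 (cq ▸ hG)).resolve_right k1)))
  have cy := hc.of_surj sj hr
  obtain ⟨H, hH, h0, h1⟩ := exists_min_simple (G := G ⧸ K) (· = r) (fun _ _ e => e ▸ cy)
    fun M hM h => ⟨r, hr, rfl, by_contra fun a => h (al M hM a)⟩
  obtain ⟨x, xH, ox⟩ := exists_socle_elt hr (by_contra fun a => h0 (al H hH a))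
  have pw : ∀ a b : ℕ, Nat.card G = Nat.card K * a * b → ¬ r ∣ b →
      r ^ (Nat.card G).factorization r ∣ a := fun a b e n =>
    ((hr.coprime_iff_not_dvd.2 k1).pow_left _).dvd_of_dvd_mul_left
      (((hr.coprime_iff_not_dvd.2 n).pow_left _).dvd_of_dvd_mul_right
        ((Nat.ordProj_dvd _ r).trans e.dvd))
  by_cases ab : IsMulCommutative H
  swap
  · have S : Sec K H := by
      refine ⟨hH, h1, ab, al _ inferInstance fun a => ?_⟩
      obtain ⟨y, yC, oy⟩ := exists_socle_elt hr a
      obtain ⟨m, -, hm⟩ := cy.conj hr ⊤ trivial trivial ox oy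
      have yH : y ∈ H := by simpa [mul_assoc] using hH.conj_mem _ (zpowers_le.2 xH hm) m⁻¹
      rcases h1.eq_bot_or_eq_top_of_normal (center H) inferInstance with c | c
      · refine hr.ne_one (oy.symm.trans (orderOf_eq_one_iff.2 (congrArg Subtype.val (c.le
          (show (⟨y, yH⟩ : H) ∈ center H from
            mem_center_iff.2 fun w => Subtype.ext (yC w w.2))))))
      · exact ab ⟨⟨fun u v => mem_center_iff.1 (c.ge trivial) u⟩⟩
    have F := nf_of_sec S dvd_rfl
    exact .inl ⟨K, _, H, S, pw _ _ F.prod (F.ni r hr hc (ox ▸ H.orderOf_dvd_natCard xH))⟩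
  set C := centralizer (H : Set (G ⧸ K))
  have cH : Nat.card H = r := by
    let _ : CommGroup H := { (inferInstance : Group H) with mul_comm := ab.is_comm.comm }
    exact ((Nat.prime_dvd_prime_iff_eq hr IsSimpleGroup.prime_card).1
      (ox ▸ H.orderOf_dvd_natCard xH)).symm
  have ix : C.index ∣ r - 1 := by
    have := isCyclic_of_prime_card cH
    have e := card_subgroup_dvd_card (MulAut.conjNormal (H := H)).range
    rwa [← index_ker, IsCyclic.card_mulAut, cH, Nat.totient_prime hr,
      show (MulAut.conjNormal (H := H)).ker = C from ?_] at e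
    ext g
    exact ⟨fun a w hw => (mul_inv_eq_iff_eq_mul.1 (congrArg Subtype.val
      (MulEquiv.congr_fun a ⟨w, hw⟩))).symm, fun a => MulEquiv.ext fun w => Subtype.ext
        (mul_inv_eq_iff_eq_mul.2 (a w w.2).symm)⟩
  have ni : ¬ r ∣ C.index := fun a => by
    have := Nat.le_of_dvd (Nat.sub_pos_of_lt hr.one_lt) (a.trans ix)
    have := hr.pos
    omega
  have ch : ∀ N : Subgroup C, N.Characteristic → ¬ r ∣ Nat.card N → N = ⊥ := fun N _ a =>
    (map_eq_bot_iff_of_injective _ C.subtype_injective).1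
      (al _ inferInstance (by rwa [card_map_of_injective C.subtype_injective]))
  have xC : x ∈ C := le_centralizer H xH
  have cm := ch _ inferInstance (cen_not_comm hr (cy.sub hr C) (z := ⟨x, xC⟩)
    ((orderOf_coe _).symm.trans ox) (mem_center_iff.2 fun g => Subtype.ext (g.2 x xH).symm))
  obtain ⟨a, ha⟩ : ∃ a, Nat.card C = r ^ a := by
    refine ⟨_, Nat.eq_prime_pow_of_unique_prime_dvd Nat.card_pos.ne' fun {u} hu d => ?_⟩
    by_contra n
    obtain ⟨O, hO, o1, o2⟩ := exists_core (G := C) hr
    have : O.Characteristic := characteristic_iff_map_le.2 fun φ =>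
      o2 _ (hO.map _ φ.surjective) (by rwa [card_map_of_injective φ.injective])
    have := Fact.mk hu
    obtain ⟨y, oy⟩ := exists_prime_orderOf_dvd_card' (G := C) u d
    have := o2 (zpowers y) (Normal.of_commutator_le _ (cm ▸ bot_le)) (by
      rw [Nat.card_zpowers, oy]
      exact fun e => n ((Nat.prime_dvd_prime_iff_eq hr hu).1 e).symm)
    rw [ch O ‹_› o1, le_bot_iff, zpowers_eq_bot] at this
    exact hu.ne_one (oy ▸ this ▸ orderOf_one)
  have pr : Nat.card G = Nat.card K * r ^ a * C.index := by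
    rw [← ha, mul_assoc, C.card_mul_index, mul_comm, ← cq]
  obtain rfl : a = (Nat.card G).factorization r := le_antisymm
    ((hr.pow_dvd_iff_le_factorization Nat.card_pos.ne').1
      (((dvd_mul_left _ _).mul_right _).trans pr.symm.dvd))
    ((Nat.pow_dvd_pow_iff_le_right hr.one_lt).1 (pw _ _ pr ni))
  refine .inr ⟨K, ‹_›, _, ⟨pr, ix, fun r u hr hu a b => free_pow K hr a hu b.1 b.2,
    fun s u hs _ _ b _ => ?_⟩, k1, fun s hs a b c d => c.ne' ?_, fun s u hs hu a b c => ?_⟩
  · rw [(Nat.prime_dvd_prime_iff_eq hs hr).1 (hs.dvd_of_dvd_pow b)]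
    exact (Nat.ordProj_dvd _ _).trans ix
  · obtain ⟨L, hL, l1, l2, -, l4⟩ := exists_top K hs a b
    have e := kmax L hL fun e => by
      rw [← (K.subgroupOf L).card_mul_index, Nat.card_congr (subgroupOfEquivOfLe l1).toEquiv] at e
      exact (hr.dvd_mul.1 e).elim k1 fun f => (l4 r hr f).elim d.1 d.2
    have := Normal.quotient_commutative_iff_commutator_le.2 (l2.trans e)
    exact index_eq_one.2 (eq_top_iff.2 fun g _ w _ => this.is_comm.comm w g)
  · rw [cq, Nat.mul_div_cancel _ Nat.card_pos]
    exact top_pow K hs a b hu c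

end Pool.Agent.Lib.MP_7d41f7_al
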