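import Pool.Agent.Lib.MP_7d41f7_al.F.NGa
import Pool.Agent.Lib.MP_7d41f7_al.H.KC

/-! The checker with one prime. -/

set_option autoImplicit false

namespace Pool.Agent.Lib.MP_7d41f7_al

variable {G : Type} [Group G] [Finite G] {g r n : ℕ} {nd : List (ℕ × ℕ)} {hs : List ℕ}
  {bl : List Blk} {b : Blk} {al : List Ds}

theorem single_out (B : Bls G bl) (hb : b ∈ bl) (z : b.2.1 ≠ 0) (c : Cyc G b.2.1)
    (e : core (Nat.card G) 0 n bl [b] al = true) :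
    Out G al ∨ ∃ (K : Subgroup G) (_ : K.Normal) (i : ℕ), NC0 G b.2.1 (Nat.card K) i := by
  obtain ⟨hv, d⟩ := Ar.pr_dvd B hb z
  obtain ⟨-, t, ht⟩ := B.pp b hb z
  refine (sec_single hv c (d.trans (B.dvd b hb).2.1)).imp_left fun ⟨K, _, H, S, a⟩ =>
    ⟨K, _, H, S, Ar.core_sound S B (nf_of_sec S (dvd_zero _))
      ⟨List.singleton_sublist.2 hb, fun c hc => ?_⟩ e⟩
  rw [← Ar.gcd_pp B hb hv ht dvd_rfl, Nat.gcd_eq_left (B.dvd b hb).2.1] at a
  exact List.mem_singleton.1 hc ▸ a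

theorem chkS_out (hg : Nat.card G = g) (hn : ∀ x ∈ nd, ND G x.1 x.2)
    (h : chkS g nd hs r n al = true) : Out G al := by
  simp only [chkS, En.fN_eq, En.fL_eq, Bool.and_eq_true, En.eL_iff, Bool.not_eq_true',
    ← Bool.not_eq_true, En.z0_iff] at h
  obtain ⟨v, b, hb, ⟨⟨⟨z1, z2⟩, -⟩, c⟩, e⟩ := h
  have B := Ar.valid_bls hg hn v
  subst hg
  obtain ⟨hv, d⟩ := Ar.pr_dvd B hb z1
  exact (single_out B hb z1 (B.nd b hb z2 _ hv d).1 e).resolve_right fun ⟨_, _, _, N⟩ =>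
    Ar.cycS_sound B hb z1 N c

/-- The checker with one prime `r`, without the test for a cyclic socle. -/
def chkR (g : ℕ) (nd : List (ℕ × ℕ)) (hs : List ℕ) (r n : ℕ) (al : List Ds) : Bool :=
  fN g fun g => fL (mkBl g hs nd) fun bl => valid g nd bl && eL bl fun b =>
    !z0 b.2.1 && !z0 b.2.2 && Nat.beq r b.2.1 && core g 0 n bl [b] al

theorem chkR_out (hg : Nat.card G = g) (hn : ∀ x ∈ nd, ND G x.1 x.2)
    (h : chkR g nd hs r n al = true) :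
    Out G al ∨ ∃ (K : Subgroup G) (_ : K.Normal) (i : ℕ), NC0 G r (Nat.card K) i := by
  simp only [chkR, En.fN_eq, En.fL_eq, Bool.and_eq_true, En.eL_iff, Bool.not_eq_true',
    ← Bool.not_eq_true, En.z0_iff, Nat.beq_eq] at h
  obtain ⟨v, b, hb, ⟨⟨z1, z2⟩, rfl⟩, e⟩ := h
  have B := Ar.valid_bls hg hn v
  subst hg
  obtain ⟨hv, d⟩ := Ar.pr_dvd B hb z1
  exact single_out B hb z1 (B.nd b hb z2 _ hv d).1 e

end Pool.Agent.Lib.MP_7d41f7_al
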