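import Pool.Agent.Lib.MP_7d41f7_al.D.KDef3
import Pool.Agent.Lib.MP_7d41f7_al.E.EDf2
import Pool.Agent.Lib.MP_7d41f7_al.E.RDef
import Pool.Agent.Lib.MP_7d41f7_al.VoDef

/-! The list of the classification of finite simple groups, without repetitions. -/

set_option autoImplicit false

namespace Pool.Agent.Lib.MP_7d41f7_al

/-- The orders of the 26 sporadic groups and of the Tits group, each with a prime divisor. -/
def sporTab : List (ℕ × ℕ) :=
  sporOrd.zip [11, 11, 11, 23, 23, 19, 7, 19, 43, 11, 11, 13, 17, 29, 31, 23, 23, 23, 13, 23, 29,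
    19, 67, 31, 47, 71, 13]

/-- `S` has the order `N` of a sporadic group or of the Tits group and three properties of that
group: the prime `r` of the table is the order of a vanishing element, no element has as order a
proper multiple of `r`, and the order of the automorphism group divides `2 N`. -/
structure Spor (S : Type) [Group S] (N r : ℕ) : Prop where
  mem : (N, r) ∈ sporTab
  card : Nat.card S = N
  van : r ∈ Vo S
  iso : ∀ g : S, r ∣ orderOf g → orderOf g = r
  out : Nat.card (MulAut S) ∣ 2 * N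

/-- `S` is isomorphic to a group of Lie type. The groups that are not simple, and `L₂(4)`, `L₂(5)`,
`L₂(9)`, `L₃(2)`, `L₄(2)`, `S₄(3)`, which are isomorphic to `A₅`, `A₅`, `A₆`, `L₂(7)`, `A₈`,
`U₄(2)`, are left out. -/
def IsLie5 (S : Type) [Group S] : Prop :=
  (∃ n q : ℕ,
    2 ≤ n ∧ IsSL S n q ∧ (n, q) ∉ [(2, 2), (2, 3), (2, 4), (2, 5), (2, 9), (3, 2), (4, 2)] ∨
    3 ≤ n ∧ IsSU S n q ∧ (n, q) ≠ (3, 2) ∨ 2 ≤ n ∧ IsSp S n q ∧ (n, q) ∉ [(2, 2), (2, 3)] ∨
    7 ≤ n ∧ IsOm S n q) ∨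
  (∃ x q, IsChev S x q ∧ (x, q) ≠ (.G2, 2)) ∨ ∃ y m, 0 < m ∧ IsRee S y m

/-- `S` is on the list of the nonabelian finite simple groups. -/
def OnList5 (S : Type) [Group S] : Prop :=
  (∃ n : ℕ, 5 ≤ n ∧ Nonempty (S ≃* alternatingGroup (Fin n))) ∨ IsLie5 S ∨ ∃ N r, Spor S N r

end Pool.Agent.Lib.MP_7d41f7_al
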