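import Pool.Agent.Lib.MP_7d41f7_al.F.NDef

/-! The checker: the orders of the groups on the list. -/

set_option autoImplicit false

namespace Pool.Agent.Lib.MP_7d41f7_al

open Finset

namespace En

variable {α β : Type}

theorem fN_eq (x : ℕ) (k : ℕ → α) : fN x k = k x := by cases x <;> rfl

theorem fL_eq (l : List Blk) (k : List Blk → α) : fL l k = k l := by
  induction l generalizing k with
  | nil => rfl
  | cons b l ih =>
    change fN b.1 (fun x => fN b.2.1 fun y => fN b.2.2 fun z => fL l fun t =>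
      k ((x, y, z) :: t)) = _
    simp only [fN_eq, ih]

theorem aL_iff {l : List α} {p : α → Bool} : aL l p = true ↔ ∀ a ∈ l, p a = true := by
  induction l with
  | nil => simp [aL]
  | cons a l ih =>
    change (p a && aL l p) = true ↔ _
    simp [ih]

theorem eL_iff {l : List α} {p : α → Bool} : eL l p = true ↔ ∃ a ∈ l, p a = true := by
  induction l with
  | nil => simp [eL]
  | cons a l ih =>
    change (p a || eL l p) = true ↔ _
    simp [ih]

theorem mem_flt {l : List α} {p : α → Bool} {a : α} : a ∈ flt l p ↔ a ∈ l ∧ p a = true := by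
  induction l with
  | nil => simp [flt]
  | cons b l ih =>
    change a ∈ (bif p b then b :: flt l p else flt l p) ↔ _
    cases h : p b
    · simp only [cond_false, ih, List.mem_cons]
      exact ⟨fun k => ⟨.inr k.1, k.2⟩, fun k => ⟨k.1.resolve_left fun e => by
        simp [e, h] at k, k.2⟩⟩
    · simp only [cond_true, ih, List.mem_cons]
      exact ⟨fun k => k.elim (fun e => ⟨.inl e, e ▸ h⟩) fun e => ⟨.inr e.1, e.2⟩,
        fun k => k.1.imp_right fun e => ⟨e, k.2⟩⟩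

theorem aN_iff {n : ℕ} {p : ℕ → Bool} : aN n p = true ↔ ∀ i < n, p i = true := by
  induction n with
  | zero => simp [aN]
  | succ n ih =>
    change (p n && aN n p) = true ↔ _
    rw [Bool.and_eq_true, ih, Nat.forall_lt_succ_right, and_comm]

theorem pN_eq (n : ℕ) (f : ℕ → ℕ) : pN n f = ∏ i ∈ range n, f i := by
  induction n with
  | zero => rfl
  | succ n ih =>
    change f n * pN n f = _
    rw [ih, prod_range_succ, mul_comm]

theorem lp_ok {p q : ℕ → Bool} {F n : ℕ} (h : lp p q F n = true) {m : ℕ} (hm : n ≤ m)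
    (hp : ∀ k, k ≤ m → p k = true) : q m = true := by
  induction F generalizing n with
  | zero => cases h
  | succ F ih =>
    change (bif p n then q n && fN n.succ (lp p q F) else true) = true at h
    rw [hp n hm, cond_true, Bool.and_eq_true, fN_eq] at h
    rcases hm.eq_or_lt with rfl | k
    exacts [h.1, ih h.2 k]

theorem dv_iff {a b : ℕ} : dv a b = true ↔ a ∣ b := by
  rw [dv, Nat.beq_eq]
  exact Nat.dvd_iff_mod_eq_zero.symm

theorem cp_iff {a b : ℕ} : cp a b = true ↔ a.Coprime b := Nat.beq_eq ▸ Iff.rfl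

theorem z0_iff {a : ℕ} : z0 a = true ↔ a = 0 := Nat.beq_eq ▸ Iff.rfl

theorem pN_int (a b : ℕ) (f : ℕ → ℕ) (F : ℕ → ℤ) (h : ∀ i, (f i : ℤ) = F (a + i)) :
    (pN (b + 1 - a) f : ℤ) = ∏ i ∈ Icc a b, F i := by
  rw [pN_eq, ← Finset.Ico_add_one_right_eq_Icc, prod_Ico_eq_prod_range, Nat.cast_prod]
  exact prod_congr rfl fun i _ => h i

theorem alt_W (m : ℕ) : (pN m fun i => i + 3) * 2 = (m + 2).factorial := by
  induction m with
  | zero => rfl
  | succ m ih =>
    change (m + 3) * (pN m fun i => i + 3) * 2 = _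
    rw [mul_assoc, ih, Nat.factorial_succ (m + 2)]

end En

open En

variable {H : Type} [Group H] {d : Ds}

theorem IsSL.pp {m u : ℕ} (h : IsSL H m u) : IsPrimePow u := by
  obtain ⟨F, _, _, e, -⟩ := h
  exact e ▸ card_pp F

theorem IsSL.ord {m u : ℕ} (hm : 0 < m) (h : IsSL H m u) :
    Nat.card H * Nat.gcd m (u - 1) = ordSL m u := by
  obtain ⟨F, _, _, rfl, ⟨e⟩⟩ := h
  rw [Nat.card_congr e.toEquiv]
  exact card_PL hm

theorem IsD.ordB {m u : ℕ} (h : IsD H (.sym m u)) :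
    2 ≤ m ∧ IsPrimePow u ∧ OrdB m u (Nat.card H) :=
  Or.elim h (fun a => ⟨a.1, a.2.pp, a.2.ord a.1⟩) fun a => ⟨by omega, a.2.pp, a.2.ordB a.1⟩

theorem IsD.fac (h : IsD H d) : Nat.card H * d.c = d.u ^ d.N * d.W ∧ 0 < d.c := by
  have c : ∀ {u : ℕ}, IsPrimePow u → ∀ i, ((u ^ i - 1 : ℕ) : ℤ) = (u : ℤ) ^ i - 1 :=
    fun hu i => by rw [Nat.cast_pred (pow_pos hu.pos _), Nat.cast_pow]
  have c1 : ∀ {u : ℕ}, IsPrimePow u → ((u - 1 : ℕ) : ℤ) = (u : ℤ) - 1 :=
    fun hu => Nat.cast_pred hu.pos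
  have g : ∀ (a b : ℕ) {A B : ℤ}, (a : ℤ) = A → (b : ℤ) = B → Int.gcd A B = Nat.gcd a b :=
    fun a b _ _ e1 e2 => e1 ▸ e2 ▸ Int.gcd_natCast_natCast a b
  have z : ∀ a b : ℕ, 0 < a → 0 < Nat.gcd a b := fun a b => Nat.gcd_pos_of_pos_left b
  have pb : ∀ {u : ℕ}, IsPrimePow u → ∀ m, ((pN m fun i => u ^ (2 * i + 2) - 1 : ℕ) : ℤ) =
      ∏ i ∈ Icc 1 m, ((u : ℤ) ^ (2 * i) - 1) := fun hu m =>
    pN_int 1 m _ _ fun i => by rw [c hu, show 2 * (1 + i) = 2 * i + 2 by ring]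
  cases d with
  | alt m =>
    obtain ⟨a, ⟨e⟩⟩ := h
    refine ⟨?_, one_pos⟩
    have := alt_W (m - 2)
    rw [Nat.sub_add_cancel (by omega), ← card_alt (by omega), ← Nat.card_congr e.toEquiv] at this
    simp only [Ds.c, Ds.u, Ds.N, Ds.W]
    omega
  | lin m u =>
    refine ⟨(h.2.ord (by have := h.1; omega)).trans ?_, z _ _ (by have := h.1; omega)⟩
    rw [ordSL, ← Finset.Ico_add_one_right_eq_Icc, prod_Ico_eq_prod_range]
    simp only [Ds.u, Ds.N, Ds.W, pN_eq, add_comm 2]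
    rfl
  | uni m u =>
    refine ⟨Int.natCast_inj.1 ?_, z _ _ (by have := h.1; omega)⟩
    have k := h.2.ord h.1
    rw [OrdU, g m (u + 1) rfl (Nat.cast_succ u), ← pN_int 2 m (fun i => bif dv 2 i then
      u ^ (i + 2) - 1 else u ^ (i + 2) + 1)] at k
    · exact_mod_cast k
    · intro i
      cases e : dv 2 i
      · have : Odd (2 + i) := by
          have := mt dv_iff.2 (e ▸ Bool.false_ne_true)
          exact Nat.odd_iff.2 (by omega)
        rw [this.neg_one_pow, cond_false, add_comm 2]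
        simp
      · have : Even (2 + i) := by
          have := dv_iff.1 e
          exact Nat.even_iff.2 (by omega)
        rw [this.neg_one_pow, cond_true, add_comm 2, c h.2.pp]
  | sym m u =>
    refine ⟨Int.natCast_inj.1 ?_, z _ _ two_pos⟩
    obtain ⟨-, a, k⟩ := h.ordB
    rw [OrdB, g 2 (u - 1) (A := 2) rfl (c1 a), ← pb a] at k
    exact_mod_cast k
  | dp m u =>
    refine ⟨Int.natCast_inj.1 ?_, z _ _ four_pos⟩
    obtain ⟨-, a, k⟩ := h
    rw [OrdD, g 4 (u ^ m - 1) (A := 4) rfl (c a.pp m), ← pb a.pp, ← c a.pp, mul_assoc] at k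
    exact_mod_cast k
  | dm m u =>
    refine ⟨Int.natCast_inj.1 ?_, z _ _ four_pos⟩
    obtain ⟨-, a, k⟩ := h
    rw [OrdD, g 4 (u ^ m + 1) (A := 4) rfl (B := u ^ m - -1) (by simp), ← pb a.pp, sub_neg_eq_add,
      mul_assoc] at k
    exact_mod_cast k
  | chev x u =>
    have a := IsChev.pp h
    have k := IsChev.card h
    have g1 := fun n : ℕ => g n (u - 1) rfl (c1 a)
    have g2 := fun n : ℕ => g n (u + 1) rfl (Nat.cast_succ u)
    refine ⟨Int.natCast_inj.1 ?_, by cases x <;> first | exact one_pos | exact z _ _ (by decide)⟩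
    cases x <;> simp only [Ex.cen, Ex.ord] at k <;>
      simp only [Ds.c, Ds.u, Ds.N, Ds.W, Ex.N, pmL, rL, ← g1, ← g2, Nat.cast_mul, Nat.cast_pow,
        Nat.cast_add, c a, Nat.cast_one, Nat.cast_ofNat] <;> linear_combination k
  | ree y m =>
    have a := y.qpp m
    have k := IsRee.card h
    refine ⟨Int.natCast_inj.1 ?_, one_pos⟩
    cases y <;> simp only [Re.ord] at k <;>
      simp only [Ds.c, Ds.u, Ds.N, Ds.W, fN_eq, pmL, rL, Nat.cast_mul, Nat.cast_pow,
        Nat.cast_add, c a, c1 a, Nat.cast_one] <;> linear_combination k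
  | spor N r => exact ⟨by simp [Ds.c, Ds.u, Ds.N, Ds.W, Spor.card h], one_pos⟩

theorem IsD.card (h : IsD H d) : Nat.card H = d.ord := by
  rw [Ds.ord, ← h.fac.1, Nat.mul_div_cancel _ h.fac.2]

theorem OnList5.isD (h : OnList5 H) : ∃ d, IsD H d ∧ d.ex = false := by
  rcases h with ⟨n, h⟩ | (⟨n, q, ⟨a, h, e⟩ | ⟨a, h, e⟩ | ⟨a, h, e⟩ | ⟨a, h⟩⟩ | ⟨x, q, h, e⟩ |
    ⟨y, m, a, h⟩) | ⟨N, r, h⟩
  · exact ⟨.alt n, h, rfl⟩
  · refine ⟨.lin n q, ⟨a, h⟩, Bool.eq_false_iff.2 fun k => e ?_⟩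
    have := h.pp.two_le
    simp only [Ds.ex, Bool.or_eq_true, Bool.and_eq_true, Nat.beq_eq, Nat.ble_eq] at k
    simp only [List.mem_cons, Prod.mk.injEq, List.not_mem_nil]
    omega
  · refine ⟨.uni n q, ⟨a, h⟩, Bool.eq_false_iff.2 fun k => e ?_⟩
    simpa only [Ds.ex, Bool.and_eq_true, Nat.beq_eq, Prod.mk.injEq] using k
  · refine ⟨.sym n q, .inl ⟨a, h⟩, Bool.eq_false_iff.2 fun k => e ?_⟩
    have := h.pp.two_le
    simp only [Ds.ex, Bool.and_eq_true, Nat.beq_eq, Nat.ble_eq] at k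
    simp only [List.mem_cons, Prod.mk.injEq, List.not_mem_nil]
    omega
  · obtain ⟨m, rfl | rfl⟩ := Nat.even_or_odd' n
    · rcases h.ordD (by omega) with k | k
      exacts [⟨.dp m q, ⟨by omega, h, k⟩, rfl⟩, ⟨.dm m q, ⟨by omega, h, k⟩, rfl⟩]
    · refine ⟨.sym m q, .inr ⟨by omega, h⟩, Bool.eq_false_iff.2 fun k => ?_⟩
      simp only [Ds.ex, Bool.and_eq_true, Nat.beq_eq] at k
      omega
  · refine ⟨.chev x q, h, Bool.eq_false_iff.2 fun k => e ?_⟩
    cases x <;> simp only [Ds.ex, Nat.beq_eq, Bool.false_eq_true] at k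
    rw [k]
  · exact ⟨.ree y m, h, Bool.eq_false_iff.2 fun k => a.ne' (z0_iff.1 k)⟩
  · exact ⟨.spor N r, h, rfl⟩

end Pool.Agent.Lib.MP_7d41f7_al
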