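import Pool.Agent.Lib.MP_7d41f7_al.F.OK

/-! The tests for the groups of rank at most two. -/

set_option autoImplicit false

namespace Pool.Agent.Lib.MP_7d41f7_al

theorem okL : oN 6 1018 (oI 1 3 1 (.lin 3)) = true := by decide +kernel

theorem okL3 : oI 1 3 1 (.lin 3) 3 = true := by decide +kernel

theorem okU : oN 3 1021 (oI (-1) 3 1 (.uni 3)) = true := by decide +kernel

theorem okS : oN 4 1020 (oI 0 4 2 (.sym 2)) = true := by decide +kernel

theorem okL4 : chkS 20160 [(5, 5)] [] 0 2 [.lin 3 4] = true := by decide +kernel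

theorem okL5 : chkS 372000 [(31, 31), (3, 24)] [] 0 2 [.lin 3 5] = true := by decide +kernel

theorem ok7 : chkS 168 [(7, 7), (3, 3)] [] 0 2 [.lin 2 7] = true := by decide +kernel

theorem ok11 : chkS 660 [(5, 5)] [] 0 2 [.lin 2 11] = true := by decide +kernel

theorem ok13 : chkS 1092 [(7, 7)] [] 0 2 [.lin 2 13] = true := by decide +kernel

end Pool.Agent.Lib.MP_7d41f7_al
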