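import Pool.Agent.Lib.MP_7d41f7_al.D.LTwo

/-! The linear groups of dimension two over all fields of even order at least eight. -/

set_option autoImplicit false

namespace Pool.Agent.Lib.MP_7d41f7_al

open Module Matrix

variable {F G : Type} [Field F] [Finite F] [Group G] [Finite G] {r q v k h : ℕ}

theorem l2_kill' (hh : h = (q + 1 + 1) * ((q + 1) * q)) (h2 : 2 ∣ q + 1) (hq : 7 ≤ q) {g : ℕ}
    (hv : v.Prime) (h1 : (v ^ g) ^ k ∣ h) (h3 : h ^ 3 ≤ ((v ^ g) ^ k) ^ 8) : False := by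
  rw [← pow_mul v] at h1 h3
  have a : v ^ (g * k) ≤ q + 1 + 1 := (l2_le hv (l2_cop h2) (hh ▸ h1)).elim
    (Nat.le_of_dvd (by omega)) fun a => (l2_le' hv (by omega) a).trans (by omega)
  have b := h3.trans (Nat.pow_le_pow_left a 8)
  rw [hh, mul_pow, pow_add _ 3 5] at b
  have c := Nat.le_of_mul_le_mul_left b (by positivity)
  obtain ⟨y, rfl⟩ := Nat.exists_eq_add_of_le' hq
  ring_nf at c
  omega

theorem l2_alt' {m f : ℕ} (hm : m.factorial = 2 * ((q + 1 + 1) * ((q + 1) * q)))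
    (hf : q + 1 = 2 ^ f) (h : 3 ≤ f) : False := by
  refine (le_or_gt 30 f).elim (l2_alt hm hf) fun a => ?_
  have b : ∀ f < 30, 3 ≤ f → 2 * ((2 ^ f + 1) * (2 ^ f * (2 ^ f - 1))) < Nat.factorial 30 ∧
      ∀ m < 30, Nat.factorial m ≠ 2 * ((2 ^ f + 1) * (2 ^ f * (2 ^ f - 1))) := by decide +kernel
  obtain ⟨b1, b2⟩ := b f a h
  rw [← hf, Nat.add_sub_cancel, ← hm] at b1 b2
  exact b2 m (lt_of_not_ge fun c => b1.not_ge (Nat.factorial_le c)) rfl

theorem l2_spor {f : ℕ} (hm : (q + 1 + 1) * ((q + 1) * q) ∈ sporOrd) (hf : q + 1 = 2 ^ f) :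
    False := by
  have b : ∀ x ∈ sporOrd, ¬ 2 ^ 47 ∣ x ∧
      ∀ f < 47, x ≠ (2 ^ f + 1) * (2 ^ f * (2 ^ f - 1)) := by decide +kernel
  obtain ⟨b1, b2⟩ := b _ hm
  refine b2 f (lt_of_not_ge fun c => b1 ((((pow_dvd_pow 2 c).trans hf.symm.dvd).mul_right
    _).mul_left _)) ?_
  rw [← hf, Nat.add_sub_cancel]

theorem l2_even (h2 : Even (Nat.card F)) (q1 : 8 ≤ Nat.card F)
    (hc : Nat.card G = Nat.card (PL 2 F)) (hV : Vo G = Vo (PL 2 F)) :
    Nonempty (G ≃* PL 2 F) ∨ Off3 G := by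
  obtain ⟨q, hq⟩ : ∃ q, Nat.card F = q + 1 := ⟨_, (Nat.succ_pred_eq_of_pos (by omega)).symm⟩
  replace h2 := hq ▸ h2.two_dvd
  have q2 : 7 ≤ q := by omega
  obtain ⟨x, I, o⟩ := l2_isol hq h2 (by omega) hc hV
  have := nontrivial_of_ne x 1 fun e => by simp [e] at o
  obtain ⟨H, a1, a2, a3, a4, -, a5, a6⟩ := I.main (e := 2) (p := 2) (fun r hr d => by
    rw [o] at d
    refine ⟨hr.two_le.lt_of_ne fun e => by subst e; omega, .symm ((Nat.modEq_iff_dvd' (by nlinarith)).2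
      (d.trans ⟨q - 1, ?_⟩))⟩
    obtain ⟨q, rfl⟩ : ∃ y, q = y + 1 := ⟨q - 1, by omega⟩
    exact Nat.sub_eq_of_eq_add (by rw [Nat.add_sub_cancel]; ring)) (by nlinarith)
    fun u k hu hk d1 d2 => by
      have := Nat.one_lt_pow hk.ne' hu.one_lt
      have := (o ▸ d2).eq_of_lt_of_lt (Nat.lt_succ_of_le (l2_le' hu (by omega) d1)) (by omega)
      omega
  obtain rfl : H = ⊤ :=
    Subgroup.index_eq_one.1 (((Nat.dvd_prime Nat.prime_two).1 a5).resolve_right a6)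
  refine or_iff_not_imp_right.2 fun n => ?_
  have hh : Nat.card (⊤ : Subgroup G) = _ := Subgroup.card_top.trans (o ▸ I.card)
  have kill := fun {v g k} => l2_kill' (v := v) (g := g) (k := k) hh h2 q2
  have om : ∀ {m u : ℕ}, IsOm (⊤ : Subgroup G) m u → ∃ v g : ℕ, v.Prime ∧ 0 < g ∧ v ^ g = u :=
    fun ⟨F, _, _, _, e, _⟩ => e ▸ card_vg F
  obtain ⟨f, f3, hf⟩ : ∃ f, 3 ≤ f ∧ q + 1 = 2 ^ f := by
    obtain ⟨v, f, hv, -, e⟩ := card_vg F
    obtain rfl := (Nat.prime_dvd_prime_iff_eq Nat.prime_two hv).1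
      (Nat.prime_two.dvd_of_dvd_pow (e ▸ hq ▸ h2))
    exact ⟨f, (Nat.pow_le_pow_iff_right one_lt_two).1 (e ▸ q1), hq ▸ e.symm⟩
  rcases not_not.1 (mt (off_top a1 a2 a3 a4) n) with ⟨m, ⟨φ⟩⟩ | ⟨m, u, K, _, _, rfl, ⟨φ⟩⟩ |
    ⟨m, u, hm, a, c⟩ | ⟨m, u, a, c⟩ | ⟨m, u, hm, a, c⟩ | ⟨u, hu, a⟩ | a
  · have := alt_five a2 a3 φ
    have : Nontrivial (Fin m) := Fin.nontrivial_iff_two_le.2 (by omega)
    refine (l2_alt' (m := m) ?_ hf f3).elim
    rw [← hh, Nat.card_congr φ.toEquiv, two_mul_nat_card_alternatingGroup, Nat.card_perm,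
      Nat.card_fin]
  · have hm : 2 ≤ m := by
      by_contra hm
      have := pl_small (F := K) (not_le.1 hm)
      have := φ.injective.subsingleton
      exact false_of_nontrivial_of_subsingleton (⊤ : Subgroup G)
    obtain ⟨v, g, hv, hg, e⟩ := card_vg K
    have c := card_PL (F := K) (n := m) (by omega)
    rw [← Nat.card_congr φ.toEquiv, ← e] at c
    have u2 := Nat.one_lt_pow hg.ne' hv.one_lt
    have p := (lt_A hv hg hm c).pp
    rcases hm.eq_or_lt with rfl | hm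
    swap
    · exact (kill hv p (sz_A u2 hm c)).elim
    refine (psl_iso (e.symm.trans (.trans ?_ hq.symm))).map fun a => Subgroup.topEquiv.symm.trans
      (φ.trans a)
    have a : v ^ g ≤ q + 1 + 1 := (l2_le hv (l2_cop h2) (k := g) (by rw [← hh]; simpa using p)).elim
      (Nat.le_of_dvd (by omega)) fun a => (l2_le' hv (by omega) a).trans (by omega)
    have d := Nat.le_mul_of_pos_right (Nat.card (⊤ : Subgroup G))
      (Nat.gcd_pos_of_pos_left (v ^ g - 1) two_pos)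
    rw [c, hh, ordSL, Finset.Icc_self, Finset.prod_singleton] at d
    rw [hh, ordSL, Finset.Icc_self, Finset.prod_singleton] at c
    generalize v ^ g = u at *
    obtain rfl | rfl | a : u = q + 1 + 1 ∨ u = q + 1 ∨ u ≤ q := by omega
    · rw [Nat.add_sub_cancel, Nat.gcd_eq_left h2, show (q + 1 + 1) ^ 2 - 1 = (q + 3) * (q + 1) from
        Nat.sub_eq_of_eq_add (by ring), show 2 * (2 - 1) / 2 = 1 from rfl, pow_one, mul_assoc,
        mul_assoc, mul_comm (q + 3)] at c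
      have := Nat.eq_of_mul_eq_mul_left q.succ_pos (Nat.eq_of_mul_eq_mul_left (by omega) c)
      omega
    · rfl
    · have := d.trans (Nat.mul_le_mul (Nat.pow_le_pow_left a 1)
        ((Nat.sub_le _ 1).trans (Nat.pow_le_pow_left a 2)))
      ring_nf at this
      omega
  · obtain ⟨v, g, hv, hg, rfl⟩ : ∃ v g : ℕ, v.Prime ∧ 0 < g ∧ v ^ g = u := by
      obtain ⟨F, _, _, _, e, -⟩ := a
      obtain ⟨v, g, hv, hg, e'⟩ := card_vg F
      exact (isPrimePow_nat_iff u).1 ((isPrimePow_pow_iff two_ne_zero).1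
        (e ▸ e' ▸ hv.prime.isPrimePow.pow hg.ne'))
    exact (kill hv (lt_2A hv hg hm c).pp (sz_U (Nat.one_lt_pow hg.ne' hv.one_lt) hm c)).elim
  · obtain ⟨v, g, hv, hg, rfl⟩ : ∃ v g : ℕ, v.Prime ∧ 0 < g ∧ v ^ g = u :=
      a.elim (fun ⟨_, F, _, _, e, _⟩ => e ▸ card_vg F) fun a => om a.2
    have hm : 2 ≤ m := by omega
    exact (kill hv (lt_B hv hg hm c).pp (sz_B (Nat.one_lt_pow hg.ne' hv.one_lt) hm c)).elim
  · obtain ⟨v, g, hv, hg, rfl⟩ := om a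
    have u2 := Nat.one_lt_pow hg.ne' hv.one_lt
    exact (kill hv (c.elim (fun a => (lt_D hv hg hm a).pp) fun a =>
      (lt_2D hv hg hm (by simpa only [OrdD, sub_neg_eq_add] using a)).pp)
      (c.elim (sz_D (.inl rfl) u2 hm) (sz_D (.inr rfl) u2 hm))).elim
  · obtain ⟨v, g, hv, hg, rfl⟩ := (isPrimePow_nat_iff u).1 hu
    obtain ⟨N, b1, b2, -⟩ := sz_exc (Nat.one_lt_pow hg.ne' hv.one_lt) a.exc2
    exact (kill hv b1 b2).elim
  · exact (l2_spor (hh ▸ a) hf).elim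

theorem all_l2' (q1 : Even (Nat.card F) ∧ 8 ≤ Nat.card F ∨ 17 ≤ Nat.card F)
    (hc : Nat.card G = Nat.card (PL 2 F)) (hV : Vo G = Vo (PL 2 F)) :
    Nonempty (G ≃* PL 2 F) ∨ Off3 G :=
  (Nat.even_or_odd (Nat.card F)).elim (fun h => l2_even h (by omega) hc hV) fun h =>
    .inl (main h (q1.resolve_left fun a => Nat.not_even_iff_odd.2 h a.1) hc hV)

end Pool.Agent.Lib.MP_7d41f7_al
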