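import Pool.Agent.Lib.MP_7d41f7_al.F.OS
import Pool.Agent.Lib.MP_7d41f7_al.L.AH

/-! The socle of a group with the data of a group of rank two over a field with at least `2 ^ 10`
elements. -/

set_option autoImplicit false

namespace Pool.Agent.Lib.MP_7d41f7_al

open Finset

variable {h m v g p f : ℕ} {b d ε : ℤ}

theorem OE.two (K : OE h b (p ^ f)) (hp : p.Prime) (hv : v.Prime) (hg : 0 < g) (d2 : d ≤ 2)
    (hh : h * d = (v ^ g : ℕ) ^ 1 * (((v ^ g : ℕ) : ℤ) ^ 2 - 1)) (h1 : v ^ g ∣ h)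
    (h2 : h ≤ (v ^ g) ^ 3) : False := by
  obtain rfl := K.same (a := 1) hp hv h1 (by rwa [pow_one]) one_pos le_rfl
  have u2 := Nat.one_lt_pow hg.ne' hv.one_lt
  refine K.low (M := 3) hp hh (not_dvd_of hp hg (y := (v ^ g : ℕ)) (.inr rfl) (by ring)) (by omega)
    ?_ 1 (by unfold tee; split_ifs <;> omega) (by norm_num)
  generalize v ^ g = u at *
  have := mul_le_mul_of_nonneg_left d2 (Int.natCast_nonneg h)
  have := Nat.mul_le_mul_left u (Nat.mul_le_mul u2 u2)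
  zify at *
  linarith

theorem OE.three (K : OE h b (p ^ f)) (hp : p.Prime) (hf : 0 < f) (hv : v.Prime) (hg : 0 < g)
    (hε : ε = 1 ∨ ε = -1) (d0 : 0 < d) (d3 : d ≤ 3) (hh : h * d = (v ^ g : ℕ) ^ 3 *
      ((((v ^ g : ℕ) : ℤ) ^ 2 - 1) * ((v ^ g : ℕ) ^ 3 - ε))) (h1 : (v ^ g) ^ 3 ∣ h)
    (h2 : h ≤ (v ^ g) ^ 8) : b = ε ∧ v ^ g = p ^ f := by
  have u2 := Nat.one_lt_pow hg.ne' hv.one_lt
  have h3 := dim_pow (N := 3) (a := 3) (c := 8) u2 h2 le_rfl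
  rw [← pow_mul v g] at h1 h3
  by_cases b0 : b = 0
  · obtain rfl := K.same hp hv h1 h3 three_pos (by omega)
    refine (K.low (M := 8) hp hh (not_dvd_of hp hg hε (y := (v ^ g : ℕ) ^ 4 - (v ^ g : ℕ) ^ 2 -
      ε * (v ^ g : ℕ)) (by ring)) (by omega) ?_ 2 (by simp [tee, b0]) (by norm_num)).elim
    generalize v ^ g = u at *
    have := mul_le_mul_of_nonneg_left d3 (Int.natCast_nonneg h)
    have e : ∀ i, 2 * u ^ i ≤ u ^ (i + 1) := fun i => pow_succ' u i ▸ Nat.mul_le_mul_right _ u2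
    have : 2 * u ^ 3 ≤ u ^ 4 := e 3
    have : 2 * u ^ 4 ≤ u ^ 5 := e 4
    have : 2 * u ^ 5 ≤ u ^ 6 := e 5
    have : 2 * u ^ 6 ≤ u ^ 7 := e 6
    have : 2 * u ^ 7 ≤ u ^ 8 := e 7
    have := Nat.zero_le (u ^ 3)
    zify at *
    rcases hε with rfl | rfl <;> linarith
  obtain ⟨rfl, e⟩ := K.tight hp hf hv h1 h3 (by rw [tee_of b0]) (by norm_num) three_pos
  obtain rfl : g = f := by rw [tee_of b0] at e; omega
  obtain ⟨c, c0, c4, e⟩ := K.eq
  have := K.big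
  rw [if_neg b0, tee_of b0] at e
  generalize v ^ g = q at *
  have k : c * ((q : ℤ) ^ 3 - ε) = d * (q ^ 3 - b) := mul_left_cancel₀
    (show (q : ℤ) ^ 3 * (q ^ 2 - 1) ≠ 0 from mul_ne_zero (by positivity) (by nlinarith))
    (by linear_combination d * e - c * hh)
  have : (q : ℤ) ≤ q ^ 3 := le_self_pow₀ (by omega) three_ne_zero
  refine ⟨?_, rfl⟩
  rcases K.hb with rfl | rfl | rfl <;> rcases hε with rfl | rfl <;>
    interval_cases c <;> interval_cases d <;> omega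

theorem OE.four (K : OE h b (p ^ f)) (hp : p.Prime) (hf : 0 < f) (hv : v.Prime) (hg : 0 < g)
    (d0 : 0 < d) (d4 : d ≤ 4) (hh : h * d = (v ^ g : ℕ) ^ 6 * ((((v ^ g : ℕ) : ℤ) ^ 2 - 1) *
      ((v ^ g : ℕ) ^ 3 - ε) * ((v ^ g : ℕ) ^ 4 - 1))) (h1 : (v ^ g) ^ 6 ∣ h)
    (h2 : h ≤ (v ^ g) ^ 15) : False := by
  have h3 := dim_pow (N := 6) (a := 2) (c := 5) (Nat.one_lt_pow hg.ne' hv.one_lt) h2 le_rfl
  rw [← pow_mul v g] at h1 h3
  by_cases b0 : b = 0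
  swap
  · exact K.kill hp hf hv h1 h3 1 (by rw [tee_of b0]) (by norm_num)
  subst b0
  obtain ⟨rfl, e⟩ := K.tight hp hf hv h1 h3 rfl (by norm_num) two_pos
  obtain ⟨k, rfl, rfl⟩ : ∃ k, g = k * 2 ∧ f = k * 3 := ⟨g / 2, by simp [tee] at e; omega⟩
  obtain ⟨c, c0, c4, e⟩ := K.eq
  have q0 := K.big
  simp only [pow_mul, tee, if_true, Nat.cast_pow (v ^ k)] at *
  generalize v ^ k = w at *
  have w4 : 4 ≤ w := by
    by_contra a
    have := Nat.pow_le_pow_left (not_le.1 a).le 3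
    omega
  have k : c * (((w : ℤ) ^ 4 - 1) * (w ^ 6 - ε) * (w ^ 8 - 1)) = d * ((w ^ 6 - 1) * (w ^ 12 - 1)) :=
    mul_left_cancel₀ (show (w : ℤ) ^ 12 ≠ 0 by positivity) (by linear_combination d * e - c * hh)
  have := Int.le_of_dvd (a := w ^ 4 + 1) (b := d * (2 * (w ^ 2 + 1))) (by positivity)
    ⟨c * ((w ^ 4 - 1) * (w ^ 6 - ε) * (w ^ 4 - 1)) - d * (w ^ 14 - w ^ 10 - w ^ 8 + w ^ 6 + w ^ 4 -
      2 * w ^ 2 - 1), by linear_combination -k⟩
  have w2 : (16 : ℤ) ≤ w ^ 2 := by nlinarith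
  nlinarith

theorem OE.lin (K : OE h b (p ^ f)) (hp : p.Prime) (hf : 0 < f) (hv : v.Prime) (hg : 0 < g)
    (hm : 2 ≤ m) (hh : h * Nat.gcd m (v ^ g - 1) = ordSL m (v ^ g)) :
    b = 1 ∧ m = 3 ∧ v ^ g = p ^ f := by
  have u2 := Nat.one_lt_pow hg.ne' hv.one_lt
  have h1 := (lt_A hv hg hm hh).pp
  obtain ⟨n, rfl⟩ : ∃ n, m = n + 1 := ⟨m - 1, by omega⟩
  have h2 := dim_A u2 hh
  have h3 := congrArg (Nat.cast : ℕ → ℤ) hh
  rw [Nat.cast_mul, ordSL_cast u2] at h3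
  have d0 := Int.natCast_pos.2 (Nat.gcd_pos_of_pos_left (v ^ g - 1) n.succ_pos)
  have d1 := Int.ofNat_le.2 (Nat.gcd_le_left (v ^ g - 1) n.succ_pos)
  obtain rfl | rfl | rfl | h4 : n = 1 ∨ n = 2 ∨ n = 3 ∨ 4 ≤ n := by omega
  · exact (K.two hp hv hg d1 (by simpa using h3) (by simpa using h1) h2).elim
  · have := K.three hp hf hv hg (.inl rfl) d0 d1
      (h3.trans (by simp [prod_Icc_succ_top])) h1 h2
    exact ⟨this.1, rfl, this.2⟩
  · exact (K.four (ε := 1) hp hf hv hg d0 d1 (h3.trans (by simp [prod_Icc_succ_top])) h1 h2).elim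
  have := Nat.two_mul_div_two_of_even (mul_comm n _ ▸ Nat.even_mul_succ_self n)
  exact (K.kill (a := 7) (c := 17) hp hf hv (pow_mul v g _ ▸ h1) (pow_mul v g _ ▸ dim_pow u2 h2
    (by rw [Nat.add_sub_cancel]; nlinarith)) 2 (by unfold tee; split_ifs <;> omega) (by norm_num)).elim

theorem OE.uni (K : OE h b (p ^ f)) (hp : p.Prime) (hf : 0 < f) (hv : v.Prime) (hg : 0 < g)
    (hm : 3 ≤ m) (hh : OrdU m (v ^ g : ℕ) h) : b = -1 ∧ m = 3 ∧ v ^ g = p ^ f := by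
  have u2 := Nat.one_lt_pow hg.ne' hv.one_lt
  have h1 := (lt_2A hv hg hm hh).pp
  obtain ⟨n, rfl⟩ : ∃ n, m = n + 1 := ⟨m - 1, by omega⟩
  have h2 := dim_U u2 hh
  have d0 : (0 : ℤ) < Int.gcd (n + 1 : ℕ) (((v ^ g : ℕ) : ℤ) + 1) :=
    Int.natCast_pos.2 (Int.gcd_pos_of_ne_zero_left _ (by omega))
  have d1 := Int.le_of_dvd (by omega) (Int.gcd_dvd_left (n + 1 : ℕ) (((v ^ g : ℕ) : ℤ) + 1))
  obtain rfl | rfl | h4 : n = 2 ∨ n = 3 ∨ 4 ≤ n := by omega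
  · have := K.three hp hf hv hg (.inr rfl) d0 d1
      (hh.trans (by norm_num [prod_Icc_succ_top])) h1 h2
    exact ⟨this.1, rfl, this.2⟩
  · exact (K.four (ε := -1) hp hf hv hg d0 d1 (hh.trans (by norm_num [prod_Icc_succ_top])) h1
      h2).elim
  have := Nat.two_mul_div_two_of_even (mul_comm n _ ▸ Nat.even_mul_succ_self n)
  exact (K.kill (a := 7) (c := 17) hp hf hv (pow_mul v g _ ▸ h1) (pow_mul v g _ ▸ dim_pow u2 h2
    (by rw [Nat.add_sub_cancel]; nlinarith)) 2 (by unfold tee; split_ifs <;> omega) (by norm_num)).elim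

theorem OE.sym (K : OE h b (p ^ f)) (hp : p.Prime) (hf : 0 < f) (hv : v.Prime) (hg : 0 < g)
    (hm : 2 ≤ m) (hh : OrdB m (v ^ g : ℕ) h) : b = 0 ∧ m = 2 ∧ v ^ g = p ^ f := by
  have u2 := Nat.one_lt_pow hg.ne' hv.one_lt
  have h1 := (lt_B hv hg hm hh).pp
  have h2 := dim_B u2 hh
  rw [← pow_mul] at h1
  rcases hm.eq_or_lt with rfl | h4
  · have h3 := dim_pow (N := 2 * 2) (a := 2) (c := 5) u2 h2 le_rfl
    rw [← pow_mul v g] at h3
    by_cases b0 : b = 0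
    · obtain ⟨rfl, e⟩ := K.tight hp hf hv h1 h3 (by simp [tee, b0]) (by norm_num) two_pos
      obtain rfl : g = f := by simp [tee, b0] at e; omega
      exact ⟨b0, rfl, rfl⟩
    · exact (K.kill hp hf hv h1 h3 1 (by rw [tee_of b0]) (by norm_num)).elim
  exact (K.kill (a := 7) (c := 17) hp hf hv h1 (pow_mul v g _ ▸ dim_pow u2 h2 (by nlinarith))
    2 (by unfold tee; split_ifs <;> omega) (by norm_num)).elim

theorem OE.not_D (K : OE h b (p ^ f)) (hp : p.Prime) (hf : 0 < f) (hv : v.Prime) (hg : 0 < g)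
    (hm : 4 ≤ m) (hh : OrdD 1 m (v ^ g : ℕ) h ∨ OrdD (-1) m (v ^ g : ℕ) h) : False := by
  have u2 := Nat.one_lt_pow hg.ne' hv.one_lt
  have h1 := hh.elim (fun a => (lt_D hv hg hm a).pp) fun a =>
    (lt_2D hv hg hm (by simpa only [OrdD, sub_neg_eq_add] using a)).pp
  obtain ⟨n, rfl⟩ : ∃ n, m = n + 1 := ⟨m - 1, by omega⟩
  have : 3 ≤ n := by omega
  exact K.kill (a := 7) (c := 17) hp hf hv (pow_mul v g _ ▸ h1) (pow_mul v g _ ▸ dim_pow u2
    (hh.elim (dim_D (.inl rfl) u2) (dim_D (.inr rfl) u2)) (by rw [Nat.add_sub_cancel]; nlinarith))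
    2 (by unfold tee; split_ifs <;> omega) (by norm_num)

theorem OE.exc (K : OE h b (p ^ f)) (hp : p.Prime) (hf : 0 < f) (hv : v.Prime) (hg : 0 < g) :
    ¬ ExcOrd2 (v ^ g : ℕ) h := fun hh => by
  have u2 := Nat.one_lt_pow hg.ne' hv.one_lt
  rcases dim_exc u2 hh with ⟨N, h1, h2⟩ | e
  · exact K.kill hp hf hv (pow_mul v g _ ▸ h1) (pow_mul v g _ ▸ h2) 1
      (by unfold tee; split_ifs <;> omega) (by norm_num)
  have d : (h : ℤ) * 1 = (v ^ g : ℕ) ^ 2 * (((v ^ g : ℕ) ^ 2 + 1) * ((v ^ g : ℕ) ^ 1 - 1)) := by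
    rw [e]
    ring
  have h1 := sz_dvd (one_mul 1) (one_dvd _) d
  have h3 := dim_pow (N := 2) (a := 2) (c := 5) u2
    (dim_of one_pos d (fat_pair (fat_one u2) one_le_two)) le_rfl
  rw [← pow_mul v g] at h1 h3
  by_cases b0 : b = 0
  swap
  · exact K.kill hp hf hv h1 h3 1 (by rw [tee_of b0]) (by norm_num)
  subst b0
  obtain ⟨rfl, e'⟩ := K.tight hp hf hv h1 h3 rfl (by norm_num) two_pos
  obtain rfl : g = f * 2 := by simp [tee] at e'; omega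
  obtain ⟨c, c0, -, k⟩ := K.eq
  have q0 := K.big
  simp only [pow_mul, tee, if_true, Nat.cast_pow (v ^ f)] at *
  generalize v ^ f = w at *
  have k' : c * ((w : ℤ) ^ 4 + 1) = w ^ 4 - 1 := mul_left_cancel₀
    (show (w : ℤ) ^ 4 * (w ^ 2 - 1) ≠ 0 from mul_ne_zero (by positivity) (by nlinarith))
    (by linear_combination k - c * e)
  nlinarith [pow_nonneg (Int.natCast_nonneg w) 4]

theorem OE.not_spor (K : OE h b (p ^ f)) (hp : p.Prime) : h ∉ sporOrd := fun e => by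
  have h2 : ∀ p ∈ not_big_spor_P, ∀ f < 23, 2 ^ 10 ≤ p ^ f → p ^ f < 2 ^ 23 → ∀ x ∈ sporOrd,
      (p ^ f) ^ 3 ∣ x → 2 * (p ^ f) ^ 8 < x := by decide +kernel
  have h3 : ∀ p ∈ not_big_spor_P, ∀ f < 23, 2 ^ 10 ≤ p ^ f → p ^ f < 2 ^ 23 → ∀ x ∈ sporOrd,
      (p ^ f) ^ 4 ∣ 2 * x → 2 * (p ^ f) ^ 10 < x := by decide +kernel
  have q0 := K.big
  have h4 := K.bd.2
  obtain ⟨a, h5, h6⟩ := K.card
  have d1 : (p ^ f) ^ tee b ∣ h * a := by
    have := Dvd.intro _ (tw_cast K.hb (q := p ^ f) (by omega)).symm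
    exact h6 ▸ (by exact_mod_cast this : (p ^ f) ^ tee b ∣ tw b (p ^ f)).mul_left _
  have d2 : (p ^ f) ^ tee b ∣ 2 * h :=
    d1.trans (by rcases h5 with rfl | ⟨rfl, -⟩ <;> simp [mul_comm])
  have e3 : 3 ≤ tee b := by unfold tee; split_ifs <;> omega
  obtain ⟨-, h0, h1⟩ := not_big_spor_aux1 h e
  have f0 : f ≠ 0 := by
    rintro rfl
    exact absurd q0 (by simp)
  have h7 := not_big_spor_aux2 p ((hp.dvd_mul.1 ((dvd_pow (dvd_pow_self p f0) (by omega)).trans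
    d2)).elim (fun d => (Nat.le_of_dvd two_pos d).trans_lt (by decide)) fun d =>
      (not_big_spor_aux3 e hp d).2) hp
  have h9 : p ^ f < 2 ^ 23 := lt_of_pow_lt_pow_left₀ 8 (Nat.zero_le _)
    (((Nat.pow_le_pow_right (by omega) (by omega)).trans K.bd.1).trans_lt (by omega))
  have h8 : f < 23 := (Nat.pow_lt_pow_iff_right one_lt_two).1
    ((Nat.pow_le_pow_left hp.two_le f).trans_lt h9)
  by_cases b0 : b = 0
  · simp only [tee, if_pos b0] at d2 h4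
    exact (h3 p h7 f h8 q0 h9 h e d2).not_ge h4
  · obtain rfl : a = 1 := by omega
    rw [tee_of b0] at d1 h4
    exact (h2 p h7 f h8 q0 h9 h e (mul_one h ▸ d1)).not_ge h4

theorem OE.not_alt {q : ℕ} (K : OE h b q) (hh : 2 * h = m.factorial) (hm : tm b q ≤ m) : False := by
  have q0 := K.big
  have h1 := (tm_bd K.hb (q := q) (by omega)).1
  have h2 := Nat.pow_le_pow_left q0 2
  obtain ⟨y, rfl⟩ : ∃ y, m = y + 6 := ⟨m - 6, by omega⟩
  have h3 := (Nat.le_mul_of_pos_left _ y.factorial_pos).trans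
    (Nat.factorial_mul_pow_sub_le_factorial (Nat.le_add_right y 6))
  have h4 := K.bd.2.trans (Nat.mul_le_mul_left 2 ((Nat.pow_le_pow_right (by omega)
    (show _ ≤ 2 * 5 by unfold tee; split_ifs <;> omega)).trans ((pow_mul q 2 5).trans_le
      (Nat.pow_le_pow_left (show _ ≤ 8 * y by omega) 5))))
  rw [Nat.add_sub_cancel_left, ← hh, pow_succ'] at h3
  rw [mul_pow] at h4
  have := Nat.le_of_mul_le_mul_right (c := y ^ 5) (a := y) (b := 2 ^ 17) (by omega)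
    (pow_pos (by omega) 5)
  omega

theorem omain2 {G : Type} [Group G] [Finite G] (hp : p.Prime) (hf : 0 < f) (hb : TB b)
    (hq : 2 ^ 10 ≤ p ^ f) (h : OData G b (p ^ f)) : ∃ H : Subgroup G, H.Normal ∧
      IsSimpleGroup H ∧ ¬ IsMulCommutative H ∧ Subgroup.centralizer (H : Set G) = ⊥ ∧
      (OnList3 H → OHit H b (p ^ f)) := by
  obtain ⟨x, ox⟩ := h.tor
  have q0 := pow_pos hp.pos f
  have I : Isol x (tw b (p ^ f)) := ⟨ox ▸ h.card, ox ▸ tm_cop hb q0, fun r u hr hu d1 d2 =>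
    h.adj r u hr hu (ox ▸ d1) fun d => Nat.not_coprime_of_dvd_of_dvd hu.one_lt d d2 (tm_cop hb q0)⟩
  have t1 := (tm_bd hb (q := p ^ f) (by omega)).1
  have t2 := Nat.pow_le_pow_left hq 2
  have x1 : x ≠ 1 := fun e => by
    rw [e, orderOf_one] at ox
    omega
  have := nontrivial_of_ne _ _ x1
  obtain ⟨H, h0, h1, h2, h3, xH, h4, h5⟩ := I.main (e := tee b) (p := p)
    (fun r hr d => tm_he hb q0 hr (ox ▸ d)) (fun e => by
      have c : 3 ≤ tee b ∧ tee b ≤ 4 := by unfold tee; split_ifs <;> omega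
      have a := Int.le_of_dvd (by omega) ((dvd_pow_self _ (by omega)).trans
        (Dvd.intro _ (tw_cast hb q0).symm))
      omega) fun u k hu hk d1 d2 => by
    obtain ⟨rfl, a, c⟩ := tm_rad hb hp hf (by omega) hu hk d1 (ox ▸ d2)
    obtain ⟨n, hn, i, hi⟩ := h.pv c
    obtain ⟨j, -, rfl⟩ := (Nat.dvd_prime_pow hp).1 (pow_mul u f i ▸ hi)
    exact ⟨rfl, a, j, hn⟩
  have K : OE (Nat.card H) b (p ^ f) := ⟨hb, hq, H.index, by
    unfold tee at h4 h5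
    split_ifs at h4 h5 with e <;> have := Nat.le_of_dvd (by omega) h4 <;>
      generalize H.index = a at * <;> interval_cases a <;> simp_all,
    H.card_mul_index.trans h.card⟩
  have om : ∀ {m u : ℕ}, IsOm H m u → ∃ v g : ℕ, v.Prime ∧ 0 < g ∧ v ^ g = u :=
    fun ⟨F, _, _, _, e, _⟩ => e ▸ card_vg F
  refine ⟨H, h0, h1, h2, h3, ?_⟩
  rintro (⟨m, ⟨φ⟩⟩ | ⟨m, u, F, _, _, rfl, ⟨φ⟩⟩ | ⟨m, u, hm, a, c⟩ | ⟨m, u, a, c⟩ |
    ⟨m, u, hm, a, c⟩ | ⟨u, hu, a⟩ | a)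
  · rcases subsingleton_or_nontrivial (Fin m) with a | a
    · have := φ.injective.subsingleton
      exact (false_of_nontrivial_of_subsingleton H).elim
    have o : orderOf (φ ⟨x, xH⟩ : Equiv.Perm (Fin m)) = orderOf x := by
      rw [Subgroup.orderOf_coe, φ.orderOf_eq, Subgroup.orderOf_mk]
    refine (K.not_alt (m := m) ?_ (ox ▸ o ▸ perm_le (fun r hr d => alt_lt hr
      (by have := tm_five hb hr (ox ▸ o ▸ d); omega) (((I.cyc hr (o ▸ d)).sub hr H).of_surj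
        (φ := φ.toMonoidHom) φ.surjective hr)) fun e => x1 ?_)).elim
    · rw [Nat.card_congr φ.toEquiv, two_mul_nat_card_alternatingGroup, Nat.card_perm, Nat.card_fin]
    · rwa [e, orderOf_one, eq_comm, orderOf_eq_one_iff] at o
  · have hm : 2 ≤ m := by
      by_contra hm
      have := pl_small (F := F) (not_le.1 hm)
      have := φ.injective.subsingleton
      exact false_of_nontrivial_of_subsingleton H
    obtain ⟨v, g, hv, hg, e⟩ := card_vg F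
    obtain ⟨e1, rfl, e2⟩ := K.lin hp hf hv hg hm (by
      rw [Nat.card_congr φ.toEquiv, e]
      exact card_PL (by omega))
    exact .inl ⟨e1, F, _, ‹_›, e ▸ e2, ⟨φ⟩⟩
  · obtain ⟨v, g, hv, hg, rfl⟩ : ∃ v g : ℕ, v.Prime ∧ 0 < g ∧ v ^ g = u := by
      obtain ⟨F, _, _, _, e, -⟩ := a
      obtain ⟨v, g, hv, hg, e'⟩ := card_vg F
      exact (isPrimePow_nat_iff u).1 ((isPrimePow_pow_iff two_ne_zero).1
        (e ▸ e' ▸ hv.prime.isPrimePow.pow hg.ne'))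
    obtain ⟨e1, rfl, e2⟩ := K.uni hp hf hv hg hm c
    exact .inr (.inl ⟨e1, e2 ▸ a⟩)
  · obtain ⟨v, g, hv, hg, rfl⟩ : ∃ v g : ℕ, v.Prime ∧ 0 < g ∧ v ^ g = u :=
      a.elim (fun ⟨_, F, _, _, e, _⟩ => e ▸ card_vg F) fun a => om a.2
    obtain ⟨e1, rfl, e2⟩ := K.sym hp hf hv hg (by omega) c
    exact .inr (.inr ⟨e1, e2 ▸ (a.resolve_right (by omega)).2⟩)
  · obtain ⟨v, g, hv, hg, rfl⟩ := om a
    exact (K.not_D hp hf hv hg hm c).elim
  · obtain ⟨v, g, hv, hg, rfl⟩ := (isPrimePow_nat_iff u).1 hu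
    exact (K.exc hp hf hv hg a.exc2).elim
  · exact (K.not_spor hp a).elim

end Pool.Agent.Lib.MP_7d41f7_al
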