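import Pool.Agent.Lib.MP_7d41f7_al.F.OA
import Pool.Agent.Lib.MP_7d41f7_al.F.UC
import Pool.Agent.Lib.MP_7d41f7_al.D.WU
import Pool.Agent.Lib.MP_7d41f7_al.D.WC
import Pool.Agent.Lib.MP_7d41f7_al.D.WL

/-! The data of the groups of rank two over all fields with at least three elements. -/

set_option autoImplicit false

namespace Pool.Agent.Lib.MP_7d41f7_al

open Module

variable {F V : Type} [Field F] [Finite F] {P : Sca F} [AddCommGroup V] [Module F V] [Finite V]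
  {Φ : Frm P V} {Γ : Type} [Group Γ] {r : ℕ} {e f v w : V}

open Frm

namespace Q3

theorem cen_U (hT : Φ.IsTy .U 3) : Φ.Cen :=
  cen_all (by rw [← hT.kd]; simp [Ty.kd]) hT.nd (hT.dim ▸ le_rfl)

theorem u3_prim (hT : Φ.IsTy .U 3) (hq : 3 ≤ P.q) (hr : r.Prime) (hd : r ∣ tm (-1) P.q) :
    Prim (Nat.card F) (finrank F V) r := by
  have hc : Nat.card F = P.q ^ 2 := P.card.trans (by rw [← hT.kd]; rfl)
  have key : ∀ i, r ∣ (P.q ^ 2) ^ i - 1 ↔ 3 ∣ 2 * i := fun i => by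
    rw [← wa_ordU hq hr hd, ← Ord.dvd_iff, ← Int.natCast_dvd_natCast,
      Nat.cast_sub (Nat.one_le_pow _ _ (by positivity)), pow_mul, neg_sq]
    push_cast
    rfl
  rw [hc, show finrank F V = 3 from hT.dim]
  exact ⟨hr, (key 3).2 (by norm_num), fun i h1 h2 h3 => by
    have := (key i).1 h3
    omega⟩

theorem u3_van (hT : Φ.IsTy .U 3) (hq : 3 ≤ P.q) (R : Φ.Rep Γ) (hR : R.Sp) (hr : r.Prime)
    (hd : r ∣ tm (-1) P.q) (g : PQ Γ) (h : r ∣ orderOf g) : orderOf g ∈ Vo (PQ Γ) := by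
  have := R.finite
  have hk : P.k = .U := hT.kd.symm
  have h3 : finrank F V = 3 := hT.dim
  obtain ⟨d1, d2⟩ := u3_dd P.q
  rw [Nat.dvd_prime Nat.prime_three] at d1
  obtain ⟨w, rfl⟩ := QuotientGroup.mk_surjective g
  refine lin_van R.ι (fun v => v ≠ 0 ∧ Φ.Q v = 0) (tdd (-1) P.q) (Subgroup.center Γ) (fun v h => h.1)
    (exists_sing h3.ge) (fun g v h => ⟨(R.ι g).map_ne_zero_iff.2 h.1,
      ((R.le ⟨g, rfl⟩).2 v).trans h.2⟩) (fun v w hv hw => ?_) (fun v w hv hw h => ?_)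
    (fun z hz => ?_) fun v hv a e => ?_
  · obtain ⟨g, hg⟩ := u3_tr hT R hR hv hw
    exact ⟨g, 1, by rw [one_smul, hg]⟩
  · obtain ⟨c, hc⟩ := (isCyclic_iff_exists_orderOf_eq_natCard (α := Fˣ)).1 inferInstance
    obtain ⟨g, h1, h2⟩ := u3_bad hT R hR hv hw.2 h c.ne_zero
    refine ⟨g, _, _, h1, h2, fun e => ?_⟩
    have e1 : c ^ ((P.q + 1) * tdd (-1) P.q) = 1 := Units.ext (by
      rw [Units.val_pow_eq_pow_val, pow_mul, pow_succ' _ P.q, ← P.σU hk, mul_pow, e, ← mul_pow,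
        inv_mul_cancel₀ ((map_ne_zero P.σ).2 c.ne_zero), one_pow, Units.val_one])
    rw [← orderOf_dvd_iff_pow_eq_one, hc, Sca.fparb_units hk] at e1
    have := Nat.le_of_dvd (by omega) (Nat.dvd_of_mul_dvd_mul_left P.q.succ_pos e1)
    omega
  · obtain ⟨c, c1, hc⟩ := Rep.center' (cen_U hT) R hz
    have h1 := (hR _ (R.le ⟨z, rfl⟩)).1 ⟨z, rfl⟩
    rw [show (R.ι z : V →ₗ[F] V) = c • LinearMap.id from LinearMap.ext hc,
      LinearMap.det_smul, LinearMap.det_id, mul_one, h3] at h1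
    refine ⟨c, ?_, hc⟩
    rcases d1 with d1 | d1 <;> rw [d1] at d2 ⊢
    · rw [P.σU hk, ← pow_succ'] at c1
      exact orderOf_dvd_iff_pow_eq_one.1 (Nat.eq_one_of_dvd_coprimes
        (Nat.prime_three.coprime_iff_not_dvd.2 (by omega)) (orderOf_dvd_of_pow_eq_one h1)
        (orderOf_dvd_of_pow_eq_one c1)).dvd
    · exact h1
  · have h1 : r ∣ orderOf w := h.trans (orderOf_map_dvd (QuotientGroup.mk' _) w)
    have h2 : orderOf (R.ι w ^ (orderOf w / r)) = r := by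
      rw [← map_pow, orderOf_injective _ R.inj, orderOf_pow_orderOf_div (orderOf_pos w).ne' h1]
    have h4 : Stb (R.ι w) (Submodule.span F {v}) := fun y hy => by
      obtain ⟨b, rfl⟩ := Submodule.mem_span_singleton.1 hy
      rw [map_smul, e]
      exact Submodule.smul_mem _ _ (Submodule.smul_mem _ _ (Submodule.mem_span_singleton_self v))
    have h5 := finrank_span_singleton (K := F) hv.1
    rcases irr_of (u3_prim hT (by omega) hr hd) (by omega) (orderOf_dvd_iff_pow_eq_one.1 h2.dvd)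
      (fun e => hr.ne_one (h2.symm.trans (orderOf_eq_one_iff.2 e))) _
      (h4.pow (orderOf w / r)) with e | e
    · rw [e, finrank_bot] at h5
      omega
    · rw [e, finrank_top] at h5
      omega

theorem u3_center (hT : Φ.IsTy .U 3) (hq : 3 ≤ P.q) (R : Φ.Rep Γ) (hR : R.Sp) :
    Nat.card (Subgroup.center Γ) = tdd (-1) P.q := by
  have hd : finrank F V = 3 := hT.dim
  obtain ⟨h1, h2⟩ := center_su hT.kd.symm (by omega) R hR (cen_U hT)
  obtain ⟨h3, h4⟩ := u3_dd P.q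
  rw [hd, Nat.dvd_prime Nat.prime_three] at h1
  rw [Nat.dvd_prime Nat.prime_three] at h3
  rcases h1 with a | a <;> rcases h3 with b | b
  · rw [a, b]
  · exact absurd a (u3_scal hT R hR (h4.1 (b ▸ dvd_rfl)))
  · exact absurd (b ▸ h4.2 (a ▸ h2)) (by decide)
  · rw [a, b]

theorem u3_card (hT : Φ.IsTy .U 3) (hq : 3 ≤ P.q) (R : Φ.Rep Γ) (hR : R.Sp) :
    Nat.card (PQ Γ) = tm (-1) P.q * tw (-1) P.q := by
  have hd : finrank F V = 3 := hT.dim
  have h1 := Subgroup.card_eq_card_quotient_mul_card_subgroup (Subgroup.center Γ)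
  have h2 : Nat.card Γ = Nat.card (R.ι.range.subgroupOf Φ.Iso) :=
    Nat.card_congr ((MonoidHom.ofInjective R.inj).trans
      (Subgroup.subgroupOfEquivOfLe R.le).symm).toEquiv
  have h3 := Subgroup.card_mul_index (R.ι.range.subgroupOf Φ.Iso)
  have h4 : (R.ι.range.subgroupOf Φ.Iso).index = P.q + 1 :=
    index_su hT.kd.symm hT.nd (by omega) R hR
  have h5 := wa_twU hq
  rw [← hT.ord, ← h3, ← h2, h1, h4, u3_center hT hq R hR] at h5
  have h6 : tm (-1) P.q * tw (-1) P.q * tdd (-1) P.q * (P.q + 1) =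
      Nat.card (PQ Γ) * tdd (-1) P.q * (P.q + 1) := by exact_mod_cast h5
  exact (Nat.eq_of_mul_eq_mul_right (Nat.pos_of_dvd_of_pos (u3_dd P.q).1 (by omega))
    (Nat.eq_of_mul_eq_mul_right (Nat.succ_pos _) h6)).symm

theorem u4_num {q : ℕ} (hq : 3 ≤ q) : q ^ 3 + 1 = tm (-1) q * ((q + 1) * tdd (-1) q) ∧
    (q ^ 2) ^ 3 - 1 = (q ^ 2 + q + 1) * (tm (-1) q * tdd (-1) q) * (q ^ 2 - 1) := by
  have h := wa_mul (.inr (.inl rfl)) hq
  have h1 : 1 ≤ q ^ 2 := Nat.one_le_pow _ _ (by omega)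
  have h2 : 1 ≤ (q ^ 2) ^ 3 := Nat.one_le_pow _ _ h1
  rw [tph] at h
  constructor
  · zify
    linear_combination (-(q + 1) : ℤ) * h
  · zify [h1, h2]
    linear_combination (-(q ^ 2 + q + 1) * (q ^ 2 - 1) : ℤ) * h

theorem u4_nd {q : ℕ} (hq : 3 ≤ q) (hr : r.Prime) (hd : r ∣ tm (-1) q) :
    ¬ r ∣ tdd (-1) q ∧ ¬ r ∣ 2 := by
  refine ⟨fun e => ((wa_prime (.inr (.inl rfl)) hq hr).1 hd).2 ?_, fun e =>
    wa_not (.inr (.inl rfl)) hq hr hd ((Int.natCast_dvd_natCast.2 e).trans ?_)⟩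
  · have h : r ∣ 3 := Int.natCast_dvd_natCast.1
      ((Int.natCast_dvd_natCast.2 e).trans (wa_dd (-1) q))
    rw [(Nat.prime_dvd_prime_iff_eq hr Nat.prime_three).1 h]
    rfl
  · rw [show (q : ℤ) * (q ^ 2 - 1) = q * (q + 1) * (q - 1) by ring]
    exact (Int.even_mul_succ_self (q : ℤ)).two_dvd.mul_right _

theorem u4_irr (hT : Φ.IsTy .U 3) (hq : 3 ≤ P.q) (hr : r.Prime) (hd : r ∣ tm (-1) P.q)
    {x : V ≃ₗ[F] V} (hx : orderOf x = r) (W : Submodule F V) (hW : Stb x W) : W = ⊥ ∨ W = ⊤ :=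
  irr_of (u3_prim hT hq hr hd) (by rw [hT.dim]; decide) (hx ▸ pow_orderOf_eq_one x)
    (fun e => hr.ne_one (by rw [← hx, e, orderOf_one])) W hW

theorem u3_tor (hT : Φ.IsTy .U 3) (hq : 3 ≤ P.q) (R : Φ.Rep Γ) (hR : R.Sp) :
    ∃ x : PQ Γ, orderOf x = tm (-1) P.q := by
  have := R.finite
  have hk : P.k = .U := hT.kd.symm
  have := Module.nontrivial_of_finrank_pos (R := F) (M := V) (by rw [hT.dim]; decide)
  obtain ⟨r, hr, hd⟩ := Nat.exists_prime_and_dvd (wa_one (.inr (.inl rfl)) hq).ne'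
  have := Fact.mk hr
  have h1 : r ∣ Nat.card Φ.Iso := by
    rw [← Int.natCast_dvd_natCast, hT.ord, ← wa_twU hq]
    exact ((Int.natCast_dvd_natCast.2 (hd.mul_right _)).mul_right _).mul_right _
  obtain ⟨x, hx⟩ := exists_prime_orderOf_dvd_card' r h1
  rw [← Subgroup.orderOf_coe] at hx
  obtain ⟨z, hz, ho, -⟩ := Frm.tor_main (by simp [hk]) hT.nd x.2 (u4_irr hT hq hr hd hx)
    (fun e => (u4_nd hq hr hd).2 (hx ▸ orderOf_dvd_of_pow_eq_one e)) (u4_card hT).2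
  rw [(u4_num hq).1] at ho
  have h0 : (P.q + 1) * tdd (-1) P.q ≠ 0 := fun e =>
    (orderOf_pos z).ne' (by rw [ho, e, mul_zero])
  obtain ⟨g, hg⟩ := (hR _ (pow_mem hz ((P.q + 1) * tdd (-1) P.q))).2 (by
    rw [← LinearEquiv.coe_det, map_pow, Units.val_pow_eq_pow_val, LinearEquiv.coe_det, pow_mul,
      pow_succ', ← P.σU hk, det_norm hT.nd hz, one_pow])
  have h2 : orderOf g = tm (-1) P.q := by
    rw [← orderOf_injective R.ι R.inj, hg, orderOf_pow_of_dvd h0 (ho ▸ Dvd.intro_left _ rfl), ho,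
      Nat.mul_div_cancel _ (Nat.pos_of_ne_zero h0)]
  refine ⟨QuotientGroup.mk g, (orderOf_mk_center ?_).trans h2⟩
  rw [h2, u3_center hT hq R hR]
  exact Nat.coprime_of_dvd fun k hk e => (u4_nd hq hk e).1

theorem u3_adj (hT : Φ.IsTy .U 3) (hq : 3 ≤ P.q) (R : Φ.Rep Γ) (hR : R.Sp) (φ : Γ →* SLn 3 F)
    (hφ : Function.Injective φ) {u : ℕ} (hr : r.Prime) (hu : u.Prime) (hd : r ∣ tm (-1) P.q)
    (h : ¬ u ∣ tm (-1) P.q) : ¬ Adj (PQ Γ) u r := by
  intro hA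
  have := R.finite
  have hk : P.k = .U := hT.kd.symm
  have := Module.nontrivial_of_finrank_pos (R := F) (M := V) (by rw [hT.dim]; decide)
  obtain ⟨x, hx, h1⟩ := lift_adj hu hr (fun e => h (e ▸ hd))
    (by rw [u3_center hT hq R hR]; exact (u4_nd hq hr hd).1) hA
  rw [u3_center hT hq R hR] at h1
  have h2 := Frm.tor_cen (by simp [hk]) hT.nd R
    (u4_irr hT hq hr hd ((orderOf_injective R.ι R.inj x).trans hx))
    (fun e => (u4_nd hq hr hd).2 (hx ▸ orderOf_dvd_of_pow_eq_one e)) (u4_card hT).2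
  have h3 := cen1 (n := 3) (F := F) (x := φ x) three_pos
    (by simpa [hT.dim, Ty.dim] using u3_prim hT hq hr hd) ((orderOf_injective φ hφ x).trans hx)
  have h4 : Nat.card (Subgroup.centralizer ({x} : Set Γ)) ∣
      Nat.card (Subgroup.centralizer ({φ x} : Set (SLn 3 F))) :=
    Subgroup.card_dvd_of_injective ((φ.comp (Subgroup.subtype _)).codRestrict _ fun y =>
      Subgroup.mem_centralizer_singleton_iff.2 ((map_mul φ _ _).symm.trans ((congrArg φ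
        (Subgroup.mem_centralizer_singleton_iff.1 y.2)).trans (map_mul φ _ _))))
      fun a b e => Subtype.ext (hφ (congrArg Subtype.val e))
  have h5 : 1 < P.q ^ 2 := Nat.one_lt_pow two_ne_zero (by omega)
  rw [(u4_card hT).1, (u4_num hq).2] at h3
  have h6 := h1.trans (h4.trans (Nat.dvd_of_mul_dvd_mul_right (by omega) h3))
  have h7 := (h1.trans h2).mul_left P.q
  have h0 : 0 < tdd (-1) P.q := u3_center hT hq R hR ▸ Nat.card_pos
  rw [(u4_num hq).1] at h7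
  rw [show (P.q ^ 2 + P.q + 1) * (tm (-1) P.q * tdd (-1) P.q) = P.q * (tm (-1) P.q *
    ((P.q + 1) * tdd (-1) P.q)) + tm (-1) P.q * tdd (-1) P.q by ring, Nat.dvd_add_right h7] at h6
  exact h (Nat.dvd_of_mul_dvd_mul_right h0 h6)

theorem c2_card (hT : Φ.IsTy .C 2) (hq : 3 ≤ P.q) (hC : Φ.Cen) (R : Φ.Rep Γ)
    (hR : Φ.Iso ≤ R.ι.range) : Nat.card (PQ Γ) = tm 0 P.q * tw 0 P.q := by
  have h1 := wa_twC hq
  have h2 := wa_mul (.inr (.inr rfl)) hq
  have h3 := wa_pos (.inr (.inr rfl)) hq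
  rw [← hT.ord, ← c4_card R hR,
    Subgroup.card_eq_card_quotient_mul_card_subgroup (Subgroup.center Γ),
    c2_center hT hC R hR, Nat.cast_mul (Nat.card _)] at h1
  have h4 : (tdd 0 P.q : ℤ) ≠ 0 := fun e => by rw [e] at h2; omega
  exact_mod_cast (mul_right_cancel₀ h4 h1).symm

theorem c2_prim (hT : Φ.IsTy .C 2) (hq : 3 ≤ P.q) (hr : r.Prime) (hd : r ∣ tm 0 P.q) :
    Prim (Nat.card F) (finrank F V) r := by
  have e := wa_ordC hq hr hd
  have h1 : ∀ i, r ∣ P.q ^ i - 1 ↔ 4 ∣ i := fun i => by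
    rw [← e, ← Ord.dvd_iff, ← Int.natCast_dvd_natCast,
      Nat.cast_sub (Nat.one_le_pow _ _ (by omega))]
    simp
  rw [c4_q hT, c4_dim hT]
  exact ⟨hr, (h1 4).2 dvd_rfl, fun i h0 h4 h => by have := (h1 i).1 h; omega⟩

theorem c4_mul {q : ℕ} (hq : 3 ≤ q) : q ^ 2 + 1 = tm 0 q * tdd 0 q := by
  have h := wa_mul (.inr (.inr rfl)) hq
  rw [tph, zero_mul, add_zero] at h
  exact_mod_cast h.symm

theorem c4_ne {q : ℕ} (hq : 3 ≤ q) (hr : r.Prime) (hd : r ∣ tm 0 q) :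
    r ≠ 2 ∧ ¬ r ∣ tdd 0 q := by
  have h := ((wa_prime (.inr (.inr rfl)) hq hr).1 hd).2
  have h2 : r ≠ 2 := fun e => h (by simp [e])
  refine ⟨h2, fun e => h2 ((Nat.prime_dvd_prime_iff_eq hr Nat.prime_two).1 ?_)⟩
  have := (Int.natCast_dvd_natCast.2 e).trans (wa_dd 0 q)
  exact_mod_cast this

theorem c2_el (hT : Φ.IsTy .C 2) (hq : 3 ≤ P.q) (hC : Φ.Cen) (R : Φ.Rep Γ)
    (hR : Φ.Iso ≤ R.ι.range) : ∃ x : PQ Γ, orderOf x = tm 0 P.q := by
  have := R.finite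
  have hd0 : 0 < finrank F V := by rw [c4_dim hT]; decide
  have := Module.nontrivial_of_finrank_pos hd0
  have h1 := wa_one (.inr (.inr rfl)) hq
  obtain ⟨r, hr, hd⟩ := Nat.exists_prime_and_dvd h1.ne'
  have := Fact.mk hr
  have h2 : r ∣ Nat.card Φ.Iso := by
    rw [← Int.natCast_dvd_natCast, hT.ord, ← wa_twC hq]
    exact ((Int.natCast_dvd_natCast.2 (hd.mul_right _))).mul_right _
  obtain ⟨x, hx⟩ := exists_prime_orderOf_dvd_card' r h2
  obtain ⟨k0, k2, kr⟩ := c4_sq hr (c4_ne hq hr hd).1 ((Subgroup.orderOf_coe x).trans hx)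
  obtain ⟨z, hz, ho, -⟩ := tor_main (by simp [c4_k hT]) hT.nd x.2
    (irr_of (c2_prim hT hq hr hd) hd0 kr k0) k2 (c4_V hT)
  obtain ⟨g, rfl⟩ := hR hz
  rw [orderOf_injective _ R.inj, c4_mul hq] at ho
  have h0 : tdd 0 P.q ≠ 0 := fun e => by have := c4_mul hq; rw [e] at this; omega
  have h3 : orderOf (g ^ tdd 0 P.q) = tm 0 P.q := by
    rw [orderOf_pow_of_dvd h0 (ho ▸ Dvd.intro_left _ rfl), ho,
      Nat.mul_div_cancel _ (Nat.pos_of_ne_zero h0)]
  refine ⟨QuotientGroup.mk (g ^ tdd 0 P.q), (orderOf_mk_center ?_).trans h3⟩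
  rw [h3, c2_center hT hC R hR]
  exact Nat.coprime_of_dvd fun s hs h4 => (c4_ne hq hs h4).2

theorem c2_adj (hT : Φ.IsTy .C 2) (hq : 3 ≤ P.q) (hC : Φ.Cen) (R : Φ.Rep Γ)
    (hR : Φ.Iso ≤ R.ι.range) {u : ℕ} (hr : r.Prime) (hu : u.Prime) (hd : r ∣ tm 0 P.q)
    (h : ¬ u ∣ tm 0 P.q) : ¬ Adj (PQ Γ) u r := by
  intro ha
  have := R.finite
  have hd0 : 0 < finrank F V := by rw [c4_dim hT]; decide
  have := Module.nontrivial_of_finrank_pos hd0
  obtain ⟨x, hx, hn⟩ := lift_adj hu hr (fun e => h (e ▸ hd))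
    (by rw [c2_center hT hC R hR]; exact (c4_ne hq hr hd).2) ha
  obtain ⟨k0, -, kr⟩ := c4_sq hr (c4_ne hq hr hd).1 ((orderOf_injective _ R.inj x).trans hx)
  have h1 := hn.trans (tor_cen (by simp [c4_k hT]) hT.nd R
    (irr_of (c2_prim hT hq hr hd) hd0 kr k0) (c4_sq hr (c4_ne hq hr hd).1 hx).2.1 (c4_V hT))
  have h0 : tdd 0 P.q ≠ 0 := fun e => by have := c4_mul hq; rw [e] at this; omega
  rw [c2_center hT hC R hR, c4_mul hq] at h1
  exact h (Nat.dvd_of_mul_dvd_mul_right (Nat.pos_of_ne_zero h0) h1)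

open Matrix

theorem l3_van (hq : 3 ≤ Nat.card F) (h4 : Nat.card F ≠ 4) (h : Prim (Nat.card F) 3 r) (g : PL 3 F)
    (hd : r ∣ orderOf g) : orderOf g ∈ Vo (PL 3 F) := by
  obtain ⟨A, rfl⟩ := QuotientGroup.mk_surjective g
  obtain ⟨c, hc⟩ := IsCyclic.exists_ofOrder_eq_natCard (α := Fˣ)
  have h3 : (c : F) ^ Nat.gcd 3 (Nat.card F - 1) ≠ 1 ^ Nat.gcd 3 (Nat.card F - 1) := fun e => by
    have := orderOf_dvd_of_pow_eq_one (x := c) (Units.ext
      ((Units.val_pow_eq_pow_val _ _).trans (e.trans (one_pow _))))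
    rw [hc, Nat.card_units] at this
    rcases (Nat.dvd_prime Nat.prime_three).1 (this.trans (Nat.gcd_dvd_left _ _)) with a | a <;>
      omega
  refine lin_van SpecialLinearGroup.toLin' (· ≠ 0) (Nat.gcd 3 (Nat.card F - 1)) _ (fun _ u => u) ⟨1, one_ne_zero⟩
    (fun g v u => (map_ne_zero_iff _ (LinearEquiv.injective _)).2 u) (fun v w => l3_tr)
    (fun v w hv _ u => ?_) (fun z hz => ?_) fun v hv a e => ?_
  · obtain ⟨g, g1, g2⟩ := l3_bad hv u c.ne_zero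
    exact ⟨g, c, 1, g1, by rwa [one_smul], h3⟩
  · obtain ⟨d, d1, d2⟩ := Matrix.SpecialLinearGroup.mem_center_iff.1 hz
    have d0 : d ≠ 0 := by
      rintro rfl
      simp at d1
    have := Fintype.ofFinite F
    refine ⟨d, pow_gcd_eq_one.2 ⟨d1, by
      rw [Nat.card_eq_fintype_card]; exact FiniteField.pow_card_sub_one_eq_one d d0⟩, fun v => ?_⟩
    change Matrix.toLin' z.1 v = _
    rw [← d2]
    ext i
    simp [Matrix.mulVec_diagonal]
  · obtain ⟨x1, x2⟩ := scenb_ord h.pr (orderOf_pow_orderOf_div (orderOf_pos A).ne'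
      (hd.trans (orderOf_map_dvd (QuotientGroup.mk' _) A)))
    have hV : finrank F (Fin 3 → F) < 2 * 3 := by simp
    obtain ⟨r1, r2⟩ := lin_rank h three_pos x1 x2 hV
    have r3 := finrank_span_singleton (K := F) hv
    rw [finrank_fin_fun] at r2
    have := lin_irr h three_pos x1 hV (W := Submodule.span F {v}) fun w hw => by
      rw [Matrix.SpecialLinearGroup.coe_pow, map_pow]
      refine End.pow_apply_mem_of_forall_mem _ (fun y hy => ?_) w hw
      obtain ⟨t, rfl⟩ := Submodule.mem_span_singleton.1 hy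
      rw [map_smul]
      exact Submodule.smul_mem _ _ (Submodule.mem_span_singleton.2 ⟨a, e.symm⟩)
    rcases this with u | u <;> have := Submodule.finrank_mono u <;> omega

theorem odat_L0 (q4 : 3 ≤ Nat.card F) : ODat (PL 3 F) 1 (Nat.card F) := by
  have hm : tm 1 (Nat.card F) * (Nat.gcd 3 (Nat.card F - 1) * (Nat.card F - 1)) =
      Nat.card F ^ 3 - 1 := by
    have := wa_mul (.inl rfl) q4
    rw [← wa_dd1 q4, ← mul_assoc]
    zify [show 1 ≤ Nat.card F by omega, Nat.one_le_pow 3 _ (show 0 < Nat.card F by omega)]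
    rw [this, tph]
    ring
  have hc : (tm 1 (Nat.card F)).Coprime (Nat.card F - 1) := Nat.coprime_of_dvd fun r hr h =>
    (wa_prim3 q4 hr h).not_dvd_pred (by omega)
  have hg : 0 < Nat.gcd 3 (Nat.card F - 1) := Nat.gcd_pos_of_pos_left _ (by omega)
  refine ⟨Nat.eq_of_mul_eq_mul_right hg ((card_PL (by omega)).trans (wa_tw1 q4).symm), ?_,
    fun r u hr hu h1 h2 a => h2 ?_⟩
  · obtain ⟨A, hA⟩ := exists_el (F := F) (n := 3) (m := 3) (by omega) le_rfl ⟨_, hm.symm⟩ hc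
    exact ⟨QuotientGroup.mk A, (orderOf_mk_center (by
      rw [hA, card_center (by omega)]
      exact hc.coprime_dvd_right (Nat.gcd_dvd_right _ _))).trans hA⟩
  · have h := wa_prim3 q4 hr h1
    obtain ⟨x, hx, hd⟩ := lift_adj hu hr (fun e => h2 (e ▸ h1)) (svanb_cen (by omega) (by omega) h) a
    have := (Nat.mul_dvd_mul_right hd _).trans (cen1 (by omega) h hx)
    rw [card_center (by omega), ← hm, mul_assoc] at this
    exact Nat.dvd_of_mul_dvd_mul_right (Nat.mul_pos hg (by omega)) this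

end Q3

theorem odat_U [StarRing F] {q : ℕ} (hq : Nat.card F = q ^ 2) (hs : ∃ a : F, star a ≠ a)
    (h4 : 3 ≤ q) {G : Type} [Group G] [Finite G]
    (hc : Nat.card G = Nat.card (PQ (Matrix.specialUnitaryGroup (Fin 3) F)))
    (hV : Vo G = Vo (PQ (Matrix.specialUnitaryGroup (Fin 3) F))) : ODat G (-1) q := by
  obtain ⟨S, Φ, R, hk, rfl, hn, hR⟩ := brg_su' 3 F hq hs
  obtain ⟨t, m, hT⟩ := Frm.exists_ty hn
  obtain rfl : t = .U := by
    have := hT.kd.trans hk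
    cases t <;> simp [Ty.kd] at this ⊢
  obtain rfl : 3 = m := by simpa [Ty.dim] using hT.dim
  have := R.finite
  let φ : Matrix.specialUnitaryGroup (Fin 3) F →* SLn 3 F :=
    ⟨⟨fun A => ⟨A.1, A.2.2⟩, rfl⟩, fun _ _ => rfl⟩
  exact ODat.transfer ⟨Q3.u3_card hT h4 R hR, Q3.u3_tor hT h4 R hR, fun r u hr hu =>
    Q3.u3_adj hT h4 R hR φ (fun _ _ e => Subtype.ext (congrArg (fun A : SLn 3 F => A.1) e)) hr hu⟩
    (.inr (.inl rfl)) h4 (fun r => Q3.u3_van hT h4 R hR) hc hV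

theorem odat_C (hq : 3 ≤ Nat.card F) {G : Type} [Group G] [Finite G]
    (hc : Nat.card G = Nat.card (PQ (Matrix.symplecticGroup (Fin 2) F)))
    (hV : Vo G = Vo (PQ (Matrix.symplecticGroup (Fin 2) F))) : ODat G 0 (Nat.card F) := by
  obtain ⟨Φ, R, hT, hR⟩ := sp_ty 2 F
  have := R.finite
  have h4 : 3 ≤ (Sca.sp F).q := hq
  have hC : Φ.Cen := Frm.cen_all (by simp [Sca.sp]) hT.nd (by rw [hT.dim]; decide)
  refine ODat.transfer (q := (Sca.sp F).q) ⟨Q3.c2_card hT h4 hC R hR, Q3.c2_el hT h4 hC R hR,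
    fun r u => Q3.c2_adj hT h4 hC R hR⟩ (.inr (.inr rfl)) h4
    (fun r hr hd => ?_) hc hV
  have e := Q3.wa_ordC h4 hr hd
  exact Frm.van_O hT (by simp) (by simp) hC R hr (by omega) (.inl (by rw [e]; decide))

theorem odat_L (hq : 3 ≤ Nat.card F) (h4 : Nat.card F ≠ 4) {G : Type} [Group G] [Finite G]
    (hc : Nat.card G = Nat.card (PL 3 F)) (hV : Vo G = Vo (PL 3 F)) : ODat G 1 (Nat.card F) :=
  (Q3.odat_L0 hq).transfer (.inl rfl) hq
    (fun _ hr hd => Q3.l3_van hq h4 (Q3.wa_prim3 hq hr hd)) hc hV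

end Pool.Agent.Lib.MP_7d41f7_al
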