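import Pool.Agent.Lib.MP_7d41f7_al.F.OQ
import Pool.Agent.Lib.MP_7d41f7_al.F.OK1
import Pool.Agent.Lib.MP_7d41f7_al.F.OL
import Pool.Agent.Lib.MP_7d41f7_al.F.OM
import Pool.Agent.Lib.MP_7d41f7_al.F.OW

/-! The groups of rank at most two over all fields. -/

set_option autoImplicit false

namespace Pool.Agent.Lib.MP_7d41f7_al

open Subgroup Module Matrix

variable {G S : Type} [Group G] [Finite G] [Group S] {b : ℤ} {q r C : ℕ}

theorem Out.sole {d : Ds} (h : Out G [d]) (hc : Nat.card G = Nat.card S)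
    (hS : ∀ (H : Type) [Group H], IsD H d → Nonempty (H ≃* S)) : Nonempty (G ≃* S) ∨ Off5 G := by
  obtain ⟨K, _, H, a, b⟩ := h
  by_cases hl : OnList5 H
  · obtain ⟨d', e, f⟩ := b hl
    obtain rfl := List.mem_singleton.1 e
    obtain ⟨i⟩ := hS H f
    exact .inl (iso_of_iso hc iso_of_card i)
  · exact .inr ⟨K, _, H, a.nrm, a.sim, a.nab, a.cen, hl⟩

omit [Finite G] in
theorem Off3.five (h : Off3 G) : Off5 G := h.off4.off5

theorem ODat.nd (h : ODat G b q) (hb : TB b) (hq : 3 ≤ q) : ND G (tm b q) (tm b q) :=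
  fun r hr d => ⟨h.cyc hb hq hr d, fun u hu _ a => by_contra fun e => h.adj r u hr hu d e a⟩

theorem ODat.out {e E : ℕ} {d : ℕ → Ds} (h : ODat G b q) (hb : TB b) (hq : 3 ≤ q)
    (hp : IsPrimePow q) (h1 : q < 2 ^ 10) (k : oI b e E d q = true) : Out G [d q] := by
  rw [oI, oPP_of hp h1, fN_o] at k
  obtain ⟨t, ht⟩ := h.tor
  have c := tm_cop hb (by omega : 1 ≤ q)
  refine chkI_out h.card (fun x hx => ?_) (c := tw b q) ⟨ht ▸ h.card, ht ▸ c,
    fun r u hr hu d1 d2 => h.adj r u hr hu (ht ▸ d1) fun d3 =>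
      Nat.not_coprime_of_dvd_of_dvd hu.one_lt d3 d2 c⟩ ht k
  obtain rfl := List.mem_singleton.1 hx
  exact h.nd hb hq

/-- The groups of rank two with an isolated torus. -/
theorem main_two2 (hb : TB b) (hp : IsPrimePow q) (hq : 2 ^ 10 ≤ q) (h : OData G b q)
    (hc : Nat.card G = Nat.card S) (hS : ∀ (H : Type) [Group H], OHit H b q → Nonempty (H ≃* S)) :
    Nonempty (G ≃* S) ∨ Off5 G := by
  obtain ⟨p, f, hp', hf, rfl⟩ := (isPrimePow_nat_iff _).1 hp
  obtain ⟨H, a1, a2, a3, a4, a5⟩ := omain2 hp' hf hb hq h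
  by_cases hl : OnList3 H
  · obtain ⟨e⟩ := hS H (a5 hl)
    obtain rfl : H = ⊤ := H.eq_top_of_card_eq ((Nat.card_congr e.toEquiv).trans hc.symm)
    exact .inl ⟨topEquiv.symm.trans e⟩
  · exact .inr (off_top a1 a2 a3 a4 hl).five

/-- A vanishing order that is prime and divides the order once. -/
theorem nd_once (hr : r.Prime) (h2 : ¬ r ^ 2 ∣ Nat.card G) (hV : Vo G = Vo S) (h : r ∈ Vo S)
    (ha : ∀ u, u.Prime → u ≠ r → Adj S u r → u ∣ C) : ND G r C := fun s hs d => by
  obtain rfl := (Nat.prime_dvd_prime_iff_eq hs hr).1 d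
  obtain ⟨g, hg, -⟩ := hV ▸ h
  have c : Cyc G s := cyc_of_order hr (hg.trans (pow_one s).symm) h2
  refine ⟨c, fun u hu ne a => ?_⟩
  obtain ⟨x, hx, -⟩ := hV ▸ adj_Vo hu hr ne c (hV ▸ h) a
  exact ha u hu ne ⟨x, hx⟩

variable {F : Type} [Field F] [Finite F]

omit [Finite G] in
theorem IsSL.iso' {n : ℕ} (h : IsSL G n (Nat.card F)) : Nonempty (G ≃* PL n F) :=
  let ⟨_, _, _, e, ⟨g⟩⟩ := h
  (psl_iso e).map g.trans

/-- The primes of the second torus of `L₃(q)`. -/
theorem l3_nd (h : Prim (Nat.card F) 2 r) (h2 : ¬ r ^ 2 ∣ Nat.card G) (hV : Vo G = Vo (PL 3 F))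
    (hC : Nat.card F ^ 2 - 1 = C * Nat.gcd 3 (Nat.card F - 1)) : ND G r C := by
  have hz := svanb_cen (F := F) three_pos le_rfl h
  refine nd_once h.pr h2 hV ?_ fun u hu ne a => ?_
  · obtain ⟨A, hA⟩ := exists_el (F := F) (n := 3) two_pos (by omega) h.dvd
      (h.pr.coprime_iff_not_dvd.2 (h.not_dvd_pred le_rfl))
    rw [← hA, ← orderOf_mk_center (hA ▸ h.pr.coprime_iff_not_dvd.2 hz)]
    refine perm_van (G := PL 3 F) (X := Gr 3 F 0) (Y := Gr 3 F 1) ?_ ?_
    · rw [card_orb, card_orb, card_orb] <;> omega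
    · rw [fix_bot, fix_one h _ one_pos (hA.trans (pow_one r).symm)] <;> omega
  · obtain ⟨x, hx, e⟩ := lift_adj hu h.pr ne hz a
    have := e.trans (cen2 le_rfl h hx)
    rw [card_center three_pos, show 3 - 1 = 2 from rfl, hC] at this
    exact Nat.dvd_of_mul_dvd_mul_right (Nat.gcd_pos_of_pos_left _ three_pos) this

theorem all_l3 (hq : 3 ≤ Nat.card F) (hc : Nat.card G = Nat.card (PL 3 F))
    (hV : Vo G = Vo (PL 3 F)) : Nonempty (G ≃* PL 3 F) ∨ Off5 G := by
  have hp := card_pp F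
  rcases le_or_gt (2 ^ 10) (Nat.card F) with c | c
  · refine main_two2 (.inl rfl) hp c (odata_L (by omega) hc hV) hc ?_
    rintro H _ (⟨-, h⟩ | ⟨h, -⟩ | ⟨h, -⟩)
    exacts [h.iso', by omega, by omega]
  refine Out.sole (d := .lin 3 (Nat.card F)) ?_ hc fun H _ h => h.2.iso'
  have hg := hc.trans (Q3.odat_L0 hq).card
  by_cases h4 : Nat.card F = 4
  · rw [h4] at hg ⊢
    refine chkS_out (hg.trans (by decide)) (fun x hx => ?_) okL4
    obtain rfl := List.mem_singleton.1 hx
    refine l3_nd (F := F) ?_ (by rw [hg]; decide) hV (by rw [h4]; decide)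
    rw [h4]
    exact ⟨Nat.prime_five, by decide, fun i a b => by interval_cases i; decide⟩
  have h := odat_L hq h4 hc hV
  by_cases h5 : Nat.card F = 5
  · rw [h5] at hg h ⊢
    refine chkS_out (hg.trans (by decide)) ?_ okL5
    simp only [List.forall_mem_cons, List.not_mem_nil, false_imp_iff, implies_true, and_true]
    refine ⟨h.nd (.inl rfl) (by omega), l3_nd (F := F) ?_ (by rw [hg]; decide) hV
      (by rw [h5]; decide)⟩
    rw [h5]
    exact ⟨Nat.prime_three, by decide, fun i a b => by interval_cases i; decide⟩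
  refine h.out (.inl rfl) hq hp c (e := 3) (E := 1) (d := .lin 3) ?_
  rcases hq.eq_or_lt with e | e
  exacts [e ▸ okL3, oN_le okL (by omega) (by omega)]

theorem all_u3 [StarRing F] (hq : Nat.card F = q ^ 2) (hs : ∃ a : F, star a ≠ a) (h3 : 3 ≤ q)
    (hc : Nat.card G = Nat.card (PQ (specialUnitaryGroup (Fin 3) F)))
    (hV : Vo G = Vo (PQ (specialUnitaryGroup (Fin 3) F))) :
    Nonempty (G ≃* PQ (specialUnitaryGroup (Fin 3) F)) ∨ Off5 G := by
  have hp : IsPrimePow q := (isPrimePow_pow_iff two_ne_zero).1 (hq ▸ card_pp F)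
  have k : ∀ (H : Type) [Group H], IsSU H 3 q →
      Nonempty (H ≃* PQ (specialUnitaryGroup (Fin 3) F)) := by
    rintro H _ ⟨K, _, _, _, e, s, ⟨g⟩⟩
    obtain ⟨a⟩ := su_iso (n := 3) e s hq hs
    exact (brg_pq a).map g.trans
  rcases le_or_gt (2 ^ 10) q with c | c
  · refine main_two2 (.inr (.inl rfl)) hp c (odata_U hq hs (by omega) hc hV) hc ?_
    rintro H _ (⟨h, -⟩ | ⟨-, h⟩ | ⟨h, -⟩)
    exacts [by omega, k H h, by omega]
  exact ((odat_U hq hs h3 hc hV).out (.inr (.inl rfl)) h3 hp c (d := .uni 3)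
    (oN_le okU h3 (by omega))).sole hc fun H _ h => k H h.2

theorem all_s4 (hq : 4 ≤ Nat.card F)
    (hc : Nat.card G = Nat.card (PQ (symplecticGroup (Fin 2) F)))
    (hV : Vo G = Vo (PQ (symplecticGroup (Fin 2) F))) :
    Nonempty (G ≃* PQ (symplecticGroup (Fin 2) F)) ∨ Off5 G := by
  have hp := card_pp F
  rcases le_or_gt (2 ^ 10) (Nat.card F) with c | c
  · refine main_two2 (.inr (.inr rfl)) hp c (odata_C (by omega) hc hV) hc ?_
    rintro H _ (⟨h, -⟩ | ⟨h, -⟩ | ⟨-, h⟩)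
    exacts [by omega, by omega, h.iso]
  refine ((odat_C (by omega) hc hV).out (.inr (.inr rfl)) (by omega) hp c (d := .sym 2)
    (oN_le okS hq (by omega))).sole hc ?_
  rintro H _ (h | h)
  exacts [h.2.iso, by omega]

/-- The characteristic is a vanishing order of `L₂(q)`. -/
theorem l2_pv : ringChar F ∈ Vo (PL 2 F) := by
  let A : SLn 2 F := ⟨!![1, 1; 0, 1], by simp [det_fin_two]⟩
  have hp : (ringChar F).Prime := CharP.char_is_prime F _
  have ho : orderOf (QuotientGroup.mk A : PL 2 F) = ringChar F := by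
    refine ((Nat.dvd_prime hp).1 (s2_two A (by simp [A, trace_fin_two]; norm_num))).resolve_left
      fun e => ?_
    obtain ⟨d, -, d2⟩ := Matrix.SpecialLinearGroup.mem_center_iff.1
      ((QuotientGroup.eq_one_iff A).1 (orderOf_eq_one_iff.1 e))
    simpa [A] using congrFun (congrFun d2 0) 1
  rw [← ho]
  refine perm_van (G := PL 2 F) (X := Gr 2 F 0) (Y := Gr 2 F 1)
    (by rw [card_orb, card_orb, card_orb] <;> omega) ?_
  have e : (![1, 0] : Fin 2 → F) ≠ 0 := fun e => one_ne_zero (congrFun e 0)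
  have k := finrank_span_singleton (K := F) e
  have f : (F ∙ (![1, 0] : Fin 2 → F)).map (toLin' A.1) = F ∙ ![1, 0] := by
    rw [Submodule.map_span, Set.image_singleton]
    congr 2
    ext i
    fin_cases i <;> simp [A, toLin'_apply]
  rw [fix_bot]
  refine (Nat.card_eq_one_iff_exists.2 ⟨⟨⟨_, k⟩, Subtype.ext f⟩, fun W =>
    Subtype.ext (Subtype.ext (Submodule.eq_of_le_of_finrank_eq ?_ (W.1.2.trans k.symm)))⟩).symm
  have a : W.1.1.map (toLin' A.1) = W.1.1 := congrArg Subtype.val W.2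
  intro v hv
  by_cases h0 : v = 0
  · exact h0 ▸ zero_mem _
  obtain ⟨c, hc⟩ := (finrank_eq_one_iff_of_nonzero' (⟨v, hv⟩ : W.1.1)
    (fun e => h0 (congrArg Subtype.val e))).1 W.1.2 ⟨_, a ▸ Submodule.mem_map_of_mem hv⟩
  have b := congrFun (congrArg Subtype.val hc)
  have b0 : c * v 0 = v 0 + v 1 := by
    simpa [A, toLin'_apply, dotProduct, Fin.sum_univ_two] using b 0
  have b1 : c * v 1 = v 1 := by
    simpa [A, toLin'_apply, dotProduct, Fin.sum_univ_two] using b 1
  have v1 : v 1 = 0 := by grind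
  refine Submodule.mem_span_singleton.2 ⟨v 0, funext fun i => ?_⟩
  fin_cases i <;> simp [v1]

theorem l2_nd (h2 : ringChar F ≠ 2) (hr : r.Prime) (h : r ∈ Vo (PL 2 F))
    (h3 : ¬ r ^ 2 ∣ Nat.card G) (hV : Vo G = Vo (PL 2 F)) (h4 : Nat.card F + 1 < 4 * r) :
    ND G r r := by
  refine nd_once hr h3 hV h fun u hu _ ⟨g, hg⟩ => ?_
  have := Finite.one_lt_card (α := F)
  have k := Nat.mul_le_mul_right r hu.two_le
  rcases hg ▸ ord_PS h2 g with e | e | e
  · exact absurd ((CharP.char_is_prime F _).eq_one_or_self_of_dvd _ e) fun a => a.elim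
      (by have := hr.two_le; omega) fun a =>
        Nat.not_prime_mul hu.ne_one hr.ne_one (a ▸ CharP.char_is_prime F _)
  all_goals have := Nat.le_of_dvd (by omega) e; omega

theorem all_l2s (hq : 7 ≤ Nat.card F) (h9 : Nat.card F ≠ 9) (hc : Nat.card G = Nat.card (PL 2 F))
    (hV : Vo G = Vo (PL 2 F)) : Nonempty (G ≃* PL 2 F) ∨ Off5 G := by
  by_cases c : Even (Nat.card F) ∧ 8 ≤ Nat.card F ∨ 17 ≤ Nat.card F
  · exact (all_l2' c hc hV).imp_right Off3.five
  have hp := card_pp F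
  have : Finite (PS F) := Quotient.finite _
  let _ := Fintype.ofFinite (PS F)
  have hd : ringChar F ∣ Nat.card F := by
    cases nonempty_fintype F
    rw [← ringChar.spec, Nat.card_eq_fintype_card, FiniteField.cast_card_eq_zero]
  have h2 : ringChar F ≠ 2 := fun e => c (.inl ⟨even_iff_two_dvd.2 (e ▸ hd), by
    rw [e] at hd; omega⟩)
  have hg := hc ▸ card_PS h2
  refine Out.sole (d := .lin 2 (Nat.card F)) ?_ hc fun H _ h => h.2.iso'
  have hv := fun m => van_PS h2 (m := m)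
  have hn := fun r hr h h3 => l2_nd (G := G) (r := r) h2 hr h h3 hV
  obtain e | e | e : Nat.card F = 7 ∨ Nat.card F = 11 ∨ Nat.card F = 13 := by
    have := oPP_of hp (by omega)
    rw [Nat.even_iff] at c
    generalize Nat.card F = q at *
    have : q < 17 := by omega
    interval_cases q <;> simp_all [oPP]
  all_goals rw [e] at hg hv hn hd ⊢
  · have h7 : ringChar F = 7 :=
      (Nat.prime_dvd_prime_iff_eq (CharP.char_is_prime F _) (by norm_num)).1 hd
    refine chkS_out (by omega) ?_ ok7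
    simp only [List.forall_mem_cons, List.not_mem_nil, false_imp_iff, implies_true, and_true]
    exact ⟨hn 7 (by norm_num) (h7 ▸ l2_pv) (by omega) (by omega),
      hn 3 (by norm_num) (hv 3 (by omega) (by omega)) (by omega) (by omega)⟩
  · refine chkS_out (by omega) (fun x hx => ?_) ok11
    obtain rfl := List.mem_singleton.1 hx
    exact hn 5 (by norm_num) (hv 5 (by omega) (by omega)) (by omega) (by omega)
  · refine chkS_out (by omega) (fun x hx => ?_) ok13
    obtain rfl := List.mem_singleton.1 hx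
    exact hn 7 (by norm_num) (hv 7 (by omega) (by omega)) (by omega) (by omega)

end Pool.Agent.Lib.MP_7d41f7_al
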