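import Pool.Agent.Lib.MP_7d41f7_al.D.UMain

/-! Unitary groups of small dimension over all fields: the two classes of primes. -/

set_option autoImplicit false

namespace Pool.Agent.Lib.MP_7d41f7_al

open Finset

/-- The parameters without a size condition. -/
structure PwU (n q : ℕ) : Prop where
  n4 : 4 ≤ n
  lt : n < 64
  q2 : 2 ≤ q

/-- The bound on the field from which sizes decide. -/
def uq (n : ℕ) : ℕ :=
  if n = 4 then 629 else if n = 5 then 484 else if n = 6 then 12 else if n = 7 then 6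
  else if n < 10 then 4 else if n < 15 then 3 else 2

/-- The parameters with the size condition. -/
structure Pv (n q : ℕ) : Prop where
  n4 : 4 ≤ n
  lt : n < 64
  big : uq n ≤ q

variable {n q p f r u g c j m i : ℕ}

theorem uq_two (n : ℕ) : 2 ≤ uq n := by
  unfold uq
  split_ifs <;> omega

theorem Pv.q2 (P : Pv n q) : 2 ≤ q := (uq_two n).trans P.big

theorem Pv.w (P : Pv n q) : PwU n q := ⟨P.n4, P.lt, P.q2⟩

theorem Pv.five (P : Pv n q) : 8 ≤ n ∨ 5 ≤ q := by
  have := P.n4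
  have := P.big
  unfold uq at this
  split_ifs at this <;> omega

/-- An inequality at the bound holds above the bound. -/
theorem Pv.gap (P : Pv n q) {A a d e x : ℕ} (hx : x ≤ A * (q + 1) ^ a * q ^ d)
    (h : a + d ≤ e ∧ A * (uq n + 1) ^ a < uq n ^ (e - d)) : x < q ^ e := by
  obtain ⟨w, rfl⟩ := Nat.exists_eq_add_of_le h.1
  have h0 := uq_two n
  have h1 := P.big
  have h2 := h.2
  generalize uq n = z at *
  rw [show a + d + w - d = a + w by omega, pow_add] at h2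
  have h3 : ((q + 1) * z) ^ a ≤ ((z + 1) * q) ^ a := Nat.pow_le_pow_left (by nlinarith) a
  have h4 := h2.trans_le (Nat.mul_le_mul_left _ (Nat.pow_le_pow_left h1 w))
  refine hx.trans_lt (Nat.lt_of_mul_lt_mul_right (a := z ^ a) ?_)
  calc _ = A * ((q + 1) * z) ^ a * q ^ d := by rw [mul_pow]; ring
    _ ≤ A * ((z + 1) * q) ^ a * q ^ d := by gcongr
    _ = A * (z + 1) ^ a * q ^ (a + d) := by rw [mul_pow]; ring
    _ < z ^ a * q ^ w * q ^ (a + d) := Nat.mul_lt_mul_of_pos_right h4 (pow_pos (by omega) _)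
    _ = _ := by ring

theorem UC.dvd' (h : UC n q m r) (P : PwU n q) (hc : g * c = ordSU n q) (hz : c ∣ q + 1) :
    r ∣ g := by
  have q2 := P.q2
  have n4 := P.n4
  have tp := h.top
  have h1 : r ∣ g * c := hc ▸ (((dvd_fu (by omega) r m).2 (h.ord ▸ dvd_rfl)).trans
    (dvd_prod_of_mem _ (mem_Icc.2 (by omega)))).mul_left _
  refine ((h.pr.dvd_mul).1 h1).resolve_right fun e => ?_
  have := (ord_one (by omega) (e.trans hz)).symm.trans h.ord
  omega

theorem PwU.ppart (P : PwU n (p ^ f)) (hp : p.Prime) (hf : 0 < f) (hc : g * c = ordSU n (p ^ f))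
    (hz : c ∣ p ^ f + 1) : g.factorization p = f * (n * (n - 1) / 2) := by
  have q2 := P.q2
  have hq : p ∣ p ^ f := dvd_pow_self p hf.ne'
  have h0 := (hc ▸ ordSU_pos q2 n : 0 < g * c).ne'
  have h1 : ¬ p ∣ c := fun e => hp.one_lt.ne' (Nat.dvd_one.1 ((Nat.dvd_add_right hq).1 (e.trans hz)))
  have h2 : ¬ p ∣ ∏ i ∈ Icc 2 n, fu (p ^ f) i := fun e => by
    obtain ⟨i, hi, e⟩ := (hp.prime.dvd_finsetProd_iff _).1 e
    rw [dvd_fu (by omega), ord_p hp hq, zero_dvd_iff] at e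
    have := (mem_Icc.1 hi).1
    omega
  have h4 : ∏ i ∈ Icc 2 n, fu (p ^ f) i ≠ 0 := fun e => h2 (e ▸ dvd_zero p)
  have h3 := congrArg (fun x => x.factorization p) hc
  simp only [ordSU] at h3
  rwa [Nat.factorization_mul (left_ne_zero_of_mul h0) (right_ne_zero_of_mul h0),
    Nat.factorization_mul (pow_pos (by omega) _).ne' h4, Finsupp.add_apply,
    Finsupp.add_apply, Nat.factorization_eq_zero_of_not_dvd h1,
    Nat.factorization_eq_zero_of_not_dvd h2, add_zero, add_zero, ← pow_mul,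
    Nat.factorization_pow_self hp] at h3

theorem PwU.ex (P : PwU n (p ^ f)) (hp : p.Prime) (hf : 0 < f) (hm : m = n ∨ m + 1 = n)
    (hz : 8 ≤ n ∨ 5 ≤ p ^ f) :
    ∃ s, Prim p (f * dg m) s ∧ Prim (p ^ f) (dg m) s ∧ UC n (p ^ f) m s := by
  have n4 := P.n4
  obtain ⟨d1, d2, -⟩ := dg_fin n P.lt n4
  have d3 : 3 ≤ dg m := by
    rcases hm with rfl | rfl
    exacts [d1, d2]
  obtain ⟨s, hs⟩ := zsig hp.two_le (d3.trans (Nat.le_mul_of_pos_left _ hf)) fun ⟨e1, e2⟩ => by
    have f2 : f ≤ 2 := by nlinarith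
    have m6 : n ≤ 7 := by
      have : dg m = 6 ∨ dg m = 3 := by interval_cases f <;> omega
      unfold dg at this
      split_ifs at this <;> omega
    have := Nat.pow_le_pow_right two_pos f2
    rw [e1] at hz
    omega
  have h1 := hs.pow hp.pos hf (by omega)
  exact ⟨s, hs, h1, hs.pr, h1.ord_dg (Nat.one_le_pow _ _ hp.pos) (by omega), hm⟩

theorem PwU.free (P : PwU n (p ^ f)) (hp : p.Prime) (hf : 0 < f) {s s' k : ℕ}
    (h1 : Prim p (f * dg n) s) (h2 : Prim p (f * dg (n - 1)) s') (e1 : p ^ k ≡ 1 [MOD s])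
    (e2 : p ^ k ≡ 1 [MOD s']) (hk : k ≤ f * (n * (n - 1) / 2)) : k = 0 := by
  obtain ⟨d1, d2, d3, -⟩ := dg_fin n P.lt P.n4
  have one := Nat.one_le_pow k p hp.pos
  have a1 := (h1.dvd_iff hp.pos (Nat.mul_pos hf (by omega)) k).1 ((Nat.modEq_iff_dvd' one).1 e1.symm)
  have a2 := (h2.dvd_iff hp.pos (Nat.mul_pos hf (by omega)) k).1 ((Nat.modEq_iff_dvd' one).1 e2.symm)
  exact Nat.eq_zero_of_dvd_of_lt (Nat.lcm_mul_left f _ _ ▸ Nat.lcm_dvd a1 a2)
    (hk.trans_lt (Nat.mul_lt_mul_of_pos_left d3 hf))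

theorem UC.tight' (h : UC n (p ^ f) m r) (P : PwU n (p ^ f)) (hp : p.Prime) (hf : 0 < f)
    (hc : g * c = ordSU n (p ^ f)) (hz : c ∣ p ^ f + 1) :
    ∃ u : ℕ, u.Prime ∧ ¬ Ord (-(p ^ f : ℕ)) u ∣ m ∧ ¬ u ^ g.factorization u ≡ 1 [MOD r] := by
  by_contra hcon
  push Not at hcon
  have hn := P.n4
  have hq := P.q2
  have hm := h.top
  have ho := h.ord
  have hm3 : 3 ≤ m := by omega
  have h1 := hcon p hp (by
    rw [ord_p hp (dvd_pow_self p hf.ne'), zero_dvd_iff]
    omega)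
  rw [P.ppart hp hf hc hz, pow_mul] at h1
  generalize p ^ f = q at *
  have hodd : ¬ 4 ∣ m := by
    intro h4
    have h2 : (r : ℤ) ∣ (q : ℤ) ^ (n * (n - 1) / 2) - 1 := by
      exact_mod_cast Nat.modEq_iff_dvd.1 h1.symm
    have h3 : 2 * (n * (n - 1) / 2) = n * (n - 1) :=
      Nat.mul_div_cancel' (Nat.even_mul_pred_self n).two_dvd
    generalize n * (n - 1) / 2 = N at h2 h3
    have h5 : m ∣ 2 * N := by
      rw [← ho, ← Ord.dvd_iff, (even_two_mul N).neg_pow]
      exact (Ord.dvd_iff _).2 (((Ord.dvd_iff _).1 h2).mul_left 2)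
    have h6 : Even N := by
      have := h4.trans h5
      exact Nat.even_iff.2 (by omega)
    obtain ⟨t, ht⟩ : m ∣ N := by rwa [← ho, ← Ord.dvd_iff, h6.neg_pow]
    rw [ht] at h3
    rcases hm with rfl | rfl
    · have h7 : m * (2 * t) = m * (m - 1) := by rw [← h3]; ring
      have := Nat.eq_of_mul_eq_mul_left (by omega) h7
      omega
    · have h7 : m * (2 * t) = m * (m + 1) := by
        rw [Nat.add_sub_cancel] at h3
        rw [mul_comm m (m + 1), ← h3]; ring
      have := Nat.eq_of_mul_eq_mul_left (by omega) h7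
      omega
  obtain ⟨a, ha, h2, h3⟩ : ∃ a, 0 < a ∧ 2 ^ (a + 1) ≤ n ∧ n < 2 * 2 ^ (a + 1) := by
    have h1 : 2 ≤ Nat.log 2 n := Nat.le_log_of_pow_le (by norm_num) hn
    refine ⟨Nat.log 2 n - 1, by omega, ?_⟩
    rw [show Nat.log 2 n - 1 + 1 = Nat.log 2 n by omega]
    refine ⟨Nat.pow_log_le_self 2 (by omega), ?_⟩
    have := Nat.lt_pow_succ_log_self (b := 2) (by norm_num) n
    rw [Nat.succ_eq_add_one, pow_succ] at this
    omega
  rcases tight_end hq h.pr ha (fun u hu h4 hd => by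
    rw [← once_su hq hc hz ha h2 h3 hu h4 hd]
    refine hcon u hu fun k => hodd (Dvd.dvd.trans ?_ k)
    rw [ord_two_pow ha hu h4 hd]
    exact pow_dvd_pow 2 (by omega : 2 ≤ a + 1)) with k | k
  · have := ord_p h.pr k
    omega
  · have := Nat.le_of_dvd (by positivity) ((dvd_fu (by omega) r _).1 k)
    rw [pow_succ] at h2
    omega

end Pool.Agent.Lib.MP_7d41f7_al
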