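import Pool.Agent.Lib.MP_7d41f7_al.F.NDef
import Pool.Agent.Lib.MP_7d41f7_al.F.UA

/-! The loops over the small groups of rank two and the small unitary groups. -/

set_option autoImplicit false

namespace Pool.Agent.Lib.MP_7d41f7_al

/-- All numbers from `a` on and below `a + n`. -/
def oN (a n : ℕ) (p : ℕ → Bool) : Bool := Nat.rec true (fun i ih => fN (a + i) p && ih) n

/-- A test passed by the prime powers below `2 ^ 10`. -/
def oPP (q : ℕ) : Bool :=
  [2, 3, 5, 7, 11, 13, 17, 19, 23, 29, 31].all fun p => q % p != 0 || p ^ 10 % q == 0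

/-- The part of `x` prime to `y`. -/
def oCop (x y : ℕ) : ℕ := x / x.gcd (y ^ x.log2)

/-- The test for a group of rank two. -/
def oI (b : ℤ) (e E : ℕ) (d : ℕ → Ds) (q : ℕ) : Bool :=
  !oPP q || fN (tm b q) fun T => chkI (T * tw b q) [(T, T)] [T] T e E 2 [d q]

/-- The primes for which `-q` has order `m`. -/
def kU (q m : ℕ) : ℕ := oCop (fu q m) (Nat.rec 1 (fun j x => fu q (j + 1) * x) (m - 1))

/-- The bound for their neighbours. -/
def cU (q m : ℕ) : ℕ := if m % 2 = 1 ∧ q % 4 = 1 then oCop (fu q m) 2 else fu q m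

/-- The test for a unitary group. -/
def oU (n q : ℕ) : Bool :=
  !oPP q || fN (kU q n) fun a => fN (kU q (n - 1)) fun b =>
    chkM (Ds.uni n q).ord [(a, cU q n), (b, cU q (n - 1))] [a, b] (a * b) 2 [.uni n q]

theorem fN_o {α : Type} (x : ℕ) (k : ℕ → α) : fN x k = k x := by cases x <;> rfl

theorem oN_le {a n : ℕ} {p : ℕ → Bool} (h : oN a n p = true) {q : ℕ} (h1 : a ≤ q)
    (h2 : q < a + n) : p q = true := by
  induction n with
  | zero => omega
  | succ n ih =>
    replace h : (fN (a + n) p && oN a n p) = true := h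
    rw [Bool.and_eq_true, fN_o] at h
    rcases (by omega : q = a + n ∨ q < a + n) with rfl | e
    exacts [h.1, ih h.2 e]

theorem oPP_of {q : ℕ} (h : IsPrimePow q) (h1 : q < 2 ^ 10) : oPP q = true := by
  obtain ⟨p, f, hp, hf, rfl⟩ := (isPrimePow_nat_iff q).1 h
  refine List.all_eq_true.2 fun s hs => ?_
  have h2 : s.Prime := by
    simp only [List.mem_cons, List.not_mem_nil, or_false] at hs
    rcases hs with e | e | e | e | e | e | e | e | e | e | e <;> subst e <;> norm_num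
  simp only [Bool.or_eq_true, bne_iff_ne, beq_iff_eq]
  refine or_iff_not_imp_left.2 fun e => ?_
  obtain rfl : s = p := (Nat.prime_dvd_prime_iff_eq h2 hp).1
    (h2.dvd_of_dvd_pow (Nat.dvd_of_mod_eq_zero (not_not.1 e)))
  exact Nat.mod_eq_zero_of_dvd (pow_dvd_pow _ ((Nat.pow_lt_pow_iff_right one_lt_two).1
    ((Nat.pow_le_pow_left h2.two_le f).trans_lt h1)).le)

variable {x y r : ℕ}

theorem oCop_dvd : oCop x y ∣ x := Nat.div_dvd_of_dvd (Nat.gcd_dvd_left _ _)

theorem oCop_not (hx : x ≠ 0) (hr : r.Prime) (h : r ∣ oCop x y) : ¬ r ∣ y := fun e => by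
  have h1 : r ^ x.factorization r ∣ x.gcd (y ^ x.log2) := by
    refine Nat.dvd_gcd (Nat.ordProj_dvd x r) ((pow_dvd_pow r ?_).trans (pow_dvd_pow_of_dvd e _))
    exact (Nat.le_log2 hx).2 ((Nat.pow_le_pow_left hr.two_le _).trans
      (Nat.le_of_dvd (Nat.pos_of_ne_zero hx) (Nat.ordProj_dvd x r)))
  refine Nat.pow_succ_factorization_not_dvd hx hr ?_
  have := Nat.mul_dvd_mul h h1
  rwa [oCop, Nat.div_mul_cancel (Nat.gcd_dvd_left _ _), ← pow_succ'] at this

theorem dvd_oCop (hr : r.Prime) (h : r ∣ x) (e : ¬ r ∣ y) : r ∣ oCop x y := by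
  rw [← Nat.div_mul_cancel (Nat.gcd_dvd_left x (y ^ x.log2))] at h
  exact ((Nat.Prime.dvd_mul hr).1 h).resolve_right fun a =>
    e (hr.dvd_of_dvd_pow (a.trans (Nat.gcd_dvd_right _ _)))

end Pool.Agent.Lib.MP_7d41f7_al
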