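import Pool.Agent.Lib.MP_7d41f7_al.F.NGb
import Pool.Agent.Lib.MP_7d41f7_al.H.KD

/-! The checker for several primes with cyclic Sylow subgroups and for an isolated torus. -/

set_option autoImplicit false

namespace Pool.Agent.Lib.MP_7d41f7_al

open Subgroup Ar

variable {G : Type} [Group G] [Finite G] {bl M : List Blk} {g sel n : ℕ} {nd : List (ℕ × ℕ)}
  {hs : List ℕ} {al : List Ds}

theorem lnk_gcd {b : Blk} {r : ℕ} (d : r ∣ b.1) (l : List Blk)
    (h : ∀ c ∈ l, na b c = true → r ∣ c.1.pred) :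
    r ∣ rL l (fun c x => bif na b c then Nat.gcd c.1.pred x else x) b.1 := by
  induction l with
  | nil => exact d
  | cons c t ih =>
    have := ih fun a ha => h a (List.mem_cons_of_mem _ ha)
    show r ∣ bif na b c then Nat.gcd c.1.pred _ else _
    cases z : na b c
    exacts [this, Nat.dvd_gcd (h c List.mem_cons_self z) this]

/-- The selected blocks divide the order of a socle. -/
theorem lnk_sec (B : Bls G bl) (h1 : M.Sublist bl) (h2 : ∀ b ∈ M, b.2.2 ≠ 0)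
    (h : lnk bl M = true) :
    ∃ (K : Subgroup G) (_ : K.Normal) (H : Subgroup (G ⧸ K)),
      Sec K H ∧ Ar.Rs bl M (Nat.card H) := by
  simp only [lnk, Bool.and_eq_true, Bool.or_eq_true, aL_iff, eL_iff, fL_eq, mem_flt,
    Nat.beq_eq] at h
  obtain ⟨⟨b0, h0, -⟩, h⟩ := h
  have m := fun b (hb : b ∈ M) => h1.subset hb
  have p : ∀ b ∈ M, ∃ r, r.Prime ∧ r ∣ b.1 := fun b hb =>
    Nat.exists_prime_and_dvd (B.dvd b (m b hb)).1.ne'
  obtain ⟨K, _, H, a1, a2, a3, a4, a5, -⟩ := gsec2 (G := G)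
    (fun r => r.Prime ∧ ∃ b ∈ M, r ∣ b.1) (fun r ⟨hr, b, hb, d⟩ =>
      ⟨hr, d.trans (B.dvd b (m b hb)).2.1, (B.nd b (m b hb) (h2 b hb) r hr d).1, by
        by_contra e
        refine hr.not_dvd_one ((h b hb).1 ▸ lnk_gcd d bl fun c hc z => ?_)
        have := gcd_mod (m := r) B hc dvd_rfl fun u hu f => by_contra fun k =>
          have a := na_nad B hc (m b hb) (na_symm z) hu hr f d
          e ⟨u, hu, a.1, a.2, k⟩
        rw [Nat.gcd_eq_left (B.dvd c hc).2.1] at this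
        exact (Nat.modEq_iff_dvd' (B.dvd c hc).1.le).1 this.symm⟩)
    (fun r s ⟨hr, b, hb, d⟩ ⟨hs, c, hc, e⟩ => by
      obtain ⟨t, ⟨t1, t2⟩, t3 | t3⟩ := (h b hb).2 c hc
      · exact ⟨s, ⟨hs, c, hc, e⟩, na_nad B (m t t1) (m b hb) (na_symm t2) hs hr (t3 ▸ e) d, .inl rfl⟩
      · obtain ⟨u, hu, f⟩ := p t t1
        exact ⟨u, ⟨hu, t, t1, f⟩, na_nad B (m t t1) (m b hb) (na_symm t2) hu hr f d,
          .inr (na_nad B (m c hc) (m t t1) t3 hs hu e f)⟩)
    ((p b0 h0).imp fun r a => ⟨a.1, b0, h0, a.2⟩)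
  refine ⟨K, _, H, ⟨a1, a2, a3, a4⟩, h1, fun c hc => ?_⟩
  have d := (B.dvd c (m c hc)).2.1
  rw [card_eq_card_quotient_mul_card_subgroup K, ← H.card_mul_index] at d
  exact (Nat.coprime_of_dvd fun r hr f => (a5 r ⟨hr, c, hc, f⟩).2).dvd_of_dvd_mul_right
    ((Nat.coprime_of_dvd fun r hr f => (a5 r ⟨hr, c, hc, f⟩).1).dvd_of_dvd_mul_right d)

theorem chkM_out (hg : Nat.card G = g) (hn : ∀ x ∈ nd, ND G x.1 x.2)
    (h : chkM g nd hs sel n al = true) : Out G al := by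
  subst hg
  simp only [chkM, fN_eq, fL_eq, Bool.and_eq_true] at h
  have B := valid_bls rfl hn h.1
  obtain ⟨K, _, H, S, R⟩ := lnk_sec B (flt_eq _ _ ▸ List.filter_sublist) (fun b hb e => by
    simpa [z0_iff.2 e] using (mem_flt.1 hb).2) h.2.1
  exact ⟨K, _, H, S, core_sound S B (nf_of_sec S (dvd_zero _)) R h.2.2⟩

theorem chkI_out {T e E c : ℕ} (hg : Nat.card G = g) (hn : ∀ x ∈ nd, ND G x.1 x.2) {t : G}
    (I : Isol t c) (ht : orderOf t = T) (h : chkI g nd hs T e E n al = true) : Out G al :=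
  chkI_of (fun _ _ _ S => nf_of_sec S (dvd_zero _)) hg hn I ht h

end Pool.Agent.Lib.MP_7d41f7_al
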