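import Pool.Agent.Lib.MP_7d41f7_al.D.ZMain

/-! Sizes for the groups of rank two over fields with at least `2 ^ 10` elements. -/

set_option autoImplicit false

namespace Pool.Agent.Lib.MP_7d41f7_al

open Finset

variable {h m u v k q p f a c M N : ℕ} {b : ℤ}

/-- What is known about the order `h` of the socle. -/
structure OE (h : ℕ) (b : ℤ) (q : ℕ) : Prop where
  hb : TB b
  big : 2 ^ 10 ≤ q
  card : ∃ a, (a = 1 ∨ a = 2 ∧ b = 0) ∧ h * a = tm b q * tw b q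

theorem OE.dvd (K : OE h b q) : h ∣ tm b q * tw b q := K.card.elim fun _ e => Dvd.intro _ e.2

theorem OE.eq (K : OE h b q) : ∃ d : ℤ, 0 < d ∧ d ≤ 4 ∧ h * d = q ^ tee b * ((q ^ 2 - 1) *
    if b = 0 then (q : ℤ) ^ 4 - 1 else q ^ 3 - b) := by
  obtain ⟨a, h1, h2⟩ := K.card
  have := K.big
  obtain ⟨h3, h4⟩ := tdd_bd (q := q) K.hb
  refine ⟨a * tdd b q, by rcases h1 with rfl | ⟨rfl, -⟩ <;> omega, ?_, ?_⟩
  · rcases h1 with rfl | ⟨rfl, rfl⟩
    · omega
    · have := Int.le_of_dvd (by positivity) (Int.gcd_dvd_left (2 + 0 ^ 2) (tph 0 q))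
      unfold tdd
      omega
  rw [← mul_assoc, ← Nat.cast_mul, h2, Nat.cast_mul, mul_right_comm, tm_mul K.hb,
    tw_cast K.hb (by omega), tph]
  rcases K.hb with rfl | rfl | rfl <;> simp <;> ring

theorem OE.bd (K : OE h b q) : q ^ (2 * tee b + 2) ≤ 5 * h ∧ h ≤ 2 * q ^ (2 * tee b + 2) := by
  obtain ⟨d, h1, h2, h3⟩ := K.eq
  have := K.big
  have a : (h : ℤ) ≤ h * d := le_mul_of_one_le_right (by omega) h1
  have c : (h : ℤ) * d ≤ h * 4 := mul_le_mul_of_nonneg_left h2 (by omega)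
  rw [h3] at a c
  have q1 : (100 : ℤ) ≤ q := by omega
  zify
  generalize (q : ℤ) = x at *
  have e : ∀ i, 100 * x ^ i ≤ x ^ (i + 1) := fun i => by
    rw [pow_succ']
    exact mul_le_mul_of_nonneg_right q1 (by positivity)
  have := e 3
  have := e 4
  have := e 5
  have := e 6
  have := e 7
  have := e 8
  have := e 9
  have : 0 < x ^ 3 := by positivity
  rcases K.hb with rfl | rfl | rfl <;> simp [tee] at * <;> constructor <;> linarith

theorem OE.char (K : OE h b q) (hv : v.Prime) (h1 : v ^ k ∣ h) (h2 : h ≤ (v ^ k) ^ 3) : v ∣ q := by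
  by_contra c
  have := K.big
  have h3 := (tw_le K.hb (by omega) hv c (h1.trans K.dvd)).trans
    (show _ ≤ 5 * q ^ 2 by nlinarith)
  have h4 := (Nat.pow_le_pow_right (by omega : 0 < q) (show 6 + 1 ≤ 2 * tee b + 2 by
    unfold tee; split_ifs <;> omega)).trans (K.bd.1.trans
      (Nat.mul_le_mul_left 5 (h2.trans (Nat.pow_le_pow_left h3 3))))
  rw [mul_pow, ← pow_mul, pow_succ, ← mul_assoc, mul_comm (q ^ 6)] at h4
  have := Nat.le_of_mul_le_mul_right h4 (by positivity)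
  omega

theorem OE.ppart (K : OE h b (p ^ f)) (hp : p.Prime) (hf : 0 < f) (h1 : p ^ k ∣ h) :
    k ≤ f * tee b :=
  tw_ppart K.hb hp hf (((hp.coprime_iff_not_dvd.2 fun d => by
    have := tm_ord K.hb (pow_pos hp.pos f) hp d
    rw [Ord.eq_zero hp (Int.natCast_dvd_natCast.2 (dvd_pow_self p hf.ne'))] at this
    unfold tcl at this
    split_ifs at this).pow_left k).dvd_of_dvd_mul_left (h1.trans K.dvd))

theorem OE.same (K : OE h b (p ^ f)) (hp : p.Prime) (hv : v.Prime) (h1 : v ^ k ∣ h)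
    (h2 : h ^ a ≤ (v ^ k) ^ c) (h3 : 0 < a) (h4 : c ≤ 3 * a) : v = p :=
  (Nat.prime_dvd_prime_iff_eq hv hp).1 (hv.dvd_of_dvd_pow (K.char hv h1
    ((Nat.pow_le_pow_iff_left h3.ne').1 (h2.trans (pow_mul (v ^ k) 3 a ▸
      Nat.pow_le_pow_right (pow_pos hv.pos k) h4)))))

theorem OE.key (K : OE h b (p ^ f)) (h2 : h ^ a ≤ (p ^ k) ^ c) :
    p ^ (f * ((2 * tee b + 2) * a)) ≤ 5 ^ a * p ^ (k * c) := by
  rw [pow_mul, pow_mul, pow_mul p k]
  exact (Nat.pow_le_pow_left K.bd.1 a).trans (mul_pow 5 h a ▸ Nat.mul_le_mul_left _ h2)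

theorem OE.kill (K : OE h b (p ^ f)) (hp : p.Prime) (hf : 0 < f) (hv : v.Prime) (h1 : v ^ k ∣ h)
    (h2 : h ^ a ≤ (v ^ k) ^ c) (w : ℕ) (h3 : tee b * c + w ≤ (2 * tee b + 2) * a)
    (h4 : 5 ^ a < (2 ^ 10) ^ w) : False := by
  have e3 : 3 ≤ tee b := by unfold tee; split_ifs <;> omega
  have w0 : 0 < w := Nat.pos_of_ne_zero (by
    rintro rfl
    exact h4.not_ge (Nat.one_le_pow _ _ (by decide)))
  obtain rfl := K.same hp hv h1 h2 (by nlinarith) (by nlinarith)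
  have h5 := (K.key h2).trans (Nat.mul_le_mul_left _
    (Nat.pow_le_pow_right hp.pos (Nat.mul_le_mul_right c (K.ppart hp hf h1))))
  have h6 := (Nat.pow_le_pow_right hp.pos (Nat.mul_le_mul_left f h3)).trans h5
  rw [mul_add, pow_add, ← mul_assoc, mul_comm, pow_mul v f w] at h6
  exact (h4.trans_le (Nat.pow_le_pow_left K.big w)).not_ge
    (Nat.le_of_mul_le_mul_right h6 (pow_pos hp.pos _))

theorem OE.tight (K : OE h b (p ^ f)) (hp : p.Prime) (hf : 0 < f) (hv : v.Prime) (h1 : v ^ k ∣ h)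
    (h2 : h ^ a ≤ (v ^ k) ^ c) (h3 : tee b * c = (2 * tee b + 2) * a) (h4 : 5 ^ a < 2 ^ c)
    (h0 : 0 < a) : v = p ∧ k = f * tee b := by
  have e3 : 3 ≤ tee b := by unfold tee; split_ifs <;> omega
  obtain rfl := K.same hp hv h1 h2 h0 (by nlinarith)
  refine ⟨rfl, (K.ppart hp hf h1).antisymm (not_lt.1 fun l => ?_)⟩
  have h5 := K.key h2
  rw [← h3, ← mul_assoc] at h5
  have h6 := (Nat.pow_le_pow_right hp.pos (Nat.mul_le_mul_right c l)).trans h5
  rw [Nat.succ_eq_add_one, add_mul, one_mul, pow_add, mul_comm] at h6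
  exact (h4.trans_le (Nat.pow_le_pow_left hp.two_le c)).not_ge
    (Nat.le_of_mul_le_mul_right h6 (pow_pos hp.pos _))

theorem OE.low (K : OE h b (p ^ f)) (hp : p.Prime) {d W : ℤ} (hh : h * d = u ^ N * W)
    (hW : ¬ (p : ℤ) ∣ W) (hu : 0 < u) (h2 : u ^ M ≤ 6 * h) (w : ℕ)
    (h3 : w + (2 * tee b + 2) * N ≤ tee b * M) (h4 : 2 ^ M * 12 ^ N < (2 ^ 10) ^ w) : False := by
  have q0 := pow_pos hp.pos f
  obtain ⟨a, h5, h6⟩ := K.card
  have d1 : ((p ^ f : ℕ) : ℤ) ^ tee b ∣ 2 * u ^ N * W := by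
    rw [mul_assoc, ← hh, ← mul_assoc]
    refine ((Dvd.intro _ (tw_cast K.hb q0).symm).trans ?_).mul_right d
    exact_mod_cast (Dvd.intro_left _ h6.symm).trans (show _ ∣ 2 * h by
      rcases h5 with rfl | ⟨rfl, -⟩ <;> simp [mul_comm])
  rw [Nat.cast_pow, ← pow_mul] at d1
  have d2 := (((Nat.prime_iff_prime_int.1 hp).coprime_iff_not_dvd.2 hW).pow_left
    ).dvd_of_dvd_mul_right d1
  have l1 : (p ^ f) ^ tee b ≤ 2 * u ^ N := Nat.le_of_dvd (by positivity)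
    (by rw [← pow_mul]; exact_mod_cast d2)
  have l2 := Nat.pow_le_pow_left (h2.trans (Nat.mul_le_mul_left 6 K.bd.2)) N
  have l3 := (Nat.pow_le_pow_right q0 h3).trans ((pow_mul _ _ M).trans_le
    (Nat.pow_le_pow_left l1 M))
  rw [mul_pow, pow_right_comm u] at l3
  have l4 := l3.trans (Nat.mul_le_mul_left _ l2)
  rw [← mul_assoc 6, mul_pow, ← pow_mul _ _ N, pow_add, ← mul_assoc] at l4
  exact (h4.trans_le (Nat.pow_le_pow_left K.big w)).not_ge
    (Nat.le_of_mul_le_mul_right l4 (pow_pos q0 _))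

end Pool.Agent.Lib.MP_7d41f7_al
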