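import Pool.Agent.Lib.MP_7d41f7_al.F.RegL

/-! Regular numbers: the centraliser of an element of prime order. -/

set_option autoImplicit false

namespace Pool.Agent.Lib.MP_7d41f7_al

open Polynomial Finset

/-- The values of the monic polynomials of degree `j ≤ 2` whose roots are roots of unity. -/
def Cof (j : ℕ) (q G : ℤ) : Prop :=
  j = 0 ∧ G = 1 ∨ j = 1 ∧ (G = q - 1 ∨ G = q + 1) ∨
    j = 2 ∧ (G = q ^ 2 - 1 ∨ ∃ a, -2 ≤ a ∧ a ≤ 2 ∧ G = q ^ 2 + a * q + 1)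

theorem cof_of {g : ℤ[X]} {o k : ℕ} (hg : g.Monic) (ho : 0 < o) (h : g ∣ (X ^ o - 1) ^ k)
    (hd : g.natDegree ≤ 2) (q : ℤ) : Cof g.natDegree q (g.eval q) := by
  have key : ∀ z : ℂ, aeval z g = 0 → ‖z‖ = 1 := fun z hz => by
    have := aeval_eq_zero_of_dvd_aeval_eq_zero h hz
    rw [map_pow, map_sub, map_pow, aeval_X, map_one] at this
    exact Complex.norm_eq_one_of_pow_eq_one (sub_eq_zero.1 (pow_eq_zero_iff'.1 this).1) ho.ne'
  have c := hg.coeff_natDegree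
  obtain e | e | e : g.natDegree = 0 ∨ g.natDegree = 1 ∨ g.natDegree = 2 := by omega
  · exact .inl ⟨e, by rw [hg.natDegree_eq_zero.1 e, eval_one]⟩
  · refine .inr (.inl ⟨e, ?_⟩)
    have e1 := hg.eq_X_add_C e
    generalize g.coeff 0 = a at e1
    have := key (-a) (by simp [e1])
    rw [norm_neg, Complex.norm_intCast, ← Int.cast_abs, ← Int.cast_one, Int.cast_inj] at this
    rcases (abs_eq zero_le_one).1 this with rfl | rfl <;> simp [e1, sub_eq_add_neg]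
  · refine .inr (.inr ⟨e, ?_⟩)
    have e1 : ∀ z : ℂ, aeval z g = z ^ 2 + g.coeff 1 * z + g.coeff 0 := fun z => by
      rw [e] at c
      simp [aeval_eq_sum_range, e, sum_range_succ, c]
      ring
    have e2 : g.eval q = q ^ 2 + g.coeff 1 * q + g.coeff 0 := by
      rw [e] at c
      simp [eval_eq_sum_range, e, sum_range_succ, c]
      ring
    obtain ⟨z, hz⟩ := IsAlgClosed.exists_aeval_eq_zero ℂ g (by
      rw [degree_eq_natDegree hg.ne_zero, e]; decide)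
    have h1 := key z hz
    have h2 := key (-g.coeff 1 - z) (by rw [e1] at hz ⊢; linear_combination hz)
    rw [e1] at hz
    rw [e2]
    generalize g.coeff 1 = a, g.coeff 0 = b at *
    have h3 := Complex.sq_norm z
    have h4 := Complex.sq_norm (-a - z)
    have h5 := congrArg Complex.re hz
    have h6 := congrArg Complex.im hz
    rw [h1] at h3
    rw [h2] at h4
    simp [Complex.normSq_apply, sq] at h3 h4 h5 h6
    generalize z.re = x, z.im = y at *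
    have h7 : (a : ℝ) * (a + 2 * x) = 0 := by linear_combination h3 - h4
    rcases mul_eq_zero.1 h7 with h8 | h8
    · obtain rfl : a = 0 := by exact_mod_cast h8
      have h9 : ((b ^ 2 : ℤ) : ℝ) = (1 ^ 2 : ℤ) := by
        push_cast at *
        linear_combination (b - (x * x - y * y)) * h5 - (x * y + y * x) * h6 - (1 + x * x + y * y) * h3
      rcases sq_eq_sq_iff_eq_or_eq_neg.1 (Int.cast_injective h9) with rfl | rfl
      · exact .inr ⟨0, by omega, by omega, rfl⟩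
      · exact .inl (by ring)
    · obtain rfl : b = 1 := Int.cast_injective (α := ℝ) (by
        push_cast
        linear_combination h5 - x * h8 - h3)
      refine .inr ⟨a, ?_, ?_, rfl⟩ <;> refine Int.cast_le (R := ℝ).1 ?_ <;> push_cast <;> nlinarith

theorem card_eig {l q : ℕ} {K Z : Type} [Field K] [Finite K] [Group Z] (A : Module.End ℤ (Lat l))
    (ψ : Z →* Multiplicative (Lat l) →* Kˣ) (hi : Function.Injective ψ)
    (h : ∀ z b, ψ z (.ofAdd (A b)) = ψ z (.ofAdd b) ^ q) :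
    (Nat.card Z : ℤ) ∣ A.charpoly.eval (q : ℤ) := by
  by_cases h0 : A.charpoly.eval (q : ℤ) = 0
  · exact h0 ▸ dvd_zero _
  rw [LinearMap.eval_charpoly] at h0 ⊢
  generalize hf : algebraMap ℤ (Module.End ℤ (Lat l)) q - A = f at h0
  have f1 : Function.Injective f := LinearMap.ker_eq_bot.1 (by_contra fun e =>
    h0 (LinearMap.det_eq_zero_iff_ker_ne_bot.2 e))
  have f2 : (LinearMap.det f).natAbs = _ :=
    Submodule.natAbs_det_equiv (LinearMap.range f) (LinearEquiv.ofInjective f f1)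
  let N : Subgroup (Multiplicative (Lat l)) := (LinearMap.range f).toAddSubgroup.toSubgroup
  have f3 : Nat.card (Multiplicative (Lat l) ⧸ N) = (LinearMap.det f).natAbs :=
    (AddSubgroup.index_toSubgroup _).trans f2.symm
  have : Finite (Multiplicative (Lat l) ⧸ N) :=
    Nat.finite_of_card_ne_zero (f3 ▸ Int.natAbs_ne_zero.2 h0)
  have : NeZero (Nat.card Kˣ) := ⟨Nat.card_pos.ne'⟩
  let ι : Kˣ →* ℂˣ := (Subgroup.subtype _).comp
    (mulEquivOfCyclicCardEq (Complex.card_rootsOfUnity (Nat.card Kˣ)).symm).toMonoidHom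
  have i1 : Function.Injective ι := Subtype.val_injective.comp (MulEquiv.injective _)
  have : NeZero (Monoid.exponent (Multiplicative (Lat l) ⧸ N) : ℂ) :=
    ⟨Nat.cast_ne_zero.2 Monoid.exponent_ne_zero_of_finite⟩
  rw [Int.natCast_dvd, ← f3, ← CommGroup.card_monoidHom_of_hasEnoughRootsOfUnity
    (Multiplicative (Lat l) ⧸ N) ℂ]
  refine (Subgroup.card_dvd_of_injective (((MonoidHom.compHom ι).comp ψ).codRestrict
    (MonoidHom.compHom' (QuotientGroup.mk' N)).range fun z => ?_) fun z z' e => hi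
      (MonoidHom.ext fun b => i1 (DFunLike.congr_fun (congrArg Subtype.val e) b))).trans
    (Subgroup.card_range_dvd _)
  refine ⟨QuotientGroup.lift N (ι.comp (ψ z)) ?_, MonoidHom.ext fun b => rfl⟩
  rintro _ ⟨b, e⟩
  have e1 : ψ z (.ofAdd (f b)) = 1 := by
    rw [← hf, LinearMap.sub_apply, Module.algebraMap_end_apply, ofAdd_sub, _root_.map_div,
      chr_smul, h, zpow_natCast, div_self']
  rw [e] at e1
  exact (congrArg ι e1).trans ι.map_one

namespace CG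

variable {l : ℕ} {M : Matrix (Fin l) (Fin l) ℤ} {L Γ' : Type} [Field L] [Group Γ']
  {C' : CG M L Γ'} {g₀ g₁ : Equiv.Perm (Fin l)} {σ F : Γ' →* Γ'} {f' : L →+* L} {q r : ℕ}

theorem reg_core (hA : Ade M) [Finite L] [Finite Γ'] (hS₀ : Sy M g₀) (hS₁ : Sy M g₁)
    (hg : g₀ * g₁ = g₁ * g₀) (hσ : C'.Hom C' σ (RingHom.id L) (ga g₀))
    (hF : C'.Hom C' F f' (ga g₁)) (hf : ∀ a, f' a = a ^ q) {l' : ℕ} (e : Fin l → Fin l')
    (d : Fin l' → Fin l) (hd : ∀ j, e (d j) = j) (he : ∀ i j, e i = e j ↔ g₀.SameCycle i j)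
    (hr : r.Prime) (hl : Gd M r) (hK : r ^ 7 ∣ Nat.card L - 1) (h6 : Ord q r ∣ (roots M).card)
    (h7 : 7 ≤ Ord q r) (hφ : l ≤ (Ord q r).totient + 2) {y : Γ'} (y1 : σ y = y) (y2 : F y = y)
    (y3 : y ^ r = 1) (y4 : y ≠ 1) {Z : Type} [Group Z] (ρ : Z →* Γ') (hρ : Function.Injective ρ)
    (hZ : ∀ z, σ (ρ z) = ρ z ∧ F (ρ z) = ρ z ∧ Commute y (ρ z)) : (∀ z z' : Z, Commute z z') ∧
      ∃ G, Cof (l' - (Ord q r).totient) q G ∧
        (Nat.card Z : ℤ) ∣ (cyclotomic (Ord q r) ℤ).eval (q : ℤ) * G := by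
  obtain ⟨x, x1, x2, -⟩ := tor2 hA hS₀ hσ hr hr hl hl hK hK y1 y1 y3 y3 (Commute.refl y)
  obtain ⟨u, hu, n, v, hv, x3⟩ := bruhat (C := C') hA (x⁻¹ * F x)
  obtain ⟨χ, hχ⟩ := exists_chi hA x2
  have w1 := mem_Wf.1 (tor4 hA hS₀ hσ hF (hom_comm hA hS₀ hS₁ hg hσ hF) hu hv x3 x1)
  have a1 : ∀ a b, ip M ((C'.π n * ga g₁) a) ((C'.π n * ga g₁) b) = ip M a b := fun a b =>
    (hA.W_ip w1.1 _ _).trans (hS₁.ip a b)
  have a2 : C'.π n * ga g₁ * ga g₀ = ga g₀ * (C'.π n * ga g₁) := by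
    rw [mul_assoc, ← ga_mul, ← hg, ga_mul, ← mul_assoc, w1.2, mul_assoc]
  obtain ⟨A, P, p1, p2, p3, p4, p5⟩ := lat_quot (K := L) e d hd he (pow_orderOf_eq_one _) a2
  have key : ∀ z, σ z = z → F z = z → x⁻¹ * z * x ∈ C'.T → ∀ ψ, C'.Chi (x⁻¹ * z * x) ψ →
      ∃ ψ' : Multiplicative (Lat l') →* Lˣ, (∀ b, ψ (.ofAdd b) = ψ' (.ofAdd (P b))) ∧
        ∀ b, ψ' (.ofAdd (A b)) = ψ' (.ofAdd b) ^ q := fun z z1 z2 z3 ψ hψ => by
    obtain ⟨ψ', h⟩ := p5 ψ (tor5 hA hS₀ hσ x1 z1 z3 hψ)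
    refine ⟨ψ', h, p3.forall.2 fun b => ?_⟩
    rw [← p4, ← h, ← h]
    exact tor3 hA hS₁ hF hf hu hv x3 z2 z3 hψ b
  obtain ⟨χ', c1, c2⟩ := key y y1 y2 x2 χ hχ
  have cj : ∀ (z : Γ') (i : ℕ), (x⁻¹ * z * x) ^ i = 1 ↔ z ^ i = 1 := fun z i => by
    have := conj_pow (a := x⁻¹) (b := z) (i := i)
    rw [inv_inv] at this
    rw [this, mul_assoc, inv_mul_eq_one, eq_comm, mul_eq_right]
  have c5 : χ ^ r = 1 := Chi.uniq hA (hχ.pow r) ((cj y r).2 y3 ▸ Chi.one)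
  have c6 : χ ≠ 1 := fun h => y4 (by
    simpa using (cj y 1).1 ((pow_one _).trans (Chi.eq x2 (one_mem _) hχ (h ▸ Chi.one))))
  have c3 : χ' ^ r = 1 := MonoidHom.ext fun b => by
    obtain ⟨a, ha⟩ := p3 b.toAdd
    have := DFunLike.congr_fun c5 (.ofAdd a)
    rwa [MonoidHom.pow_apply, c1, ha] at this
  have c4 : χ' ≠ 1 := fun h => c6 (MonoidHom.ext fun b => (c1 b.toAdd).trans (by rw [h]; rfl))
  have rg := hA.chr_reg hr hl a1 c5 c6 (tor3 hA hS₁ hF hf hu hv x3 y2 x2 hχ) h6 h7 hφ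
  have hT : ∀ z, x⁻¹ * ρ z * x ∈ C'.T := fun z => by
    have z4 : x⁻¹ * y * x * (x⁻¹ * ρ z * x) = x⁻¹ * ρ z * x * (x⁻¹ * y * x) := by
      simp only [mul_assoc, mul_inv_cancel_left]
      rw [← mul_assoc y, (hZ z).2.2.eq, mul_assoc]
    let m : C'.N := ⟨_, reg_N hA x2 x2 hχ rg z4⟩
    exact mem_T.2 ⟨m, hA.chr_free hr hl c5 rg (C'.π_mem m)
      (hχ.conj hA m (by rw [← z4, mul_inv_cancel_right]; exact hχ)), rfl⟩
  have hm : ∀ z z', x⁻¹ * ρ (z * z') * x = x⁻¹ * ρ z * x * (x⁻¹ * ρ z' * x) := fun z z' => by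
    rw [map_mul]
    group
  have hi : ∀ z z', x⁻¹ * ρ z * x = x⁻¹ * ρ z' * x → z = z' := fun z z' h =>
    hρ (mul_left_cancel (mul_right_cancel h))
  refine ⟨fun z z' => hi _ _ (by rw [hm, hm, (T_comm hA (hT z) (hT z')).eq]), ?_⟩
  obtain ⟨G, hG⟩ := lat_one p1 hr (hA.not_dvd_ord hr hl a1) c3 c4 c2
  have g1 := (cyclotomic.monic _ ℤ).of_mul_monic_left (hG ▸ LinearMap.charpoly_monic _)
  have g2 := (cyclotomic.monic (Ord q r) ℤ).natDegree_mul g1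
  rw [← hG, LinearMap.charpoly_natDegree, Module.finrank_fin_fun, natDegree_cyclotomic] at g2
  have g3 : l' ≤ l := by simpa using Fintype.card_le_of_injective d (Function.LeftInverse.injective hd)
  obtain ⟨k, hk⟩ := charpoly_dvd p1
  have g4 := cof_of g1 (hA.iso_fin a1).orderOf_pos ((Dvd.intro_left _ hG.symm).trans hk)
    (by omega) q
  refine ⟨_, by rwa [show G.natDegree = l' - (Ord q r).totient by omega] at g4, ?_⟩
  rw [← eval_mul, ← hG]
  choose ψ hψ using fun z => exists_chi hA (hT z)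
  choose ψ' s1 s2 using fun z => key _ (hZ z).1 (hZ z).2.1 (hT z) _ (hψ z)
  refine card_eig _ (MonoidHom.mk' ψ' fun z z' => MonoidHom.ext fun b => ?_) (fun z z' h => ?_) s2
  · obtain ⟨a, ha⟩ := p3 b.toAdd
    have := DFunLike.congr_fun (Chi.uniq hA (hψ (z * z')) (hm z z' ▸ (hψ z).mul (hψ z')))
      (.ofAdd a)
    rwa [MonoidHom.mul_apply, s1, s1, s1, ha] at this
  · refine hi _ _ (Chi.eq (hT z) (hT z') (hψ z) ((MonoidHom.ext fun b => ?_ : ψ z' = ψ z) ▸ hψ z'))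
    exact ((s1 z' b.toAdd).trans (DFunLike.congr_fun h _).symm).trans (s1 z b.toAdd).symm

end CG

variable {l l' : ℕ} {M : Matrix (Fin l) (Fin l) ℤ} {g g₀ g₁ : Equiv.Perm (Fin l)}
  {k q r : ℕ} {S : Type} [Group S]

theorem Tp.reg (T : Tp M g g₀ g₁ k l') (h : IsCh S M g k q) (hr : r.Prime) (hl : Gd M r)
    (h6 : Ord q r ∣ (roots M).card) (h7 : 7 ≤ Ord q r) (hφ : l ≤ (Ord q r).totient + 2) {y : S}
    (hy : orderOf y = r) : IsMulCommutative (Cx y) ∧ ∃ G, Cof (l' - (Ord q r).totient) q G ∧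
      (Nat.card (Cx y) : ℤ) ∣ (cyclotomic (Ord q r) ℤ).eval (q : ℤ) * G := by
  obtain ⟨K, _, _, f, τ, hK, hf, hτ, ⟨ι⟩⟩ := T.model h
  obtain ⟨L, _, _, j, f', φ, σ, F, b1, b2, -, b4, -, b6, b7, b8⟩ :=
    T.big hK hf hτ ((Tp.lat_aux hr (by omega)).pow_left 7)
  obtain ⟨s0, s1, s2⟩ : Sy M g₀ ∧ Sy M g₁ ∧ g₀ * g₁ = g₁ * g₀ := by
    rcases T.md with ⟨rfl, rfl, -⟩ | ⟨rfl, rfl, -⟩
    · exact ⟨Sy.one, T.sy, by simp⟩
    · exact ⟨T.sy, Sy.one, by simp⟩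
  obtain ⟨e, d, hd, he⟩ := T.qu
  let ρ : S →* Chev M L := φ.comp ((Subgroup.subtype _).comp ι.toMonoidHom)
  have r1 : Function.Injective ρ := b4.comp (Subtype.val_injective.comp ι.injective)
  have r2 : ∀ y, σ (ρ y) = ρ y ∧ F (ρ y) = ρ y := fun y => (b8 _).1 (CG.St_fix (ι y).2)
  obtain ⟨h1, h2⟩ := CG.reg_core T.ade s0 s1 s2 b6 b7 b2 e d hd he hr hl b1 h6 h7 hφ (r2 y).1
    (r2 y).2 (by rw [← map_pow, ← hy, pow_orderOf_eq_one, map_one])
    (fun e => hr.ne_one (hy ▸ orderOf_eq_one_iff.2 (r1 (e.trans (map_one ρ).symm))))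
    (ρ.comp (Cx y).subtype) (r1.comp Subtype.val_injective) fun z => ⟨(r2 _).1, (r2 _).2,
      Commute.map (Subgroup.mem_centralizer_singleton_iff.1 z.2).symm ρ⟩
  exact ⟨⟨⟨h1⟩⟩, h2⟩

end Pool.Agent.Lib.MP_7d41f7_al
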