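import Pool.Agent.Lib.MP_7d41f7_al.E.ETor
import Pool.Agent.Lib.MP_7d41f7_al.E.EPb
import Pool.Agent.Lib.MP_7d41f7_al.E.EPc

/-! Regular numbers: the lattice part. -/

set_option autoImplicit false

namespace Pool.Agent.Lib.MP_7d41f7_al

open Polynomial Finset
open Matrix hiding zpow_add zpow_mul one_zpow zpow_sub

variable {l : ℕ} {M : Matrix (Fin l) (Fin l) ℤ}

theorem perm_dvd {X : Type} [Fintype X] (σ : Equiv.Perm X) {e : ℕ} (he : 1 < e)
    (h : ∀ x k, (σ ^ k) x = x → e ∣ k) : e ∣ Fintype.card X := by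
  classical
  have h1 : σ.support = univ := eq_univ_of_forall fun x => Equiv.Perm.mem_support.2 fun c => by
    have := Nat.le_of_dvd one_pos (h x 1 c)
    omega
  rw [← card_univ, ← h1, ← σ.sum_cycleType]
  refine Multiset.dvd_sum fun n hn => ?_
  obtain ⟨c, τ, rfl, h2, h3, rfl⟩ := Equiv.Perm.mem_cycleType_iff.1 hn
  obtain ⟨x, hx, -⟩ := id h3
  refine h x _ ?_
  rw [h2.commute.mul_pow, ← h3.orderOf, pow_orderOf_eq_one, one_mul]
  exact Equiv.Perm.pow_apply_eq_self_of_apply_eq_self ((h2 x).resolve_left hx) _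

theorem Ade.card_roots (hA : Ade M) {m : ℕ} {a b : ℤ → ℤ} (hp : Pn M 1 1 1 univ m a b) :
    (roots M).card = 2 * m := by
  classical
  obtain ⟨p, hp, -⟩ := hp
  obtain ⟨w, hw, e⟩ := hA.exists_w0f (Sy.one (M := M))
  rw [← hA.dia.WF_univ] at hw
  have h0 : ∀ S : Finset (Lat l), nu 1 1 1 S = S.card := fun S => by simp [nu]
  have h1 : (posR M).card = m := by
    obtain ⟨n, hn, h1⟩ := hp.dvd w hw
    obtain ⟨v, -, h2⟩ := hp.top
    rw [h0, one_mul] at h1 h2
    refine le_antisymm (e ▸ h1 ▸ hn) ?_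
    rw [← h2]
    exact card_le_card fun c hc => mem_posR.2 ⟨(mem_ivs.1 hc).1, (mem_ivs.1 hc).2.1⟩
  have h2 : ((roots M).filter fun a => ¬ 0 ≤ a).card = (posR M).card :=
    card_nbij' (fun a => -a) (fun a => -a)
      (fun a ha => by
        obtain ⟨a1, a2⟩ := mem_filter.1 (mem_coe.1 ha)
        exact mem_coe.2 (mem_posR.2 ⟨hA.neg_mem a1, (hA.not_pos_iff a1).1 a2⟩))
      (fun a ha => by
        obtain ⟨a1, a2⟩ := mem_posR.1 (mem_coe.1 ha)
        exact mem_coe.2 (mem_filter.2 ⟨hA.neg_mem a1, hA.ivs_mul_rf_aux1 a1 a2⟩))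
      (fun a _ => neg_neg a) fun a _ => neg_neg a
  rw [← card_filter_add_card_filter_not (fun a => 0 ≤ a), h2, two_mul, ← h1]
  rfl

/-- At most six roots lie in a plane. -/
theorem Ade.six (hA : Ade M) (O : Submodule ℤ (Lat l)) (Ψ : Finset (Lat l))
    (h : ∀ a ∈ Ψ, a ∈ roots M ∧ a ∈ O)
    (hd : ∀ a ∈ O, ∀ b ∈ O, ∀ c ∈ O, ¬ LinearIndependent ℤ ![a, b, c]) : Ψ.card ≤ 6 := by
  classical
  have dep : ∀ a ∈ O, ∀ b ∈ O, ∀ c ∈ O, ∃ s t v : ℤ, s • a + t • b + v • c = 0 ∧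
      ¬ (s = 0 ∧ t = 0 ∧ v = 0) := fun a ha b hb c hc => by
    obtain ⟨g, g1, i, g2⟩ := Fintype.not_linearIndependent_iff.1 (hd a ha b hb c hc)
    refine ⟨g 0, g 1, g 2, by simpa [Fin.sum_univ_three] using g1, fun ⟨e0, e1, e2⟩ => g2 ?_⟩
    fin_cases i <;> assumption
  rcases Ψ.eq_empty_or_nonempty with rfl | ⟨a, ha⟩
  · simp
  by_cases hb : ∀ b ∈ Ψ, b = a ∨ b = -a
  · exact (card_le_card (t := {a, -a}) fun b hb' => by simpa using hb b hb').trans
      (card_le_two.trans (by omega))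
  push Not at hb
  obtain ⟨b, hb, b1, b2⟩ := hb
  have aa := hA.mem_roots.1 (h a ha).1
  have bb := hA.mem_roots.1 (h b hb).1
  have x1 : ip M a b = -1 ∨ ip M a b = 0 ∨ ip M a b = 1 := by
    have := hA.ip_cases (h a ha).1 (h b hb).1
    tauto
  have bd : ∀ a ∈ Ψ, ∀ c ∈ Ψ, ip M a c ∈ Icc (-2 : ℤ) 2 := fun a ha c hc => by
    have := hA.cs a c
    rw [hA.mem_roots.1 (h a ha).1, hA.mem_roots.1 (h c hc).1] at this
    exact mem_Icc.2 (abs_le_of_sq_le_sq' this (by norm_num))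
  refine (card_le_card_of_injOn (t := (Icc (-2 : ℤ) 2 ×ˢ Icc (-2 : ℤ) 2).filter fun p =>
    4 + ip M a b * p.1 * p.2 = ip M a b ^ 2 + p.1 ^ 2 + p.2 ^ 2) (fun c => (ip M a c, ip M b c))
    (fun c hc => ?_) fun c hc c' hc' e => ?_).trans ?_
  · refine mem_coe.2 (mem_filter.2 ⟨mem_product.2 ⟨bd a ha c hc, bd b hb c hc⟩, ?_⟩)
    obtain ⟨s, t, v, e, e0⟩ := dep a (h a ha).2 b (h b hb).2 c (h c hc).2
    have cc := hA.mem_roots.1 (h c hc).1
    have e1 := congrArg (ip M a) e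
    have e2 := congrArg (ip M b) e
    have e3 := congrArg (ip M c) e
    simp only [ip_add_right, ip_smul_right, ip_zero_right, aa, bb, cc, ip_comm b a, ip_comm c a,
      ip_comm c b] at e1 e2 e3
    dsimp only
    generalize ip M a b = x, ip M a c = y, ip M b c = z at *
    by_contra e4
    have e5 : 2 * (4 + x * y * z - (x ^ 2 + y ^ 2 + z ^ 2)) ≠ 0 :=
      mul_ne_zero two_ne_zero (sub_ne_zero.2 e4)
    refine e0 ⟨mul_left_cancel₀ e5 ?_, mul_left_cancel₀ e5 ?_, mul_left_cancel₀ e5 ?_⟩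
    · linear_combination (4 - z ^ 2) * e1 + (y * z - 2 * x) * e2 + (x * z - 2 * y) * e3
    · linear_combination (y * z - 2 * x) * e1 + (4 - y ^ 2) * e2 + (x * y - 2 * z) * e3
    · linear_combination (x * z - 2 * y) * e1 + (x * y - 2 * z) * e2 + (4 - x ^ 2) * e3
  · obtain ⟨s, t, v, e6, e0⟩ := dep a (h a ha).2 b (h b hb).2 (c - c')
      (sub_mem (h c hc).2 (h c' hc').2)
    obtain ⟨e7, e8⟩ := Prod.mk.inj e
    have e1 := congrArg (ip M a) e6
    have e2 := congrArg (ip M b) e6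
    simp only [ip_add_right, ip_smul_right, ip_zero_right, ip_sub_right, aa, bb, ip_comm b a, e7,
      e8, sub_self] at e1 e2
    obtain ⟨rfl, rfl⟩ : s = 0 ∧ t = 0 := by rcases x1 with x1 | x1 | x1 <;> rw [x1] at e1 e2 <;> omega
    rw [zero_smul, zero_smul, zero_add, zero_add, smul_eq_zero, sub_eq_zero] at e6
    exact e6.resolve_left fun e => e0 ⟨rfl, rfl, e⟩
  · rcases x1 with x1 | x1 | x1 <;> rw [x1] <;> decide

/-- The stabiliser of a functional that is not zero on any root is trivial. -/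
theorem Ade.reg_stab (hA : Ade M) {ω : Lat l} {w : Au l} (hω : ∀ b ∈ roots M, ω ⬝ᵥ b ≠ 0)
    (hw : w ∈ Wg M) (h : fact ω w = ω) : w = 1 := by
  have := hA.W_finite
  obtain ⟨μ, hμ, -⟩ := hA.exists_rho
  obtain ⟨u, hu⟩ := Finite.exists_max fun u : Wg M => ω ⬝ᵥ u.1 μ
  have h0 : 0 ≤ fact ω u := fun i => by
    have := hu (u * ⟨_, hA.rf_mem (hA.sr_mem i)⟩)
    change ω ⬝ᵥ u.1 (rf M (sr i) μ) ≤ _ at this
    rw [hA.rf_apply (hA.sr_mem i), hμ, hgt_sr, map_sub, map_smul, dotProduct_sub,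
      dotProduct_smul, smul_eq_mul] at this
    change 0 ≤ ω ⬝ᵥ u.1 (sr i)
    omega
  have h1 := hA.stab (J := univ) (w := u.1⁻¹ * w * u.1) h0
    (hA.Wg_eq ▸ mul_mem (mul_mem (inv_mem u.2) hw) u.2) (by
      rw [← fact_mul, ← mul_assoc, ← mul_assoc, mul_inv_cancel, one_mul, fact_mul, h])
  rw [(filter_eq_empty_iff (p := fun i => fact ω u i = 0)).2 fun i _ =>
    hω _ ((hA.W_root u.2).2 (hA.sr_mem i))] at h1
  have h2 : u.1⁻¹ * w * u.1 = 1 := by simpa [WJ] using h1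
  rwa [mul_assoc, inv_mul_eq_one, eq_comm, mul_eq_right] at h2

variable {K : Type} [Field K] {χ : Multiplicative (Lat l) →* Kˣ} {q r : ℕ}

/-- The stabiliser of a character in the Weyl group. -/
theorem Ade.exists_stab (hA : Ade M) (hr : r.Prime) (hl : Gd M r)
    (χ : Multiplicative (Lat l) →* Kˣ) : ∃ (H : Subgroup (Au l)) (_ : Fintype H),
      (∀ w, w ∈ H ↔ w ∈ Wg M ∧ ∀ b, χ (.ofAdd (w b)) = χ (.ofAdd b)) ∧ ¬ r ∣ Fintype.card H := by
  have := hA.W_finite
  have := Fact.mk hr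
  let H : Subgroup (Au l) :=
    { carrier := {w | w ∈ Wg M ∧ ∀ b, χ (.ofAdd (w b)) = χ (.ofAdd b)}
      one_mem' := ⟨one_mem _, fun _ => rfl⟩
      mul_mem' := fun ha hb => ⟨mul_mem ha.1 hb.1, fun c => (ha.2 _).trans (hb.2 c)⟩
      inv_mem' := fun {a} ha => ⟨inv_mem ha.1, fun c => (ha.2 _).symm.trans
        (congrArg (fun v => χ (.ofAdd v)) (a.apply_symm_apply c))⟩ }
  have : Finite H := Finite.of_injective (Subgroup.inclusion (show H ≤ Wg M from fun _ h => h.1))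
    (Subgroup.inclusion_injective _)
  have := Fintype.ofFinite H
  refine ⟨H, this, fun _ => Iff.rfl, fun h => ?_⟩
  obtain ⟨w, hw⟩ := exists_prime_orderOf_dvd_card r h
  have h1 := hl w (hA.W_ip w.2.1) (by
    rw [← hw, ← SubmonoidClass.coe_pow, pow_orderOf_eq_one, OneMemClass.coe_one])
  exact hr.ne_one (hw ▸ orderOf_eq_one_iff.2 (Subtype.ext h1))

/-- The stabiliser of a regular character of prime order is trivial. -/
theorem Ade.chr_free (hA : Ade M) (hr : r.Prime) (hl : Gd M r) (h1 : χ ^ r = 1) (hg : Reg M χ)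
    {w : Au l} (hw : w ∈ Wg M) (h : ∀ b, χ (.ofAdd (w b)) = χ (.ofAdd b)) : w = 1 := by
  have := Fact.mk hr
  obtain ⟨H, _, h2, h3⟩ := hA.exists_stab hr hl χ
  obtain ⟨φ, hφ⟩ := exists_log_aux (K := K) hr
  have m : ∀ a, χ a ∈ rootsOfUnity r K :=
    fun a => (mem_rootsOfUnity _ _).2 (DFunLike.congr_fun h1 a)
  let L : Lat l →+ ZMod r := AddMonoidHom.toMultiplicative.symm (φ.comp (χ.codRestrict _ m))
  have L1 : ∀ a b, χ (.ofAdd a) = χ (.ofAdd b) ↔ L a = L b := fun a b =>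
    ⟨fun e => congrArg (fun x => (φ x).toAdd) (Subtype.ext e : (⟨_, m _⟩ : rootsOfUnity r K) =
      ⟨_, m _⟩), fun e => congrArg Subtype.val (hφ e)⟩
  let ω : Lat l := fun i => (L (sr i)).val
  have L2 : ∀ b, ((ω ⬝ᵥ b : ℤ) : ZMod r) = L b := fun b => by
    conv_rhs => rw [← sum_sr b, map_sum]
    simp only [map_zsmul]
    simp [ω, dotProduct, mul_comm]
  have L3 : ∀ b, (∑ u : H, fact ω u) ⬝ᵥ b = ∑ u : H, ω ⬝ᵥ u.1 b := fun b => by
    simp only [sum_dotProduct, fact_dot]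
  refine hA.reg_stab (ω := ∑ u : H, fact ω u) (fun b hb e => hg b hb ?_) hw (funext fun i => ?_)
  · have := congrArg (Int.cast : ℤ → ZMod r) ((L3 b).symm.trans e)
    rw [Int.cast_sum, sum_congr rfl fun (u : H) _ => (L2 _).trans ((L1 _ _).1 (((h2 _).1 u.2).2 b)),
      sum_const, card_univ, nsmul_eq_mul, Int.cast_zero, mul_eq_zero,
      ZMod.natCast_eq_zero_iff] at this
    exact ((L1 b 0).2 ((this.resolve_left h3).trans L.map_zero.symm)).trans χ.map_one
  · rw [fact, ← dot_sr (∑ u : H, fact ω u) i, L3, L3]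
    exact Fintype.sum_equiv (Equiv.mulRight (⟨w, (h2 w).2 ⟨hw, h⟩⟩ : H)) _ _ fun u => rfl

/-- Regularity. -/
theorem Ade.chr_reg (hA : Ade M) (hr : r.Prime) (hl : Gd M r) {A : Au l}
    (hI : ∀ a b, ip M (A a) (A b) = ip M a b) (h1 : χ ^ r = 1) (h0 : χ ≠ 1)
    (h : ∀ b, χ (.ofAdd (A b)) = χ (.ofAdd b) ^ q) (he : Ord q r ∣ (roots M).card)
    (h7 : 7 ≤ Ord q r) (hφ : l ≤ (Ord q r).totient + 2) : Reg M χ := by
  classical
  have := Fact.mk hr
  obtain ⟨H, _, h2, h3⟩ := hA.exists_stab hr hl χ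
  have hR : ∀ b, A b ∈ roots M ↔ b ∈ roots M := fun b => by rw [hA.mem_roots, hA.mem_roots, hI]
  have hk : ∀ (k : ℕ) b, χ (.ofAdd ((A ^ k) b)) = χ (.ofAdd b) ^ q ^ k := fun k => by
    induction k with
    | zero => simp
    | succ k ih => exact fun b => by rw [pow_succ', LinearEquiv.mul_apply, h, ih, ← pow_mul, pow_succ]
  obtain ⟨o, ho⟩ := Nat.exists_eq_add_one.2 (hA.iso_fin hI).orderOf_pos
  have o1 : ∀ b, A ((A ^ o) b) = b := fun b => by
    rw [← LinearEquiv.mul_apply, ← pow_succ', ← ho, pow_orderOf_eq_one]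
    rfl
  have o2 : ∀ b, (A ^ o) (A b) = b := fun b => by
    rw [← LinearEquiv.mul_apply, ← pow_succ, ← ho, pow_orderOf_eq_one]
    rfl
  have hc : ∀ b, χ (.ofAdd (A b)) = 1 ↔ χ (.ofAdd b) = 1 := fun b =>
    ⟨fun e => by rw [← o2 b, hk, e, one_pow], fun e => by rw [h, e, one_pow]⟩
  let Ψ := (roots M).filter fun b => χ (.ofAdd b) = 1
  have hΨ : ∀ b, A b ∈ Ψ ↔ b ∈ Ψ := fun b => by simp only [Ψ, mem_filter, hR, hc]
  have d1 : Ord q r ∣ Ψ.card := by
    have := perm_dvd (Equiv.Perm.subtypePerm A.toEquiv (p := fun b => b ∈ roots M \ Ψ) fun b => by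
      change A b ∈ _ ↔ _
      rw [mem_sdiff, mem_sdiff, hR, hΨ]) (e := Ord q r) (by omega) fun x k e => by
        have e1 : (A ^ k) x = x := by
          rw [Equiv.Perm.subtypePerm_pow] at e
          exact (LinearEquiv.pow_apply A k x).trans ((congrFun (Equiv.Perm.coe_pow
            A.toEquiv k) _).symm.trans (congrArg Subtype.val e))
        obtain ⟨x1, x2⟩ := mem_sdiff.1 x.2
        have e2 := hk k x
        rw [e1] at e2
        have e3 : orderOf (χ (.ofAdd x.1)) = r := orderOf_eq_prime (DFunLike.congr_fun h1 _)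
          fun c => x2 (mem_filter.2 ⟨x1, c⟩)
        rw [← Ord.dvd_iff, ← e3, orderOf_dvd_iff_zpow_eq_one, zpow_sub, ← Nat.cast_pow,
          zpow_natCast, ← e2, zpow_one, mul_inv_cancel]
    rw [Fintype.card_coe, card_sdiff_of_subset (filter_subset _ _)] at this
    exact (Nat.dvd_sub_iff_right (card_le_card (filter_subset _ _)) he).1 this
  let U : Submodule ℤ (Lat l) :=
    { carrier := {u | ∀ b ∈ Ψ, ip M u b = 0}
      add_mem' := fun ha hb c hc => by rw [ip_add_left, ha c hc, hb c hc, add_zero]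
      zero_mem' := fun c _ => ip_zero_left c
      smul_mem' := fun z a ha c hc => by rw [ip_smul_left, ha c hc, mul_zero] }
  let O : Submodule ℤ (Lat l) :=
    { carrier := {a | ∀ u ∈ U, ip M u a = 0}
      add_mem' := fun ha hb c hc => by rw [ip_add_right, ha c hc, hb c hc, add_zero]
      zero_mem' := fun c _ => ip_zero_right c
      smul_mem' := fun z a ha c hc => by rw [ip_smul_right, ha c hc, mul_zero] }
  have u1 : ∀ u, A u ∈ U ↔ u ∈ U := fun u =>
    ⟨fun e b hb => (hI u b).symm.trans (e _ ((hΨ b).2 hb)), fun e b hb => by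
      rw [← A.apply_symm_apply b] at hb ⊢
      exact (hI _ _).trans (e _ ((hΨ _).1 hb))⟩
  let β := Module.finBasis ℤ U
  let A' : U ≃ₗ[ℤ] U := A.ofSubmodules U U (le_antisymm
    (fun _ ⟨u, hu, e⟩ => e ▸ (u1 u).2 hu) fun u hu =>
      ⟨A.symm u, (u1 _).1 ((A.apply_symm_apply u).symm ▸ hu), A.apply_symm_apply u⟩)
  let ι : Lat (Module.finrank ℤ U) →ₗ[ℤ] Lat l := U.subtype ∘ₗ β.equivFun.symm.toLinearMap
  let w : Au (Module.finrank ℤ U) := (β.equivFun.symm.trans A').trans β.equivFun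
  have w1 : ∀ v, ι (w v) = A (ι v) := fun v =>
    congrArg Subtype.val (β.equivFun.symm_apply_apply (A' _))
  have w2 : ∀ (k : ℕ) v, ι ((w ^ k) v) = (A ^ k) (ι v) := fun k => by
    induction k with
    | zero => exact fun _ => rfl
    | succ k ih => exact fun v => by rw [pow_succ', pow_succ', LinearEquiv.mul_apply, w1, ih]; rfl
  have w3 : Function.Injective ι := Subtype.val_injective.comp β.equivFun.symm.injective
  have w4 := lat_one (w := w) (q := q) (o := orderOf A) (LinearEquiv.ext fun v => w3 (by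
    rw [w2, pow_orderOf_eq_one]; rfl)) hr (hA.not_dvd_ord hr hl hI)
    (χ := χ.comp (AddMonoidHom.toMultiplicative ι.toAddMonoidHom))
    (MonoidHom.ext fun v => DFunLike.congr_fun h1 _) (fun e => h0 (chr_one hr h1
      (mt Int.natCast_dvd_natCast.1 h3) fun v => by
        have e1 : ∑ u : H, u.1 v ∈ U := fun b hb => by
          obtain ⟨b1, b2⟩ := mem_filter.1 hb
          have e2 : rf M b (∑ u : H, u.1 v) = ∑ u : H, u.1 v := by
            rw [map_sum]
            exact Fintype.sum_equiv (Equiv.mulLeft (⟨rf M b, (h2 _).2 ⟨hA.rf_mem b1, fun c => by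
              rw [hA.rf_apply b1, ofAdd_sub, _root_.map_div, chr_smul, b2, one_zpow, div_one]⟩⟩ : H)) _ _
              fun u => rfl
          rw [hA.rf_apply b1, sub_eq_self, smul_eq_zero] at e2
          exact e2.resolve_right (hA.ne_zero b1)
        have e2 := DFunLike.congr_fun e (.ofAdd (β.equivFun ⟨_, e1⟩))
        change χ (.ofAdd (β.equivFun.symm (β.equivFun ⟨_, e1⟩) : U).1) = 1 at e2
        rwa [β.equivFun.symm_apply_apply, ofAdd_sum, map_prod,
          prod_congr rfl fun (u : H) _ => ((h2 _).1 u.2).2 v, prod_const, card_univ,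
          ← zpow_natCast] at e2))
    fun v => (congrArg (fun x => χ (.ofAdd x)) (w1 v)).trans (h _)
  have w5 := natDegree_le_of_dvd w4 (LinearMap.charpoly_monic _).ne_zero
  rw [natDegree_cyclotomic, LinearMap.charpoly_natDegree, Module.finrank_fin_fun] at w5
  have d2 := hA.six O Ψ (fun a ha => ⟨(mem_filter.1 ha).1, fun u hu => hu a ha⟩)
    fun a ha b hb c hc e => by
      have := (LinearIndependent.sum_type (β.linearIndependent.map' U.subtype U.ker_subtype) e
        (Submodule.disjoint_def.2 fun x x1 x2 => by_contra fun x3 => (hA.pos x x3).ne'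
          ((Submodule.span_le (p := O)).2 (by
            rintro _ ⟨i, rfl⟩
            fin_cases i <;> assumption) x2 x ((Submodule.span_le (p := U)).2 (by
              rintro _ ⟨i, rfl⟩
              exact (β i).2) x1)))).fintype_card_le_finrank
      simp at this
      omega
  have d3 := card_eq_zero.1 (Nat.eq_zero_of_dvd_of_lt d1 (by omega))
  exact fun b hb e => notMem_empty b (d3 ▸ mem_filter.2 ⟨hb, e⟩)

end Pool.Agent.Lib.MP_7d41f7_al
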