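import Pool.Agent.Lib.MP_7d41f7_al.F.UA

/-! Unitary groups of small dimension over all fields: sharper sizes. -/

set_option autoImplicit false

namespace Pool.Agent.Lib.MP_7d41f7_al

open Finset

variable {n q v k u m r s c W x : ℕ}

theorem ordSU_succ (hn : 1 ≤ n) : ordSU (n + 1) q = ordSU n q * (q ^ n * fu q (n + 1)) := by
  unfold ordSU
  rw [Nat.triangle_succ, prod_Icc_succ_top (by omega), pow_add]
  ring

theorem ordSU_even (hq : 2 ≤ q) (k : ℕ) :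
    q ^ (4 * k * k + 8 * k + 3) ≤ 2 * ordSU (2 * k + 2) q := by
  induction k with
  | zero =>
    have : 2 * 2 ≤ q ^ 2 := Nat.pow_le_pow_left hq 2
    simp only [ordSU, fu, Icc_self, prod_singleton]
    norm_num
    rw [pow_succ' q 2, mul_left_comm]
    exact Nat.mul_le_mul_left _ (by omega)
  | succ k ih =>
    have e1 : fu q (2 * k + 2 + 1) = q ^ (2 * k + 3) + 1 := if_pos (by omega)
    have e2 : fu q (2 * k + 2 + 1 + 1) = q * q ^ (2 * k + 3) - 1 := by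
      rw [← pow_succ']
      exact if_neg (by omega)
    have h1 : 1 ≤ q ^ (2 * k + 3) := Nat.one_le_pow _ _ (by omega)
    have h2 : q ^ (2 * k + 3) * (q * q ^ (2 * k + 3)) ≤
        (q ^ (2 * k + 3) + 1) * (q * q ^ (2 * k + 3) - 1) := by
      generalize q ^ (2 * k + 3) = y at *
      have := Nat.mul_le_mul_right y hq
      obtain ⟨z, hz⟩ : ∃ z, q * y = z + 1 := ⟨q * y - 1, by omega⟩
      rw [hz, Nat.add_sub_cancel]
      nlinarith
    rw [show 2 * (k + 1) + 2 = 2 * k + 2 + 1 + 1 by ring, ordSU_succ (by omega),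
      ordSU_succ (by omega), e1, e2]
    calc _ = q ^ (4 * k * k + 8 * k + 3) * (q ^ (2 * k + 2) * q ^ (2 * k + 2 + 1)) *
          (q ^ (2 * k + 3) * (q * q ^ (2 * k + 3))) := by ring
      _ ≤ 2 * ordSU (2 * k + 2) q * (q ^ (2 * k + 2) * q ^ (2 * k + 2 + 1)) * _ :=
        Nat.mul_le_mul (Nat.mul_le_mul_right _ ih) h2
      _ = _ := by ring

theorem ordSU_low (hq : 2 ≤ q) (hn : 2 ≤ n) : q ^ (n * n - 1) ≤ 2 * ordSU n q := by
  obtain ⟨k, rfl | rfl⟩ : ∃ k, n = 2 * k + 2 ∨ n = 2 * k + 2 + 1 := ⟨n / 2 - 1, by omega⟩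
  · exact (Nat.sub_eq_of_eq_add (by ring) :
      (2 * k + 2) * (2 * k + 2) - 1 = 4 * k * k + 8 * k + 3) ▸ ordSU_even hq k
  · rw [ordSU_succ (by omega), ← mul_assoc, (Nat.sub_eq_of_eq_add (by ring) :
      (2 * k + 2 + 1) * (2 * k + 2 + 1) - 1 =
        4 * k * k + 8 * k + 3 + (2 * k + 2 + (2 * k + 2 + 1))), pow_add, pow_add q (2 * k + 2), fu,
      if_pos (by omega)]
    exact Nat.mul_le_mul (ordSU_even hq k) (Nat.mul_le_mul_left _ (Nat.le_succ _))

theorem b1_two' (hq : 2 ≤ q) (h4 : q % 4 = 1) (hn : 1 ≤ n) :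
    (∏ i ∈ Icc 2 n, fu q i).factorization 2 ≤
      (n - 1) / 2 + n.factorial.factorization 2 + (q - 1).factorization 2 * (n / 2) := by
  induction n, hn using Nat.le_induction with
  | base => simp
  | succ n hn ih =>
    have h0 : fu q (n + 1) ≠ 0 := (fu_pos hq n.succ_pos).ne'
    rw [prod_Icc_succ_top (by omega), Nat.factorization_mul (prod_ne_zero_iff.2 fun i hi =>
      (fu_pos hq (by have := (mem_Icc.1 hi).1; omega)).ne') h0, Nat.factorial_succ,
      Nat.factorization_mul n.add_one_ne_zero n.factorial_ne_zero, Finsupp.add_apply,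
      Finsupp.add_apply]
    by_cases e : (n + 1) % 2 = 1
    · have h1 : (fu q (n + 1)).factorization 2 < 2 := by
        rw [← not_le, ← Nat.prime_two.pow_dvd_iff_le_factorization h0, fu, if_pos e]
        have := Nat.pow_mod q (n + 1) 4
        rw [h4, one_pow] at this
        omega
      rw [show (n + 1) / 2 = n / 2 by omega]
      omega
    · have h1 := b1_lte (z := q) (b := q - 1) Nat.prime_two (by omega) (fun _ => by omega) h0
        (by omega) n.add_one_pos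
        (by rw [fu_cast (by omega), (Nat.even_iff.2 (by omega)).neg_one_pow])
        (by rw [Nat.cast_sub (by omega), Nat.cast_one])
      rw [show (n + 1) / 2 = n / 2 + 1 by omega, mul_add_one, h1]
      omega

theorem val_fact (hv : v.Prime) (hn : 1 ≤ n) : (v - 1) * padicValNat v n.factorial ≤ n - 1 := by
  have := Fact.mk hv
  rw [sub_one_mul_padicValNat_factorial]
  refine Nat.sub_le_sub_left (Nat.pos_of_ne_zero fun e => ?_) n
  have h1 := Nat.getLast_digit_ne_zero v (by omega : n ≠ 0)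
  exact h1 (List.sum_eq_zero_iff.1 e _ (List.getLast_mem _))

theorem fu_two' (hq : 2 ≤ q) (h4 : q % 4 = 1) (hn : 1 ≤ n) (h : 2 ^ k ∣ ∏ i ∈ Icc 2 n, fu q i) :
    2 ^ k ≤ 2 ^ ((n - 1) / 2 + (n - 1)) * q ^ (n / 2) := by
  have h1 := (Nat.prime_two.pow_dvd_iff_le_factorization (prod_ne_zero_iff.2 fun i hi =>
    (fu_pos hq (by have := (mem_Icc.1 hi).1; omega)).ne')).1 h
  have h2 := b1_two' hq h4 hn
  have h3 := val_fact Nat.prime_two hn
  rw [← Nat.factorization_def _ Nat.prime_two] at h3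
  have h5 : 2 ^ (q - 1).factorization 2 ≤ q :=
    (Nat.ordProj_le 2 (by omega)).trans (Nat.sub_le _ _)
  calc 2 ^ k ≤ 2 ^ ((n - 1) / 2 + (n - 1) + (q - 1).factorization 2 * (n / 2)) :=
        Nat.pow_le_pow_right two_pos (by omega)
    _ ≤ _ := by
      rw [pow_add, pow_mul]
      exact Nat.mul_le_mul_left _ (Nat.pow_le_pow_left h5 _)

theorem fu_pp' (hq : 2 ≤ q) (hv : v.Prime) (h2 : v ≠ 2) (hvq : ¬ v ∣ q)
    (h : v ^ k ∣ ∏ i ∈ Icc 2 n, fu q i) :
    v ^ k ≤ 2 ^ (n / Ord (-(q : ℤ)) v - 1) *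
      (v ^ (fu q (Ord (-(q : ℤ)) v)).factorization v) ^ (n / Ord (-(q : ℤ)) v) := by
  have := Fact.mk hv
  have h0 : ∀ i ∈ Icc 2 n, fu q i ≠ 0 := fun i hi =>
    (fu_pos hq (by have := (mem_Icc.1 hi).1; omega)).ne'
  have h1 := (hv.pow_dvd_iff_le_factorization (prod_ne_zero_iff.2 h0)).1 h
  simp only [Nat.factorization_prod h0, Finsupp.coe_finsetSum, Finset.sum_apply] at h1
  have h3 := h1.trans (sum_le_sum_of_subset (Icc_subset_Icc_left one_le_two))
  rw [sum_congr rfl fun i hi => fu_val hq hv h2 hvq (mem_Icc.1 hi).1] at h3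
  generalize (fu q (Ord (-(q : ℤ)) v)).factorization v = y at h3 ⊢
  simp only [Nat.factorization_def _ hv] at h3
  rw [pp_SL_sum] at h3
  generalize n / Ord (-(q : ℤ)) v = t at *
  refine (Nat.pow_le_pow_right hv.pos h3).trans ?_
  rw [pow_add, pow_mul', mul_comm]
  refine Nat.mul_le_mul_right _ ?_
  rcases t.eq_zero_or_pos with rfl | t0
  · simp
  have h4 : v ≤ 2 ^ (v - 1) := by
    have := @Nat.lt_two_pow_self (v - 1)
    omega
  refine (Nat.pow_le_pow_left h4 _).trans ?_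
  rw [← pow_mul]
  exact Nat.pow_le_pow_right two_pos (val_fact hv t0)

/-- The three bounds for the other primes. -/
def Nsl (n a d : ℕ) : Prop :=
  a = (n - 1) / 2 + (n - 1) ∧ d = n / 2 ∨ a = n / 2 ∧ d = n - 2 ∨ a = 0 ∧ d = dx n

theorem not_slk_le' (hq : 2 ≤ q) (hn : 4 ≤ n) (hv : v.Prime) (hvq : ¬ v ∣ q) (hs : ¬ Slk q v)
    (h : v ^ k ∣ ∏ i ∈ Icc 2 n, fu q i) : ∃ a d, Nsl n a d ∧ v ^ k ≤ 2 ^ a * q ^ d := by
  by_cases h2 : v = 2
  · subst h2
    have e : q % 4 = 1 := by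
      by_contra e
      exact hs ⟨by omega, fun _ => by omega⟩
    exact ⟨_, _, .inl ⟨rfl, rfl⟩, fu_two' hq e (by omega) h⟩
  have hb := fu_pp' hq hv h2 hvq h
  have hd := dvd_fu (q := q) (by omega) v
  generalize Ord (-(q : ℤ)) v = j at hb hd
  have hy : v ^ (fu q j).factorization v ∣ fu q j := Nat.ordProj_dvd _ _
  have h1 : ¬ v ∣ q + 1 := fun e => hs ⟨e, fun e => absurd e h2⟩
  by_cases h0 : n / j = 0
  · refine ⟨_, _, .inr (.inr ⟨rfl, rfl⟩), hb.trans ?_⟩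
    simpa [h0] using Nat.one_le_pow (dx n) q (by omega)
  have j0 : j ≠ 0 := fun e => h0 (by rw [e, Nat.div_zero])
  have j1 : j ≠ 1 := fun e => h1 (fu_one q ▸ (hd 1).2 (by rw [e]))
  by_cases h44 : n = 4 ∧ j = 4
  · obtain ⟨rfl, rfl⟩ := h44
    have := le_of_dvd_fu4 hq hy
      (((Nat.Prime.coprime_iff_not_dvd hv).2 fun e => by simpa using (hd 2).1 e).pow_left _)
    refine ⟨_, _, .inr (.inl ⟨rfl, rfl⟩), ?_⟩
    have := pow_pos (by omega : 0 < q) 2
    norm_num at hb ⊢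
    omega
  have hy2 := le_of_dvd_fu hq (by omega) hy (((Nat.Prime.coprime_iff_not_dvd hv).2 h1).pow_left _)
  replace hb := hb.trans (Nat.mul_le_mul_left _ (Nat.pow_le_pow_left hy2 _))
  rw [← pow_mul, Nat.sub_one_mul] at hb
  have h5 := Nat.mul_div_le n j
  have h6 := Nat.mul_le_mul_right (n / j) (show 2 ≤ j by omega)
  by_cases h7 : n / j = 1
  · refine ⟨_, _, .inr (.inr ⟨rfl, rfl⟩), hb.trans ?_⟩
    rw [h7] at h5 ⊢
    refine Nat.mul_le_mul_left _ (Nat.pow_le_pow_right (by omega) ?_)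
    unfold dx
    split_ifs <;> omega
  · exact ⟨_, _, .inr (.inl ⟨rfl, rfl⟩), hb.trans (Nat.mul_le_mul
      (Nat.pow_le_pow_right two_pos (by omega)) (Nat.pow_le_pow_right (by omega) (by omega)))⟩

/-- The inequalities at the bound for one estimate of the other primes. -/
def Ufin (n a d : ℕ) : Prop :=
  (0 + d * 5 ≤ n * (n - 1) / 2 * 3 ∧
    2 ^ (a * 5) * (uq n + 1) ^ 0 < uq n ^ (n * (n - 1) / 2 * 3 - d * 5)) ∧
  n - 1 + (d * 3 + dx n + (n - 2)) ≤ n * n - 1 ∧ 4 * n.factorial * 2 ^ (a * 3) *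
    (uq n + 1) ^ (n - 1) < uq n ^ (n * n - 1 - (d * 3 + dx n + (n - 2)))

instance (n a d : ℕ) : Decidable (Ufin n a d) := by
  unfold Ufin
  infer_instance

theorem uq_fin : ∀ n < 64, 4 ≤ n → (Ufin n ((n - 1) / 2 + (n - 1)) (n / 2) ∧
    Ufin n (n / 2) (n - 2) ∧ Ufin n 0 (dx n)) ∧
    ((n - 1) * 3 + (dx n + (n - 2)) ≤ n * n - 1 ∧ 4 * n.factorial ^ 3 *
      (uq n + 1) ^ ((n - 1) * 3) < uq n ^ (n * n - 1 - (dx n + (n - 2)))) ∧
    2 ^ 46 * 70 < uq n ^ (n * (n - 1) / 2) := by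
  decide +kernel

theorem Pv.fin (P : Pv n q) {a d : ℕ} (h : Nsl n a d) : Ufin n a d := by
  obtain ⟨⟨a1, a2, a3⟩, -⟩ := uq_fin n P.lt P.n4
  rcases h with ⟨rfl, rfl⟩ | ⟨rfl, rfl⟩ | ⟨rfl, rfl⟩
  exacts [a1, a2, a3]

theorem Pv.sec (P : Pv n q) (hv : v.Prime) (hvq : ¬ v ∣ q) (hs : ¬ Slk q v)
    (h : v ^ k ∣ ordSU n q) : (v ^ k) ^ 5 < (q ^ (n * (n - 1) / 2)) ^ 3 := by
  obtain ⟨a, d, h1, h2⟩ := not_slk_le' P.q2 P.n4 hv hvq hs
    (dvd_prod_fu h ((hv.coprime_iff_not_dvd.2 hvq).pow_left k))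
  rw [← pow_mul q]
  refine P.gap ((Nat.pow_le_pow_left h2 5).trans_eq ?_) (P.fin h1).1
  ring

theorem Pv.cross (P : Pv n q) (hv : v.Prime) (hvq : ¬ v ∣ q) (h : W * v ^ k ∣ ordSU n q)
    (hW : ∀ u, u.Prime → u ∣ W → Slk q u) (h1 : UC n q n r) (h2 : UC n q (n - 1) s) :
    W * (v ^ k) ^ 3 * ((r - 1) * (s - 1)) * 2 < ordSU n q := by
  have n4 := P.n4
  have q2 := P.q2
  have d := dvd_prod_fu h ((b4_cop hW).mul_left ((hv.coprime_iff_not_dvd.2 hvq).pow_left k))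
  obtain ⟨u1, u2⟩ := UC.le q2 n4 h1 h2
  have sl : ∀ {W}, W ∣ ∏ i ∈ Icc 2 n, fu q i → (∀ u, u.Prime → u ∣ W → Slk q u) →
      W ≤ (q + 1) ^ (n - 1) * n.factorial := fun a b => Nat.le_of_dvd
    (Nat.mul_pos (pow_pos q.succ_pos _) n.factorial_pos) (slk_dvd q2 (by omega) a b)
  refine Nat.lt_of_mul_lt_mul_left (a := 2) (lt_of_lt_of_le ?_ (ordSU_low q2 (by omega)))
  by_cases t : Slk q v
  · have a := sl d fun u hu e => ((Nat.Prime.dvd_mul hu).1 e).elim (hW u hu) (b4_pow hv t hu)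
    have b : W * (v ^ k) ^ 3 ≤ ((q + 1) ^ (n - 1) * n.factorial) ^ 3 := by
      refine le_trans ?_ (Nat.pow_le_pow_left a 3)
      rw [mul_pow]
      exact Nat.mul_le_mul_right _ (Nat.le_self_pow three_ne_zero W)
    refine P.gap ((Nat.mul_le_mul_left _ (Nat.mul_le_mul_right _ (Nat.mul_le_mul b
      (Nat.mul_le_mul u1 u2)))).trans_eq ?_) (uq_fin n P.lt n4).2.1
    rw [mul_pow, pow_mul, pow_add]
    ring
  · have a := sl ((dvd_mul_right _ _).trans d) hW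
    obtain ⟨x, y, h3, h4⟩ := not_slk_le' q2 n4 hv hvq t ((dvd_mul_left _ _).trans d)
    refine P.gap ((Nat.mul_le_mul_left _ (Nat.mul_le_mul_right _ (Nat.mul_le_mul (Nat.mul_le_mul a
      (Nat.pow_le_pow_left h4 3)) (Nat.mul_le_mul u1 u2)))).trans_eq ?_) (P.fin h3).2
    generalize (q + 1) ^ (n - 1) = z
    ring

end Pool.Agent.Lib.MP_7d41f7_al
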