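import Pool.Agent.Lib.MP_7d41f7_al.F.UB

/-! Unitary groups of small dimension over all fields: the order of the section. -/

set_option autoImplicit false

namespace Pool.Agent.Lib.MP_7d41f7_al

open Finset

variable {k h a c n q p f m r s u : ℕ}

theorem JData.split' (J : JData k h a c n q) (P : PwU n q) (h1 : UC n q n r)
    (h2 : UC n q (n - 1) s) : ∃ W, (∀ u, u.Prime → u ∣ W → Slk q u) ∧ W * h ∣ ordSU n q ∧
      ordSU n q ≤ W * h * ((r - 1) * (s - 1)) * 2 := by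
  obtain ⟨b₁, d₁, e₁, f₁, g₁⟩ := J.top _ _ h1
  obtain ⟨b₂, d₂, e₂, f₂, g₂⟩ := J.top _ _ h2
  have hn := P.n4
  have hq := P.q2
  have h0 := ordSU_pos hq n
  have hd : d₁ ≠ 0 := fun e => by simp [← J.card, e₁, e] at h0
  have h3 : d₁ ∣ b₂ * Nat.gcd d₁ d₂ := by
    rw [← Nat.gcd_mul_left]
    exact Nat.dvd_gcd (dvd_mul_left _ _) (e₂ ▸ e₁ ▸ dvd_mul_left _ _)
  have h4 : a ∣ (r - 1) * ((s - 1) * Nat.gcd d₁ d₂) :=
    e₁ ▸ mul_dvd_mul f₁ (h3.trans (mul_dvd_mul_right f₂ _))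
  have h5 := Nat.le_of_dvd (Nat.mul_pos (Nat.sub_pos_of_lt h1.pr.one_lt) (Nat.mul_pos
    (Nat.sub_pos_of_lt h2.pr.one_lt) (Nat.gcd_pos_of_pos_left _ (Nat.pos_of_ne_zero hd)))) h4
  obtain ⟨z, z1, z2, z3⟩ : ∃ z, z ∣ c ∧ c ≤ 2 * z ∧ ∀ u, u ∣ z → Slk q u := by
    have cq := J.cq
    by_cases e : q % 4 = 1 ∧ 2 ∣ c
    · obtain ⟨e, z, rfl⟩ := e
      refine ⟨z, dvd_mul_left _ _, le_rfl, fun u d => ⟨(d.mul_left 2).trans cq, ?_⟩⟩
      rintro rfl
      have := (mul_dvd_mul_left 2 d).trans cq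
      omega
    · refine ⟨c, dvd_rfl, by omega, fun u d => ⟨d.trans cq, ?_⟩⟩
      rintro rfl
      have := d.trans cq
      omega
  refine ⟨k * Nat.gcd d₁ d₂ * z, fun u hu h => ?_, ?_, ?_⟩
  · refine (hu.dvd_mul.1 h).elim (fun h => ?_) (z3 u)
    refine (hu.dvd_mul.1 h).elim (J.kk u hu) fun h => ?_
    refine slk_of (m := n - 1) (by omega) ?_ (g₂ u hu (h.trans (Nat.gcd_dvd_right _ _)))
    rw [Nat.sub_add_cancel (by omega)]
    exact g₁ u hu (h.trans (Nat.gcd_dvd_left _ _))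
  · rw [← J.card, mul_right_comm _ z, mul_right_comm k _ h]
    exact mul_dvd_mul (mul_dvd_mul_left _ ((Nat.gcd_dvd_left _ _).trans (e₁ ▸ dvd_mul_left _ _))) z1
  · rw [← J.card]
    refine (Nat.mul_le_mul (Nat.mul_le_mul_left _ h5) z2).trans_eq ?_
    ring

theorem JData.ppart' (J : JData k h a c n (p ^ f)) (P : PwU n (p ^ f)) (hp : p.Prime) (hf : 0 < f)
    (hr : UC n (p ^ f) m r) : h.factorization p ≤ f * (n * (n - 1) / 2) ∧
      (p ^ f) ^ (n * (n - 1) / 2) ≤ p ^ h.factorization p * (r - 1) := by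
  obtain ⟨b, d, e, h1, h2⟩ := J.top _ _ hr
  have h0 := (ordSU_pos P.q2 n).ne'
  have h3 := P.ppart hp hf J.card J.cq
  rw [← J.card, e] at h0
  simp only [mul_ne_zero_iff] at h0
  obtain ⟨⟨⟨k0, h0⟩, b0, d0⟩, -⟩ := h0
  have hq : p ∣ p ^ f := dvd_pow_self p hf.ne'
  have h4 : k.factorization p = 0 :=
    Nat.factorization_eq_zero_of_not_dvd fun h => (J.kk p hp h).not_dvd hp hq
  have h5 : d.factorization p = 0 := Nat.factorization_eq_zero_of_not_dvd fun h => by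
    have h6 := (h2 p hp h).1
    have h7 := hr.top
    have h8 := P.n4
    rw [ord_p hp hq, zero_dvd_iff] at h6
    omega
  rw [e, Nat.factorization_mul (mul_ne_zero k0 h0) (mul_ne_zero b0 d0), Nat.factorization_mul k0 h0,
    Nat.factorization_mul b0 d0] at h3
  simp only [Finsupp.add_apply, h4, h5, zero_add, add_zero] at h3
  refine ⟨by omega, ?_⟩
  rw [← pow_mul, ← h3, pow_add]
  exact Nat.mul_le_mul_left _ (Nat.le_of_dvd (Nat.sub_pos_of_lt hr.pr.one_lt)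
    ((Nat.ordProj_dvd b p).trans h1))

theorem JData.ord_le' (J : JData k h a c n q) (P : PwU n q) (hr : r.Prime) (hd : r ∣ h) :
    Ord (-(q : ℤ)) r ≤ n := by
  have hn := P.n4
  have hq := P.q2
  refine Ty.ord_le (t := .U) (by omega) hr ?_
  rw [ordU_eq (by omega) (by omega), ← J.card]
  exact (Int.natCast_dvd_natCast.2 (((hd.mul_left k).mul_right a).mul_right c)).mul_right _

theorem JData.same' (J : JData k h a c n (p ^ f)) (P : Pv n (p ^ f)) (hp : p.Prime) (hf : 0 < f)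
    {v g N D : ℕ} {I : Finset ℕ} (L : LT h v g N D I) :
    v = p ∧ g * D = f * (2 * Ty.U.top n) ∧ Fit n N D I := by
  have n4 := P.n4
  have g0 := L.g0
  obtain ⟨r, r1, -, r3⟩ := P.w.ex hp hf (m := n) (.inl rfl) P.five
  obtain ⟨s, s1, -, s3⟩ := P.w.ex hp hf (m := n - 1) (.inr (by omega)) P.five
  have hk : v ^ (g * N) ∣ h := pow_mul v g N ▸ L.pp
  obtain rfl : v = p := by
    by_contra e
    obtain ⟨W, w1, w2, w3⟩ := J.split' P.w r3 s3
    have i1 := P.cross L.pv (fun c => e ((Nat.prime_dvd_prime_iff_eq L.pv hp).1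
      (L.pv.dvd_of_dvd_pow c))) ((mul_dvd_mul_left W hk).trans w2) w1 r3 s3
    rw [pow_mul] at i1
    exact i1.not_ge (w3.trans (Nat.mul_le_mul_right _ (Nat.mul_le_mul_right _
      (Nat.mul_le_mul_left _ L.le))))
  obtain ⟨d1, d2, -, d4, d5⟩ := dg_fin n P.lt n4
  have key : ∀ m r, 3 ≤ m → Prim v (f * m) r → r ∣ h → ∃ j ∈ I, f * m ∣ g * j := by
    intro m r hm hr e
    have m0 := Nat.mul_pos hf (show 0 < m by omega)
    rcases L.div r hr.pr e with rfl | ⟨j, hj, e⟩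
    · exact absurd dvd_rfl (hr.not_dvd hp.pos m0)
    · exact ⟨j, hj, (hr.dvd_iff hp.pos m0 _).1 (by rwa [pow_mul])⟩
  obtain ⟨j₁, a₁, b₁⟩ := key _ r d1 r1 (J.all _ r r3)
  obtain ⟨j₂, a₂, b₂⟩ := key _ s d2 s1 (J.all _ s s3)
  have le : ∀ j ∈ I, ∀ x, x ∣ g * j → x ≤ g * D := fun j hj x e =>
    (Nat.le_of_dvd (Nat.mul_pos g0 (L.bd j hj).1) e).trans (Nat.mul_le_mul_left _ (L.bd j hj).2)
  have hd : (h : ℤ) ∣ Ty.U.ord n (v ^ f : ℕ) := by
    rw [ordU_eq (pow_pos hp.pos f) (by omega), ← J.card]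
    exact (Int.natCast_dvd_natCast.2 (((dvd_mul_left h k).mul_right a).mul_right c)).mul_right _
  have e1 : g * D = f * (2 * Ty.U.top n) := by
    refine le_antisymm (not_lt.1 fun c => ?_)
      (d4.elim (fun e => e ▸ le j₁ a₁ _ b₁) fun e => e ▸ le j₂ a₂ _ b₂)
    have a := Nat.le_mul_of_pos_left (2 * Ty.U.top n) hf
    obtain ⟨r, hr⟩ := zsig hp.two_le (by omega : 3 ≤ g * D) (by omega)
    have o := hr.ord_eq hp.pos (by omega)
    obtain ⟨i, i0, i1, e⟩ := Ty.dvd_top (t := .U) (q := v ^ f) (by omega : 3 ≤ n) hr.pr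
      (Ord.ne_two (b := v) (by omega)) (fun c => hr.not_dvd hp.pos (by omega)
        (hr.pr.dvd_of_dvd_pow c)) ((Int.natCast_dvd_natCast.2
          (L.all D L.mem (.inr rfl) (by omega) r hr)).trans hd)
    exact c.not_ge ((Nat.le_of_dvd (Nat.mul_pos hf i0) ((hr.dvd_iff hp.pos (by omega) _).1
      (by rwa [pow_mul]))).trans (Nat.mul_le_mul_left _ i1))
  have h0 : h ≠ 0 := fun e => by
    have := ordSU_pos P.q2 n
    simp [← J.card, e] at this
  have e2 : g * N ≤ f * (n * (n - 1) / 2) :=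
    ((hp.pow_dvd_iff_le_factorization h0).1 hk).trans (J.ppart' P.w hp hf r3).1
  have e3 : ∀ m j, f * m ∣ g * j → D * m ∣ 2 * Ty.U.top n * j := fun m j e =>
    Nat.dvd_of_mul_dvd_mul_left g0 (by
      rw [← mul_assoc, e1, mul_left_comm g, mul_right_comm, mul_comm]
      exact mul_dvd_mul_left _ e)
  have e4 : ∀ j ∈ I, 3 ≤ j → ∀ m, n < m → 12 ≤ dg m → 2 * Ty.U.top n * j ≠ D * dg m :=
    fun j hj j3 m hm h12 e => by
      have e5 : g * j = f * dg m := Nat.eq_of_mul_eq_mul_left (by omega : 0 < 2 * Ty.U.top n) (by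
        rw [mul_left_comm, e, ← mul_assoc, e1]
        ring)
      have a := Nat.le_mul_of_pos_left (dg m) hf
      obtain ⟨r, hr⟩ := zsig hp.two_le (by omega : 3 ≤ f * dg m) (by omega)
      have o := J.ord_le' P.w hr.pr (L.all j hj (.inl j3) (by omega) r (e5 ▸ hr))
      rw [(hr.pow hp.pos hf (by omega)).ord_dg (pow_pos hp.pos f) (by omega)] at o
      omega
  refine ⟨rfl, e1, Nat.le_of_mul_le_mul_left ?_ g0, ⟨j₁, a₁, e3 _ _ b₁⟩, ⟨j₂, a₂, e3 _ _ b₂⟩,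
    fun hn j hj j3 => ⟨e4 j hj j3 12 hn (by decide), e4 j hj j3 30 (by omega) (by decide)⟩⟩
  rw [mul_left_comm g, mul_left_comm g, e1]
  exact (Nat.mul_le_mul_left _ e2).trans_eq (by ring)

theorem JData.lin' (J : JData k h a c n (p ^ f)) (P : Pv n (p ^ f)) (hp : p.Prime) (hf : 0 < f)
    (hu : IsPrimePow u) (hm : 2 ≤ m) (hh : h * Nat.gcd m (u - 1) = ordSL m u) : False := by
  obtain ⟨v, g, hv, hg, rfl⟩ := (isPrimePow_nat_iff u).1 hu
  obtain ⟨rfl, e1, e2⟩ := J.same' P hp hf (lt_A hv hg hm hh)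
  obtain ⟨rfl, rfl⟩ := fit_A P.n4 P.lt hm e2
  obtain rfl : g = 2 * f := by
    rw [show Ty.U.top 4 = 3 from rfl] at e1
    omega
  obtain ⟨r, hr⟩ := zsig hp.two_le (show 3 ≤ f * 3 by omega) fun e => by
    have := P.five
    rw [e.1, show f = 2 by omega] at this
    omega
  have d1 : r ∣ (v ^ (2 * f)) ^ 3 - 1 := by
    rw [← pow_mul, hr.dvd_iff hp.pos (by omega)]
    exact ⟨2, by ring⟩
  have d3 : r ∣ ordSL 3 (v ^ (2 * f)) := (d1.trans (dvd_prod_of_mem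
    (fun i => (v ^ (2 * f)) ^ i - 1) (mem_Icc.2 ⟨by omega, le_rfl⟩))).mul_left _
  have d2 : r ∣ h := (hr.pr.dvd_mul.1 (hh ▸ d3)).resolve_right fun e =>
    hr.min (2 * f) (by omega) (by omega) (e.trans (Nat.gcd_dvd_right _ _))
  have := J.ord_le' P.w hr.pr d2
  rw [Prim.ord_dg (j := 6) (hr.pow hp.pos hf three_pos) (pow_pos hp.pos f) (by norm_num)] at this
  omega

theorem JData.uni' (J : JData k h a c n (p ^ f)) (P : Pv n (p ^ f)) (hp : p.Prime) (hf : 0 < f)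
    (hu : IsPrimePow u) (hm : 3 ≤ m) (hh : OrdU m u h) : m = n ∧ u = p ^ f := by
  obtain ⟨v, g, hv, hg, rfl⟩ := (isPrimePow_nat_iff u).1 hu
  obtain ⟨rfl, e1, e2⟩ := J.same' P hp hf (lt_2A hv hg hm hh)
  have e3 := fit_2A P.n4 P.lt hm e2
  have e4 : (if m % 2 = 1 then 2 * m else 2 * (m - 1)) = 2 * Ty.U.top n := by
    simp only [Ty.top]
    split_ifs <;> omega
  obtain rfl : g = f := Nat.eq_of_mul_eq_mul_right
    (show 0 < 2 * Ty.U.top n by have := (dg_fin n P.lt P.n4).2.2.2.2; omega) (e4 ▸ e1)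
  refine ⟨e3.resolve_right ?_, rfl⟩
  rintro ⟨rfl, e5⟩
  obtain ⟨r, -, h1, h2⟩ := P.w.ex hp hg (Or.inl rfl) P.five
  have q1 : 1 < v ^ g := P.q2
  have h3 := (J.ppart' P.w hp hg h2).2.trans (Nat.mul_le_mul_right _ (h4_ppart hp hg hh))
  rw [Nat.triangle_succ, pow_add] at h3
  have h4 := Nat.le_of_mul_le_mul_left h3 (pow_pos (by omega) _)
  have h5 : dg (m + 1) = (m + 1) / 2 := by rw [dg, if_neg (by omega), if_pos e5]
  have h6 := Nat.le_of_dvd (Nat.sub_pos_of_lt (Nat.one_lt_pow (by omega) q1)) h1.dvd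
  have h7 : (v ^ g) ^ dg (m + 1) ≤ (v ^ g) ^ m := Nat.pow_le_pow_right q1.le (by omega)
  have h8 := h1.pr.pos
  omega

theorem JData.sym' (J : JData k h a c n (p ^ f)) (P : Pv n (p ^ f)) (hp : p.Prime) (hf : 0 < f)
    (hu : IsPrimePow u) (hm : 2 ≤ m) : ¬ OrdB m u h := fun hh => by
  obtain ⟨v, g, hv, hg, rfl⟩ := (isPrimePow_nat_iff u).1 hu
  exact fit_B P.n4 P.lt hm (J.same' P hp hf (lt_B hv hg hm hh)).2.2

theorem JData.dp' (J : JData k h a c n (p ^ f)) (P : Pv n (p ^ f)) (hp : p.Prime) (hf : 0 < f)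
    (hu : IsPrimePow u) (hm : 4 ≤ m) : ¬ OrdD 1 m u h := fun hh => by
  obtain ⟨v, g, hv, hg, rfl⟩ := (isPrimePow_nat_iff u).1 hu
  exact fit_D P.n4 P.lt hm (J.same' P hp hf (lt_D hv hg hm hh)).2.2

theorem JData.dm' (J : JData k h a c n (p ^ f)) (P : Pv n (p ^ f)) (hp : p.Prime) (hf : 0 < f)
    (hu : IsPrimePow u) (hm : 4 ≤ m) : ¬ OrdD (-1) m u h := fun hh => by
  obtain ⟨v, g, hv, hg, rfl⟩ := (isPrimePow_nat_iff u).1 hu
  simp only [OrdD, sub_neg_eq_add] at hh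
  exact fit_2D P.n4 P.lt hm (J.same' P hp hf (lt_2D hv hg hm hh)).2.2

theorem JData.exc' (J : JData k h a c n (p ^ f)) (P : Pv n (p ^ f)) (hp : p.Prime) (hf : 0 < f)
    (hu : IsPrimePow u) : ¬ ExcOrd u h := fun hh => by
  obtain ⟨v, g, hv, hg, rfl⟩ := (isPrimePow_nat_iff u).1 hu
  obtain ⟨x, hx, L⟩ : ∃ x ∈ excData, LT h v g x.1 x.2.1 x.2.2 := by
    rcases hh with e | e | e | e | e | e | e
    · exact lt_exc1 hv hg rfl (Or.inl e)
    · exact lt_exc1 hv hg rfl (Or.inr (Or.inl e))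
    · exact lt_exc1 hv hg rfl (Or.inr (Or.inr (Or.inl e)))
    · exact lt_exc2 hv hg rfl (Or.inl e)
    · exact lt_exc1 hv hg rfl (Or.inr (Or.inr (Or.inr (Or.inl e))))
    · exact lt_exc1 hv hg rfl (Or.inr (Or.inr (Or.inr (Or.inr e))))
    · exact lt_exc2 hv hg rfl (Or.inr e)
  exact fit_exc P.n4 P.lt x hx (J.same' P hp hf L).2.2

theorem JData.big' (J : JData k h a c n (p ^ f)) (P : Pv n (p ^ f)) (hp : p.Prime) (hf : 0 < f) :
    ∃ r, r.Prime ∧ r ∣ h ∧ 0 < h ∧ 2 ^ 46 * 70 < p ^ h.factorization p * (r - 1) ∧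
      h ^ 2 ≤ 2 ^ 128 * (p ^ h.factorization p * (r - 1)) ^ 5 := by
  obtain ⟨r, -, -, hr⟩ := P.w.ex hp hf (.inl rfl) P.five
  have e2 := (by decide +kernel : ∀ n < 64, 4 ≤ n → (n * n - 1) * 2 ≤ n * (n - 1) / 2 * 5) n P.lt
    P.n4
  have h0 := ordSU_pos P.q2 n
  have hd : h ∣ ordSU n (p ^ f) := J.card ▸ ((dvd_mul_left h k).mul_right a).mul_right c
  have h1 := (J.ppart' P.w hp hf hr).2
  refine ⟨r, hr.pr, J.all n r hr, Nat.pos_of_dvd_of_pos hd h0, ((uq_fin n P.lt P.n4).2.2.trans_le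
    (Nat.pow_le_pow_left P.big _)).trans_le h1, (Nat.pow_le_pow_left ((Nat.le_of_dvd h0 hd).trans
      ((ordSU_bd P.q2 (by have := P.n4; omega)).2.trans (Nat.mul_le_mul_right _
        (Nat.pow_le_pow_right two_pos P.lt.le)))) 2).trans ?_⟩
  rw [mul_pow, ← pow_mul, ← pow_mul]
  refine Nat.mul_le_mul_left _ ((Nat.pow_le_pow_right (pow_pos hp.pos f) e2).trans ?_)
  rw [pow_mul]
  exact Nat.pow_le_pow_left h1 5

theorem spor_pp (hh : h ∈ sporOrd) (hp : p.Prime) (hd : p ^ f ∣ h) : p ^ f ≤ 2 ^ 46 := by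
  rcases f.eq_zero_or_pos with rfl | hf
  · exact Nat.one_le_two_pow
  obtain ⟨a, -, h1, h2⟩ := (by decide +kernel : ∀ p ∈ not_big_spor_P, ∃ a < 47, p ^ a ≤ 2 ^ 46 ∧
    ∀ x ∈ sporOrd, ¬ p ^ (a + 1) ∣ x) p (not_big_spor_aux3 hh hp
      ((dvd_pow_self p hf.ne').trans hd)).1
  exact (Nat.pow_le_pow_right hp.pos (not_lt.1 fun e =>
    h2 h hh ((pow_dvd_pow p e).trans hd))).trans h1

theorem JData.spor' (J : JData k h a c n (p ^ f)) (P : Pv n (p ^ f)) (hp : p.Prime) (hf : 0 < f) :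
    h ∉ sporOrd := fun hh => by
  obtain ⟨r, hr, h1, -, h3, -⟩ := J.big' P hp hf
  have := (not_big_spor_aux3 hh hr h1).2
  exact h3.not_ge (Nat.mul_le_mul (spor_pp hh hp (Nat.ordProj_dvd h p)) (by omega))

theorem h5_ind' (hm : 47 ≤ m) : 4 * (2 ^ 128 * (2 ^ m * m) ^ 5) < m.factorial ^ 2 := by
  induction m, hm using Nat.le_induction with
  | base => decide +kernel
  | succ m hm ih =>
    have h1 : 32 * (m + 1) ^ 3 ≤ m ^ 5 := by
      have a := Nat.pow_le_pow_left (show m + 1 ≤ 2 * m by omega) 3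
      have b := Nat.mul_le_mul_right (m ^ 3) (Nat.pow_le_pow_left hm 2)
      rw [mul_pow] at a
      rw [← pow_add, show 2 + 3 = 5 from rfl] at b
      omega
    calc 4 * (2 ^ 128 * (2 ^ (m + 1) * (m + 1)) ^ 5)
        = (m + 1) ^ 2 * (4 * (2 ^ 128 * ((2 ^ m) ^ 5 * (32 * (m + 1) ^ 3)))) := by ring
      _ ≤ (m + 1) ^ 2 * (4 * (2 ^ 128 * ((2 ^ m) ^ 5 * m ^ 5))) := by gcongr
      _ < _ := by
        rw [Nat.factorial_succ, ← mul_pow, mul_pow (m + 1)]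
        gcongr

theorem JData.alt' (J : JData k h a c n (p ^ f)) (P : Pv n (p ^ f)) (hp : p.Prime) (hf : 0 < f) :
    2 * h ≠ m.factorial := fun hh => by
  obtain ⟨r, hr, h1, -, h3, h4⟩ := J.big' P hp hf
  have h2 := Nat.ordProj_dvd h p
  generalize h.factorization p = i at *
  have := Fact.mk hp
  have hd : h ∣ m.factorial := hh ▸ dvd_mul_left h 2
  have h7 := hr.dvd_factorial.1 (h1.trans hd)
  have h8 : (p - 1) * i ≤ m := (Nat.mul_le_mul_left _ ((padicValNat_dvd_iff_le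
    m.factorial_ne_zero).1 (h2.trans hd))).trans
      ((sub_one_mul_padicValNat_factorial m).trans_le (Nat.sub_le _ _))
  have e : p ^ i ≤ 2 ^ m := (Nat.pow_le_pow_left (show p ≤ 2 ^ (p - 1) by
    have := @Nat.lt_two_pow_self (p - 1); omega) i).trans
      (pow_mul 2 _ i ▸ Nat.pow_le_pow_right two_pos h8)
  have h5 := Nat.mul_le_mul e ((Nat.sub_le r 1).trans h7)
  have h6 : 47 ≤ m := not_lt.1 fun c => (h3.trans_le h5).not_ge
    (Nat.mul_le_mul (Nat.pow_le_pow_right two_pos (by omega)) (by omega))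
  refine (h5_ind' h6).not_ge ?_
  rw [← hh, mul_pow 2 h]
  exact Nat.mul_le_mul_left 4 (h4.trans (Nat.mul_le_mul_left _ (Nat.pow_le_pow_left h5 5)))

end Pool.Agent.Lib.MP_7d41f7_al
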