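import Pool.Agent.Lib.MP_7d41f7_al.F.UH

/-! The section of a group with the data of a unitary group of small dimension. -/

set_option autoImplicit false

namespace Pool.Agent.Lib.MP_7d41f7_al

open Subgroup

variable {G : Type} [Group G] [Finite G] {n p f q m m' c : ℕ}

theorem two_cls' {A B D E : ℕ → Prop} {r s : ℕ} (h1 : Cls G A D E) (h2 : Cls G B E D) 
    (hp : p.Prime) (p1 : ¬ D p) (p2 : ¬ E p)
    (hr : A r) (hs : B s)
    (fr : ∀ k, p ^ k ≡ 1 [MOD r] → p ^ k ≡ 1 [MOD s] → p ^ k ∣ Nat.card G → k = 0)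
    (sec : ∀ v k, v.Prime → v ≠ p → ¬ (D v ∧ E v) → v ^ k ∣ Nat.card G →
      (v ^ k) ^ 5 < (p ^ (Nat.card G).factorization p) ^ 3) :
    ∃ (K : Subgroup G) (_ : K.Normal) (H : Subgroup (G ⧸ K)), H.Normal ∧ IsSimpleGroup H ∧
      ¬ IsMulCommutative H ∧ centralizer (H : Set (G ⧸ K)) = ⊥ ∧
      (∀ u, u.Prime → u ∣ Nat.card K → D u ∧ E u) ∧ ∀ t, A t ∨ B t → t ∣ Nat.card H := by
  obtain ⟨a1, a2, a3, -, a4, a5, a6⟩ := h1 r hr
  obtain ⟨b1, b2, -, -, b4, b5, b6⟩ := h2 s hs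
  obtain ⟨K, _, k1, kmax⟩ := exists_core (G := G) a1
  have k2 : ∀ t, B t → ¬ t ∣ Nat.card K := fun t ht e => k1 (h2.link h1 ht hr K e)
  have k3 : ∀ t, A t ∨ B t → ¬ t ∣ Nat.card K := fun t ht e =>
    ht.elim (fun ht => k2 s hs (h1.link h2 ht hs K e)) fun ht => k2 t ht e
  have kp : ¬ p ∣ Nat.card K := fun e => by
    have a : p ≠ r := fun e => p1 (e ▸ a4)
    have b : p ≠ s := fun e => p2 (e ▸ b4)
    exact (hp.factorization_pos_of_dvd Nat.card_pos.ne' e).ne' (fr _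
      (free_mod K a1 a2 k1 hp a fun c => p1 (a6 p hp a c))
      (free_mod K b1 b2 (k2 s hs) hp b fun c => p2 (b6 p hp b c))
      ((Nat.ordProj_dvd _ _).trans K.card_subgroup_dvd_card))
  have sj := QuotientGroup.mk'_surjective K
  have cm : ∀ M : Subgroup (G ⧸ K), Nat.card (M.comap (QuotientGroup.mk' K)) =
      Nat.card K * Nat.card M := fun M => by
    refine Nat.eq_of_mul_eq_mul_right (Nat.pos_of_ne_zero M.index_ne_zero_of_finite) ?_
    rw [mul_assoc, M.card_mul_index, ← index_comap_of_surjective M sj, card_mul_index,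
      ← index_eq_card, card_mul_index]
  have al : ∀ M : Subgroup (G ⧸ K), M.Normal → M ≠ ⊥ → ∀ t, A t ∨ B t → t ∣ Nat.card M :=
    fun M hM h0 t ht => by
      have a : r ∣ Nat.card (M.comap (QuotientGroup.mk' K)) := by
        by_contra e
        refine h0 (le_bot_iff.1 fun x hx => ?_)
        obtain ⟨x, rfl⟩ := sj x
        exact (QuotientGroup.eq_one_iff x).2 (kmax _ inferInstance e hx)
      have b := ht.elim (fun ht => h2.link h1 hs ht _ (h1.link h2 hr hs _ a))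
        fun ht => h1.link h2 hr ht _ a
      have c : t.Prime := ht.elim (fun ht => (h1 t ht).1) fun ht => (h2 t ht).1
      exact (c.dvd_mul.1 (cm M ▸ b)).resolve_left (k3 t ht)
  have : Nontrivial (G ⧸ K) := QuotientGroup.nontrivial_iff.2 fun e => k1 (by rwa [e, card_top])
  have ne : s ≠ r := fun e => a5 (e ▸ b4)
  obtain ⟨H, hH, h0, c1, c2, c3⟩ := exists_socle (G := G ⧸ K) b1 a1 ne (a3.of_surj sj a1)
    (fun a => b5 (a6 s b1 ne (a.of_surj sj))) fun M hM h0 =>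
      ⟨al M hM h0 s (.inr hs), al M hM h0 r (.inl hr)⟩
  refine ⟨K, inferInstance, H, hH, c1, c2, c3, fun u hu huK => ?_, al H hH h0⟩
  by_contra hu'
  obtain ⟨k, -, e1, e2⟩ := section_GL K b1 a1 (k2 s hs) k1 kmax (fun M _ => h1.link h2 hr hs M)
    hu huK fun a => hu' ⟨a6 u hu (fun e => k1 (e ▸ huK)) a.2,
      b6 u hu (fun e => k2 s hs (e ▸ huK)) a.1⟩
  have hne : u ≠ p := fun e => kp (e ▸ huK)
  have e3 : p ^ (Nat.card G).factorization p ∣ K.index :=
    (Nat.Coprime.pow_left _ (hp.coprime_iff_not_dvd.2 kp)).dvd_of_dvd_mul_left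
      (K.card_mul_index ▸ Nat.ordProj_dvd _ _)
  exact (sec u k hu hne hu' (e1.trans K.card_subgroup_dvd_card)).not_ge
    (pp_GL hu hp hne.symm (e3.trans e2))

omit [Finite G] in
theorem UData.cls' (h : UData G n (p ^ f)) (P : PwU n (p ^ f)) (hp : p.Prime) (hf : 0 < f)
    (hc : Nat.card G * c = ordSU n (p ^ f)) (hz : c ∣ p ^ f + 1) (e : m + 1 = m' ∨ m' + 1 = m) :
    Cls G (UC n (p ^ f) m) (UD (p ^ f) m) (UD (p ^ f) m') := fun r hr => by
  have n4 := P.n4
  have hm := hr.top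
  have a : ∀ u, u.Prime → u ≠ r → Adj G u r → UD (p ^ f) m u := fun u hu ne ad =>
    ⟨h.adj m r u hr hu ne ad, fun e1 e2 e3 => h.two m r hr e2 e3 (e1 ▸ ad)⟩
  obtain ⟨u, hu, u1, u2⟩ := hr.tight' P hp hf hc hz
  have ne : u ≠ r := fun e => u1 (e ▸ hr.ord.dvd)
  refine ⟨hr.pr, hr.dvd' P hc hz, h.cyc m r hr, ⟨u, hu, ne, fun ad => u1 (a u hu ne ad).1, u2⟩,
    ⟨hr.ord.dvd, fun e => absurd e (Ord.ne_two (hr.ord.symm ▸ (by omega : 1 < m)))⟩, fun d => ?_, a⟩
  have d := hr.ord ▸ d.1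
  rcases e with rfl | rfl
  · have := Nat.le_of_dvd one_pos ((Nat.dvd_add_right dvd_rfl).1 d)
    omega
  · have := Nat.le_of_dvd (by omega) d
    omega

theorem Slk.ud {u : ℕ} (h : Slk q u) (hq : 1 ≤ q) (m : ℕ) : UD q m u :=
  ⟨ord_one hq h.1 ▸ one_dvd m, fun e _ => by have := h.2 e; omega⟩

theorem umain' (hp : p.Prime) (hf : 0 < f) (P : Pv n (p ^ f)) (h : UData G n (p ^ f)) :
    ∃ (K : Subgroup G) (_ : K.Normal) (H : Subgroup (G ⧸ K)), H.Normal ∧ IsSimpleGroup H ∧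
      ¬ IsMulCommutative H ∧ centralizer (H : Set (G ⧸ K)) = ⊥ ∧ HOut H .U n (p ^ f) := by
  have q2 := P.q2
  have n4 := P.n4
  have n1 : n - 1 + 1 = n := by omega
  obtain ⟨c, hc, cn, cq⟩ := h.card
  have hc : Nat.card G * c = ordSU n (p ^ f) := by
    rw [ordU_eq (by omega) (by omega)] at hc
    exact_mod_cast mul_right_cancel₀ (by positivity) hc
  obtain ⟨r, r1, -, hr⟩ := P.w.ex hp hf (.inl rfl) P.five
  obtain ⟨s, s1, -, hs⟩ := P.w.ex hp hf (.inr n1) P.five
  have c1 := h.cls' (m := n) (m' := n - 1) P.w hp hf hc cq (.inr n1)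
  have c2 := h.cls' (m := n - 1) (m' := n) P.w hp hf hc cq (.inl n1)
  have pq := dvd_pow_self p hf.ne'
  have pp := P.w.ppart hp hf hc cq
  have np : ∀ m, 0 < m → ¬ UD (p ^ f) m p := fun m hm e =>
    hm.ne' (Nat.eq_zero_of_zero_dvd (ord_p hp pq ▸ e.1))
  obtain ⟨K, _, H, h0, h1, h2, h3, h4, h5⟩ := two_cls' c1 c2 hp (np _ (by omega)) (np _ (by omega))
    hr hs (fun k e1 e2 e3 => P.w.free hp hf r1 s1 e1 e2
      (pp ▸ (hp.pow_dvd_iff_le_factorization Nat.card_pos.ne').1 e3)) fun v k hv ne ns e => by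
      rw [pp, pow_mul]
      exact P.sec hv (fun d => ne ((Nat.prime_dvd_prime_iff_eq hv hp).1 (hv.dvd_of_dvd_pow d)))
        (fun a => ns ⟨a.ud (by omega) _, a.ud (by omega) _⟩) (e.trans (Dvd.intro _ hc))
  have al : ∀ m r, UC n (p ^ f) m r → r ∣ Nat.card H := fun m r e => h5 r (e.top.imp
    (fun a : m = n => a ▸ e) fun a : m + 1 = n => (show m = n - 1 by omega) ▸ e)
  have J : JData (Nat.card K) (Nat.card H) H.index c n (p ^ f) := by
    refine ⟨by rw [mul_assoc (Nat.card K), H.card_mul_index, mul_comm (Nat.card K),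
      ← card_eq_card_quotient_mul_card_subgroup, hc], Nat.le_of_dvd (by omega) cn, cq,
      fun u hu e => slk_of (m := n - 1) (by omega) (n1.symm ▸ (h4 u hu e).1) (h4 u hu e).2, al,
      fun m r e => ?_⟩
    exact (h.cls' (m' := m + 1) P.w hp hf hc cq (.inl rfl)).top e H (al m r e)
  refine ⟨K, inferInstance, H, h0, h1, h2, h3, fun m => ⟨fun φ => ?_⟩, fun m F _ _ => ⟨fun φ => ?_⟩,
    fun m u a b e => ⟨rfl, J.uni' P hp hf a b e⟩, fun m u a b e => (J.sym' P hp hf a b e).elim,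
    fun m u a b e => (J.dp' P hp hf a b e).elim, fun m u a b e => (J.dm' P hp hf a b e).elim,
    fun u => J.exc' P hp hf, J.spor' P hp hf⟩
  · rcases subsingleton_or_nontrivial (Fin m) with a | a
    · have := φ.injective.subsingleton
      exact false_of_nontrivial_of_subsingleton H
    refine J.alt' (m := m) P hp hf ?_
    rw [Nat.card_congr φ.toEquiv, two_mul_nat_card_alternatingGroup, Nat.card_perm, Nat.card_fin]
  · have hm : 2 ≤ m := by
      by_contra hm
      have := pl_small (F := F) (not_le.1 hm)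
      have := φ.injective.subsingleton
      exact false_of_nontrivial_of_subsingleton H
    have := Fintype.ofFinite F
    obtain ⟨g, hv, hg⟩ := FiniteField.card F (ringChar F)
    rw [← Nat.card_eq_fintype_card] at hg
    exact J.lin' P hp hf (hg ▸ hv.prime.isPrimePow.pow g.ne_zero) hm
      (by rw [Nat.card_congr φ.toEquiv]; exact card_PL (by omega))

end Pool.Agent.Lib.MP_7d41f7_al
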