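import Pool.Agent.Lib.MP_7d41f7_al.D.SBC
import Pool.Agent.Lib.MP_7d41f7_al.D.SAdj
import Pool.Agent.Lib.MP_7d41f7_al.D.OEa

/-! All neighbours of the primes of the two largest classes of a symplectic or orthogonal group. -/

set_option autoImplicit false

namespace Pool.Agent.Lib.MP_7d41f7_al

open Module

variable {F V : Type} [Field F] [Finite F] {P : Sca F} [AddCommGroup V] [Module F V] [Finite V]
  {Φ : Frm P V}

namespace Frm

variable {t : Ty} {n m r u p : ℕ} {Γ : Type} [Group Γ] {x y : V ≃ₗ[F] V} {ε : ℤ}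

theorem xa_dim (hk : P.k = .O) (hr : r.Prime) (hx : x ∈ Φ.Iso) (h1 : x ^ r = 1)
    (h0 : ∀ v, x v = v → v = 0) {Z : Submodule F V} (hZ : Stb x Z) :
    2 * P.j r ∣ finrank F Z ∨ (Odd (P.j r) ∧ P.j r ∣ finrank F Z) := by
  have h2 := (fminb_res hx hZ hr h1 fun w _ => h0 w).1
  rw [hk] at h2
  replace h2 : Ord P.q r ∣ finrank F Z := (Ord.dvd_iff _).1 h2
  have e : P.j r = jc (Ord P.q r) := by rw [Sca.j, hk, ← ord_jc']; rfl
  rw [e, jc]
  split_ifs with h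
  · exact .inr ⟨Nat.odd_iff.2 h, h2⟩
  · exact .inl (by rwa [Nat.mul_div_cancel' (Nat.dvd_of_mod_eq_zero (by omega))])

/-- No unipotent element commutes with a free element of minimal dimension. -/
theorem xa_unip (hk : P.k = .O) (hn : Φ.Nd) (hp : p.Prime) [CharP F p] (hr : r.Prime)
    (hd : finrank F V = 2 * P.j r) (hx : x ∈ Φ.Iso) (h1 : x ^ r = 1)
    (h0 : ∀ v, x v = v → v = 0) (hy : y ∈ Φ.Iso) (hc : Commute x y) (h3 : y ^ p = 1) : y = 1 := by
  by_contra hy1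
  have sY : Stb x (fx y) := stb_fx hc.symm
  have sM : Stb x (mv y) := stb_mv hc.symm
  have sD : Stb x (fx y ⊓ mv y) := fun w hw => ⟨sY w hw.1, sM w hw.2⟩
  have d0 : 0 < finrank F ↥(fx y ⊓ mv y) := Nat.pos_of_ne_zero fun h =>
    fbcc_meet hp h3 hy1 (Submodule.finrank_eq_zero.1 h)
  have l1 : finrank F ↥(fx y ⊓ mv y) ≤ finrank F (fx y) := Submodule.finrank_mono inf_le_left
  have l2 : finrank F ↥(fx y ⊓ mv y) ≤ finrank F (mv y) := Submodule.finrank_mono inf_le_right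
  have l3 := finrank_mv_fx y
  rcases xa_dim hk hr hx h1 h0 sD with h | ⟨ho, h⟩
  · have := Nat.le_of_dvd d0 h
    omega
  have l4 := Nat.le_of_dvd d0 h
  have eM : fx y ⊓ mv y = mv y := Submodule.eq_of_le_of_finrank_eq inf_le_right (by omega)
  have hM : mv y ≤ fx y := eM ▸ inf_le_left
  let ω : V →ₗ[F] V →ₗ[F] F := LinearMap.mk₂ F (fun v w => Φ.B (y v - v) w)
    (fun a b w => by rw [map_add, add_sub_add_comm, map_add, LinearMap.add_apply])
    (fun c a w => by rw [map_smul, ← smul_sub, smul_B, smul_eq_mul])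
    (fun a b w => by rw [map_add])
    (fun c a w => by rw [B_smul, Sca.σ_O hk, smul_eq_mul])
  have sk : ∀ v w, ω v w + ω w v = 0 := fun v w => by
    change Φ.B (y v - v) w + Φ.B (y w - w) v = 0
    have e1 := perp_fx_mv hy (hM (mem_mv.2 ⟨v, rfl⟩)) (mem_mv.2 ⟨w, rfl⟩)
    have e2 := hy.1 v w
    have e3 := oe_comm (Φ := Φ) hk v (y w)
    have e4 := oe_comm (Φ := Φ) hk v w
    simp only [map_sub, LinearMap.sub_apply] at e1 ⊢
    linear_combination -e1 + e2 - e3 + e4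
  have iv : ∀ v, ω (x v) (x v) = ω v v := fun v => by
    change Φ.B (y (x v) - x v) (x v) = Φ.B (y v - v) v
    rw [← LinearEquiv.mul_apply y, ← hc.eq, LinearEquiv.mul_apply, ← map_sub, hx.1]
  have su : mv x = ⊤ := by
    have := finrank_mv_fx x
    rw [show fx x = ⊥ from eq_bot_iff.2 fun v hv => h0 v (mem_fx.1 hv), finrank_bot] at this
    exact Submodule.eq_top_of_finrank_eq this
  have he := alt_even ω (fun v => by
      obtain ⟨w, rfl⟩ := mem_mv.1 (su.ge (Submodule.mem_top (x := v)))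
      have a1 := sk (x w) w
      have a2 := sk w w
      have a3 := iv w
      simp only [map_sub, LinearMap.sub_apply]
      linear_combination a3 + a2 - a1) (fx y) fun v => by
      rw [mem_fx, ← sub_eq_zero]
      exact ⟨fun h w => by
        change Φ.B (y v - v) w = 0
        rw [h, map_zero, LinearMap.zero_apply], fun h => hn _ h⟩
  have : finrank F V - finrank F (fx y) = P.j r := by omega
  rw [this] at he
  exact Nat.not_even_iff_odd.2 ho he

/-- The centraliser of a free element of minimal dimension. -/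
theorem xa_tor (hk : P.k = .O) (hn : Φ.Nd) (hr : r.Prime) (hu : u.Prime) (hb : 1 < P.j r)
    (hd : finrank F V = 2 * P.j r) (hx : x ∈ Φ.Iso) (h1 : x ^ r = 1)
    (h0 : ∀ v, x v = v → v = 0) (hy : y ∈ Φ.Iso) (hc : Commute x y) (h3 : y ^ u = 1) (h4 : y ≠ 1)
    (he : ε = 1 ∨ ε = -1) (hε : (r : ℤ) ∣ (P.q : ℤ) ^ P.j r - ε) :
    (u : ℤ) ∣ ((P.q : ℤ) ^ P.j r - ε) * (P.q - 1) := by
  obtain ⟨p, f, hp, hf, e, _⟩ := P.pp
  have hF : (u : F) ≠ 0 := fun a => by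
    obtain rfl := (Nat.prime_dvd_prime_iff_eq hp hu).1 ((CharP.cast_eq_zero_iff F p u).1 a)
    exact h4 (xa_unip hk hn hp hr hd hx h1 h0 hy hc h3)
  have hw : P.k.wt = 2 := by rw [hk]; rfl
  have hq : P.k.bs P.q = (P.q : ℤ) ^ 2 := by rw [hk]; rfl
  have y0 : ∀ v, y v = v → v = 0 := fun v hv => h0 v (triv' (nd_fx hn hy h3 hF) hx
    (stb_fx hc.symm) hr (by rw [hw]; omega) (a := 1) (by rwa [pow_one]) (by
      rw [hw, ← hd]
      exact Submodule.finrank_lt fun a => h4 (LinearEquiv.ext fun w =>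
        mem_fx.1 (a.ge Submodule.mem_top))) v (mem_fx.2 hv))
  obtain ⟨s, l, hS⟩ := exists_ty hn
  obtain ⟨d1, d2⟩ := free_dvd hy hu h3 y0
  have d3 := (free_dvd hx hr h1 h0).2
  rw [← Int.natCast_dvd_natCast, hS.ns] at d2 d3
  rw [hd, show Nat.card F = P.q by rw [P.card, hk]; rfl] at d1
  obtain ⟨a1, rfl⟩ := ty_even (hS.kd.trans hk) (hd.symm.trans hS.dim)
  have d4 := sing_tor a1 hr (hq ▸ hb) (hq ▸ dvd_rfl) (by omega) d3
  obtain ⟨j, hj⟩ : ∃ j, P.j r = j + 1 := ⟨P.j r - 1, by omega⟩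
  have r2 : ¬ (r : ℤ) ∣ 2 := fun a => Ord.ne_two hb
    ((Nat.prime_dvd_prime_iff_eq hr Nat.prime_two).1 (Int.natCast_dvd_natCast.1 a))
  have hs : s.sing (P.j r) P.q = ((P.q : ℤ) ^ P.j r - ε) * ((P.q : ℤ) ^ j + ε) := by
    have a2 := dvd_sub d4 hε
    rcases a1 with rfl | rfl <;> rcases he with rfl | rfl
    · rw [hj]; rfl
    · exact (r2 (dvd_neg.1 (a2.trans (dvd_of_eq (by simp; ring))))).elim
    · exact (r2 (a2.trans (dvd_of_eq (by simp)))).elim
    · rw [hj, sub_neg_eq_add, ← sub_eq_add_neg]; rfl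
  have up := Nat.prime_iff_prime_int.1 hu
  rw [hs] at d2
  rw [show (P.q : ℤ) ^ (2 * P.j r) - 1 = ((P.q : ℤ) ^ P.j r - ε) * ((P.q : ℤ) ^ P.j r + ε) by
    rcases he with rfl | rfl <;> ring] at d1
  rcases up.dvd_or_dvd d1 with a | a
  · exact a.mul_right _
  rcases up.dvd_or_dvd d2 with b | b
  · exact b.mul_right _
  refine Dvd.dvd.mul_left ?_ _
  have c := (b.mul_left (P.q * ε)).sub (a.mul_left ε)
  rwa [hj, show (P.q : ℤ) * ε * ((P.q : ℤ) ^ j + ε) - ε * ((P.q : ℤ) ^ (j + 1) + ε) = P.q - 1 by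
    rcases he with rfl | rfl <;> ring] at c

omit [Finite F] [Finite V] in
theorem xa_small {q : ℕ} (hk : t.kd = .O) (hd : t.dim n ≤ 2) (h : t = .Dm → 0 < n) :
    t.ord n q ∣ 2 * ((q : ℤ) ^ 2 - 1) := by
  cases t <;> simp only [Ty.kd, Ty.dim, reduceCtorEq] at hk hd
  · obtain rfl : n = 0 := by omega
    simp [Ty.ord]
  · obtain rfl | rfl : n = 0 ∨ n = 1 := by omega
    · simp [Ty.ord]
    · exact ⟨q + 1, by simp [Ty.ord]; ring⟩
  · obtain rfl : n = 1 := by have := h rfl; omega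
    exact ⟨q - 1, by simp [Ty.ord]; ring⟩

/-- The neighbours of a prime whose elements fix a space of dimension at most two. -/
theorem xa_nb (hT : Φ.IsTy t n) (ht : t ≠ .U) (h3 : 3 ≤ n) (R : Φ.Rep Γ)
    (hR : t ≠ .C → R.ι.range ≤ Φ.Der) (hr : r.Prime) (hu : u.Prime)
    (hz : t.dim n ≤ 2 * P.j r + 2) (hC : t = .C → n ≤ P.j r) (he : ε = 1 ∨ ε = -1)
    (hε : (r : ℤ) ∣ (P.q : ℤ) ^ P.j r - ε) (hj : n < 2 * P.j r) (h : Adj (PQ Γ) u r) :
    (u : ℤ) ∣ ((P.q : ℤ) ^ P.j r - ε) * (P.q - 1) ∨ t ≠ .C ∧ (u : ℤ) ∣ (P.q : ℤ) ^ 2 - 1 := by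
  obtain ⟨g, hg, ho⟩ := R.lift h
  obtain ⟨k1, hw, -⟩ := hT.jc ht r
  have hb : 1 < P.j r := by omega
  have gr : 2 < P.k.wt * P.j r := by rw [hw]; omega
  have c := Sca.cast_ne' hr gr
  obtain ⟨x, hx, y, hy', hc, h1, h1', h2, h2'⟩ : ∃ x ∈ Φ.Iso, ∃ y ∈ R.ι.range,
      Commute x y ∧ x ^ r = 1 ∧ x ≠ 1 ∧ y ^ u = 1 ∧ y ≠ 1 := by
    have h1 := hr.one_lt
    have h2 := hu.one_lt
    refine ⟨g ^ u, pow_mem (R.le hg) u, g ^ r, pow_mem hg r, Commute.pow_pow_self g u r, ?_,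
      pow_ne_one_of_lt_orderOf hu.ne_zero (by rw [ho]; nlinarith), ?_,
      pow_ne_one_of_lt_orderOf hr.ne_zero (by rw [ho]; nlinarith)⟩
    · rw [← pow_mul, ← ho, pow_orderOf_eq_one]
    · rw [← pow_mul, mul_comm, ← ho, pow_orderOf_eq_one]
  have hy := R.le hy'
  obtain ⟨s, hW, -, -, hd⟩ := mv_ty hT hx hr gr hj h1 h1'
  rw [hw] at hd
  obtain ⟨x', hx', ex⟩ := exists_res hx (stb_mv (Commute.refl x))
  obtain ⟨y', hy1, ey⟩ := exists_res hy (stb_mv hc)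
  have f1 : ∀ v, x' v = v → v = 0 := fun v hv =>
    Subtype.ext (fadja_dis h1 c v v.2 ((ex v).symm.trans (congrArg _ hv)))
  have c' := fbcd_comm ex ey hc
  have hk : t = .C ∧ P.k = .S ∨ t ≠ .C ∧ P.k = .O := by
    rw [← hT.kd]
    cases t <;> simp [Ty.kd] at ht ⊢
  by_cases a : y' = 1
  swap
  · refine .inl ?_
    rcases hk with ⟨-, hk⟩ | ⟨-, hk⟩
    · obtain ⟨Ψ, hΨ, hI⟩ := sp_to_og hk hW.nd hx' (hr.odd_of_ne_two (Ord.ne_two hb))
        (fbcd_pow ex h1) f1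
      have q' : (Sca.og F).q = P.q := by have := P.card; rw [hk] at this; exact this
      have j' : (Sca.og F).j r = P.j r := by rw [Sca.j, Sca.j, q', hk]; rfl
      have := xa_tor (Φ := Ψ) (ε := ε) rfl hΨ hr hu (j' ▸ hb) (j' ▸ hd) (hI x' hx' (Commute.refl _))
        (fbcd_pow ex h1) f1 (hI y' hy1 c') c' (fbcd_pow ey h2) a he (by rwa [j', q'])
      rwa [j', q'] at this
    · exact xa_tor hk hW.nd hr hu hb hd hx' (fbcd_pow ex h1) f1 hy1 c' (fbcd_pow ey h2) a he hε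
  have a1 : mv x ≤ fx y := fun w hw => mem_fx.2 (by rw [← ey ⟨w, hw⟩, a]; rfl)
  have d1 := finrank_mv_fx x
  have dV := hT.dim
  have sp : ∀ v, ∃ a ∈ fx x, ∃ b ∈ mv x, a + b = v := fun v =>
    Submodule.mem_sup.1 ((compl_fx h1 c).sup_eq_top.ge (Submodule.mem_top (x := v)))
  obtain ⟨z, hz1, ez⟩ := exists_res hy (stb_fx hc)
  have z1 : z ≠ 1 := fun e => h2' (LinearEquiv.ext fun v => by
    obtain ⟨a, ha, b, hb, rfl⟩ := sp v
    rw [map_add, ← ez ⟨a, ha⟩, e, mem_fx.1 (a1 hb)]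
    rfl)
  rcases hk with ⟨rfl, -⟩ | ⟨b, hk⟩
  · have := hC rfl
    have : Subsingleton (fx x) :=
      (finrank_zero_iff (R := F)).1 (by simp only [Ty.dim] at dV; omega)
    exact (z1 (LinearEquiv.ext fun _ => Subsingleton.elim _ _)).elim
  refine .inr ⟨b, ?_⟩
  obtain ⟨t', n', hZ⟩ := exists_ty (nd_fx hT.nd hx h1 c)
  have := Fact.mk hu
  have o : orderOf (⟨z, hz1⟩ : (Φ.res (fx x)).Iso) = u :=
    orderOf_eq_prime (Subtype.ext (fbcd_pow ez h2)) fun e => z1 (congrArg Subtype.val e)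
  have o1 : (u : ℤ) ∣ 2 * ((P.q : ℤ) ^ 2 - 1) :=
    (hZ.ord ▸ Int.natCast_dvd_natCast.2 (o ▸ orderOf_dvd_natCard _)).trans
      (xa_small (hZ.kd.trans hk) (by rw [← hZ.dim]; omega) hZ.pos)
  rcases (Nat.prime_iff_prime_int.1 hu).dvd_or_dvd o1 with e | e
  swap
  · exact e
  obtain rfl := (Nat.prime_dvd_prime_iff_eq hu Nat.prime_two).1 (Int.natCast_dvd_natCast.1 e)
  by_cases o2 : Odd P.q
  · obtain ⟨k, hk⟩ := o2
    exact ⟨2 * k ^ 2 + 2 * k, by rw [hk]; push_cast; ring⟩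
  exfalso
  have t2 : (2 : F) = 0 := not_not.1 (mt P.two_ne.1 o2)
  have m1 : mv y ≤ fx y := fun w hw => mem_fx.2 (by
    rw [fbca_mv_neg h2 hw, neg_eq_iff_add_eq_zero, ← two_smul F, t2, zero_smul])
  have m2 : mv y ≤ fx x := fun w hw => by
    obtain ⟨v, rfl⟩ := mem_mv.1 hw
    obtain ⟨a, ha, b, hb, rfl⟩ := sp v
    rw [map_add, mem_fx.1 (a1 hb), add_sub_add_right_eq_sub]
    exact sub_mem (stb_fx hc a ha) ha
  have m3 := Submodule.finrank_mono (sup_le m1 a1)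
  have m4 := Submodule.finrank_sup_add_finrank_inf_eq (mv y) (mv x)
  rw [((compl_fx h1 c).disjoint.mono_left m2).eq_bot, finrank_bot] at m4
  have m5 := finrank_mv_fx y
  have m6 : finrank F (fx y) < finrank F V := Submodule.finrank_lt fun a =>
    h2' (LinearEquiv.ext fun w => mem_fx.1 (a.ge Submodule.mem_top))
  have m7 : Φ.cd ⟨y, hy⟩ = 1 := by
    change finrank F (mv y) = 1
    omega
  obtain ⟨d, hd1, -⟩ := exists_dk hk hT.nd (by
    have := (wt_dim t n).1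
    rw [hT.kd, hw] at this
    omega)
  have m8 : (⟨y, hy⟩ : Φ.Iso) ∈ commutator Φ.Iso := by
    have := hR b hy'
    rw [Der, ← Subgroup.map_subtype_commutator] at this
    exact (Subgroup.mem_map_iff_mem Φ.Iso.subtype_injective).1 this
  have m9 := Abelianization.commutator_subset_ker d m8
  rw [MonoidHom.mem_ker, hd1, m7] at m9
  exact absurd m9 (by decide)

end Frm

end Pool.Agent.Lib.MP_7d41f7_al
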