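import Pool.Agent.Lib.MP_7d41f7_al.F.NGb
import Pool.Agent.Lib.MP_7d41f7_al.F.XA
import Pool.Agent.Lib.MP_7d41f7_al.F.UC

/-! The small symplectic and orthogonal groups that are treated one by one. -/

set_option autoImplicit false

namespace Pool.Agent.Lib.MP_7d41f7_al

open Module Matrix

variable {F V : Type} [Field F] [Finite F] {P : Sca F} [AddCommGroup V] [Module F V] [Finite V]
  {Φ : Frm P V} {t : Ty} {n r q : ℕ} {Γ G H S : Type} [Group Γ] [Group G] [Finite G] [Group H]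
  [Group S] {d : Ds}

/-- The data of a prime of one of the two largest classes. -/
def XOk (t : Ty) (n q r e : ℕ) (ε : ℤ) (C : ℕ) : Prop :=
  ((r : ℤ) ∣ (q : ℤ) ^ e - 1 ∧ ∀ i < e, 0 < i → ¬ (r : ℤ) ∣ (q : ℤ) ^ i - 1) ∧
    (2 < e ∧ 3 ≤ n ∧ n + 2 ≤ 2 * jc e ∧ t.dim n ≤ 2 * jc e + 2) ∧ (t = .C → n ≤ jc e) ∧
    (ε = 1 ∨ ε = -1) ∧ (r : ℤ) ∣ (q : ℤ) ^ jc e - ε ∧
    ((q : ℤ) ^ jc e - ε) * (q - 1) ∣ (C : ℤ) ∧
    (t ≠ .C → (q : ℤ) ^ 2 - 1 ∣ (C : ℤ) ∧ 7 ≤ t.dim n) ∧ t ≠ .U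

instance (t : Ty) (n q r e : ℕ) (ε : ℤ) (C : ℕ) : Decidable (XOk t n q r e ε C) := by
  unfold XOk
  infer_instance

theorem Frm.xb_cen (hT : Φ.IsTy t n) (h3 : 3 ≤ n) (h7 : t ≠ .C → 7 ≤ t.dim n) : Φ.Cen := by
  by_cases a : t = .C
  · subst a
    exact Frm.cen_all (by rw [← hT.kd]; decide) hT.nd (by rw [hT.dim, Ty.dim]; omega; simp; simp)
  · exact Frm.cen_of hT.nd (.inl (hT.dim ▸ h7 a))

theorem Frm.xb_nd {e C : ℕ} {ε : ℤ} (hT : Φ.IsTy t n) (R : Φ.Rep Γ)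
    (hR : t ≠ .C → R.ι.range ≤ Φ.Der) (hc : Nat.card G = Nat.card (PQ Γ)) (hV : Vo G = Vo (PQ Γ))
    (hr : r.Prime) (h : XOk t n P.q r e ε C) : ND G r C := fun s hs a => by
  obtain rfl := (Nat.prime_dvd_prime_iff_eq hs hr).1 a
  obtain ⟨⟨a1, a2⟩, ⟨b1, b2, b3, b4⟩, c1, c2, c3, c4, c5, ht⟩ := h
  have := R.finite
  obtain rfl : Ord P.q s = e := by
    have a3 := (Ord.dvd_iff e).1 a1
    refine (Nat.le_of_dvd (by omega) a3).eq_or_lt.resolve_right fun a4 =>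
      a2 _ a4 (Nat.pos_of_dvd_of_pos a3 (by omega)) ((Ord.dvd_iff _).2 dvd_rfl)
  have hy := Frm.cyc_T hT ht R hr b1 (by omega)
  have hv := Frm.van_O hT ht (fun _ => b2) (Frm.xb_cen hT b2 fun a => (c5 a).2) R hr b1 (.inl b3)
  refine ⟨transfer_cyc hr hc hV hy hv, fun u hu ne a => Int.natCast_dvd_natCast.1 ?_⟩
  obtain ⟨-, -, -, j⟩ := hT.jc ht s
  rw [← j] at b3 b4 c1 c3 c4
  exact (Frm.xa_nb hT ht b2 R hR hr hu b4 c1 c2 c3 (by omega)
    ((transfer_adj hr ((Nat.coprime_primes hu hr).2 ne) hc hV hy hv).1 a)).elim (·.trans c4)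
    fun b => b.2.trans (c5 b.1).1

theorem xb_sole (h : Out G [d]) (hS : IsD S d) (hc : Nat.card G = Nat.card S)
    (k : ∀ (H : Type) [Group H], IsD H d → G ≃* H → Nonempty (H ≃* S)) :
    Nonempty (G ≃* S) ∨ Off5 G := by
  obtain ⟨K, _, H, a, b⟩ := h
  by_cases hl : OnList5 H
  · obtain ⟨d', e, f⟩ := b hl
    obtain rfl := List.mem_singleton.1 e
    obtain ⟨i⟩ := iso_of_card (H := H) (hc.trans (hS.card.trans f.card.symm)).le
    exact .inl ((k H f i).map i.trans)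
  · exact .inr ⟨K, _, H, a.nrm, a.sim, a.nab, a.cen, hl⟩

theorem xb_ty (ht : t = .Dp ∧ IsD H (.dp n (Nat.card F)) ∨ t = .Dm ∧ IsD H (.dm n (Nat.card F))) :
    ∃ Q : QuadraticForm F (Fin (2 * n) → F), (Frm.ofQ Q).IsTy t n ∧
      Nonempty (H ≃* PQ (commutator (orth Q))) := by
  obtain ⟨n4, h⟩ : 4 ≤ n ∧ IsOm H (2 * n) (Nat.card F) :=
    ht.elim (fun a => ⟨a.2.1, a.2.2.1⟩) fun a => ⟨a.2.1, a.2.2.1⟩
  obtain ⟨Q, t', m, hQ, hd, ⟨e⟩⟩ := IsOm.ty (F := F) h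
  obtain ⟨ht', rfl⟩ := ty_even hQ.kd hd
  obtain ⟨R, -⟩ := brg_om Q
  obtain ⟨c, c1, c2⟩ := Frm.card_PQ hQ (by omega) R
  rw [← Nat.card_congr e.toEquiv] at c1
  obtain ⟨e1, e2⟩ := ty_eq (h := Nat.card H) (Sca.og F).q2 n4 c2
  obtain rfl : t' = t := by
    rcases ht with ⟨rfl, h4⟩ | ⟨rfl, h4⟩ <;> rcases ht' with rfl | rfl
    exacts [rfl, (e1 h4.2.2 c1).elim, (e2 h4.2.2 c1).elim, rfl]
  exact ⟨Q, hQ, ⟨e⟩⟩

/-- One orthogonal group of even dimension. -/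
theorem xb_d {e C : ℕ} {ε : ℤ} (ht : t = .Dp ∧ d = .dp n q ∨ t = .Dm ∧ d = .dm n q) (hS : IsD S d)
    (hc : Nat.card G = Nat.card S) (hV : Vo G = Vo S) (hr : r.Prime) (h : XOk t n q r e ε C)
    (k : chkS d.ord [(r, C)] [] r 2 [d] = true) : Nonempty (G ≃* S) ∨ Off5 G := by
  obtain ⟨F, _, _, -, rfl, -⟩ : IsOm S (2 * n) q := by
    rcases ht with ⟨-, rfl⟩ | ⟨-, rfl⟩ <;> exact hS.2.1
  have a : ∀ (H : Type) [Group H], IsD H d → ∃ Q : QuadraticForm F (Fin (2 * n) → F),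
      (Frm.ofQ Q).IsTy t n ∧ Nonempty (H ≃* PQ (commutator (orth Q))) := fun H _ b => by
    rcases ht with ⟨c, rfl⟩ | ⟨c, rfl⟩
    exacts [xb_ty (.inl ⟨c, b⟩), xb_ty (.inr ⟨c, b⟩)]
  obtain ⟨Q, hT, ⟨i⟩⟩ := a S hS
  obtain ⟨R, hR⟩ := brg_om Q
  refine xb_sole (chkS_out (hc.trans hS.card) (fun x hx => ?_) k) hS hc fun H _ b _ => ?_
  · obtain rfl := List.mem_singleton.1 hx
    exact Frm.xb_nd hT R (fun _ => hR) (hc.trans (Nat.card_congr i.toEquiv))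
      (hV.trans (Vo_congr i)) hr h
  · obtain ⟨Q', hT', ⟨j⟩⟩ := a H b
    exact (om_iso hT' hT).map fun z => (j.trans z).trans i.symm

theorem xb_bc {Q : QuadraticForm F V} (h : (Frm.ofQ Q).IsTy .B n) (hn : 3 ≤ n)
    (ha : ∀ r m, r.Prime → Ord ((Nat.card F : ℤ) ^ 2) r + 1 = n → m.Coprime r →
      Adj (PQ (symplecticGroup (Fin n) F)) m r → Adj (PQ (commutator (orth Q))) m r) : False := by
  obtain ⟨m, rfl⟩ : ∃ m, n = m + 1 := ⟨n - 1, by omega⟩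
  obtain ⟨p, f, hp, hf, e, _⟩ := (Sca.og F).pp
  have ho : Odd (Nat.card F) := h.odd rfl
  have q2 : 2 ≤ Nat.card F := (Sca.og F).q2
  obtain ⟨r, hb⟩ := exists_bcp' (m := m) ho (by obtain ⟨k, hk⟩ := ho; omega) (by omega)
  obtain ⟨hr, hj⟩ := hb.ord (by omega)
  obtain ⟨Φ, R, hT, hR⟩ := sp_ty (m + 1) F
  obtain ⟨R', hR'⟩ := brg_om Q
  have hp' : p ∣ Nat.card F := (dvd_pow_self p hf.ne').trans (dvd_of_eq e.symm)
  have p2 : p ≠ 2 := by
    rintro rfl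
    exact ho.not_two_dvd_nat hp'
  refine Frm.bc_om' h (by omega) hp hb R' hR' (ha r _ hr (by omega) (Nat.Coprime.mul_left
    ((Nat.coprime_primes Nat.prime_two hr).2 (Ord.ne_two (b := (Nat.card F : ℤ) ^ 2)
      (by omega)).symm) ((Nat.coprime_primes hp hr).2 ?_))
    (Frm.bc_sp' hT (Frm.xb_cen hT hn fun a => (a rfl).elim) (by omega) hp p2 hr hj R hR))
  rintro rfl
  exact Ord.not_dvd_q (d := .O) hr (hj.symm ▸ by omega : 0 < Ord ((Nat.card F : ℤ) ^ 2) p) hp'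

theorem Frm.xb_adj (hT : Φ.IsTy t n) (ht : t = .B ∨ t = .C) (h3 : 3 ≤ n) (R : Φ.Rep Γ)
    (hc : Nat.card G = Nat.card (PQ Γ)) (hV : Vo G = Vo (PQ Γ)) {m : ℕ} (hr : r.Prime)
    (hj : Ord ((P.q : ℤ) ^ 2) r + 1 = n) (hm : m.Coprime r) : Adj G m r ↔ Adj (PQ Γ) m r := by
  have := R.finite
  have a : t ≠ .U := by rcases ht with rfl | rfl <;> decide
  have g := gq_pred (t := t) h3 hj
  exact transfer_adj hr hm hc hV (Frm.cyc_T hT a R hr g.1.1 g.1.2.2)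
    (Frm.van_T' hT a h3 (fun _ => ht) (Frm.xb_cen hT h3 fun b => by
      rw [ht.resolve_right b, Ty.dim]; omega) R hr g)

/-- A group with the order and the vanishing orders of a symplectic or odd orthogonal group that
is itself such a group. -/
theorem xb_sym (h3 : 3 ≤ n) (hS : IsD S (.sym n q)) (hG : IsD G (.sym n q)) (hV : Vo G = Vo S) :
    Nonempty (G ≃* S) := by
  obtain ⟨F, _, _, rfl⟩ : ∃ (F : Type) (_ : Field F) (_ : Finite F), Nat.card F = q := by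
    rcases hS with ⟨-, F, _, _, e, -⟩ | ⟨-, F, _, _, _, e, -⟩ <;> exact ⟨F, ‹_›, ‹_›, e⟩
  have hc := hG.card.trans hS.card.symm
  have a : ∀ {H : Type} [Group H], IsOm H (2 * n + 1) (Nat.card F) →
      ∃ Q : QuadraticForm F (Fin (2 * n + 1) → F), (Frm.ofQ Q).IsTy .B n ∧
        Nonempty (H ≃* PQ (commutator (orth Q))) := fun h => by
    obtain ⟨Q, t, m, hQ, hd, e⟩ := IsOm.ty (F := F) h
    obtain ⟨rfl, rfl⟩ := ty_odd hQ.kd hd
    exact ⟨Q, hQ, e⟩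
  rcases hS with ⟨-, hS⟩ | ⟨-, hS⟩ <;> rcases hG with ⟨-, hG⟩ | ⟨-, hG⟩
  · obtain ⟨i⟩ := IsSp.iso (F := F) hS
    exact (IsSp.iso (F := F) hG).map fun j => j.trans i.symm
  · obtain ⟨i⟩ := IsSp.iso (F := F) hS
    obtain ⟨Q, hQ, ⟨j⟩⟩ := a hG
    obtain ⟨Φ, R, hT, -⟩ := sp_ty n F
    exact (xb_bc hQ h3 fun r m hr hj hm h => ((Frm.xb_adj hT (.inr rfl) h3 R
      (hc.trans (Nat.card_congr i.toEquiv)) (hV.trans (Vo_congr i)) hr hj hm).2 h).congr j).elim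
  · obtain ⟨j⟩ := IsSp.iso (F := F) hG
    obtain ⟨Q, hQ, ⟨i⟩⟩ := a hS
    obtain ⟨R, -⟩ := brg_om Q
    exact (xb_bc hQ h3 fun r m hr hj hm h => (Frm.xb_adj hQ (.inl rfl) h3 R
      (hc.trans (Nat.card_congr i.toEquiv)) (hV.trans (Vo_congr i)) hr hj hm).1
        (h.congr j.symm)).elim
  · obtain ⟨Q, hQ, ⟨i⟩⟩ := a hS
    obtain ⟨Q', hQ', ⟨j⟩⟩ := a hG
    exact (om_iso hQ' hQ).map fun z => (j.trans z).trans i.symm

/-- One symplectic group, or one orthogonal group of odd dimension. -/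
theorem xb_c {e C : ℕ} {ε : ℤ} (hS : IsD S (.sym n q)) (hc : Nat.card G = Nat.card S)
    (hV : Vo G = Vo S) (hr : r.Prime) (h : XOk .C n q r e ε C) (h' : Odd q → XOk .B n q r e ε C)
    (k : chkS (Ds.sym n q).ord [(r, C)] [] r 2 [.sym n q] = true) :
    Nonempty (G ≃* S) ∨ Off5 G := by
  refine xb_sole (chkS_out (hc.trans hS.card) (fun x hx => ?_) k) hS hc fun H _ b i =>
    have := Finite.of_equiv _ i.toEquiv
    xb_sym h.2.1.2.1 hS b ((Vo_congr i).symm.trans hV)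
  obtain rfl := List.mem_singleton.1 hx
  rcases hS with ⟨-, F, _, _, rfl, ⟨i⟩⟩ | ⟨-, hS⟩
  · obtain ⟨Φ, R, hT, -⟩ := sp_ty n F
    exact Frm.xb_nd hT R (fun a => (a rfl).elim) (hc.trans (Nat.card_congr i.toEquiv))
      (hV.trans (Vo_congr i)) hr h
  · obtain ⟨F, _, _, -, rfl, -⟩ := id hS
    obtain ⟨Q, t, m, hQ, hd, ⟨i⟩⟩ := IsOm.ty (F := F) hS
    obtain ⟨rfl, rfl⟩ := ty_odd hQ.kd hd
    obtain ⟨R, hR⟩ := brg_om Q
    exact Frm.xb_nd hQ R (fun _ => hR) (hc.trans (Nat.card_congr i.toEquiv))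
      (hV.trans (Vo_congr i)) hr (h' (hQ.odd rfl))

/-- The twelve orders that are treated one by one. -/
theorem all_spec (hS : IsD S d)
    (hd : d ∈ [Ds.sym 3 2, .sym 3 3, .sym 4 2, .sym 6 2, .dp 4 2, .dp 4 3, .dp 4 4, .dp 4 5,
      .dp 5 2, .dp 6 2, .dm 4 2, .dm 5 2])
    (hc : Nat.card G = Nat.card S) (hV : Vo G = Vo S) : Nonempty (G ≃* S) ∨ Off5 G := by
  simp only [List.mem_cons, List.not_mem_nil, or_false] at hd
  rcases hd with rfl | rfl | rfl | rfl | rfl | rfl | rfl | rfl | rfl | rfl | rfl | rfl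
  · exact xb_c (r := 7) (e := 3) (ε := 1) (C := 7) hS hc hV (by norm_num) (by decide)
      (by decide) (by decide +kernel)
  · exact xb_c (r := 7) (e := 6) (ε := -1) (C := 56) hS hc hV (by norm_num) (by decide)
      (by decide) (by decide +kernel)
  · exact xb_c (r := 17) (e := 8) (ε := -1) (C := 17) hS hc hV (by norm_num) (by decide)
      (by decide) (by decide +kernel)
  · exact xb_c (r := 13) (e := 12) (ε := -1) (C := 65) hS hc hV (by norm_num) (by decide)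
      (by decide) (by decide +kernel)
  · exact xb_d (r := 7) (e := 3) (ε := 1) (C := 21) (.inl ⟨rfl, rfl⟩) hS hc hV (by norm_num)
      (by decide) (by decide +kernel)
  · exact xb_d (r := 7) (e := 6) (ε := -1) (C := 56) (.inl ⟨rfl, rfl⟩) hS hc hV (by norm_num)
      (by decide) (by decide +kernel)
  · exact xb_d (r := 13) (e := 6) (ε := -1) (C := 195) (.inl ⟨rfl, rfl⟩) hS hc hV (by norm_num)
      (by decide) (by decide +kernel)
  · exact xb_d (r := 7) (e := 6) (ε := -1) (C := 504) (.inl ⟨rfl, rfl⟩) hS hc hV (by norm_num)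
      (by decide) (by decide +kernel)
  · exact xb_d (r := 17) (e := 8) (ε := -1) (C := 51) (.inl ⟨rfl, rfl⟩) hS hc hV (by norm_num)
      (by decide) (by decide +kernel)
  · exact xb_d (r := 11) (e := 10) (ε := -1) (C := 33) (.inl ⟨rfl, rfl⟩) hS hc hV (by norm_num)
      (by decide) (by decide +kernel)
  · exact xb_d (r := 17) (e := 8) (ε := -1) (C := 51) (.inr ⟨rfl, rfl⟩) hS hc hV (by norm_num)
      (by decide) (by decide +kernel)
  · exact xb_d (r := 11) (e := 10) (ε := -1) (C := 33) (.inr ⟨rfl, rfl⟩) hS hc hV (by norm_num)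
      (by decide) (by decide +kernel)

end Pool.Agent.Lib.MP_7d41f7_al
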