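import Pool.Agent.Lib.MP_7d41f7_al.F.XB
import Pool.Agent.Lib.MP_7d41f7_al.H.KD

/-! The symplectic and orthogonal groups of rank at least three over all fields. -/

set_option autoImplicit false

namespace Pool.Agent.Lib.MP_7d41f7_al

open Module Matrix Subgroup

/-- The groups that are treated one by one. -/
def XSp (t : Ty) (n q : ℕ) : Prop :=
  (q = 2 ∧ Kp t n 6) ∨ (n = 3 ∧ q = 3) ∨ (t = .Dp ∧ n = 4 ∧ q < 7)

/-- The general argument. -/
def XGen : Prop := ∀ (G : Type) [Group G] [Finite G] (t : Ty) (n p f : ℕ), p.Prime → 0 < f →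
  t ≠ .U → 3 ≤ n → (n = 3 → t = .B ∨ t = .C) → n < 32 → ¬ XSp t n (p ^ f) → TData G t n (p ^ f) →
    ∃ (K : Subgroup G) (_ : K.Normal) (H : Subgroup (G ⧸ K)), H.Normal ∧ IsSimpleGroup H ∧
      ¬ IsMulCommutative H ∧ centralizer (H : Set (G ⧸ K)) = ⊥ ∧ HOut2 H t n (p ^ f)

variable {F V : Type} [Field F] [Finite F] {P : Sca F} [AddCommGroup V] [Module F V] [Finite V]
  {Φ : Frm P V} {t : Ty} {n q : ℕ} {Γ G S : Type} [Group Γ] [Group G] [Finite G] [Group S]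

theorem Frm.xm_core (k : XGen) (hT : Φ.IsTy t n) (ht : t ≠ .U) (h3 : 3 ≤ n)
    (hD : n = 3 → t = .B ∨ t = .C) (hn : n < 32) (R : Φ.Rep Γ) (hs : ¬ XSp t n P.q)
    (i : S ≃* PQ Γ) (hc : Nat.card G = Nat.card S) (hV : Vo G = Vo S)
    (e : ∀ (H : Type) [Group H], Hit H t n P.q → (Nat.card G ≤ Nat.card H → Nonempty (G ≃* H)) →
      Nonempty (G ≃* S)) : Nonempty (G ≃* S) ∨ Off5 G := by
  have := R.finite
  replace hc := hc.trans (Nat.card_congr i.toEquiv)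
  replace hV := hV.trans (Vo_congr i)
  have hC : Φ.Cen := Frm.xb_cen hT h3 fun a => by
    cases t <;> simp [Ty.dim] at ht hD a ⊢ <;> omega
  have h := Frm.tdata_PQ' hT ht hC R
  have hv := fun r hr ho => Frm.van_T' (r := r) hT ht h3 hD hC R hr ho
  have h1 : TData G t n P.q := ⟨hc ▸ h.card, fun r hr ho => transfer_cyc hr hc hV (h.cyc r hr ho)
    (hv r hr ho), fun r u hr hu hne ho hu' ha => h.adj r u hr hu hne ho hu'
      ((transfer_adj hr ((Nat.coprime_primes hu hr).2 hne) hc hV (h.cyc r hr ho)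
        (hv r hr ho)).1 ha)⟩
  obtain ⟨p, f, hp, hf, a, -⟩ := P.pp
  rw [a] at h1 hs e
  obtain ⟨K, _, H, a1, a2, a3, a4, a5⟩ := k G t n p f hp hf ht h3 hD hn hs h1
  by_cases hl : OnList3 H
  · exact .inl (e H (a5.hit hl.onList2) iso_of_card)
  · exact .inr (Off3.off4 ⟨K, _, H, a1, a2, a3, a4, hl⟩).off5

theorem xm_sym (k : XGen) (hS : IsD S (.sym n q)) (h3 : 3 ≤ n) (hn : n < 32)
    (hc : Nat.card G = Nat.card S) (hV : Vo G = Vo S) : Nonempty (G ≃* S) ∨ Off5 G := by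
  have e : ∀ t, t = .B ∨ t = .C → ∀ (H : Type) [Group H], Hit H t n q →
      (Nat.card G ≤ Nat.card H → Nonempty (G ≃* H)) → Nonempty (G ≃* S) := fun t ht H _ a b => by
    have c : IsD H (.sym n q) := by
      rcases a with ⟨rfl, -⟩ | ⟨-, a, -⟩ | ⟨-, ⟨rfl, -⟩ | ⟨rfl, -⟩⟩
      · simp at ht
      · exact a.imp (⟨by omega, ·⟩) (⟨h3, ·⟩)
      all_goals simp at ht
    obtain ⟨j⟩ := b (hc.trans (hS.card.trans c.card.symm)).le
    have := Finite.of_equiv _ j.toEquiv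
    exact (xb_sym h3 hS c ((Vo_congr j).symm.trans hV)).map j.trans
  rcases id hS with ⟨-, F, _, _, rfl, ⟨i⟩⟩ | ⟨-, h⟩
  · obtain ⟨Φ, R, hT, -⟩ := sp_ty n F
    by_cases s : XSp .C n (Nat.card F)
    · refine all_spec hS ?_ hc hV
      rcases s with ⟨a, b⟩ | ⟨rfl, a⟩ | ⟨a, -⟩
      · rw [a]
        clear * - b h3 hn
        interval_cases n <;> first | decide | exact absurd b (by decide)
      · rw [a]
        decide
      · simp at a
    · exact Frm.xm_core k hT (by decide) h3 (fun _ => .inr rfl) hn R s i hc hV (e _ (.inr rfl))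
  · obtain ⟨F, _, _, -, rfl, -⟩ := id h
    obtain ⟨Q, t, m, hQ, hd, ⟨i⟩⟩ := IsOm.ty (F := F) h
    obtain ⟨rfl, rfl⟩ := ty_odd hQ.kd hd
    obtain ⟨R, -⟩ := brg_om Q
    by_cases s : XSp .B n (Nat.card F)
    · refine all_spec hS ?_ hc hV
      rcases s with ⟨a, -⟩ | ⟨rfl, a⟩ | ⟨a, -⟩
      · exact absurd (a ▸ hQ.odd rfl : Odd 2) (by decide)
      · rw [a]
        decide
      · simp at a
    · exact Frm.xm_core k hQ (by decide) h3 (fun _ => .inl rfl) hn R s i hc hV (e _ (.inl rfl))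

theorem xm_d (k : XGen) (hS : t = .Dp ∧ IsD S (.dp n q) ∨ t = .Dm ∧ IsD S (.dm n q))
    (hn : n < 32) (hc : Nat.card G = Nat.card S) (hV : Vo G = Vo S) :
    Nonempty (G ≃* S) ∨ Off5 G := by
  obtain ⟨n4, F, _, _, -, rfl, -⟩ : 4 ≤ n ∧ IsOm S (2 * n) q :=
    hS.elim (fun a => ⟨a.2.1, a.2.2.1⟩) fun a => ⟨a.2.1, a.2.2.1⟩
  obtain ⟨Q, hT, ⟨i⟩⟩ := xb_ty hS
  obtain ⟨R, -⟩ := brg_om Q
  by_cases s : XSp t n (Nat.card F)
  · rcases s with ⟨a, b⟩ | ⟨a, -⟩ | ⟨rfl, rfl, a⟩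
    · rw [a] at hS
      rcases hS with ⟨rfl, hS⟩ | ⟨rfl, hS⟩ <;> refine all_spec hS ?_ hc hV <;> clear * - b n4 hn <;>
        interval_cases n <;> first | decide | exact absurd b (by decide)
    · omega
    · refine all_spec (hS.resolve_right (by simp)).2 ?_ hc hV
      have b := card_pp F
      have c := b.two_le
      generalize Nat.card F = q at a b c
      interval_cases q <;> first | decide | exact absurd b (by decide)
  refine Frm.xm_core k hT (by rcases hS with ⟨rfl, -⟩ | ⟨rfl, -⟩ <;> decide) (by omega) (by omega)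
    hn R s i hc hV fun H _ a b => ?_
  obtain ⟨Q', hT', ⟨j⟩⟩ := xb_ty (F := F) (t := t) (n := n) (H := H) (by
    rcases a with ⟨rfl, -⟩ | ⟨rfl | rfl, -⟩ | ⟨a, c⟩
    iterate 3 simp at hS
    exact c.imp (fun c => ⟨c.1, n4, a, c.2⟩) fun c => ⟨c.1, n4, a, c.2⟩)
  obtain ⟨z⟩ := om_iso hT' hT
  exact iso_of_iso hc b ((j.trans z).trans i.symm)

theorem all_sp5_of (k : XGen) (h : IsSp S n q) (hn : 3 ≤ n) (hc : Nat.card G = Nat.card S)
    (hV : Vo G = Vo S) : Nonempty (G ≃* S) ∨ Off5 G := by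
  by_cases c : n < 32
  · exact xm_sym k (.inl ⟨by omega, h⟩) hn c hc hV
  · exact (allclassical S (2 * n) q (.inr (.inl ⟨n, by omega, rfl, h⟩)) (.inl (by omega)) G hc
      hV).imp_right fun a => a.off4.off5

theorem all_om5_of (k : XGen) (h : IsOm S n q) (hn : 7 ≤ n) (hc : Nat.card G = Nat.card S)
    (hV : Vo G = Vo S) : Nonempty (G ≃* S) ∨ Off5 G := by
  by_cases c : 64 ≤ n
  · exact (allclassical S n q (.inr (.inr ⟨hn, h⟩)) (.inl c) G hc hV).imp_right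
      fun a => a.off4.off5
  obtain ⟨m, rfl | rfl⟩ := Nat.even_or_odd' n
  · rcases h.ordD (by omega) with a | a
    · exact xm_d k (.inl ⟨rfl, by omega, h, a⟩) (by omega) hc hV
    · exact xm_d k (.inr ⟨rfl, by omega, h, a⟩) (by omega) hc hV
  · exact xm_sym k (.inr ⟨by omega, h⟩) (by omega) (by omega) hc hV

end Pool.Agent.Lib.MP_7d41f7_al
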