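import Pool.Agent.Lib.MP_7d41f7_al.L.SPerm
import Pool.Agent.Lib.MP_7d41f7_al.L.GA
import Pool.Agent.Lib.MP_7d41f7_al.C.KDef

/-! A group of order `25920` with a normal subgroup of order `1296` and isolated prime `5` has a
vanishing element of order `8`. -/

set_option autoImplicit false

namespace Pool.Agent.Lib.MP_7d41f7_al

open Subgroup

theorem xu_ring {R : Type} [Ring R] {σ τ : R} (h5 : τ ^ 5 = 1) (h : σ * τ = τ ^ 2 * σ)
    (hτ : 1 + τ + τ ^ 2 + τ ^ 3 + τ ^ 4 = 0) (hσ : 1 + σ + σ ^ 2 + σ ^ 3 = 0) : (5 : R) = 0 := by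
  have a1 : ∀ k : ℕ, σ * τ ^ k = τ ^ (2 * k) * σ := fun k => by
    induction k with
    | zero => simp
    | succ k ih => rw [pow_succ, ← mul_assoc, ih, mul_assoc, h, ← mul_assoc, ← pow_add, mul_add]
  have a2 : ∀ j k : ℕ, σ ^ j * τ ^ k = τ ^ (2 ^ j * k) * σ ^ j := fun j => by
    induction j with
    | zero => simp
    | succ j ih =>
      intro k
      rw [pow_succ, mul_assoc, a1, ← mul_assoc, ih, mul_assoc, pow_succ 2, mul_assoc]
  have a3 : ∀ k : ℕ, τ ^ k = τ ^ (k % 5) := fun k => pow_eq_pow_mod k h5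
  have a4 : ∀ i : ℕ, τ ^ (5 * i % 5) + τ ^ (9 * i % 5) * σ + τ ^ (17 * i % 5) * σ ^ 2
      + τ ^ (33 * i % 5) * σ ^ 3 = 0 := fun i => by
    have e := congrArg (fun x => τ ^ i * x * τ ^ (4 * i)) hσ
    simp only [mul_add, add_mul, mul_assoc, a1, a2, mul_zero, zero_mul, one_mul] at e
    simp only [← mul_assoc, ← pow_add] at e
    rw [← a3, ← a3, ← a3, ← a3, ← e]
    congr 5 <;> ring
  have b0 := a4 0
  have b1 := a4 1
  have b2 := a4 2
  have b3 := a4 3
  have b4 := a4 4
  norm_num at b0 b1 b2 b3 b4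
  have c1 := congrArg (· * σ) hτ
  have c2 := congrArg (· * σ ^ 2) hτ
  have c3 := congrArg (· * σ ^ 3) hτ
  simp only [add_mul, zero_mul, one_mul] at c1 c2 c3
  have : (5 : R) = 1 + 1 + 1 + 1 + 1 := by norm_num
  rw [this]
  linear_combination (norm := abel1) b0 + b1 + b2 + b3 + b4 - c1 - c2 - c3

variable {G : Type} [Group G] [Finite G]

omit [Finite G] in
/-- The norm of `s` does not vanish on an elementary abelian `2`-group. -/
theorem xu_norm (W : Subgroup G) (hW : W ≠ ⊥) (hc : ∀ x ∈ W, ∀ y ∈ W, x * y = y * x)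
    (h2 : ∀ x ∈ W, x * x = 1) {s t : G} (hs : ∀ x ∈ W, s * x * s⁻¹ ∈ W)
    (ht : ∀ x ∈ W, t * x * t⁻¹ ∈ W) (t5 : t ^ 5 = 1) (st : s * t = t ^ 2 * s)
    (fr : ∀ x ∈ W, t * x * t⁻¹ = x → x = 1) (s4 : s ^ 4 = 1) :
    ∃ v ∈ W, orderOf (v * s) = 8 := by
  let _ : CommGroup W := { (inferInstance : Group W) with
    mul_comm := fun x y => Subtype.ext (hc x x.2 y y.2) }
  let f : ∀ g : G, (∀ x ∈ W, g * x * g⁻¹ ∈ W) → AddMonoid.End (Additive W) := fun g hg =>
    MonoidHom.toAdditive (MonoidHom.mk' (fun x : W => (⟨g * x * g⁻¹, hg x x.2⟩ : W))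
      fun x y => Subtype.ext (by simp [mul_assoc]))
  have fv : ∀ g hg (k : ℕ) (x : W), (((f g hg ^ k) (Additive.ofMul x)).toMul : G)
      = g ^ k * x * (g ^ k)⁻¹ := fun g hg k => by
    induction k with
    | zero => simp
    | succ k ih =>
      intro x
      rw [pow_succ', AddMonoid.End.coe_mul, Function.comp_apply, pow_succ']
      change g * (((f g hg ^ k) (Additive.ofMul x)).toMul : G) * g⁻¹ = _
      rw [ih]
      group
  have ex : ∀ a b : AddMonoid.End (Additive W), (∀ x : W,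
      ((a (Additive.ofMul x)).toMul : G) = (b (Additive.ofMul x)).toMul) → a = b :=
    fun a b h => AddMonoidHom.ext fun x => Subtype.ext (h x.toMul)
  have f1 : ∀ g hg (x : Additive W), (((f g hg) x).toMul : G) = g * (x.toMul : W) * g⁻¹ :=
    fun g hg x => rfl
  by_contra hn
  have h5 : f t ht ^ 5 = 1 := ex _ _ fun x => by rw [fv, t5]; simp
  have key := xu_ring (σ := f s hs) h5 (ex _ _ fun x => by
      rw [AddMonoid.End.coe_mul, AddMonoid.End.coe_mul, Function.comp_apply, Function.comp_apply,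
        f1, f1, ← ofMul_toMul ((f s hs) _), fv, f1, ← mul_assoc, ← mul_assoc, st, mul_assoc _ t⁻¹,
        ← mul_inv_rev, st]
      simp [mul_assoc])
    (ex _ _ fun x => by
      have e : f t ht * (1 + f t ht + f t ht ^ 2 + f t ht ^ 3 + f t ht ^ 4)
          = 1 + f t ht + f t ht ^ 2 + f t ht ^ 3 + f t ht ^ 4 := by
        simp only [mul_add, mul_one, ← pow_succ', ← sq, h5]
        abel
      have e2 := congrArg (fun a : AddMonoid.End (Additive W) =>
        ((a (Additive.ofMul x)).toMul : G)) e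
      simp only [AddMonoid.End.coe_mul, Function.comp_apply, f1] at e2
      exact fr _ (Subtype.prop _) e2)
    (ex _ _ fun x => by
      have e : (((1 + f s hs + f s hs ^ 2 + f s hs ^ 3 : AddMonoid.End (Additive W))
          (Additive.ofMul x)).toMul : G) = (x * s) ^ 4 := by
        have e1 : ((x : G) * s) ^ 4 = x * (s * x * s⁻¹) * (s ^ 2 * x * (s ^ 2)⁻¹) *
            (s ^ 3 * x * (s ^ 3)⁻¹) * s ^ 4 := by
          simp only [pow_succ, pow_zero]
          group
        rw [e1, s4, mul_one, ← fv s hs, ← fv s hs]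
        rfl
      by_contra hne
      refine hn ⟨x, x.2, orderOf_eq_prime_pow (p := 2) (n := 2) (fun h => hne (e.trans h)) ?_⟩
      rw [pow_succ 2, pow_mul, sq]
      change ((x : G) * s) ^ 4 * ((x : G) * s) ^ 4 = 1
      rw [← e]
      exact h2 _ (Subtype.prop _))
  refine hW (eq_bot_iff.2 fun x hx => ?_)
  have e := congrArg (fun a : AddMonoid.End (Additive W) =>
    ((a (Additive.ofMul ⟨x, hx⟩)).toMul : G)) key
  have e5 : (5 : AddMonoid.End (Additive W)) = 1 + 1 + 1 + 1 + 1 := by norm_num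
  rw [e5] at e
  change x * x * x * x * x = 1 at e
  rwa [h2 x hx, one_mul, h2 x hx, one_mul] at e

/-- The elements `v * s` vanish. -/
theorem xu_van (K : Subgroup G) [K.Normal] (hi : K.index = 20) {s t : G} (t5 : orderOf t = 5)
    (hK : ¬ 5 ∣ Nat.card K) (st : s * t = t ^ 2 * s) (s4 : s ^ 4 = 1) {v : G} (hv : v ∈ K) :
    orderOf (v * s) ∈ Vo G := by
  let M : Subgroup G := (zpowers (s : G ⧸ K)).comap (QuotientGroup.mk' K)
  have hKM : K ≤ M := fun x hx => by
    simp [M, (QuotientGroup.eq_one_iff x).2 hx]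
  have hsM : s ∈ M := mem_zpowers _
  have a1 : ∀ k : ℕ, s * t ^ k = t ^ (2 * k) * s := fun k => by
    induction k with
    | zero => simp
    | succ k ih => rw [pow_succ, ← mul_assoc, ih, mul_assoc, st, ← mul_assoc, ← pow_add, mul_add]
  have hd : Nat.card (zpowers (s : G ⧸ K)) ∣ 4 := by
    rw [Nat.card_zpowers, orderOf_dvd_iff_pow_eq_one, ← QuotientGroup.mk_pow, s4,
      QuotientGroup.mk_one]
  have hM5 : ∀ k : ℕ, t ^ k ∈ M → 5 ∣ k := fun k hk => by
    have e1 : ((t ^ k : G) : G ⧸ K) ^ 4 = 1 := orderOf_dvd_iff_pow_eq_one.1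
      ((orderOf_dvd_of_mem_zpowers hk).trans (Nat.card_zpowers (s : G ⧸ K) ▸ hd))
    rw [← QuotientGroup.mk_pow, QuotientGroup.eq_one_iff] at e1
    have e2 := K.orderOf_dvd_natCard e1
    have e3 : orderOf ((t ^ k) ^ 4) ∣ 5 := by
      rw [← pow_mul, ← t5]
      exact orderOf_pow_dvd _
    rcases (Nat.dvd_prime Nat.prime_five).1 e3 with e | e
    · rw [orderOf_eq_one_iff, ← pow_mul, ← orderOf_dvd_iff_pow_eq_one, t5] at e
      omega
    · exact absurd (e ▸ e2) hK
  have hne : ∀ a b : ℕ, ((t ^ a : G) : G ⧸ M) = (t ^ (a + b) : G) → 5 ∣ b := fun a b h => by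
    rw [QuotientGroup.eq, pow_add, inv_mul_cancel_left] at h
    exact hM5 b h
  have hs4 : orderOf (s : G ⧸ K) = 4 := by
    refine orderOf_eq_prime_pow (p := 2) (n := 1) (fun h => ?_)
      (by rw [← QuotientGroup.mk_pow]; exact congrArg _ s4)
    rw [← QuotientGroup.mk_pow, QuotientGroup.eq_one_iff] at h
    have e1 : s ^ 2 * t * (s ^ 2)⁻¹ = t ^ 4 := by
      rw [mul_inv_eq_iff_eq_mul, sq, mul_assoc, st, ← mul_assoc, a1, mul_assoc]
    have e2 : t ^ 3 ∈ K := by
      have := K.mul_mem (Normal.conj_mem ‹_› _ h t⁻¹) (K.inv_mem h)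
      rwa [inv_inv, mul_assoc, mul_assoc, ← mul_assoc (s ^ 2 ^ 1),
        pow_one, e1, pow_succ' t 3, inv_mul_cancel_left] at this
    exact absurd (hM5 3 (hKM e2)) (by decide)
  have hMi : M.index = 5 := by
    have e := card_mul_index (zpowers (s : G ⧸ K))
    rw [Nat.card_zpowers, hs4, ← index_eq_card, hi] at e
    rw [index_comap_of_surjective _ (QuotientGroup.mk'_surjective K)]
    omega
  have hall : ∀ y : G ⧸ M, ∃ a < 5, y = (t ^ a : G) := by
    have hb : Function.Bijective fun a : Fin 5 => ((t ^ (a : ℕ) : G) : G ⧸ M) := by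
      rw [Nat.bijective_iff_injective_and_card]
      refine ⟨fun a b h => ?_, by rw [← index_eq_card, hMi]; simp⟩
      rcases le_total (a : ℕ) b with l | l
      · obtain ⟨d, e⟩ := Nat.exists_eq_add_of_le l
        have := hne a d (e ▸ h)
        omega
      · obtain ⟨d, e⟩ := Nat.exists_eq_add_of_le l
        have := hne b d (e ▸ h.symm)
        omega
    exact fun y => (hb.2 y).elim fun a h => ⟨a, a.2, h.symm⟩
  have sm : ∀ k : ℕ, s • ((t ^ k : G) : G ⧸ M) = (t ^ (2 * k) : G) := fun k => by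
    rw [MulAction.Quotient.smul_mk, smul_eq_mul, a1, eq_comm, QuotientGroup.eq,
      inv_mul_cancel_left]
    exact hsM
  have vm : ∀ y : G ⧸ M, v • y = y := fun y => by
    obtain ⟨y, rfl⟩ := QuotientGroup.mk_surjective y
    rw [MulAction.Quotient.smul_mk, smul_eq_mul, eq_comm, QuotientGroup.eq]
    have := hKM (Normal.conj_mem ‹_› _ hv y⁻¹)
    rwa [inv_inv, mul_assoc] at this
  have tp : ∀ k : ℕ, t ^ k = t ^ (k % 5) := fun k => by rw [← t5, pow_mod_orderOf]
  let X := G ⧸ (⊤ : Subgroup G)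
  have hX : Subsingleton X := QuotientGroup.subsingleton_quotient_top
  refine perm_van (X := X) (Y := G ⧸ M) ?_ ?_
  · have o1 : nOrb G (X × X) = 1 := Nat.card_unique
    have o2 : nOrb G (X × (G ⧸ M)) = 1 := by
      refine Nat.card_eq_one_iff_unique.2 ⟨⟨fun a b => ?_⟩, inferInstance⟩
      obtain ⟨⟨a1, a2⟩, rfl⟩ := Quotient.exists_rep a
      obtain ⟨⟨b1, b2⟩, rfl⟩ := Quotient.exists_rep b
      obtain ⟨g, rfl⟩ := MulAction.exists_smul_eq G b2 a2
      exact Quotient.sound ⟨g, Prod.ext (Subsingleton.elim _ _) rfl⟩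
    have o3 : nOrb G ((G ⧸ M) × (G ⧸ M)) = 2 := by
      refine Nat.card_eq_two_iff.2 ⟨Quotient.mk _ ((t ^ 0 : G), (t ^ 0 : G)),
        Quotient.mk _ ((t ^ 0 : G), (t ^ 1 : G)), fun h => ?_, Set.eq_univ_of_forall fun a => ?_⟩
      · obtain ⟨g, hg⟩ := Quotient.exact h
        have e := (Prod.ext_iff.1 hg).1.trans (Prod.ext_iff.1 hg).2.symm
        exact absurd (hne 0 1 (MulAction.injective g e)) (by decide)
      · obtain ⟨⟨a1, a2⟩, rfl⟩ := Quotient.exists_rep a
        obtain ⟨g, rfl⟩ := MulAction.exists_smul_eq G ((t ^ 0 : G) : G ⧸ M) a1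
        obtain ⟨k, hk, e⟩ := hall (g⁻¹ • a2)
        rw [inv_smul_eq_iff] at e
        have rr : ∀ (g : G) (p q : (G ⧸ M) × (G ⧸ M)), g • p = q →
            Quotient.mk (MulAction.orbitRel G _) q = Quotient.mk (MulAction.orbitRel G _) p :=
          fun g p q h => Quotient.sound ⟨g, h⟩
        have r := fun j : ℕ => rr s ((t ^ 0 : G), (t ^ j : G)) ((t ^ 0 : G), (t ^ (2 * j % 5) : G))
          (Prod.ext (sm 0) ((sm j).trans (congrArg _ (tp _))))
        have r0 := rr g ((t ^ 0 : G), (t ^ k : G)) (g • ((t ^ 0 : G) : G ⧸ M), a2)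
          (Prod.ext rfl e.symm)
        rw [r0]
        interval_cases k
        · exact Or.inl rfl
        · exact Or.inr rfl
        · exact Or.inr (r 1)
        · exact Or.inr ((r 4).trans ((r 2).trans (r 1)))
        · exact Or.inr ((r 2).trans (r 1))
    rw [o1, o2, o3]
  · have f1 : nFix X (v * s) = 1 :=
      Nat.card_eq_one_iff_unique.2 ⟨inferInstance, ⟨⟨(1 : G), Subsingleton.elim _ _⟩⟩⟩
    rw [f1, eq_comm]
    refine Nat.card_eq_one_iff_exists.2 ⟨⟨(t ^ 0 : G), ?_⟩, fun y => Subtype.ext ?_⟩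
    · exact (mul_smul _ _ _).trans ((vm _).trans (sm 0))
    · obtain ⟨y, hy⟩ := y
      obtain ⟨k, hk, rfl⟩ := hall y
      have e : ((t ^ k : G) : G ⧸ M) = (t ^ (k + k) : G) := by
        rw [← two_mul, ← sm, ← vm (s • _), ← mul_smul]
        exact hy.symm
      obtain rfl : k = 0 := by have := hne k k e; omega
      rfl

theorem xu_mod (Q : Subgroup G) (x : normalizer (Q : Set G)) (hx : orderOf x = 5)
    (h : ∀ y ∈ Q, x * y = y * x → y = 1) : Nat.card Q ≡ 1 [MOD 5] := by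
  have := Fact.mk Nat.prime_five
  have h3 : IsPGroup 5 (zpowers x) := IsPGroup.of_card (n := 1) (by
    rw [Nat.card_zpowers, hx, pow_one])
  have h4 : MulAction.fixedPoints (zpowers x) Q = {1} := by
    refine Set.eq_singleton_iff_unique_mem.2 ⟨fun g => smul_one g, fun y hy => ?_⟩
    have h5 : (x : G) * y * (x : G)⁻¹ = y := congrArg Subtype.val (hy ⟨x, mem_zpowers x⟩)
    exact Subtype.ext (h y y.2 (mul_inv_eq_iff_eq_mul.1 h5))
  have h6 := h3.card_modEq_card_fixedPoints Q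
  rwa [h4, Nat.card_unique (α := ({1} : Set Q))] at h6

theorem xu_aut {k : ℕ} (hc : Nat.card G = k * 20) (hk : k ≡ 1 [MOD 5])
    (fr : ∀ t x : G, orderOf t = 5 → t * x = x * t → x ^ 5 = 1) :
    ∃ s t : G, orderOf t = 5 ∧ s * t = t ^ 2 * s ∧ s ^ 4 = 1 := by
  classical
  have := Fact.mk Nat.prime_five
  have h25 : ∀ C : Subgroup G, IsPGroup 5 C → Nat.card C ∣ 5 := fun C hC => by
    obtain ⟨n, hn⟩ := IsPGroup.iff_card.1 hC
    have e2 : 5 ^ n ∣ k * 20 := hn ▸ hc ▸ card_subgroup_dvd_card C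
    rcases n with _ | _ | n
    · simp [hn]
    · simp [hn]
    · have := (pow_dvd_pow 5 (by omega : 2 ≤ n + 1 + 1)).trans e2
      unfold Nat.ModEq at hk
      omega
  obtain ⟨Q⟩ : Nonempty (Sylow 5 G) := inferInstance
  have e1 : 5 ∣ Nat.card Q := Q.dvd_card_of_dvd_card (hc ▸ Dvd.dvd.mul_left (by decide) _)
  obtain ⟨t, htQ, ht⟩ := exists_socle_elt Nat.prime_five e1
  have hQ : zpowers t = Q := eq_of_le_of_card_ge (zpowers_le.2 htQ)
    (by rw [Nat.card_zpowers, ht]; exact Nat.le_of_dvd (by decide) (h25 _ Q.isPGroup'))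
  have t5 : t ^ 5 = 1 := ht ▸ pow_orderOf_eq_one t
  suffices h : ∃ s : G, s * t = t ^ 2 * s by
    obtain ⟨s, h⟩ := h
    have a1 : ∀ k : ℕ, s * t ^ k = t ^ (2 * k) * s := fun k => by
      induction k with
      | zero => simp
      | succ k ih => rw [pow_succ, ← mul_assoc, ih, mul_assoc, h, ← mul_assoc, ← pow_add, mul_add]
    have a2 : ∀ j : ℕ, s ^ j * t = t ^ (2 ^ j) * s ^ j := fun j => by
      induction j with
      | zero => simp
      | succ j ih => rw [pow_succ', mul_assoc, ih, ← mul_assoc, a1, mul_assoc, pow_succ' 2]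
    refine ⟨s ^ 5, t, ht, (a2 5).trans (by rw [pow_eq_pow_mod _ t5]; rfl), ?_⟩
    rw [← pow_mul, mul_comm, pow_mul]
    refine fr t _ ht ((a2 4).trans ?_).symm
    rw [pow_eq_pow_mod _ t5]
    simp
  by_contra hn
  let N : Subgroup G := normalizer ((Q : Subgroup G) : Set G)
  let C : Subgroup G := centralizer {t}
  have hC : ∀ x : G, x ∈ C ↔ x * t * x⁻¹ = t := fun x => by
    rw [mem_centralizer_singleton_iff, mul_inv_eq_iff_eq_mul]
  have two : ∀ x ∈ N, x * t * x⁻¹ = t ∨ x * t * x⁻¹ = t⁻¹ := fun x hx => by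
    have e := (mem_normalizer_iff.1 hx t).1 htQ
    rw [← hQ, mem_zpowers_iff_mem_range_orderOf, ht, Finset.mem_image] at e
    obtain ⟨j, hj, e⟩ := e
    rw [Finset.mem_range] at hj
    interval_cases j
    · rw [pow_zero, eq_comm, conj_eq_one_iff] at e
      simp [e] at ht
    · exact .inl (by rw [← e, pow_one])
    · exact absurd ⟨x, mul_inv_eq_iff_eq_mul.1 e.symm⟩ hn
    · refine absurd ⟨x⁻¹, ?_⟩ hn
      have e2 : x * t ^ 2 * x⁻¹ = t := by
        rw [← conj_pow, ← e, ← pow_mul, pow_eq_pow_mod _ t5]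
        simp
      conv_lhs => rw [← e2]
      group
    · exact .inr (by rw [← e, eq_inv_iff_mul_eq_one, ← pow_succ, t5])
  have i2 : (C.subgroupOf N).index ∣ 2 := by
    rw [index_dvd_two_iff]
    by_cases h : ∃ a : N, a * t * (a : G)⁻¹ = t⁻¹
    · obtain ⟨a, ha⟩ := h
      refine ⟨a, fun b => (two b b.2).symm.imp (fun hb => (hC _).2 ?_) (hC _).2⟩
      have : ((b * a : N) : G) * t * ((b * a : N) : G)⁻¹ = ((b : G) * t * (b : G)⁻¹)⁻¹ := by
        rw [coe_mul, mul_inv_rev, mul_assoc (b : G), mul_assoc (b : G), ← mul_assoc (a * t), ha]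
        group
      exact this.trans (by rw [hb, inv_inv])
    · exact ⟨1, fun b => .inr ((hC _).2 ((two b b.2).resolve_right fun e => h ⟨b, e⟩))⟩
  have c5 : Nat.card (C.subgroupOf N) ∣ 5 := by
    rw [← card_map_of_injective N.subtype_injective]
    refine h25 _ fun x => ⟨1, Subtype.ext ?_⟩
    obtain ⟨x, y, hy, rfl⟩ := x
    exact fr t _ ht (mem_centralizer_singleton_iff.1 hy).symm
  have n1 := card_sylow_modEq_one 5 G
  rw [Q.card_eq_index_normalizer] at n1
  have n2 := card_mul_index N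
  have n3 := card_mul_index (C.subgroupOf N)
  have n4 : 5 ∣ Nat.card N := e1.trans (card_dvd_of_le le_normalizer)
  change N.index % 5 = 1 at n1
  unfold Nat.ModEq at hk
  rw [← n3] at n2 n4
  rcases (Nat.dvd_prime Nat.prime_two).1 i2 with e | e <;>
    rcases (Nat.dvd_prime Nat.prime_five).1 c5 with e' | e' <;> rw [e, e'] at n2 n4 <;> omega

/-- Frattini argument, then the normaliser of a Sylow `5`-subgroup. -/
theorem xu_sol (hc : Nat.card G = 25920) (n10 : ¬ Adj G 2 5) (n15 : ¬ Adj G 3 5)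
    (K : Subgroup G) [K.Normal] (hK : Nat.card K = 1296) : 8 ∈ Vo G := by
  have := Fact.mk Nat.prime_two
  have hi : K.index = 20 := by
    have e := card_mul_index K
    rw [hK, hc] at e
    omega
  have fr : ∀ t x : G, orderOf t = 5 → t * x = x * t → x ^ 5 = 1 := fun t x ht h => by
    have d : orderOf x ∣ 2 ^ 6 * 3 ^ 4 * 5 :=
      (orderOf_dvd_natCard x).trans (hc.trans (by norm_num)).dvd
    have c2 : (orderOf x).Coprime 2 := ((Nat.Prime.coprime_iff_not_dvd Nat.prime_two).2 fun e =>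
      n10 (adj_of_commute Nat.prime_two Nat.prime_five (by decide) e ht.symm.dvd h.symm)).symm
    have c3 : (orderOf x).Coprime 3 := ((Nat.Prime.coprime_iff_not_dvd Nat.prime_three).2 fun e =>
      n15 (adj_of_commute Nat.prime_three Nat.prime_five (by decide) e ht.symm.dvd h.symm)).symm
    exact orderOf_dvd_iff_pow_eq_one.1
      (((c2.pow_right 6).mul_right (c3.pow_right 4)).dvd_of_dvd_mul_left d)
  have frK : ∀ t x : G, orderOf t = 5 → x ∈ K → t * x = x * t → x = 1 := fun t x ht hx h => by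
    have d1 := K.orderOf_dvd_natCard hx
    have d2 := orderOf_dvd_of_pow_eq_one (fr t x ht h)
    rw [hK] at d1
    exact orderOf_eq_one_iff.1 (Nat.eq_one_of_dvd_coprimes (by decide) d1 d2)
  obtain ⟨P⟩ : Nonempty (Sylow 2 K) := inferInstance
  let V : Subgroup G := (P : Subgroup K).map K.subtype
  have hVK : V ≤ K := map_subtype_le _
  let N : Subgroup G := normalizer (V : Set G)
  have hN : N ⊔ K = ⊤ := Sylow.normalizer_sup_eq_top P
  have hr : K.relIndex N = 20 := by rw [← hi, ← relIndex_top_right, ← hN, relIndex_sup_right]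
  have cN : Nat.card N = Nat.card (K.subgroupOf N) * 20 := by
    rw [← hr, relIndex, card_mul_index]
  obtain ⟨t0, ht0⟩ := exists_prime_orderOf_dvd_card' (G := N) 5 (hp := ⟨Nat.prime_five⟩)
    (cN ▸ Dvd.dvd.mul_left (by decide) _)
  have m1 : Nat.card (K.subgroupOf N) ≡ 1 [MOD 5] :=
    xu_mod (K.subgroupOf N) ⟨t0, by rw [normalizer_eq_top]; trivial⟩
      ((orderOf_coe _).symm.trans ht0) fun y hy h =>
        Subtype.ext (frK t0 y ((orderOf_coe t0).trans ht0) hy (congrArg Subtype.val h))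
  obtain ⟨s, t, ht, st, s4⟩ := xu_aut cN m1 fun t x ht h =>
    Subtype.ext (fr t x ((orderOf_coe t).trans ht) (congrArg Subtype.val h))
  have ht' : orderOf (t : G) = 5 := (orderOf_coe t).trans ht
  have st' : (s : G) * t = (t : G) ^ 2 * s := congrArg Subtype.val st
  have s4' : (s : G) ^ 4 = 1 := congrArg Subtype.val s4
  let W : Subgroup G :=
    { carrier := {x | x ∈ V ∧ (∀ y ∈ V, x * y = y * x) ∧ x * x = 1}
      one_mem' := ⟨V.one_mem, by simp, by simp⟩
      mul_mem' := fun {a b} ha hb => ⟨V.mul_mem ha.1 hb.1, fun y hy => by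
        rw [mul_assoc, hb.2.1 y hy, ← mul_assoc, ha.2.1 y hy, mul_assoc], by
        rw [mul_assoc, ← mul_assoc b, hb.2.1 a ha.1, mul_assoc, hb.2.2, mul_one, ha.2.2]⟩
      inv_mem' := fun {a} ha => by rwa [inv_eq_of_mul_eq_one_right ha.2.2] }
  have hWN : ∀ g : N, ∀ x ∈ W, g * x * (g : G)⁻¹ ∈ W := fun g x hx => by
    refine ⟨(mem_normalizer_iff.1 g.2 x).1 hx.1, fun y hy => ?_, by
      rw [conj_mul, hx.2.2]; simp⟩
    have := hx.2.1 _ ((mem_normalizer_iff''.1 g.2 y).1 hy)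
    calc _ = g * (x * ((g : G)⁻¹ * y * g)) * (g : G)⁻¹ := by group
      _ = _ := by rw [this]; group
  have hW : W ≠ ⊥ := by
    have pV : IsPGroup 2 V := P.isPGroup'.map _
    have cV : 2 ∣ Nat.card V := by
      rw [card_map_of_injective K.subtype_injective]
      exact P.dvd_card_of_dvd_card (hK ▸ by decide)
    have : Nontrivial V := Finite.one_lt_card_iff_nontrivial.1
      (Nat.le_of_dvd Nat.card_pos cV)
    have := pV.center_nontrivial
    obtain ⟨n, hn, e⟩ := (pV.to_subgroup (center V)).nontrivial_iff_card.1 this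
    obtain ⟨z, hz, oz⟩ := exists_socle_elt (M := center V) Nat.prime_two
      (e ▸ dvd_pow_self 2 hn.ne')
    intro hb
    have : (z : G) ∈ W := ⟨z.2, fun y hy =>
      congrArg Subtype.val (mem_center_iff.1 hz ⟨y, hy⟩).symm, by
        rw [← sq, ← oz, ← coe_pow, pow_orderOf_eq_one, coe_one]⟩
    rw [hb, mem_bot, OneMemClass.coe_eq_one] at this
    simp [this] at oz
  obtain ⟨v, hv, ov⟩ := xu_norm W hW (fun x hx y hy => hx.2.1 y hy.1) (fun x hx => hx.2.2)
    (hWN s) (hWN t) (ht' ▸ pow_orderOf_eq_one _) st'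
    (fun x hx h => frK t x ht' (hVK hx.1) (mul_inv_eq_iff_eq_mul.1 h)) s4'
  exact ov ▸ xu_van K hi ht' (hK ▸ by decide) st' s4' (hVK hv.1)

/-- `U₄(2)` has no element of order `8`. -/
theorem xu_su {S : Type} [Group S] (h : IsSU S 4 2) (g : S) : orderOf g ≠ 8 := by
  obtain ⟨F, _, _, _, hq, -, ⟨e⟩⟩ := h
  intro hg
  obtain ⟨A, hA⟩ := QuotientGroup.mk_surjective (e g)
  have := Fact.mk Nat.prime_two
  have : CharP F 2 := by
    have := Fintype.ofFinite F
    have e := FiniteField.cast_card_eq_zero F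
    rw [← Nat.card_eq_fintype_card, hq, Nat.cast_pow] at e
    exact (CharP.charP_iff_prime_eq_zero Nat.prime_two).2 (pow_eq_zero_iff two_ne_zero |>.1 e)
  obtain ⟨a, m, hm, ho⟩ := Nat.exists_eq_two_pow_mul_odd (orderOf_pos A).ne'
  have h1 : (A ^ m) ^ 2 ^ a = 1 := by rw [← pow_mul, mul_comm, ← ho, pow_orderOf_eq_one]
  generalize hB : A ^ m = B at h1
  have h2 : IsNilpotent (B.1 - 1) := ⟨2 ^ a, by
    rw [sub_pow_char_pow_of_commute _ _ (Commute.one_right _), one_pow, sub_eq_zero]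
    exact congrArg Subtype.val h1⟩
  have h3 := (Matrix.isNilpotent_charpoly_sub_pow_of_isNilpotent h2).eq_zero
  have h4 := Matrix.aeval_self_charpoly (B.1 - 1)
  rw [sub_eq_zero.1 h3, map_pow, Polynomial.aeval_X, Fintype.card_fin] at h4
  have h4' : (B.1 - 1) ^ 2 ^ 2 = 0 := h4
  rw [sub_pow_char_pow_of_commute _ _ (Commute.one_right _), one_pow, sub_eq_zero] at h4'
  have h5 : (e g) ^ (m * 4) = 1 := by
    rw [← hA, ← QuotientGroup.mk_pow, pow_mul, hB]
    exact congrArg _ (Subtype.ext h4')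
  have h6 := orderOf_dvd_of_pow_eq_one h5
  rw [e.orderOf_eq, hg] at h6
  obtain ⟨r, rfl⟩ := hm
  omega

end Pool.Agent.Lib.MP_7d41f7_al
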